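import Mathlib

/-!
# Sublinear separators: weights

A host graph `H` (for instance a lattice) has separators of size `K s ^ α` if every finite set of `s`
nodes is divided by at most `K s ^ α` of its elements into two parts with at most `θ s` nodes,
`θ < 1`.  Then the same is true for every weight function instead of the number of nodes, with
another constant.
-/

set_option autoImplicit false

namespace Pool.Agent.U286.LY

open Finset

variable {X : Type*}

/-- The set `U` of nodes is divided into the separator `S` and the parts `A`, `B`, which are not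
joined by an edge. -/
structure Part (H : SimpleGraph X) (U S A B : Finset X) : Prop where
  cov : ∀ v ∈ U, v ∈ S ∨ v ∈ A ∨ v ∈ B
  subS : S ⊆ U
  subA : A ⊆ U
  subB : B ⊆ U
  disSA : Disjoint S A
  disSB : Disjoint S B
  disAB : Disjoint A B
  sep : ∀ a ∈ A, ∀ b ∈ B, ¬ H.Adj a b

/-- Every finite set of `s` nodes of `H` is divided by at most `K s ^ α` of its elements into two
parts, not joined by an edge, with at most `θ s` nodes each. -/
def HasSep (H : SimpleGraph X) (K α θ : ℝ) : Prop :=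
  ∀ U : Finset X, ∃ S A B : Finset X, Part H U S A B ∧
    (S.card : ℝ) ≤ K * (U.card : ℝ) ^ α ∧ (A.card : ℝ) ≤ θ * U.card ∧ (B.card : ℝ) ≤ θ * U.card

/-- The same for all weight functions. -/
def HasWSep (H : SimpleGraph X) (K α : ℝ) : Prop :=
  ∀ (x : X → ℝ), (∀ v, 0 ≤ x v) → ∀ U : Finset X, ∃ S A B : Finset X, Part H U S A B ∧
    (S.card : ℝ) ≤ K * (U.card : ℝ) ^ α ∧ ∑ v ∈ A, x v ≤ 2 / 3 * ∑ v ∈ U, x v ∧
    ∑ v ∈ B, x v ≤ 2 / 3 * ∑ v ∈ U, x v

variable {H : SimpleGraph X}

theorem Part.swap {U S A B : Finset X} (h : Part H U S A B) : Part H U S B A :=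
  ⟨fun v hv => by rcases h.cov v hv with h1 | h1 | h1 <;> simp [h1], h.subS, h.subB, h.subA,
    h.disSB, h.disSA, h.disAB.symm, fun a ha b hb hab => h.sep b hb a ha hab.symm⟩

theorem Part.sum_le {U S A B : Finset X} (h : Part H U S A B) (x : X → ℝ) (hx : ∀ v, 0 ≤ x v) :
    ∑ v ∈ A, x v + ∑ v ∈ B, x v ≤ ∑ v ∈ U, x v := by
  classical
  rw [← sum_union h.disAB]
  exact sum_le_sum_of_subset_of_nonneg (union_subset h.subA h.subB) fun v _ _ => hx v

theorem HasSep.weighted {K α θ : ℝ} (h : HasSep H K α θ) (hK : 0 ≤ K) (hα : 0 < α)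
    (hθ0 : 0 ≤ θ) (hθ : θ < 1) : HasWSep H (K / (1 - θ ^ α)) α := by
  classical
  intro x hx U
  obtain ⟨X0, hX0⟩ : ∃ X0, X0 = ∑ v ∈ U, x v := ⟨_, rfl⟩
  rw [← hX0]
  obtain ⟨K1, hK1⟩ : ∃ K1, K1 = K / (1 - θ ^ α) := ⟨_, rfl⟩
  rw [← hK1]
  have hθα : θ ^ α < 1 := Real.rpow_lt_one hθ0 hθ hα
  have hθα0 : 0 ≤ θ ^ α := Real.rpow_nonneg hθ0 _
  have hK10 : 0 ≤ K1 := by rw [hK1]; exact div_nonneg hK (by linarith)
  have hKK : K + K1 * θ ^ α = K1 := by
    rw [hK1]
    have : 1 - θ ^ α ≠ 0 := by linarith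
    field_simp
    ring
  have hX00 : 0 ≤ X0 := by rw [hX0]; exact sum_nonneg fun v _ => hx v
  rcases hX00.eq_or_lt with h0 | hpos
  · refine ⟨∅, U, ∅, ⟨fun v hv => Or.inr (Or.inl hv), empty_subset _, subset_refl _,
      empty_subset _, disjoint_empty_left _, disjoint_empty_left _, disjoint_empty_right _, ?_⟩,
      ?_, ?_, ?_⟩
    · intro a _ b hb
      exact absurd hb (notMem_empty _)
    · rw [card_empty, Nat.cast_zero]
      exact mul_nonneg hK10 (Real.rpow_nonneg (Nat.cast_nonneg _) _)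
    · rw [← hX0, ← h0]; norm_num
    · rw [sum_empty, ← h0]; norm_num
  have key : ∀ n : ℕ, ∀ W : Finset X, W.card = n → 2 / 3 * X0 < ∑ v ∈ W, x v →
      ∑ v ∈ W, x v ≤ X0 →
      ∃ S A B : Finset X, Part H W S A B ∧ (S.card : ℝ) ≤ K1 * (W.card : ℝ) ^ α ∧
        ∑ v ∈ A, x v ≤ 2 / 3 * X0 ∧ ∑ v ∈ B, x v + (X0 - ∑ v ∈ W, x v) ≤ 2 / 3 * X0 := by
    intro n
    induction n using Nat.strong_induction_on with
    | _ n ih =>
    intro W hWn hW hWX
    obtain ⟨S, A, B, hP, hS, hA, hB, hAB⟩ : ∃ S A B : Finset X, Part H W S A B ∧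
        (S.card : ℝ) ≤ K * (W.card : ℝ) ^ α ∧ (A.card : ℝ) ≤ θ * W.card ∧
        (B.card : ℝ) ≤ θ * W.card ∧ ∑ v ∈ B, x v ≤ ∑ v ∈ A, x v := by
      obtain ⟨S, A, B, hP, hS, hA, hB⟩ := h W
      rcases le_total (∑ v ∈ B, x v) (∑ v ∈ A, x v) with h1 | h1
      · exact ⟨S, A, B, hP, hS, hA, hB, h1⟩
      · exact ⟨S, B, A, hP.swap, hS, hB, hA, h1⟩
    have hsum := hP.sum_le x hx
    have hWpos : 0 < W.card := by
      rw [card_pos]
      by_contra h1
      rw [not_nonempty_iff_eq_empty] at h1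
      rw [h1, sum_empty] at hW
      linarith
    by_cases hA2 : ∑ v ∈ A, x v ≤ 2 / 3 * X0
    · refine ⟨S, A, B, hP, hS.trans ?_, hA2, ?_⟩
      · apply mul_le_mul_of_nonneg_right _ (Real.rpow_nonneg (Nat.cast_nonneg _) _)
        nlinarith [mul_nonneg hK10 hθα0]
      · rcases le_total (X0 / 3) (∑ v ∈ A, x v) with h1 | h1
        · linarith
        · linarith
    · push Not at hA2
      have hlt : A.card < n := by
        have h1 : (A.card : ℝ) < W.card := by
          have : (0 : ℝ) < W.card := by exact_mod_cast hWpos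
          nlinarith
        rw [← hWn]
        exact_mod_cast h1
      have hAW : ∑ v ∈ A, x v ≤ ∑ v ∈ W, x v :=
        sum_le_sum_of_subset_of_nonneg hP.subA fun v _ _ => hx v
      obtain ⟨S', A', B', hP', hS', hA', hB'⟩ := ih A.card hlt A rfl hA2 (hAW.trans hWX)
      have hdAS : ∀ v ∈ A, v ∉ S := fun v hv hv' => disjoint_left.1 hP.disSA hv' hv
      have hdAB : ∀ v ∈ A, v ∉ B := fun v hv hv' => disjoint_left.1 hP.disAB hv hv'
      have hdSB : ∀ v ∈ S, v ∉ B := fun v hv hv' => disjoint_left.1 hP.disSB hv hv'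
      refine ⟨S ∪ S', A', B' ∪ B, ⟨?_, ?_, ?_, ?_, ?_, ?_, ?_, ?_⟩, ?_, hA', ?_⟩
      · intro v hv
        rcases hP.cov v hv with h1 | h1 | h1
        · exact Or.inl (mem_union_left _ h1)
        · rcases hP'.cov v h1 with h2 | h2 | h2
          · exact Or.inl (mem_union_right _ h2)
          · exact Or.inr (Or.inl h2)
          · exact Or.inr (Or.inr (mem_union_left _ h2))
        · exact Or.inr (Or.inr (mem_union_right _ h1))
      · exact union_subset hP.subS (hP'.subS.trans hP.subA)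
      · exact hP'.subA.trans hP.subA
      · exact union_subset (hP'.subB.trans hP.subA) hP.subB
      · rw [disjoint_left]
        intro v hv hv'
        rcases mem_union.1 hv with h1 | h1
        · exact hdAS v (hP'.subA hv') h1
        · exact disjoint_left.1 hP'.disSA h1 hv'
      · rw [disjoint_left]
        intro v hv hv'
        rcases mem_union.1 hv with h1 | h1 <;> rcases mem_union.1 hv' with h2 | h2
        · exact hdAS v (hP'.subB h2) h1
        · exact hdSB v h1 h2
        · exact disjoint_left.1 hP'.disSB h1 h2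
        · exact hdAB v (hP'.subS h1) h2
      · rw [disjoint_left]
        intro v hv hv'
        rcases mem_union.1 hv' with h2 | h2
        · exact disjoint_left.1 hP'.disAB hv h2
        · exact hdAB v (hP'.subA hv) h2
      · intro a ha b hb
        rcases mem_union.1 hb with h2 | h2
        · exact hP'.sep a ha b h2
        · exact hP.sep a (hP'.subA ha) b h2
      · have h1 : ((S ∪ S').card : ℝ) ≤ S.card + S'.card := by
          exact_mod_cast card_union_le S S'
        have h2 : (A.card : ℝ) ^ α ≤ θ ^ α * (W.card : ℝ) ^ α := by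
          rw [← Real.mul_rpow hθ0 (Nat.cast_nonneg _)]
          exact Real.rpow_le_rpow (Nat.cast_nonneg _) hA hα.le
        calc ((S ∪ S').card : ℝ) ≤ S.card + S'.card := h1
          _ ≤ K * (W.card : ℝ) ^ α + K1 * (θ ^ α * (W.card : ℝ) ^ α) :=
              add_le_add hS (hS'.trans (mul_le_mul_of_nonneg_left h2 hK10))
          _ = (K + K1 * θ ^ α) * (W.card : ℝ) ^ α := by ring
          _ = _ := by rw [hKK]
      · rw [sum_union]
        · linarith
        · rw [disjoint_left]
          intro v hv hv'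
          exact hdAB v (hP'.subB hv) hv'
  obtain ⟨S, A, B, hP, hS, hA, hB⟩ := key U.card U rfl (by rw [← hX0]; linarith) (by rw [← hX0])
  refine ⟨S, A, B, hP, hS, hA, ?_⟩
  rw [← hX0] at hB
  linarith

end Pool.Agent.U286.LY
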