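import Mathlib
import Pool.Agent.U286.LY.Sep

/-!
# Separators in lattices

The graph of the `D`-dimensional lattice, in which two points are adjacent if they are different and
their coordinates differ by at most `1`: every set of `n` points is divided by at most
`3 n ^ (1 - 1 / D)` points, which are in a common hyperplane, into parts with at most
`(1 - 1 / (3 D)) n` points.
-/

set_option autoImplicit false

namespace Pool.Agent.U286.LY

open Finset

/-- The `D`-dimensional lattice: two different points are adjacent if their coordinates differ by at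
most `1`. -/
def lattice (D : ℕ) : SimpleGraph (Fin D → ℤ) where
  Adj x y := x ≠ y ∧ ∀ i, |x i - y i| ≤ 1
  symm := ⟨fun x y h => ⟨h.1.symm, fun i => by rw [abs_sub_comm]; exact h.2 i⟩⟩
  loopless := ⟨fun x h => h.1 rfl⟩

variable {D : ℕ}

/-- the part of `U` before the hyperplane `x i = t` -/
def lo (U : Finset (Fin D → ℤ)) (i : Fin D) (t : ℤ) : Finset (Fin D → ℤ) :=
  U.filter fun x => x i < t

/-- the part of `U` behind the hyperplane `x i = t` -/
def hi (U : Finset (Fin D → ℤ)) (i : Fin D) (t : ℤ) : Finset (Fin D → ℤ) :=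
  U.filter fun x => t < x i

/-- the part of `U` in the hyperplane `x i = t` -/
def mid (U : Finset (Fin D → ℤ)) (i : Fin D) (t : ℤ) : Finset (Fin D → ℤ) :=
  U.filter fun x => x i = t

lemma part_hyperplane (U : Finset (Fin D → ℤ)) (i : Fin D) (t : ℤ) :
    Part (lattice D) U (mid U i t) (lo U i t) (hi U i t) := by
  refine ⟨?_, filter_subset _ _, filter_subset _ _, filter_subset _ _, ?_, ?_, ?_, ?_⟩
  · intro v hv
    rcases lt_trichotomy (v i) t with h | h | h
    · exact Or.inr (Or.inl (mem_filter.2 ⟨hv, h⟩))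
    · exact Or.inl (mem_filter.2 ⟨hv, h⟩)
    · exact Or.inr (Or.inr (mem_filter.2 ⟨hv, h⟩))
  · rw [disjoint_left]
    intro v hv hv'
    have h1 := (mem_filter.1 hv).2
    have h2 := (mem_filter.1 hv').2
    omega
  · rw [disjoint_left]
    intro v hv hv'
    have h1 := (mem_filter.1 hv).2
    have h2 := (mem_filter.1 hv').2
    omega
  · rw [disjoint_left]
    intro v hv hv'
    have h1 := (mem_filter.1 hv).2
    have h2 := (mem_filter.1 hv').2
    omega
  · intro a ha b hb hab
    have h1 := (mem_filter.1 ha).2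
    have h2 := (mem_filter.1 hb).2
    have h3 := abs_le.1 (hab.2 i)
    omega

/-- few points have more than `θ n` points before them -/
lemma card_bad_lo (U : Finset (Fin D → ℤ)) (i : Fin D) (θ : ℝ) (hp : 0 < (1 - θ) * U.card) :
    ((U.filter fun x => θ * U.card < ((lo U i (x i)).card : ℝ)).card : ℝ) <
      (1 - θ) * U.card := by
  classical
  obtain ⟨W, hW⟩ : ∃ W, W = U.filter fun x => θ * U.card < ((lo U i (x i)).card : ℝ) := ⟨_, rfl⟩
  rw [← hW]
  rcases W.eq_empty_or_nonempty with h0 | hne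
  · rw [h0, card_empty, Nat.cast_zero]; exact hp
  obtain ⟨x, hx, hmin⟩ := exists_min_image W (fun x => x i) hne
  have hx' := hx
  rw [hW, mem_filter] at hx'
  have h1 : W ⊆ U \ lo U i (x i) := by
    intro y hy
    have hy' := hy
    rw [hW, mem_filter] at hy'
    rw [mem_sdiff]
    refine ⟨hy'.1, fun h => ?_⟩
    have h2 := (mem_filter.1 h).2
    have h3 := hmin y hy
    omega
  have h2 := card_le_card h1
  rw [card_sdiff_of_subset (show lo U i (x i) ⊆ U from filter_subset _ _)] at h2
  have h3 : (lo U i (x i)).card ≤ U.card := card_le_card (filter_subset _ _)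
  have h4 : (W.card : ℝ) ≤ U.card - (lo U i (x i)).card := by
    rw [← Nat.cast_sub h3]
    exact_mod_cast h2
  linarith [hx'.2]

/-- few points have more than `θ n` points behind them -/
lemma card_bad_hi (U : Finset (Fin D → ℤ)) (i : Fin D) (θ : ℝ) (hp : 0 < (1 - θ) * U.card) :
    ((U.filter fun x => θ * U.card < ((hi U i (x i)).card : ℝ)).card : ℝ) <
      (1 - θ) * U.card := by
  classical
  obtain ⟨W, hW⟩ : ∃ W, W = U.filter fun x => θ * U.card < ((hi U i (x i)).card : ℝ) := ⟨_, rfl⟩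
  rw [← hW]
  rcases W.eq_empty_or_nonempty with h0 | hne
  · rw [h0, card_empty, Nat.cast_zero]; exact hp
  obtain ⟨x, hx, hmax⟩ := exists_max_image W (fun x => x i) hne
  have hx' := hx
  rw [hW, mem_filter] at hx'
  have h1 : W ⊆ U \ hi U i (x i) := by
    intro y hy
    have hy' := hy
    rw [hW, mem_filter] at hy'
    rw [mem_sdiff]
    refine ⟨hy'.1, fun h => ?_⟩
    have h2 := (mem_filter.1 h).2
    have h3 := hmax y hy
    omega
  have h2 := card_le_card h1
  rw [card_sdiff_of_subset (show hi U i (x i) ⊆ U from filter_subset _ _)] at h2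
  have h3 : (hi U i (x i)).card ≤ U.card := card_le_card (filter_subset _ _)
  have h4 : (W.card : ℝ) ≤ U.card - (hi U i (x i)).card := by
    rw [← Nat.cast_sub h3]
    exact_mod_cast h2
  linarith [hx'.2]

/-- **Separators in lattices.** -/
theorem hasSep_lattice {D : ℕ} (hD : 1 ≤ D) :
    HasSep (lattice D) 3 (1 - 1 / D) (1 - 1 / (3 * D)) := by
  classical
  intro U
  obtain ⟨n, hn⟩ : ∃ n : ℝ, n = U.card := ⟨_, rfl⟩
  obtain ⟨θ, hθ⟩ : ∃ θ : ℝ, θ = 1 - 1 / (3 * D) := ⟨_, rfl⟩
  rw [← hθ, ← hn]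
  have hD0 : (0 : ℝ) < D := by exact_mod_cast hD
  have hD1 : (1 : ℝ) ≤ D := by exact_mod_cast hD
  have hθ0 : 0 ≤ θ := by
    rw [hθ]
    have : 1 / (3 * (D : ℝ)) ≤ 1 := by
      rw [div_le_one (by positivity)]; linarith
    linarith
  rcases U.eq_empty_or_nonempty with h0 | hne
  · refine ⟨∅, ∅, ∅, ⟨?_, ?_, ?_, ?_, ?_, ?_, ?_, ?_⟩, ?_, ?_, ?_⟩
    · intro v hv; rw [h0] at hv; exact absurd hv (notMem_empty _)
    · exact empty_subset _
    · exact empty_subset _
    · exact empty_subset _
    · exact disjoint_empty_left _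
    · exact disjoint_empty_left _
    · exact disjoint_empty_left _
    · intro a ha; exact absurd ha (notMem_empty _)
    · rw [card_empty, Nat.cast_zero]
      have : 0 ≤ n := by rw [hn]; positivity
      positivity
    · rw [card_empty, Nat.cast_zero]
      have : 0 ≤ n := by rw [hn]; positivity
      positivity
    · rw [card_empty, Nat.cast_zero]
      have : 0 ≤ n := by rw [hn]; positivity
      positivity
  have hn0 : 0 < n := by rw [hn]; exact_mod_cast card_pos.2 hne
  by_contra hcon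
  push Not at hcon
  -- the coordinates of the balanced hyperplanes
  obtain ⟨T, hT⟩ : ∃ T : Fin D → Finset ℤ, ∀ i, T i = (U.image fun x => x i).filter (fun t =>
    ((lo U i t).card : ℝ) ≤ θ * n ∧ ((hi U i t).card : ℝ) ≤ θ * n) := ⟨_, fun _ => rfl⟩
  have hlarge : ∀ i, ∀ t ∈ T i, 3 * n ^ (1 - 1 / (D : ℝ)) < ((mid U i t).card : ℝ) := by
    intro i t ht
    rw [hT, mem_filter] at ht
    by_contra h1
    push Not at h1
    exact absurd ht.2.2 (not_le.2 (hcon _ _ _ (part_hyperplane U i t) h1 ht.2.1))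
  have hTcard : ∀ i, ((T i).card : ℝ) ≤ n ^ (1 / (D : ℝ)) / 3 := by
    intro i
    have h1 : ∑ t ∈ T i, ((mid U i t).card : ℝ) ≤ n := by
      rw [hn]
      rw [← Nat.cast_sum]
      norm_cast
      rw [← card_biUnion]
      · apply card_le_card
        intro x hx
        obtain ⟨t, -, ht⟩ := mem_biUnion.1 hx
        exact (mem_filter.1 ht).1
      · intro t _ t' _ htt
        show Disjoint (mid U i t) (mid U i t')
        rw [disjoint_left]
        intro x hx hx'
        exact htt ((mem_filter.1 hx).2.symm.trans (mem_filter.1 hx').2)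
    have h2 : ((T i).card : ℝ) * (3 * n ^ (1 - 1 / (D : ℝ))) ≤ n := by
      calc ((T i).card : ℝ) * (3 * n ^ (1 - 1 / (D : ℝ))) =
            ∑ _t ∈ T i, 3 * n ^ (1 - 1 / (D : ℝ)) := by
              rw [sum_const, nsmul_eq_mul]
        _ ≤ ∑ t ∈ T i, ((mid U i t).card : ℝ) := sum_le_sum fun t ht => (hlarge i t ht).le
        _ ≤ n := h1
    have h3 : n ^ (1 / (D : ℝ)) * n ^ (1 - 1 / (D : ℝ)) = n := by
      rw [← Real.rpow_add hn0]
      rw [show 1 / (D : ℝ) + (1 - 1 / D) = 1 by ring, Real.rpow_one]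
    have h4 : 0 < n ^ (1 - 1 / (D : ℝ)) := Real.rpow_pos_of_pos hn0 _
    have h5 : (((T i).card : ℝ) * 3) * n ^ (1 - 1 / (D : ℝ)) ≤
        n ^ (1 / (D : ℝ)) * n ^ (1 - 1 / (D : ℝ)) := by
      rw [h3]
      linarith
    have h6 := le_of_mul_le_mul_right h5 h4
    rw [le_div_iff₀ (by norm_num)]
    exact h6
  -- the points in the box
  obtain ⟨W, hW⟩ : ∃ W, W = U.filter (fun x => ∀ i, x i ∈ T i) := ⟨_, rfl⟩
  have hWle : (W.card : ℝ) ≤ n / 3 := by
    have h1 : W.card ≤ (Fintype.piFinset T).card := by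
      apply card_le_card
      intro x hx
      rw [hW, mem_filter] at hx
      exact Fintype.mem_piFinset.2 hx.2
    rw [Fintype.card_piFinset] at h1
    have h2 : (W.card : ℝ) ≤ ∏ i, ((T i).card : ℝ) := by
      rw [← Nat.cast_prod]
      exact_mod_cast h1
    have h3 : ∏ i, ((T i).card : ℝ) ≤ ∏ _i : Fin D, n ^ (1 / (D : ℝ)) / 3 :=
      prod_le_prod (fun _ _ => Nat.cast_nonneg _) fun i _ => hTcard i
    rw [prod_const, card_univ, Fintype.card_fin, div_pow] at h3
    have h4 : (n ^ (1 / (D : ℝ))) ^ D = n := by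
      rw [← Real.rpow_natCast, ← Real.rpow_mul hn0.le, one_div, inv_mul_cancel₀ hD0.ne',
        Real.rpow_one]
    rw [h4] at h3
    have h5 : n / 3 ^ D ≤ n / 3 := by
      apply div_le_div_of_nonneg_left hn0.le (by norm_num)
      calc (3 : ℝ) = 3 ^ 1 := by norm_num
        _ ≤ 3 ^ D := pow_le_pow_right₀ (by norm_num) hD
    linarith
  -- the other points
  obtain ⟨Bl, hBl⟩ : ∃ Bl : Fin D → Finset (Fin D → ℤ), ∀ i, Bl i =
    U.filter (fun x => θ * U.card < ((lo U i (x i)).card : ℝ)) := ⟨_, fun _ => rfl⟩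
  obtain ⟨Bh, hBh⟩ : ∃ Bh : Fin D → Finset (Fin D → ℤ), ∀ i, Bh i =
    U.filter (fun x => θ * U.card < ((hi U i (x i)).card : ℝ)) := ⟨_, fun _ => rfl⟩
  have hθ1 : 1 - θ = 1 / (3 * D) := by rw [hθ]; ring
  have hpos : 0 < (1 - θ) * (U.card : ℝ) := by rw [hθ1, ← hn]; positivity
  have hl : ∀ i, ((Bl i).card : ℝ) < (1 - θ) * n := by
    intro i
    rw [hBl, hn]; exact card_bad_lo U i θ hpos
  have hh : ∀ i, ((Bh i).card : ℝ) < (1 - θ) * n := by
    intro i
    rw [hBh, hn]; exact card_bad_hi U i θ hpos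
  have hcov : U ⊆ W ∪ univ.biUnion (fun i => Bl i ∪ Bh i) := by
    intro x hx
    rw [mem_union]
    by_cases hxW : x ∈ W
    · exact Or.inl hxW
    · right
      have h1 : ∃ i, x i ∉ T i := by
        by_contra h2
        push Not at h2
        exact hxW (by rw [hW]; exact mem_filter.2 ⟨hx, h2⟩)
      obtain ⟨i, hi'⟩ := h1
      rw [mem_biUnion]
      refine ⟨i, mem_univ _, ?_⟩
      rw [mem_union, hBl, hBh, mem_filter, mem_filter]
      by_contra h3
      push Not at h3
      apply hi'
      rw [hT, mem_filter]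
      rw [hn]
      exact ⟨mem_image_of_mem _ hx, h3.1 hx, h3.2 hx⟩
  have hcard : n ≤ W.card + ∑ i : Fin D, (((Bl i).card : ℝ) + (Bh i).card) := by
    have h1 := card_le_card hcov
    have h2 := card_union_le W (univ.biUnion (fun i => Bl i ∪ Bh i))
    have h3 : (univ.biUnion (fun i => Bl i ∪ Bh i)).card ≤ ∑ i : Fin D, ((Bl i).card + (Bh i).card) :=
      card_biUnion_le.trans (sum_le_sum fun i _ => card_union_le _ _)
    rw [hn]
    have h4 : U.card ≤ W.card + ∑ i : Fin D, ((Bl i).card + (Bh i).card) := by omega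
    exact_mod_cast h4
  have hsum : ∑ i : Fin D, (((Bl i).card : ℝ) + (Bh i).card) < 2 / 3 * n := by
    calc ∑ i : Fin D, (((Bl i).card : ℝ) + (Bh i).card) < ∑ _i : Fin D, 2 * ((1 - θ) * n) :=
          sum_lt_sum_of_nonempty ⟨⟨0, hD⟩, mem_univ _⟩ fun i _ => by linarith [hl i, hh i]
      _ = 2 / 3 * n := by
          rw [sum_const, card_univ, Fintype.card_fin, nsmul_eq_mul, hθ1]
          field_simp
  linarith

end Pool.Agent.U286.LY
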