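import Mathlib
import Pool.Agent.U286.LY.Sep

/-!
# Division of a host graph with sublinear separators into pieces with small boundary

If `H` has separators of size `K s ^ α`, `α < 1`, then every finite set `J` of nodes, with weights
`a`, is divided into `O (|J| / s + a (J) / w + 1)` pieces with at most `s` inner nodes, of weight at
most `w`, and with `O (s ^ α)` boundary nodes.
-/

set_option autoImplicit false

namespace Pool.Agent.U286.LY

open Finset

variable {X : Type*}

/-- `u ^ α` is at least `((4 / 3) ^ (1 - α)) x ^ (α - 1) u` for `u ≤ 3 / 4 x` -/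
lemma rpow_lower {α x u : ℝ} (hα : 0 < α) (hα1 : α < 1) (hx : 0 < x) (hu0 : 0 ≤ u)
    (hu : u ≤ 3 / 4 * x) : (4 / 3) ^ (1 - α) * x ^ (α - 1) * u ≤ u ^ α := by
  rcases hu0.eq_or_lt with h0 | hpos
  · rw [← h0, mul_zero, Real.zero_rpow hα.ne']
  · have h1 : (3 / 4 * x) ^ (α - 1) ≤ u ^ (α - 1) :=
      Real.rpow_le_rpow_of_nonpos hpos hu (by linarith)
    have h2 : (3 / 4 * x) ^ (α - 1) = (4 / 3) ^ (1 - α) * x ^ (α - 1) := by
      rw [Real.mul_rpow (by norm_num) hx.le]
      congr 1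
      rw [show (3 / 4 : ℝ) = (4 / 3)⁻¹ by norm_num, Real.inv_rpow (by norm_num),
        ← Real.rpow_neg (by norm_num)]
      congr 1
      ring
    rw [← h2]
    calc (3 / 4 * x) ^ (α - 1) * u ≤ u ^ (α - 1) * u := mul_le_mul_of_nonneg_right h1 hu0
      _ = u ^ α := by
          rw [← Real.rpow_add_one hpos.ne']
          congr 1
          ring

/-- The inequality for the numbers of pieces. -/
lemma exists_consts {α : ℝ} (hα : 0 < α) (hα1 : α < 1) : ∃ c η : ℝ, 0 < η ∧ η ≤ 1 / 12 ∧ 1 ≤ c ∧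
    ∀ x u v : ℝ, 1 < x → 0 ≤ u → 0 ≤ v → u + v ≤ x + 2 * η * x ^ α → u ≤ 3 / 4 * x →
      v ≤ 3 / 4 * x →
      max 1 (c * u - u ^ α) + max 1 (c * v - v ^ α) ≤ max 1 (c * x - x ^ α) := by
  obtain ⟨ρ, hρ⟩ : ∃ ρ : ℝ, ρ = (4 / 3) ^ (1 - α) := ⟨_, rfl⟩
  have hρ1 : 1 < ρ := by
    rw [hρ]
    exact Real.one_lt_rpow (by norm_num) (by linarith)
  obtain ⟨δ, hδ⟩ : ∃ δ : ℝ, δ = (ρ - 1) / (2 * ρ) := ⟨_, rfl⟩
  have hδ0 : 0 < δ := by rw [hδ]; apply div_pos <;> linarith
  have hδρ : (1 - δ) * ρ = (ρ + 1) / 2 := by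
    rw [hδ]; field_simp; ring
  obtain ⟨c, hc⟩ : ∃ c : ℝ, c = 8 + 1 / δ := ⟨_, rfl⟩
  have hc8 : 8 ≤ c := by rw [hc]; have := div_pos one_pos hδ0; linarith
  have hcδ : 1 ≤ c * δ := by
    rw [hc]
    have : (8 + 1 / δ) * δ = 8 * δ + 1 := by field_simp
    rw [this]; linarith
  obtain ⟨η, hη⟩ : ∃ η : ℝ, η = min (1 / 12) ((ρ - 1) / (4 * c)) := ⟨_, rfl⟩
  have hη0 : 0 < η := by
    rw [hη]
    apply lt_min (by norm_num)
    apply div_pos <;> linarith
  have hη1 : 4 * c * η ≤ ρ - 1 := by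
    have h1 : η ≤ (ρ - 1) / (4 * c) := by rw [hη]; exact min_le_right _ _
    have h2 : 0 < 4 * c := by linarith
    rw [le_div_iff₀ h2] at h1
    linarith
  refine ⟨c, η, hη0, by rw [hη]; exact min_le_left _ _, by linarith, ?_⟩
  intro x u v hx hu hv h hux hvx
  have hx0 : 0 < x := by linarith
  obtain ⟨y, hy⟩ : ∃ y : ℝ, y = x ^ α := ⟨_, rfl⟩
  have hyx : y ≤ x := by
    rw [hy]
    calc x ^ α ≤ x ^ (1 : ℝ) := Real.rpow_le_rpow_of_exponent_le hx.le hα1.le
      _ = x := Real.rpow_one x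
  have hy0 : 0 < y := by rw [hy]; exact Real.rpow_pos_of_pos hx0 _
  have hu' : 0 ≤ u ^ α := Real.rpow_nonneg hu _
  have hv' : 0 ≤ v ^ α := Real.rpow_nonneg hv _
  rw [← hy] at h ⊢
  refine le_trans ?_ (le_max_right _ _)
  rcases le_total 1 (c * u - u ^ α) with h1 | h1 <;> rcases le_total 1 (c * v - v ^ α) with h2 | h2
  · rw [max_eq_right h1, max_eq_right h2]
    by_cases h3 : (1 - δ) * x ≤ u + v
    · have h4 := rpow_lower hα hα1 hx0 hu hux
      have h5 := rpow_lower hα hα1 hx0 hv hvx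
      rw [← hρ] at h4 h5
      have h6 : ρ * x ^ (α - 1) * ((1 - δ) * x) ≤ u ^ α + v ^ α := by
        calc ρ * x ^ (α - 1) * ((1 - δ) * x) ≤ ρ * x ^ (α - 1) * (u + v) := by
              apply mul_le_mul_of_nonneg_left h3
              exact mul_nonneg (by linarith) (Real.rpow_nonneg hx0.le _)
          _ = ρ * x ^ (α - 1) * u + ρ * x ^ (α - 1) * v := by ring
          _ ≤ _ := add_le_add h4 h5
      have h7 : ρ * x ^ (α - 1) * ((1 - δ) * x) = (ρ + 1) / 2 * y := by
        rw [← hδρ, hy]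
        have : x ^ α = x ^ (α - 1) * x := by
          rw [← Real.rpow_add_one hx0.ne']; congr 1; ring
        rw [this]; ring
      rw [h7] at h6
      have h8 : c * (u + v) ≤ c * (x + 2 * η * y) := mul_le_mul_of_nonneg_left h (by linarith)
      have h9 : 4 * c * η * y ≤ (ρ - 1) * y := mul_le_mul_of_nonneg_right hη1 hy0.le
      nlinarith
    · push Not at h3
      have h4 : c * (u + v) ≤ c * ((1 - δ) * x) := mul_le_mul_of_nonneg_left h3.le (by linarith)
      have h5 : x ≤ c * δ * x := by nlinarith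
      nlinarith
  · rw [max_eq_right h1, max_eq_left h2]
    nlinarith
  · rw [max_eq_left h1, max_eq_right h2]
    nlinarith
  · rw [max_eq_left h1, max_eq_left h2]
    nlinarith

/-- `p = (I, A)`: all neighbours in `J` of the inner nodes are in the piece. -/
structure Piece (H : SimpleGraph X) (J : Finset X) (p : Finset X × Finset X) : Prop where
  dis : Disjoint p.1 p.2
  sub : p.1 ⊆ J
  subA : p.2 ⊆ J
  closed : ∀ v ∈ p.1, ∀ u ∈ J, H.Adj v u → u ∈ p.1 ∨ u ∈ p.2

variable {H : SimpleGraph X}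

open Classical in
/-- the weight function which is used for the splitting of a piece -/
noncomputable def wt (a : X → ℝ) (s w β : ℝ) (I A : Finset X) (v : X) : ℝ :=
  (if v ∈ I then 1 / s + a v / w else 0) + (if v ∈ A then 1 / β else 0)

open Classical in
lemma sum_wt (a : X → ℝ) (s w β : ℝ) (I A M : Finset X) :
    ∑ v ∈ M, wt a s w β I A v =
      ((M ∩ I).card : ℝ) / s + (∑ v ∈ M ∩ I, a v) / w + ((M ∩ A).card : ℝ) / β := by
  unfold wt
  rw [sum_add_distrib, ← sum_filter, ← sum_filter, filter_mem_eq_inter, filter_mem_eq_inter,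
    sum_add_distrib, sum_const, sum_const, nsmul_eq_mul, nsmul_eq_mul, sum_div]
  ring

/-- **The division theorem.** -/
theorem division (K : ℝ) {α : ℝ} (hα : 0 < α) (hα1 : α < 1) :
    ∃ C₁ C₂ : ℝ, 1 ≤ C₁ ∧ 1 ≤ C₂ ∧ ∀ (X : Type) (H : SimpleGraph X), HasWSep H K α →
      ∀ (a : X → ℝ), (∀ v, 0 ≤ a v) → ∀ (s w : ℝ), 1 ≤ s → 0 < w →
      ∀ J : Finset X, ∃ L : List (Finset X × Finset X),
        (∀ p ∈ L, Piece H J p ∧ (p.2.card : ℝ) ≤ C₁ * s ^ α ∧ ∑ v ∈ p.1, a v ≤ w) ∧
        (∀ v ∈ J, ∃ p ∈ L, v ∈ p.1 ∨ v ∈ p.2) ∧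
        (L.length : ℝ) ≤ C₂ * (J.card / s + (∑ v ∈ J, a v) / w + 1) := by
  classical
  obtain ⟨c, η, hη0, hη12, hc1, hcons⟩ := exists_consts hα hα1
  obtain ⟨K', hK'⟩ : ∃ K' : ℝ, K' = max K 0 := ⟨_, rfl⟩
  have hK'0 : 0 ≤ K' := by rw [hK']; exact le_max_right _ _
  have hKK' : K ≤ K' := by rw [hK']; exact le_max_left _ _
  obtain ⟨C₁, hC₁⟩ : ∃ C₁ : ℝ, C₁ = max 1 ((2 * K' / η) ^ (1 / (1 - α))) := ⟨_, rfl⟩
  have hC1 : 1 ≤ C₁ := by rw [hC₁]; exact le_max_left _ _
  have hCη : 2 * K' ≤ η * C₁ ^ (1 - α) := by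
    have h1 : (2 * K' / η) ^ (1 / (1 - α)) ≤ C₁ := by rw [hC₁]; exact le_max_right _ _
    have h0 : 0 ≤ 2 * K' / η := div_nonneg (by linarith) hη0.le
    have h2 := Real.rpow_le_rpow (Real.rpow_nonneg h0 _) h1 (by linarith : 0 ≤ 1 - α)
    rw [← Real.rpow_mul h0, one_div, inv_mul_cancel₀ (by linarith : 1 - α ≠ 0),
      Real.rpow_one, div_le_iff₀ hη0] at h2
    linarith
  refine ⟨C₁, c, hC1, hc1, ?_⟩
  intro X H h a ha s w hs hw J
  have hs0 : 0 < s := by linarith
  obtain ⟨β, hβ⟩ : ∃ β : ℝ, β = C₁ * s ^ α := ⟨_, rfl⟩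
  have hsα : 1 ≤ s ^ α := Real.one_le_rpow hs hα.le
  have hβ1 : 1 ≤ β := by rw [hβ]; nlinarith
  have hβ0 : 0 < β := by linarith
  rw [← hβ]
  -- the size of the separators
  have hsepsize : ∀ x : ℝ, 0 ≤ x → K * ((s + β) * x) ^ α ≤ η * x ^ α * β := by
    intro x hx
    have h1 : s + β ≤ 2 * C₁ * s := by
      have h2 : s ^ α ≤ s := by
        calc s ^ α ≤ s ^ (1 : ℝ) := Real.rpow_le_rpow_of_exponent_le hs hα1.le
          _ = s := Real.rpow_one s
      have h3 : C₁ * s ^ α ≤ C₁ * s := mul_le_mul_of_nonneg_left h2 (by linarith)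
      have h4 : s ≤ C₁ * s := by nlinarith
      rw [hβ]; linarith
    have hxα : 0 ≤ x ^ α := Real.rpow_nonneg hx _
    have h5 : ((s + β) * x) ^ α ≤ (2 * C₁ * s) ^ α * x ^ α := by
      rw [← Real.mul_rpow (by positivity) hx]
      apply Real.rpow_le_rpow (by positivity) _ hα.le
      exact mul_le_mul_of_nonneg_right h1 hx
    have h6 : (2 * C₁ * s) ^ α = 2 ^ α * C₁ ^ α * s ^ α := by
      rw [Real.mul_rpow (by positivity) (by positivity), Real.mul_rpow (by positivity)
        (by positivity)]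
    have h7 : (2 : ℝ) ^ α ≤ 2 := by
      calc (2 : ℝ) ^ α ≤ 2 ^ (1 : ℝ) :=
            Real.rpow_le_rpow_of_exponent_le (by norm_num) hα1.le
        _ = 2 := Real.rpow_one 2
    have h8 : C₁ ^ (1 - α) * C₁ ^ α = C₁ := by
      rw [← Real.rpow_add (by linarith)]
      rw [show 1 - α + α = 1 by ring, Real.rpow_one]
    have hCα : 0 ≤ C₁ ^ α := Real.rpow_nonneg (by linarith) _
    have hsα0 : 0 ≤ s ^ α := by linarith
    have hb0 : 0 ≤ ((s + β) * x) ^ α := Real.rpow_nonneg (by positivity) _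
    calc K * ((s + β) * x) ^ α ≤ K' * ((s + β) * x) ^ α := mul_le_mul_of_nonneg_right hKK' hb0
      _ ≤ K' * (2 ^ α * C₁ ^ α * s ^ α * x ^ α) := by
          rw [← h6]; exact mul_le_mul_of_nonneg_left h5 hK'0
      _ ≤ K' * (2 * C₁ ^ α * s ^ α * x ^ α) := by
          gcongr
      _ = (2 * K') * (C₁ ^ α * s ^ α * x ^ α) := by ring
      _ ≤ (η * C₁ ^ (1 - α)) * (C₁ ^ α * s ^ α * x ^ α) := by
          apply mul_le_mul_of_nonneg_right hCη; positivity
      _ = η * (C₁ ^ (1 - α) * C₁ ^ α) * (s ^ α * x ^ α) := by ring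
      _ = _ := by rw [h8, hβ]; ring
  have key : ∀ n : ℕ, ∀ I A : Finset X, Piece H J (I, A) →
      (I.card : ℝ) / s + (∑ v ∈ I, a v) / w + (A.card : ℝ) / β ≤ (4 / 3) ^ n →
      ∃ L : List (Finset X × Finset X),
        (∀ p ∈ L, Piece H J p ∧ (p.2.card : ℝ) ≤ β ∧ ∑ v ∈ p.1, a v ≤ w) ∧
        (∀ v, v ∈ I ∨ v ∈ A → ∃ p ∈ L, v ∈ p.1 ∨ v ∈ p.2) ∧
        (L.length : ℝ) ≤ max 1 (c * ((I.card : ℝ) / s + (∑ v ∈ I, a v) / w + (A.card : ℝ) / β) -
          ((I.card : ℝ) / s + (∑ v ∈ I, a v) / w + (A.card : ℝ) / β) ^ α) := by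
    intro n
    induction n with
    | zero =>
      intro I A hP hx
      rw [pow_zero] at hx
      have h1 : 0 ≤ (I.card : ℝ) / s := by positivity
      have h2 : 0 ≤ (∑ v ∈ I, a v) / w := div_nonneg (sum_nonneg fun v _ => ha v) hw.le
      have h3 : 0 ≤ (A.card : ℝ) / β := by positivity
      refine ⟨[(I, A)], ?_, ?_, ?_⟩
      · intro p hp
        rw [List.mem_singleton] at hp
        subst hp
        refine ⟨hP, ?_, ?_⟩
        · have h4 : (A.card : ℝ) / β ≤ 1 := by linarith
          rwa [div_le_one hβ0] at h4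
        · have h4 : (∑ v ∈ I, a v) / w ≤ 1 := by linarith
          rwa [div_le_one hw] at h4
      · intro v hv
        exact ⟨(I, A), List.mem_singleton.2 rfl, hv⟩
      · simp only [List.length_singleton, Nat.cast_one]
        exact le_max_left _ _
    | succ n ih =>
      intro I A hP hx
      obtain ⟨x, hxd⟩ : ∃ x, x = (I.card : ℝ) / s + (∑ v ∈ I, a v) / w + (A.card : ℝ) / β :=
        ⟨_, rfl⟩
      rw [← hxd] at hx ⊢
      have h1 : 0 ≤ (I.card : ℝ) / s := by positivity
      have h2 : 0 ≤ (∑ v ∈ I, a v) / w := div_nonneg (sum_nonneg fun v _ => ha v) hw.le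
      have h3 : 0 ≤ (A.card : ℝ) / β := by positivity
      by_cases hx1 : x ≤ 1
      · refine ⟨[(I, A)], ?_, ?_, ?_⟩
        · intro p hp
          rw [List.mem_singleton] at hp
          subst hp
          refine ⟨hP, ?_, ?_⟩
          · have h4 : (A.card : ℝ) / β ≤ 1 := by linarith
            rwa [div_le_one hβ0] at h4
          · have h4 : (∑ v ∈ I, a v) / w ≤ 1 := by linarith
            rwa [div_le_one hw] at h4
        · intro v hv
          exact ⟨(I, A), List.mem_singleton.2 rfl, hv⟩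
        · simp only [List.length_singleton, Nat.cast_one]
          exact le_max_left _ _
      push Not at hx1
      have hdis := hP.dis
      have hIA : ∀ v ∈ I, v ∉ A := fun v hv hv' => disjoint_left.1 hdis hv hv'
      -- the weight function
      have hwt0 : ∀ v, 0 ≤ wt a s w β I A v := by
        intro v
        unfold wt
        have h5 : 0 ≤ 1 / s + a v / w := by
          have := ha v
          positivity
        have h6 : 0 ≤ 1 / β := by positivity
        split_ifs <;> linarith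
      obtain ⟨S, M₁, M₂, hPt, hS, hM1, hM2⟩ := h (wt a s w β I A) hwt0 (I ∪ A)
      have hU : ∑ v ∈ I ∪ A, wt a s w β I A v = x := by
        rw [sum_wt, hxd, union_inter_cancel_left, union_inter_cancel_right]
      have hsumle := hPt.sum_le (wt a s w β I A) hwt0
      rw [hU] at hM1 hM2 hsumle
      -- the size of the separator
      have hUc : ((I ∪ A).card : ℝ) ≤ (s + β) * x := by
        have h5 : ((I ∪ A).card : ℝ) ≤ I.card + A.card := by exact_mod_cast card_union_le I A
        have h6 : (I.card : ℝ) ≤ s * x := by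
          have : (I.card : ℝ) / s ≤ x := by rw [hxd]; linarith
          rw [div_le_iff₀ hs0] at this
          linarith
        have h7 : (A.card : ℝ) ≤ β * x := by
          have : (A.card : ℝ) / β ≤ x := by rw [hxd]; linarith
          rw [div_le_iff₀ hβ0] at this
          linarith
        linarith
      have hSβ : (S.card : ℝ) / β ≤ η * x ^ α := by
        rw [div_le_iff₀ hβ0]
        have h8 : (S.card : ℝ) ≤ K' * ((s + β) * x) ^ α := by
          calc (S.card : ℝ) ≤ K * ((I ∪ A).card : ℝ) ^ α := hS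
            _ ≤ K' * ((I ∪ A).card : ℝ) ^ α :=
                mul_le_mul_of_nonneg_right hKK' (Real.rpow_nonneg (Nat.cast_nonneg _) _)
            _ ≤ _ := mul_le_mul_of_nonneg_left
                (Real.rpow_le_rpow (Nat.cast_nonneg _) hUc hα.le) hK'0
        refine h8.trans ?_
        rcases le_total K 0 with hK0 | hK0
        · have : K' = 0 := by rw [hK', max_eq_right hK0]
          rw [this, zero_mul]
          have : 0 ≤ x ^ α := Real.rpow_nonneg (by linarith) _
          positivity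
        · have : K' = K := by rw [hK', max_eq_left hK0]
          rw [this]
          exact hsepsize x (by linarith)
      have hxα : x ^ α ≤ x := by
        calc x ^ α ≤ x ^ (1 : ℝ) := Real.rpow_le_rpow_of_exponent_le hx1.le hα1.le
          _ = x := Real.rpow_one x
      have hηx : η * x ^ α ≤ 1 / 12 * x := by
        have h0 : 0 ≤ x ^ α := Real.rpow_nonneg (by linarith) _
        nlinarith
      -- the two parts
      have child : ∀ M : Finset X, M ⊆ I ∪ A → Disjoint S M →
          (∀ v ∈ M, ∀ u ∈ I ∪ A, H.Adj v u → u ∈ M ∨ u ∈ S) →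
          ∑ v ∈ M, wt a s w β I A v ≤ 2 / 3 * x →
          ∃ L : List (Finset X × Finset X),
          (∀ p ∈ L, Piece H J p ∧ (p.2.card : ℝ) ≤ β ∧ ∑ v ∈ p.1, a v ≤ w) ∧
          (∀ v, v ∈ M ∨ v ∈ S → ∃ p ∈ L, v ∈ p.1 ∨ v ∈ p.2) ∧
          ∃ y : ℝ, 0 ≤ y ∧ y ≤ ∑ v ∈ M, wt a s w β I A v + η * x ^ α ∧
            (L.length : ℝ) ≤ max 1 (c * y - y ^ α) := by
        intro M hM hSM hMcl hMx
        obtain ⟨y, hy⟩ : ∃ y, y = ((M ∩ I).card : ℝ) / s + (∑ v ∈ M ∩ I, a v) / w +
          ((M ∩ A ∪ S).card : ℝ) / β := ⟨_, rfl⟩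
        have hPc : Piece H J (M ∩ I, M ∩ A ∪ S) := by
          refine ⟨?_, ?_, ?_, ?_⟩
          · rw [disjoint_left]
            intro v hv hv'
            rcases mem_union.1 hv' with h5 | h5
            · exact hIA v (mem_inter.1 hv).2 (mem_inter.1 h5).2
            · exact disjoint_left.1 hSM h5 (mem_inter.1 hv).1
          · exact inter_subset_right.trans hP.sub
          · refine union_subset (inter_subset_right.trans hP.subA) (hPt.subS.trans ?_)
            exact union_subset hP.sub hP.subA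
          · intro v hv u hu hvu
            have hv' : v ∈ M ∩ I := hv
            rw [mem_inter] at hv'
            rcases hP.closed v hv'.2 u hu hvu with h5 | h5
            · rcases hMcl v hv'.1 u (mem_union_left _ h5) hvu with h6 | h6
              · exact Or.inl (mem_inter.2 ⟨h6, h5⟩)
              · exact Or.inr (mem_union_right _ h6)
            · rcases hMcl v hv'.1 u (mem_union_right _ h5) hvu with h6 | h6
              · exact Or.inr (mem_union_left _ (mem_inter.2 ⟨h6, h5⟩))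
              · exact Or.inr (mem_union_right _ h6)
        have hyle : y ≤ ∑ v ∈ M, wt a s w β I A v + η * x ^ α := by
          rw [sum_wt, hy]
          have h5 : ((M ∩ A ∪ S).card : ℝ) ≤ (M ∩ A).card + S.card := by
            exact_mod_cast card_union_le _ _
          have h6 : ((M ∩ A ∪ S).card : ℝ) / β ≤ (M ∩ A).card / β + S.card / β := by
            rw [← add_div]
            exact div_le_div_of_nonneg_right h5 hβ0.le
          linarith
        have hy4 : y ≤ 3 / 4 * x := by linarith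
        have hy0 : 0 ≤ y := by
          rw [hy]
          have h5 : 0 ≤ (∑ v ∈ M ∩ I, a v) / w := div_nonneg (sum_nonneg fun v _ => ha v) hw.le
          positivity
        obtain ⟨L, hL1, hL2, hL3⟩ := ih (M ∩ I) (M ∩ A ∪ S) hPc (by
          rw [← hy]
          refine hy4.trans ?_
          rw [pow_succ] at hx
          linarith)
        rw [← hy] at hL3
        refine ⟨L, hL1, ?_, y, hy0, hyle, hL3⟩
        intro v hv
        apply hL2
        rcases hv with hv | hv
        · rcases mem_union.1 (hM hv) with h5 | h5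
          · exact Or.inl (mem_inter.2 ⟨hv, h5⟩)
          · exact Or.inr (mem_union_left _ (mem_inter.2 ⟨hv, h5⟩))
        · exact Or.inr (mem_union_right _ hv)
      obtain ⟨L₁, hL11, hL12, y₁, hy10, hy11, hy12⟩ := child M₁ hPt.subA hPt.disSA (by
        intro v hv u hu hvu
        rcases hPt.cov u hu with h5 | h5 | h5
        · exact Or.inr h5
        · exact Or.inl h5
        · exact absurd hvu (hPt.sep v hv u h5)) hM1
      obtain ⟨L₂, hL21, hL22, y₂, hy20, hy21, hy22⟩ := child M₂ hPt.subB hPt.disSB (by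
        intro v hv u hu hvu
        rcases hPt.cov u hu with h5 | h5 | h5
        · exact Or.inr h5
        · exact absurd hvu.symm (hPt.sep u h5 v hv)
        · exact Or.inl h5) hM2
      refine ⟨L₁ ++ L₂, ?_, ?_, ?_⟩
      · intro p hp
        rcases List.mem_append.1 hp with h5 | h5
        · exact hL11 p h5
        · exact hL21 p h5
      · intro v hv
        rcases hPt.cov v (mem_union.2 hv) with h5 | h5 | h5
        · obtain ⟨p, hp, hp2⟩ := hL12 v (Or.inr h5)
          exact ⟨p, List.mem_append.2 (Or.inl hp), hp2⟩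
        · obtain ⟨p, hp, hp2⟩ := hL12 v (Or.inl h5)
          exact ⟨p, List.mem_append.2 (Or.inl hp), hp2⟩
        · obtain ⟨p, hp, hp2⟩ := hL22 v (Or.inl h5)
          exact ⟨p, List.mem_append.2 (Or.inr hp), hp2⟩
      · rw [List.length_append]
        push_cast
        refine (add_le_add hy12 hy22).trans (hcons x y₁ y₂ hx1 hy10 hy20 ?_ ?_ ?_)
        · linarith
        · linarith
        · linarith
  obtain ⟨x, hxd⟩ : ∃ x, x = (J.card : ℝ) / s + (∑ v ∈ J, a v) / w +
    ((∅ : Finset X).card : ℝ) / β := ⟨_, rfl⟩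
  have hx0 : 0 ≤ x := by
    rw [hxd]
    have h5 : 0 ≤ (∑ v ∈ J, a v) / w := div_nonneg (sum_nonneg fun v _ => ha v) hw.le
    positivity
  obtain ⟨n, hn⟩ := pow_unbounded_of_one_lt x (by norm_num : (1 : ℝ) < 4 / 3)
  obtain ⟨L, hL1, hL2, hL3⟩ := key n J ∅ ⟨disjoint_empty_right _, subset_refl _, empty_subset _,
    fun v _ u hu _ => Or.inl hu⟩ (by rw [← hxd]; exact hn.le)
  refine ⟨L, hL1, fun v hv => hL2 v (Or.inl hv), hL3.trans ?_⟩
  rw [← hxd]
  have hxe : x = (J.card : ℝ) / s + (∑ v ∈ J, a v) / w := by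
    rw [hxd, card_empty, Nat.cast_zero, zero_div, add_zero]
  rw [← hxe]
  apply max_le
  · nlinarith
  · have := Real.rpow_nonneg hx0 α
    nlinarith

end Pool.Agent.U286.LY
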