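import Mathlib
import Pool.Agent.U286.LY.Div
import Pool.Agent.U514.PD.Elim
import Pool.Agent.Y631.TrPiece

/-!
# Graphs laid out in a host graph

A graph is laid out in a finite set `J` of cells of a host graph, with load `c`, if it is a minor of
the strong product of the host graph, restricted to `J`, with a complete graph of `c` vertices:
every vertex gets a nonempty connected region of cells, every cell is in at most `c` regions and the
regions of adjacent vertices meet or touch.
-/

set_option autoImplicit false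

namespace Pool.Agent.U286.LY

open Finset Pool.Agent.Y631.Tr

variable {X : Type*} {V : Type*} [Fintype V]

open Classical in
/-- The regions `reg g` are nonempty connected sets of cells of `J`, every cell is in at most `c` of
them, and if `E h g` then the regions of `h` and `g` have a common cell or contain two adjacent
cells. -/
structure Layout (E : V → V → Prop) (H : SimpleGraph X) (J : Finset X) (c : ℕ)
    (reg : V → Finset X) : Prop where
  conn : ∀ g, (H.induce (reg g : Set X)).Connected
  sub : ∀ g, reg g ⊆ J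
  load : ∀ x ∈ J, (univ.filter fun g => x ∈ reg g).card ≤ c
  meet : ∀ h g, E h g → ∃ x ∈ reg h, ∃ y ∈ reg g, x = y ∨ H.Adj x y

variable {H : SimpleGraph X}

/-- a connected set that meets `P` and is closed under adjacency inside of `P` is contained in `P` -/
lemma conn_subset {Z : Finset X} (hZ : (H.induce (Z : Set X)).Connected) {P : Finset X}
    {z : X} (hz : z ∈ Z) (hzP : z ∈ P) (hcl : ∀ x ∈ Z, x ∈ P → ∀ y ∈ Z, H.Adj x y → y ∈ P) :
    Z ⊆ P := by
  intro y hy
  have hr := hZ.preconnected ⟨z, hz⟩ ⟨y, hy⟩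
  obtain ⟨p⟩ := hr
  have key : ∀ (a b : (Z : Set X)) (p : (H.induce (Z : Set X)).Walk a b), (a : X) ∈ P → (b : X) ∈ P := by
    intro a b p
    induction p with
    | nil => exact id
    | cons h _ ih =>
      intro ha
      apply ih
      exact hcl _ (by simp) ha _ (by simp) h
  exact key _ _ p hzP

variable {E : V → V → Prop} {J : Finset X} {c : ℕ} {reg : V → Finset X}

lemma Layout.nonempty (hL : Layout E H J c reg) (g : V) : (reg g).Nonempty := by
  obtain ⟨⟨x, hx⟩⟩ := (hL.conn g).nonempty
  exact ⟨x, by simpa using hx⟩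

/-- the graph with the edges `E` can be laid out, with load `c`, on `v` cells of a host graph in
which every set of `n` nodes is divided by at most `K n ^ α` of its elements into two parts, not
joined by an edge, with at most `θ n` nodes each -/
def LaidOut {V : Type} [Fintype V] (E : V → V → Prop) (K α θ : ℝ) (v c : ℕ) : Prop :=
  ∃ (X : Type) (H : SimpleGraph X) (J : Finset X) (reg : V → Finset X),
    HasSep H K α θ ∧ J.card ≤ v ∧ Layout E H J c reg

lemma Layout.pos (hL : Layout E H J c reg) (g : V) : 1 ≤ c := by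
  classical
  obtain ⟨x, hx⟩ := hL.nonempty g
  refine le_trans ?_ (hL.load x (hL.sub g hx))
  exact card_pos.2 ⟨g, mem_filter.2 ⟨mem_univ _, hx⟩⟩

open Classical in
/-- the vertices whose regions meet `A` -/
noncomputable def touch (reg : V → Finset X) (A : Finset X) : Finset V :=
  univ.filter fun g => ∃ x ∈ reg g, x ∈ A

open Classical in
/-- the vertices whose regions are contained in `I` -/
noncomputable def inside (reg : V → Finset X) (I : Finset X) : Finset V :=
  univ.filter fun g => reg g ⊆ I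

omit [Fintype V] in
open Classical in
lemma card_touch [Fintype V] (hL : Layout E H J c reg) {A : Finset X} (hA : A ⊆ J) :
    (touch reg A).card ≤ c * A.card := by
  have h1 : touch reg A ⊆ A.biUnion fun x => univ.filter fun g => x ∈ reg g := by
    intro g hg
    obtain ⟨x, hx, hxA⟩ := (mem_filter.1 hg).2
    exact mem_biUnion.2 ⟨x, hxA, mem_filter.2 ⟨mem_univ _, hx⟩⟩
  refine (card_le_card h1).trans ?_
  rw [mul_comm]
  exact card_biUnion_le_card_mul _ _ _ fun x hx => hL.load x (hA hx)

/-- a neighbour of a vertex inside of a piece is inside, or meets the boundary -/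
lemma nbr_of_piece (hL : Layout E H J c reg) {p : Finset X × Finset X} (hp : Piece H J p)
    {h g : V} (hhg : E h g ∨ E g h) (hg : reg g ⊆ p.1) :
    reg h ⊆ p.1 ∨ ∃ x ∈ reg h, x ∈ p.2 := by
  by_cases hno : ∃ x ∈ reg h, x ∈ p.2
  · exact Or.inr hno
  · push Not at hno
    left
    obtain ⟨y, hy, x, hx, hxy⟩ : ∃ y ∈ reg h, ∃ x ∈ reg g, x = y ∨ H.Adj x y := by
      rcases hhg with h1 | h1
      · obtain ⟨x, hx, y, hy, hxy⟩ := hL.meet _ _ h1
        refine ⟨x, hx, y, hy, ?_⟩
        rcases hxy with h2 | h2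
        · exact Or.inl h2.symm
        · exact Or.inr h2.symm
      · obtain ⟨x, hx, y, hy, hxy⟩ := hL.meet _ _ h1
        exact ⟨y, hy, x, hx, hxy⟩
    have hy1 : y ∈ p.1 := by
      rcases hxy with h2 | h2
      · rw [← h2]; exact hg hx
      · rcases hp.closed x (hg hx) y (hL.sub h hy) h2 with h3 | h3
        · exact h3
        · exact absurd h3 (hno y hy)
    refine conn_subset (hL.conn h) hy hy1 ?_
    intro a ha ha1 b hb hab
    rcases hp.closed a ha1 b (hL.sub h hb) hab with h3 | h3
    · exact h3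
    · exact absurd h3 (hno b hb)

/-- a region with a cell in a piece is inside, or meets the boundary -/
lemma region_of_piece (hL : Layout E H J c reg) {p : Finset X × Finset X} (hp : Piece H J p)
    {g : V} {z : X} (hz : z ∈ reg g) (hz1 : z ∈ p.1 ∨ z ∈ p.2) :
    reg g ⊆ p.1 ∨ ∃ x ∈ reg g, x ∈ p.2 := by
  by_cases hno : ∃ x ∈ reg g, x ∈ p.2
  · exact Or.inr hno
  · push Not at hno
    left
    have h1 : z ∈ p.1 := hz1.resolve_right (hno z hz)
    refine conn_subset (hL.conn g) hz h1 ?_
    intro a ha ha1 b hb hab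
    rcases hp.closed a ha1 b (hL.sub g hb) hab with h3 | h3
    · exact h3
    · exact absurd h3 (hno b hb)

/-- **The division of a graph that is laid out in a host graph with small separators.** -/
theorem exists_pieces (K : ℝ) {α : ℝ} (hα : 0 < α) (hα1 : α < 1) :
    ∃ C₁ C₂ : ℝ, 1 ≤ C₁ ∧ 1 ≤ C₂ ∧ ∀ (X : Type) (H : SimpleGraph X), HasWSep H K α →
      ∀ (V : Type) [Fintype V] (E : V → V → Prop) (J : Finset X)
      (c : ℕ) (reg : V → Finset X), Layout E H J c reg →
      ∀ (r : V → ℕ) (s w : ℝ), 1 ≤ s → 0 < w →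
      ∃ L : List (Finset V × Finset V),
        (∀ p ∈ L, Closed E p.1 p.2 ∧ (p.2.card : ℝ) ≤ C₁ * (c * s ^ α) ∧
          ((∑ g ∈ p.1, r g : ℕ) : ℝ) ≤ w) ∧
        (∀ g, ∃ p ∈ L, g ∈ p.1 ∨ g ∈ p.2) ∧
        (L.length : ℝ) ≤ C₂ * (J.card / s + ((∑ g, r g : ℕ) : ℝ) / w + 1) := by
  classical
  obtain ⟨C₁, C₂, hC1, hC2, hdiv⟩ := division K hα hα1
  refine ⟨C₁, C₂, hC1, hC2, ?_⟩
  intro X H h V _ E J c reg hL r s w hs hw
  choose z hz using fun g => hL.nonempty g
  obtain ⟨a, ha⟩ : ∃ a : X → ℝ, ∀ x, a x = ((∑ g ∈ univ.filter (fun g => z g = x), r g : ℕ) : ℝ) :=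
    ⟨_, fun _ => rfl⟩
  obtain ⟨L, h1, h2, h3⟩ := hdiv X H h a (fun v => by rw [ha]; positivity) s w hs hw J
  have hsum : ∑ x ∈ J, a x = ((∑ g, r g : ℕ) : ℝ) := by
    simp only [ha]
    rw [← Nat.cast_sum]
    congr 1
    exact sum_fiberwise_of_maps_to (fun g _ => hL.sub g (hz g)) _
  rw [hsum] at h3
  refine ⟨L.map fun p => (inside reg p.1, touch reg p.2), ?_, ?_, ?_⟩
  · intro q hq
    obtain ⟨p, hp, rfl⟩ := List.mem_map.1 hq
    obtain ⟨hp1, hp2, hp3⟩ := h1 p hp
    refine ⟨?_, ?_, ?_⟩
    · intro h g hhg hg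
      have hg' : reg g ⊆ p.1 := (mem_filter.1 hg).2
      rcases nbr_of_piece hL hp1 (Or.inl hhg) hg' with h4 | h4
      · exact Or.inl (mem_filter.2 ⟨mem_univ _, h4⟩)
      · exact Or.inr (mem_filter.2 ⟨mem_univ _, h4⟩)
    · have h4 : ((touch reg p.2).card : ℝ) ≤ c * p.2.card := by
        exact_mod_cast card_touch hL hp1.subA
      calc ((touch reg p.2).card : ℝ) ≤ c * p.2.card := h4
        _ ≤ c * (C₁ * s ^ α) := mul_le_mul_of_nonneg_left hp2 (Nat.cast_nonneg _)
        _ = _ := by ring
    · refine le_trans ?_ hp3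
      simp only [ha]
      rw [← Nat.cast_sum]
      norm_cast
      rw [← sum_fiberwise_of_maps_to (s := inside reg p.1) (t := p.1) (g := z)
        (fun g hg => (mem_filter.1 hg).2 (hz g))]
      apply sum_le_sum
      intro x _
      apply sum_le_sum_of_subset
      intro g hg
      rw [mem_filter] at hg ⊢
      exact ⟨mem_univ _, hg.2⟩
  · intro g
    obtain ⟨p, hp, hp2⟩ := h2 (z g) (hL.sub g (hz g))
    refine ⟨_, List.mem_map.2 ⟨p, hp, rfl⟩, ?_⟩
    rcases region_of_piece hL (h1 p hp).1 (hz g) hp2 with h4 | h4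
    · exact Or.inl (mem_filter.2 ⟨mem_univ _, h4⟩)
    · exact Or.inr (mem_filter.2 ⟨mem_univ _, h4⟩)
  · rw [List.length_map]
    exact h3

end Pool.Agent.U286.LY
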