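import Mathlib
import Pool.Agent.U286.LY.Rout
import Pool.Agent.U286.LY.Lat
import Pool.Agent.U514.PD.ApspCor

/-!
# All-pairs shortest paths by circuits that are laid out in a host graph
-/

set_option autoImplicit false

namespace Pool.Agent.U286.LY

open Finset
open Pool.Agent.Y631.Tr
open Pool.Agent.U514.PD (Divided base base_le base_pos apsp_det3 log_small reads_le_of_arity)
open Pool.Agent.H537R2.Apsp (Graph)
open Pool.Agent.H537R2.Apsr

/-- The pieces of a circuit that is laid out in a host graph. -/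
theorem exists_divided {K α θ : ℝ} (hK : 0 ≤ K) (hα : 0 < α) (hα1 : α < 1) (hθ0 : 0 ≤ θ)
    (hθ : θ < 1) :
    ∃ C₁ C₂ : ℝ, 1 ≤ C₁ ∧ 1 ≤ C₂ ∧ ∀ (ι ω A : Type) (C : Net ι ω A) (v c : ℕ),
      LaidOut C.Joined K α θ v c → ∀ (s : ℝ) (w β ν : ℕ), 1 ≤ s → 0 < w →
      C₁ * (c * s ^ α) ≤ β → C₂ * (v / s + (C.reads : ℝ) / w + 1) ≤ ν → Divided C β w ν := by
  obtain ⟨C₁, C₂, h1, h2, h⟩ := exists_pieces (K / (1 - θ ^ α)) hα hα1
  refine ⟨C₁, C₂, h1, h2, ?_⟩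
  rintro ι ω A C v c ⟨X, H, J, reg, hH, hJ, hL⟩ s w β ν hs hw hβ hν
  obtain ⟨L, h3, h4, h5⟩ := h X H (hH.weighted hK hα hθ0 hθ) (Fin C.size) C.Joined J c reg hL
    C.readsAt s w hs (by exact_mod_cast hw)
  refine ⟨L, ?_, h4, ?_⟩
  · intro p hp
    obtain ⟨h6, h7, h8⟩ := h3 p hp
    refine ⟨h6, ?_, by exact_mod_cast h8⟩
    have h9 := h7.trans hβ
    exact_mod_cast h9
  · have h6 : (J.card : ℝ) / s ≤ v / s := by
      have : (J.card : ℝ) ≤ v := by exact_mod_cast hJ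
      have hs0 : 0 < s := by linarith
      gcongr
    have h7 : (L.length : ℝ) ≤ ν := by
      refine h5.trans (le_trans ?_ hν)
      apply mul_le_mul_of_nonneg_left _ (by linarith)
      have : ((∑ g, C.readsAt g : ℕ) : ℝ) = C.reads := rfl
      rw [this]
      linarith
    exact_mod_cast h7

/-- Random circuits are not better than deterministic ones. -/
theorem apsp_random {N S T t b : ℕ} (hN : 64 ≤ Nat.log 2 N) (hS : Nat.log 2 N ≤ S)
    (hT : N ^ 2 ≤ T) (h2 : 2 ^ 68 * (T * S * (Nat.log 2 N) ^ 10) ≤ N ^ 4)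
    (hSt : b * (t + 1) + Nat.log 2 N ≤ S)
    (R : Type) [Fintype R] (A : R → Type) [∀ i, Fintype (A i)]
    (C : (i : R) → Net (Fin N × Fin N) (Fin N × Fin N) (A i)) (inp : (i : R) → ℕ∞ → A i)
    (dec : (i : R) → A i → ℕ∞)
    (hσ : ∀ i, Fintype.card (A i) ≤ 2 ^ b ∧
      Divided (C i) (2 * (t + 1)) (4 * base N) (T / base N + 1))
    (hP : ∀ w : Graph N, (∀ p, w p = 1 ∨ w p = ⊤) →
        Nat.card R < 2 * Nat.card {i : R // NetDist (C i) (inp i) (dec i) w}) : False := by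
  classical
  obtain ⟨c, m, ℓ, K, e, he, hdet⟩ := apsp_det3 (S := S) (T := T) hN hS hT h2
  set X := Jx c (2 ^ ℓ) → Fin (2 ^ m)
  have h1 : ∀ i : R, 2 * Nat.card {x : X // NetDist (C i) (inp i) (dec i) (graph K e x)} ≤
      Nat.card X := by
    intro i
    obtain ⟨hi1, hi2⟩ := hσ i
    exact hdet (A i) (C i) (inp i) (dec i) t b hi2 hi1 hSt
  have h2 : ∀ x : X, Nat.card R < 2 * Nat.card {i : R // NetDist (C i) (inp i) (dec i)
      (graph K e x)} := fun x => hP _ fun p => graph_eq K e x p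
  have h3 : ∑ x : X, Nat.card {i : R // NetDist (C i) (inp i) (dec i) (graph K e x)} =
      ∑ i : R, Nat.card {x : X // NetDist (C i) (inp i) (dec i) (graph K e x)} := by
    simp only [Nat.card_eq_fintype_card, Fintype.card_subtype, Finset.card_filter]
    exact sum_comm
  have h4 : ∑ _x : X, Nat.card R <
      ∑ x : X, 2 * Nat.card {i : R // NetDist (C i) (inp i) (dec i) (graph K e x)} := by
    apply sum_lt_sum_of_nonempty
    · exact ⟨fun _ => ⟨0, by positivity⟩, mem_univ _⟩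
    · intro x _
      exact h2 x
  have h5 : 2 * ∑ i : R, Nat.card {x : X // NetDist (C i) (inp i) (dec i) (graph K e x)} ≤
      Nat.card R * Fintype.card X := by
    rw [mul_sum]
    calc _ ≤ ∑ _i : R, Fintype.card X := by
          apply sum_le_sum
          intro i _
          have := h1 i
          rwa [Nat.card_eq_fintype_card (α := X)] at this
      _ = _ := by rw [sum_const, card_univ, smul_eq_mul, Nat.card_eq_fintype_card (α := R)]
  rw [← mul_sum, h3] at h4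
  rw [sum_const, card_univ, smul_eq_mul] at h4
  rw [mul_comm] at h4
  omega

/-- the two cases of the choice of the size of the pieces -/
lemma combine {α N M Q v s : ℝ} (hα : 0 < α) (hα1 : α < 1) (hN : 1 ≤ N) (hM : 1 ≤ M) (hv : 0 ≤ v)
    (hQ : N ^ 2 ≤ Q) (hs : s = max 1 (v * N ^ 2 / Q)) (h : N ^ 4 ≤ M * (Q * s ^ α)) :
    N ^ (4 - 2 * α) ≤ M * (Q ^ (1 - α) * (v + N ^ 2) ^ α) := by
  have hN0 : 0 < N := by linarith
  have hN2 : (0 : ℝ) < N ^ 2 := by positivity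
  have hQ0 : 0 < Q := by linarith
  have hM0 : 0 < M := by linarith
  have hMα : M ^ (1 - α) ≤ M := by
    calc M ^ (1 - α) ≤ M ^ (1 : ℝ) := Real.rpow_le_rpow_of_exponent_le hM (by linarith)
      _ = M := Real.rpow_one M
  have hQQ : Q ^ (1 - α) * Q ^ α = Q := by
    rw [← Real.rpow_add hQ0, show 1 - α + α = 1 by ring, Real.rpow_one]
  have h2α : (N ^ 2) ^ α = N ^ (2 * α) := by
    rw [← Real.rpow_natCast N 2, ← Real.rpow_mul hN0.le]
    norm_num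
  have hN4 : N ^ (4 - 2 * α) * N ^ (2 * α) = N ^ 4 := by
    rw [← Real.rpow_add hN0, show 4 - 2 * α + 2 * α = ((4 : ℕ) : ℝ) by push_cast; ring,
      Real.rpow_natCast]
  have hpos : 0 < N ^ (2 * α) := Real.rpow_pos_of_pos hN0 _
  have key : N ^ 4 ≤ M * (Q ^ (1 - α) * (v + N ^ 2) ^ α) * N ^ (2 * α) := by
    rcases le_total 1 (v * N ^ 2 / Q) with h1 | h1
    · rw [max_eq_right h1] at hs
      calc N ^ 4 ≤ M * (Q * s ^ α) := h
        _ = M * (Q ^ (1 - α) * (v ^ α * N ^ (2 * α))) := by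
            rw [hs, Real.div_rpow (by positivity) hQ0.le, Real.mul_rpow hv hN2.le, h2α]
            have hQα : Q ^ α ≠ 0 := (Real.rpow_pos_of_pos hQ0 _).ne'
            nth_rewrite 1 [← hQQ]
            field_simp
        _ ≤ M * (Q ^ (1 - α) * ((v + N ^ 2) ^ α * N ^ (2 * α))) := by
            have h2 : v ^ α ≤ (v + N ^ 2) ^ α := Real.rpow_le_rpow hv (by linarith) hα.le
            have h3 : 0 ≤ Q ^ (1 - α) := Real.rpow_nonneg hQ0.le _
            gcongr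
        _ = _ := by ring
    · rw [max_eq_left h1] at hs
      rw [hs, Real.one_rpow, mul_one] at h
      have h4 : (N ^ 4) ^ (1 - α) * (N ^ 4) ^ α = N ^ 4 := by
        rw [← Real.rpow_add (by positivity), show 1 - α + α = 1 by ring, Real.rpow_one]
      calc N ^ 4 = (N ^ 4) ^ (1 - α) * (N ^ 4) ^ α := h4.symm
        _ ≤ (M * Q) ^ (1 - α) * (N ^ 4) ^ α := by
            apply mul_le_mul_of_nonneg_right _ (by positivity)
            exact Real.rpow_le_rpow (by positivity) h (by linarith)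
        _ = M ^ (1 - α) * Q ^ (1 - α) * (N ^ (2 * α) * (N ^ 2) ^ α) := by
            have h5 : (N ^ 4) ^ α = N ^ (2 * α) * (N ^ 2) ^ α := by
              rw [← h2α, ← Real.mul_rpow hN2.le hN2.le]
              congr 1
              ring
            rw [Real.mul_rpow hM0.le hQ0.le, h5]
        _ ≤ M * Q ^ (1 - α) * (N ^ (2 * α) * (v + N ^ 2) ^ α) := by
            have h2 : (N ^ 2) ^ α ≤ (v + N ^ 2) ^ α :=
              Real.rpow_le_rpow (by positivity) (by linarith) hα.le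
            have h3 : 0 ≤ Q ^ (1 - α) := Real.rpow_nonneg hQ0.le _
            gcongr
        _ = _ := by ring
  have h5 : N ^ (4 - 2 * α) * N ^ (2 * α) ≤ M * (Q ^ (1 - α) * (v + N ^ 2) ^ α) * N ^ (2 * α) := by
    rw [hN4]; exact key
  exact le_of_mul_le_mul_right h5 hpos

/-- **Random circuits laid out in host graphs with small separators.** -/
theorem apsp_hosts {K α θ : ℝ} (hK : 0 ≤ K) (hα : 0 < α) (hα1 : α < 1) (hθ0 : 0 ≤ θ)
    (hθ : θ < 1) : ∃ M : ℝ, 1 ≤ M ∧ ∀ᶠ N : ℕ in Filter.atTop, ∀ (b c r v : ℕ), 1 ≤ b →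
    ∀ (R : Type) [Fintype R] (A : R → Type) [∀ i, Fintype (A i)]
    (C : (i : R) → Net (Fin N × Fin N) (Fin N × Fin N) (A i)) (inp : (i : R) → ℕ∞ → A i)
    (dec : (i : R) → A i → ℕ∞),
      (∀ i, Fintype.card (A i) ≤ 2 ^ b ∧ (C i).reads ≤ r ∧ LaidOut (C i).Joined K α θ v c) →
      (∀ w : Graph N, (∀ p, w p = 1 ∨ w p = ⊤) →
        Nat.card R < 2 * Nat.card {i : R // NetDist (C i) (inp i) (dec i) w}) →
      (N : ℝ) ^ (4 - 2 * α) ≤ M * (b * c * ((Nat.log 2 N : ℝ)) ^ 11) *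
        (((r : ℝ) + N ^ 2) ^ (1 - α) * ((v : ℝ) + N ^ 2) ^ α) := by
  classical
  obtain ⟨C₁, C₂, hC1, hC2, hdiv⟩ := exists_divided hK hα hα1 hθ0 hθ
  obtain ⟨A₀, hA₀⟩ : ∃ A₀ : ℕ, A₀ = ⌈3 * C₂⌉₊ := ⟨_, rfl⟩
  have hA1 : 3 * C₂ ≤ A₀ := by rw [hA₀]; exact Nat.le_ceil _
  have hA2 : 1 ≤ A₀ := by
    have : (1 : ℝ) ≤ A₀ := by linarith
    exact_mod_cast this
  obtain ⟨M, hM⟩ : ∃ M : ℝ, M = 2 ^ 68 * A₀ * (2 * C₁ + 1) := ⟨_, rfl⟩
  have hA1R : (1 : ℝ) ≤ A₀ := by exact_mod_cast hA2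
  have hM1 : 1 ≤ M := by
    rw [hM]
    have : (1 : ℝ) ≤ 2 ^ 68 * A₀ := by nlinarith
    nlinarith
  refine ⟨M, hM1, ?_⟩
  filter_upwards [Filter.eventually_ge_atTop (2 ^ 64)] with N hN b c r v hb R _ A _ C inp dec hσ hP
  have hN0 : 0 < N := lt_of_lt_of_le (by positivity) hN
  have hlog : 64 ≤ Nat.log 2 N := Nat.le_log_of_pow_le (by norm_num) hN
  obtain ⟨L, hL⟩ : ∃ L, L = Nat.log 2 N := ⟨_, rfl⟩
  rw [← hL] at hlog ⊢
  have hNR : (1 : ℝ) ≤ N := by exact_mod_cast hN0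
  have hLR : (1 : ℝ) ≤ L := by exact_mod_cast (by omega : 1 ≤ L)
  have hbR : (1 : ℝ) ≤ b := by exact_mod_cast hb
  -- there is a circuit, so `c` is positive
  have hc : 1 ≤ c := by
    have h1 := hP (fun _ => 1) (fun _ => Or.inl rfl)
    have h2 : 0 < Nat.card {i : R // NetDist (C i) (inp i) (dec i) (fun _ => 1)} := by omega
    obtain ⟨i, -⟩ := (Nat.card_pos_iff.1 h2).1
    obtain ⟨-, -, X, H, J, reg, -, -, hLay⟩ := hσ i
    exact hLay.pos ((C i).out (⟨0, hN0⟩, ⟨0, hN0⟩))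
  have hcR : (1 : ℝ) ≤ c := by exact_mod_cast hc
  obtain ⟨Q, hQ⟩ : ∃ Q : ℝ, Q = r + N ^ 2 := ⟨_, rfl⟩
  have hN2 : (0 : ℝ) < (N : ℝ) ^ 2 := by positivity
  have hrR : (0 : ℝ) ≤ r := Nat.cast_nonneg _
  have hvR : (0 : ℝ) ≤ v := Nat.cast_nonneg _
  have hQN : (N : ℝ) ^ 2 ≤ Q := by rw [hQ]; linarith
  have hQ0 : 0 < Q := by linarith
  obtain ⟨s, hs⟩ : ∃ s : ℝ, s = max 1 (v * N ^ 2 / Q) := ⟨_, rfl⟩
  have hs1 : 1 ≤ s := by rw [hs]; exact le_max_left _ _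
  have hs0 : 0 < s := by linarith
  have hsα : 1 ≤ s ^ α := Real.one_le_rpow hs1 hα.le
  obtain ⟨T, hT⟩ : ∃ T : ℕ, T = A₀ * (r + N ^ 2) := ⟨_, rfl⟩
  have hTR : (T : ℝ) = A₀ * Q := by rw [hT, hQ]; push_cast; ring
  obtain ⟨t, ht⟩ : ∃ t : ℕ, t + 1 = ⌈C₁ * (c * s ^ α)⌉₊ := by
    have h1 : 1 ≤ C₁ * (c * s ^ α) := by
      have : (1 : ℝ) ≤ c * s ^ α := by nlinarith
      nlinarith
    have h2 : 0 < ⌈C₁ * (c * s ^ α)⌉₊ := Nat.ceil_pos.2 (by linarith)
    exact ⟨⌈C₁ * (c * s ^ α)⌉₊ - 1, by omega⟩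
  have hcs : 1 ≤ c * s ^ α := by nlinarith
  have ht1 : C₁ * (c * s ^ α) ≤ (t + 1 : ℕ) := by rw [ht]; exact Nat.le_ceil _
  have ht2 : ((t + 1 : ℕ) : ℝ) ≤ 2 * C₁ * (c * s ^ α) := by
    rw [ht]
    have h1 := (Nat.ceil_lt_add_one (by positivity : 0 ≤ C₁ * (c * s ^ α))).le
    have h2 : 1 ≤ C₁ * (c * s ^ α) := by nlinarith
    linarith
  obtain ⟨S, hS⟩ : ∃ S : ℕ, S = b * (t + 1) + L := ⟨_, rfl⟩
  have hcon : ¬ (2 ^ 68 * (T * S * L ^ 10) ≤ N ^ 4) := by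
    intro h2
    rw [hL] at h2 hlog hS
    refine apsp_random (t := t) (b := b) (S := S) (T := T) hlog (by omega) ?_ h2 (by omega) R A C
      inp dec ?_ hP
    · rw [hT]
      calc N ^ 2 ≤ r + N ^ 2 := Nat.le_add_left _ _
        _ ≤ A₀ * (r + N ^ 2) := Nat.le_mul_of_pos_left _ hA2
    · intro i
      obtain ⟨hi1, hi2, hi3⟩ := hσ i
      refine ⟨hi1, hdiv _ _ _ (C i) v c hi3 s (4 * base N) (2 * (t + 1)) (T / base N + 1) hs1
        (Nat.mul_pos (by norm_num) (base_pos N)) ?_ ?_⟩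
      · refine ht1.trans ?_
        push_cast
        have : (0 : ℝ) ≤ t := Nat.cast_nonneg _
        linarith
      · have ha0 : (0 : ℝ) < base N := by exact_mod_cast base_pos N
        have haN : (base N : ℝ) ≤ N ^ 2 := by exact_mod_cast base_le hN0
        have h3 : (v : ℝ) / s ≤ Q / base N := by
          have h4 : (v : ℝ) * N ^ 2 / Q ≤ s := by rw [hs]; exact le_max_right _ _
          rw [div_le_iff₀ hQ0] at h4
          rw [div_le_div_iff₀ hs0 ha0]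
          calc (v : ℝ) * base N ≤ v * N ^ 2 := mul_le_mul_of_nonneg_left haN hvR
            _ ≤ s * Q := h4
            _ = Q * s := by ring
        have h4 : ((C i).reads : ℝ) / ((4 * base N : ℕ) : ℝ) ≤ Q / base N := by
          have h5 : ((C i).reads : ℝ) ≤ r := by exact_mod_cast hi2
          have h6 : ((C i).reads : ℝ) ≤ Q := by rw [hQ]; linarith
          push_cast
          apply div_le_div₀ hQ0.le h6 ha0
          linarith
        have h5 : 1 ≤ Q / base N := by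
          rw [le_div_iff₀ ha0]; linarith
        have h6 : (T : ℝ) / base N ≤ ((T / base N + 1 : ℕ) : ℝ) := by
          rw [div_le_iff₀ ha0]
          have h7 : T < (T / base N + 1) * base N := by
            rw [add_mul, one_mul]
            have := Nat.div_add_mod T (base N)
            have := Nat.mod_lt T (base_pos N)
            nlinarith
          exact_mod_cast h7.le
        calc C₂ * ((v : ℝ) / s + ((C i).reads : ℝ) / ((4 * base N : ℕ) : ℝ) + 1) ≤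
              C₂ * (3 * (Q / base N)) := by
                apply mul_le_mul_of_nonneg_left _ (by linarith)
                linarith
          _ = 3 * C₂ * (Q / base N) := by ring
          _ ≤ A₀ * (Q / base N) := mul_le_mul_of_nonneg_right hA1 (by positivity)
          _ = (T : ℝ) / base N := by rw [hTR]; ring
          _ ≤ _ := h6
  push Not at hcon
  have h1 : ((N : ℝ)) ^ 4 ≤ 2 ^ 68 * (T * S * L ^ 10) := by exact_mod_cast hcon.le
  have hSR : (S : ℝ) ≤ (2 * C₁ + 1) * (b * c * s ^ α * L) := by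
    rw [hS]
    push_cast at ht2 ⊢
    have h3 : (b : ℝ) * (t + 1) ≤ b * (2 * C₁ * (c * s ^ α)) :=
      mul_le_mul_of_nonneg_left ht2 (by linarith)
    have h4 : (b : ℝ) * (2 * C₁ * (c * s ^ α)) ≤ 2 * C₁ * (b * c * s ^ α * L) := by
      have h5 : 0 ≤ 2 * C₁ * (b * c * s ^ α) := by positivity
      calc (b : ℝ) * (2 * C₁ * (c * s ^ α)) = 2 * C₁ * (b * c * s ^ α) := by ring
        _ ≤ 2 * C₁ * (b * c * s ^ α) * L := le_mul_of_one_le_right h5 hLR
        _ = _ := by ring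
    have h5 : (L : ℝ) ≤ b * c * s ^ α * L := by
      have h6 : (1 : ℝ) ≤ b * (c * s ^ α) := by nlinarith
      have h7 : (L : ℝ) * 1 ≤ L * (b * (c * s ^ α)) := mul_le_mul_of_nonneg_left h6 (by linarith)
      calc (L : ℝ) = L * 1 := by ring
        _ ≤ L * (b * (c * s ^ α)) := h7
        _ = _ := by ring
    linarith
  have h2 : (N : ℝ) ^ 4 ≤ M * (b * c * (L : ℝ) ^ 11) * (Q * s ^ α) := by
    calc (N : ℝ) ^ 4 ≤ 2 ^ 68 * (T * S * L ^ 10) := h1
      _ ≤ 2 ^ 68 * (A₀ * Q * ((2 * C₁ + 1) * (b * c * s ^ α * L)) * L ^ 10) := by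
          rw [hTR]
          gcongr
      _ = _ := by rw [hM]; ring
  have hMM : 1 ≤ M * (b * c * (L : ℝ) ^ 11) := by
    have h3 : (1 : ℝ) ≤ b * c := by nlinarith
    have h4 : (1 : ℝ) ≤ (L : ℝ) ^ 11 := one_le_pow₀ hLR
    have h5 : (1 : ℝ) ≤ b * c * (L : ℝ) ^ 11 := by nlinarith
    nlinarith
  rw [hQ] at hs hQN h2
  exact combine hα hα1 hNR hMM hvR hQN hs h2

lemma size_le_of_layout {X : Type} {V : Type} [Fintype V] {E : V → V → Prop} {H : SimpleGraph X}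
    {J : Finset X} {c : ℕ} {reg : V → Finset X} (hL : Layout E H J c reg) :
    Fintype.card V ≤ c * J.card := by
  classical
  refine le_trans ?_ (card_touch hL (subset_refl J))
  rw [← card_univ]
  apply card_le_card
  intro g _
  obtain ⟨x, hx⟩ := hL.nonempty g
  exact mem_filter.2 ⟨mem_univ _, x, hx, hL.sub g hx⟩

/-- **The number of the cells** for circuits of bounded fan-in. -/
theorem apsp_volume {K α θ : ℝ} (hK : 0 ≤ K) (hα : 0 < α) (hα1 : α < 1) (hθ0 : 0 ≤ θ)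
    (hθ : θ < 1) (c₀ : ℕ) (ε : ℝ) (hε : 0 < ε) : ∀ᶠ N : ℕ in Filter.atTop,
    ∀ (A : Type) [Fintype A] (C : Net (Fin N × Fin N) (Fin N × Fin N) A) (inp : ℕ∞ → A)
      (dec : A → ℕ∞) (v : ℕ), Fintype.card A ≤ N ^ c₀ → (∀ g, C.arity g ≤ c₀) →
      LaidOut C.Joined K α θ v c₀ → (∀ w : Graph N, (∀ p, w p = 1 ∨ w p = ⊤) →
        NetDist C inp dec w) → (N : ℝ) ^ (4 - 2 * α - ε) ≤ v := by
  obtain ⟨M, hM1, hM⟩ := apsp_hosts hK hα hα1 hθ0 hθ
  obtain ⟨δ, hδ⟩ : ∃ δ : ℝ, δ = min ε (1 - α) / 2 := ⟨_, rfl⟩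
  have hδ0 : 0 < δ := by
    rw [hδ]
    have : 0 < min ε (1 - α) := lt_min hε (by linarith)
    linarith
  have hδ1 : 2 * δ ≤ ε := by
    rw [hδ]
    have : min ε (1 - α) ≤ ε := min_le_left _ _
    linarith
  have hδ2 : 2 * δ ≤ 1 - α := by
    rw [hδ]
    have : min ε (1 - α) ≤ 1 - α := min_le_right _ _
    linarith
  have hlarge : ∀ᶠ N : ℕ in Filter.atTop, (2 : ℝ) ≤ (N : ℝ) ^ δ :=
    ((tendsto_rpow_atTop hδ0).comp tendsto_natCast_atTop_atTop).eventually_ge_atTop 2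
  filter_upwards [hM, log_small (M * ((c₀ + 1) ^ 2 * (c₀ ^ 2 + 1))) 12 δ hδ0, hlarge,
    Filter.eventually_ge_atTop 1] with N h1 h2 h3 hN A _ C inp dec v hA hκ hlay hC
  have hN0 : (0 : ℝ) < N := by exact_mod_cast hN
  have hN1 : (1 : ℝ) ≤ N := by exact_mod_cast hN
  obtain ⟨L, hL⟩ : ∃ L, L = Nat.log 2 N := ⟨_, rfl⟩
  rw [← hL] at h1 h2
  have hb : Fintype.card A ≤ 2 ^ ((c₀ + 1) * (L + 1)) := by
    refine hA.trans ?_
    have h3 : N ≤ 2 ^ (L + 1) := by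
      rw [hL]; exact (Nat.lt_pow_succ_log_self (by norm_num) N).le
    calc N ^ c₀ ≤ (2 ^ (L + 1)) ^ c₀ := Nat.pow_le_pow_left h3 _
      _ = 2 ^ ((L + 1) * c₀) := by rw [pow_mul]
      _ ≤ _ := Nat.pow_le_pow_right (by norm_num) (by nlinarith)
  have hsize : C.size ≤ c₀ * v := by
    obtain ⟨X, H, J, reg, -, hJ, hLay⟩ := hlay
    have h4 := size_le_of_layout hLay
    rw [Fintype.card_fin] at h4
    exact h4.trans (Nat.mul_le_mul_left _ hJ)
  have hreads : C.reads ≤ c₀ ^ 2 * v := by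
    calc C.reads ≤ c₀ * C.size := reads_le_of_arity C c₀ hκ
      _ ≤ c₀ * (c₀ * v) := Nat.mul_le_mul_left _ hsize
      _ = c₀ ^ 2 * v := by ring
  have h4 := h1 ((c₀ + 1) * (L + 1)) c₀ (c₀ ^ 2 * v) v
    (Nat.mul_pos (Nat.succ_pos _) (Nat.succ_pos _)) Unit
    (fun _ => A) (fun _ => C) (fun _ => inp) (fun _ => dec)
    (fun _ => ⟨hb, hreads, hlay⟩)
    (fun w hw => by
      have : Nonempty {i : Unit // NetDist C inp dec w} := ⟨⟨(), hC w hw⟩⟩
      have h4 : 0 < Nat.card {i : Unit // NetDist C inp dec w} := Nat.card_pos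
      have h5 : Nat.card Unit = 1 := by simp
      omega)
  obtain ⟨V, hV⟩ : ∃ V : ℝ, V = v + N ^ 2 := ⟨_, rfl⟩
  have hv0 : (0 : ℝ) ≤ v := Nat.cast_nonneg _
  have hV0 : 0 < V := by rw [hV]; positivity
  have hc0 : (0 : ℝ) ≤ c₀ := Nat.cast_nonneg _
  have hL0 : (0 : ℝ) ≤ L := Nat.cast_nonneg _
  have h5 : (((c₀ ^ 2 * v : ℕ) : ℝ) + N ^ 2) ^ (1 - α) ≤ ((c₀ : ℝ) ^ 2 + 1) * V ^ (1 - α) := by
    have h6 : ((c₀ ^ 2 * v : ℕ) : ℝ) + N ^ 2 ≤ ((c₀ : ℝ) ^ 2 + 1) * V := by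
      rw [hV]
      push_cast
      have : (0 : ℝ) ≤ (c₀ : ℝ) ^ 2 * N ^ 2 := by positivity
      nlinarith
    calc (((c₀ ^ 2 * v : ℕ) : ℝ) + N ^ 2) ^ (1 - α) ≤ (((c₀ : ℝ) ^ 2 + 1) * V) ^ (1 - α) :=
          Real.rpow_le_rpow (by positivity) h6 (by linarith)
      _ = ((c₀ : ℝ) ^ 2 + 1) ^ (1 - α) * V ^ (1 - α) := Real.mul_rpow (by positivity) hV0.le
      _ ≤ ((c₀ : ℝ) ^ 2 + 1) * V ^ (1 - α) := by
          apply mul_le_mul_of_nonneg_right _ (by positivity)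
          calc ((c₀ : ℝ) ^ 2 + 1) ^ (1 - α) ≤ ((c₀ : ℝ) ^ 2 + 1) ^ (1 : ℝ) :=
                Real.rpow_le_rpow_of_exponent_le (by nlinarith) (by linarith)
            _ = _ := Real.rpow_one _
  have hVV : V ^ (1 - α) * V ^ α = V := by
    rw [← Real.rpow_add hV0, show 1 - α + α = 1 by ring, Real.rpow_one]
  have h6 : (N : ℝ) ^ (4 - 2 * α) ≤ (N : ℝ) ^ δ * V := by
    calc (N : ℝ) ^ (4 - 2 * α) ≤ _ := h4
      _ ≤ M * (((c₀ + 1) * (L + 1)) * (c₀ + 1) * ((L : ℝ) + 1) ^ 11) *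
            ((((c₀ : ℝ) ^ 2 + 1) * V ^ (1 - α)) * V ^ α) := by
          rw [← hV]
          push_cast
          push_cast at h5
          have hVα : 0 ≤ V ^ α := Real.rpow_nonneg hV0.le _
          gcongr <;> linarith
      _ = M * (((c₀ : ℝ) + 1) ^ 2 * (c₀ ^ 2 + 1)) * ((L : ℝ) + 1) ^ 12 * (V ^ (1 - α) * V ^ α) := by
          ring
      _ ≤ (N : ℝ) ^ δ * V := by
          rw [hVV]
          exact mul_le_mul_of_nonneg_right h2 hV0.le
  have h7 : (N : ℝ) ^ (4 - 2 * α) = (N : ℝ) ^ δ * (N : ℝ) ^ (4 - 2 * α - δ) := by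
    rw [← Real.rpow_add hN0]; congr 1; ring
  have hNδ : 0 < (N : ℝ) ^ δ := Real.rpow_pos_of_pos hN0 _
  have h8 : (N : ℝ) ^ (4 - 2 * α - δ) ≤ V := by
    rw [h7] at h6
    exact le_of_mul_le_mul_left h6 hNδ
  have h9 : (N : ℝ) ^ (4 - 2 * α - δ) = (N : ℝ) ^ δ * (N : ℝ) ^ (4 - 2 * α - 2 * δ) := by
    rw [← Real.rpow_add hN0]; congr 1; ring
  have h10 : (N : ℝ) ^ 2 ≤ (N : ℝ) ^ (4 - 2 * α - 2 * δ) := by
    rw [← Real.rpow_natCast (N : ℝ) 2]
    apply Real.rpow_le_rpow_of_exponent_le hN1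
    push_cast
    linarith
  have h11 : (N : ℝ) ^ (4 - 2 * α - ε) ≤ (N : ℝ) ^ (4 - 2 * α - 2 * δ) :=
    Real.rpow_le_rpow_of_exponent_le hN1 (by linarith)
  have h12 : 2 * (N : ℝ) ^ (4 - 2 * α - 2 * δ) ≤ (N : ℝ) ^ δ * (N : ℝ) ^ (4 - 2 * α - 2 * δ) :=
    mul_le_mul_of_nonneg_right h3 (by positivity)
  rw [h9] at h8
  rw [hV] at h8
  linarith

/-- **The volume of lattice layouts.** -/
theorem apsp_lattice (D c₀ : ℕ) (ε : ℝ) (hD : 2 ≤ D) (hε : 0 < ε) : ∀ᶠ N : ℕ in Filter.atTop,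
    ∀ (A : Type) [Fintype A] (C : Net (Fin N × Fin N) (Fin N × Fin N) A) (inp : ℕ∞ → A)
      (dec : A → ℕ∞) (J : Finset (Fin D → ℤ)) (reg : Fin C.size → Finset (Fin D → ℤ)),
      Fintype.card A ≤ N ^ c₀ → (∀ g, C.arity g ≤ c₀) →
      Layout C.Joined (lattice D) J c₀ reg → (∀ w : Graph N, (∀ p, w p = 1 ∨ w p = ⊤) →
        NetDist C inp dec w) → (N : ℝ) ^ (2 + 2 / (D : ℝ) - ε) ≤ J.card := by
  have hD0 : (2 : ℝ) ≤ D := by exact_mod_cast hD
  have h1 : 1 / (D : ℝ) ≤ 1 / 2 := one_div_le_one_div_of_le (by norm_num) hD0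
  have h2 : 1 / (3 * (D : ℝ)) ≤ 1 / 2 := one_div_le_one_div_of_le (by norm_num) (by linarith)
  have h3 : 0 < 1 / (D : ℝ) := by positivity
  have h4 : 0 < 1 / (3 * (D : ℝ)) := by positivity
  filter_upwards [apsp_volume (K := 3) (α := 1 - 1 / (D : ℝ)) (θ := 1 - 1 / (3 * (D : ℝ)))
    (by norm_num) (by linarith) (by linarith) (by linarith) (by linarith) c₀ ε hε] with
    N h A _ C inp dec J reg hA hκ hL hC
  have h5 := h A C inp dec J.card hA hκ
    ⟨_, lattice D, J, reg, hasSep_lattice (by omega), le_refl _, hL⟩ hC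
  rw [show 2 + 2 / (D : ℝ) - ε = 4 - 2 * (1 - 1 / (D : ℝ)) - ε by ring]
  exact h5

end Pool.Agent.U286.LY
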