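import Mathlib
import Pool.Agent.U286.LY.Apsp
import Pool.Agent.U514.PD.MvUp

/-!
# Matrix-vector products over a finite field by circuits that are laid out in a host graph
-/

set_option autoImplicit false

namespace Pool.Agent.U286.LY

open Finset Pool.Agent.Y631.Tr
open Pool.Agent.U514.PD (Divided mv_net3 reads_le_of_arity direct direct_spec)
open Pool.Agent.W896.MO (mv LG bad_count avg_exists)

/-- the two cases of the choice of the size of the pieces -/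
lemma combine_mv {α n m M Q v s : ℝ} (hα : 0 < α) (hα1 : α < 1) (hn : 1 ≤ n) (hm : 0 < m)
    (hM : 1 ≤ M) (hv : 0 ≤ v) (hQ : 0 < Q) (hs : s = max 1 (v * n / Q))
    (h : n ^ 2 * m ≤ M * (Q * s ^ α)) :
    n ^ (2 - α) * m ≤ M * (Q ^ (1 - α) * (v + n * m) ^ α) := by
  have hn0 : 0 < n := by linarith
  have hM0 : 0 < M := by linarith
  have hMα : M ^ (1 - α) ≤ M := by
    calc M ^ (1 - α) ≤ M ^ (1 : ℝ) := Real.rpow_le_rpow_of_exponent_le hM (by linarith)
      _ = M := Real.rpow_one M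
  have hQQ : Q ^ (1 - α) * Q ^ α = Q := by
    rw [← Real.rpow_add hQ, show 1 - α + α = 1 by ring, Real.rpow_one]
  have hnn : n ^ (2 - α) * n ^ α = n ^ 2 := by
    rw [← Real.rpow_add hn0, show 2 - α + α = ((2 : ℕ) : ℝ) by push_cast; ring,
      Real.rpow_natCast]
  have hpos : 0 < n ^ α := Real.rpow_pos_of_pos hn0 _
  have key : n ^ 2 * m ≤ M * (Q ^ (1 - α) * (v + n * m) ^ α) * n ^ α := by
    rcases le_total 1 (v * n / Q) with h1 | h1
    · rw [max_eq_right h1] at hs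
      calc n ^ 2 * m ≤ M * (Q * s ^ α) := h
        _ = M * (Q ^ (1 - α) * (v ^ α * n ^ α)) := by
            rw [hs, Real.div_rpow (by positivity) hQ.le, Real.mul_rpow hv hn0.le]
            have hQα : Q ^ α ≠ 0 := (Real.rpow_pos_of_pos hQ _).ne'
            nth_rewrite 1 [← hQQ]
            field_simp
        _ ≤ M * (Q ^ (1 - α) * ((v + n * m) ^ α * n ^ α)) := by
            have h2 : v ^ α ≤ (v + n * m) ^ α :=
              Real.rpow_le_rpow hv (by nlinarith) hα.le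
            have h3 : 0 ≤ Q ^ (1 - α) := Real.rpow_nonneg hQ.le _
            gcongr
        _ = _ := by ring
    · rw [max_eq_left h1] at hs
      rw [hs, Real.one_rpow, mul_one] at h
      have h4 : (n ^ 2 * m) ^ (1 - α) * (n ^ 2 * m) ^ α = n ^ 2 * m := by
        rw [← Real.rpow_add (by positivity), show 1 - α + α = 1 by ring, Real.rpow_one]
      calc n ^ 2 * m = (n ^ 2 * m) ^ (1 - α) * (n ^ 2 * m) ^ α := h4.symm
        _ ≤ (M * Q) ^ (1 - α) * (n ^ 2 * m) ^ α := by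
            apply mul_le_mul_of_nonneg_right _ (by positivity)
            exact Real.rpow_le_rpow (by positivity) h (by linarith)
        _ = M ^ (1 - α) * Q ^ (1 - α) * ((n * m) ^ α * n ^ α) := by
            have h5 : (n ^ 2 * m) ^ α = (n * m) ^ α * n ^ α := by
              rw [← Real.mul_rpow (by positivity) hn0.le]
              congr 1
              ring
            rw [Real.mul_rpow hM0.le hQ.le, h5]
        _ ≤ M * Q ^ (1 - α) * ((v + n * m) ^ α * n ^ α) := by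
            have h2 : (n * m) ^ α ≤ (v + n * m) ^ α :=
              Real.rpow_le_rpow (by positivity) (by linarith) hα.le
            have h3 : 0 ≤ Q ^ (1 - α) := Real.rpow_nonneg hQ.le _
            gcongr
        _ = _ := by ring
  have h5 : (n ^ (2 - α) * m) * n ^ α ≤ M * (Q ^ (1 - α) * (v + n * m) ^ α) * n ^ α := by
    calc (n ^ (2 - α) * m) * n ^ α = (n ^ (2 - α) * n ^ α) * m := by ring
      _ = n ^ 2 * m := by rw [hnn]
      _ ≤ _ := key
  exact le_of_mul_le_mul_right h5 hpos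

/-- **Random circuits laid out in host graphs.** -/
theorem mv_hosts {K α θ : ℝ} (hK : 0 ≤ K) (hα : 0 < α) (hα1 : α < 1) (hθ0 : 0 ≤ θ)
    (hθ : θ < 1) : ∃ M₀ : ℝ, 1 ≤ M₀ ∧ ∀ (F : Type) [Field F] [Fintype F] [DecidableEq F] (n : ℕ),
      32 ≤ n →
      ∀ (M : Fin n → Fin n → F), LG M → ∀ (m r c v π : ℕ) (R : Type) [Fintype R] [Nonempty R]
      (C : R → Net (Fin m × Fin n) (Fin m × Fin n) F),
      (∀ i, (C i).reads ≤ r ∧ LaidOut (C i).Joined K α θ v c) →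
      Nat.card R * Fintype.card F ^ (n * m) ≤ Fintype.card F ^ π *
        Nat.card {u : R × (Fin m × Fin n → F) // (C u.1).Computes u.2 (mv M u.2)} →
      (n : ℝ) ^ (2 - α) * m ≤ M₀ * ((π + 1) * c) *
        (((r : ℝ) + n) ^ (1 - α) * ((v : ℝ) + n * m) ^ α) := by
  classical
  obtain ⟨C₁, C₂, hC1, hC2, hdiv⟩ := exists_divided hK hα hα1 hθ0 hθ
  obtain ⟨M₀, hM₀⟩ : ∃ M₀ : ℝ, M₀ = 1072 * C₂ * (1 + 2 * C₁) := ⟨_, rfl⟩
  have hM1 : 1 ≤ M₀ := by
    rw [hM₀]
    nlinarith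
  refine ⟨M₀, hM1, ?_⟩
  intro F _ _ _ n hn M hM m r c v π R _ _ C hC hc
  rcases Nat.eq_zero_or_pos m with hm0 | hm0
  · subst hm0
    rw [Nat.cast_zero, mul_zero]
    positivity
  obtain ⟨i, hi⟩ := avg_exists (fun i v => (C i).Computes v (mv M v)) (Fintype.card F ^ π) (by
    rw [Nat.card_eq_fintype_card (α := Fin m × Fin n → F), Fintype.card_fun, Fintype.card_prod,
      Fintype.card_fin, Fintype.card_fin, mul_comm m n]
    exact hc)
  rw [Nat.card_eq_fintype_card (α := Fin m × Fin n → F), Fintype.card_fun, Fintype.card_prod,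
      Fintype.card_fin, Fintype.card_fin, mul_comm m n] at hi
  obtain ⟨hi1, hi2⟩ := hC i
  have hc1 : 1 ≤ c := by
    obtain ⟨X, H, J, reg, -, -, hLay⟩ := hi2
    exact hLay.pos ((C i).out (⟨0, hm0⟩, ⟨0, by omega⟩))
  obtain ⟨w, hw⟩ : ∃ w, w = n / 32 := ⟨_, rfl⟩
  have hw0 : 0 < w := by omega
  have hcR : (1 : ℝ) ≤ c := by exact_mod_cast hc1
  have hnR : (1 : ℝ) ≤ n := by exact_mod_cast (by omega : 1 ≤ n)
  have hn0 : (0 : ℝ) < n := by linarith
  have hmR : (0 : ℝ) < m := by exact_mod_cast hm0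
  have hrR : (0 : ℝ) ≤ r := Nat.cast_nonneg _
  have hvR : (0 : ℝ) ≤ v := Nat.cast_nonneg _
  have hπR : (0 : ℝ) ≤ π := Nat.cast_nonneg _
  have hwR : (0 : ℝ) < w := by exact_mod_cast hw0
  obtain ⟨Q, hQ⟩ : ∃ Q : ℝ, Q = r + n := ⟨_, rfl⟩
  have hQ0 : 0 < Q := by rw [hQ]; linarith
  obtain ⟨s, hs⟩ : ∃ s : ℝ, s = max 1 (v * n / Q) := ⟨_, rfl⟩
  have hs1 : 1 ≤ s := by rw [hs]; exact le_max_left _ _
  have hs0 : 0 < s := by linarith
  have hsα : 1 ≤ s ^ α := Real.one_le_rpow hs1 hα.le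
  have hcs : 1 ≤ c * s ^ α := by nlinarith
  obtain ⟨β, hβ⟩ : ∃ β : ℕ, β = ⌈C₁ * (c * s ^ α)⌉₊ := ⟨_, rfl⟩
  have hCcs : 1 ≤ C₁ * (c * s ^ α) := by nlinarith
  have hβ1 : C₁ * (c * s ^ α) ≤ β := by rw [hβ]; exact Nat.le_ceil _
  have hβ2 : (β : ℝ) ≤ 2 * C₁ * (c * s ^ α) := by
    rw [hβ]
    have h1 := (Nat.ceil_lt_add_one (by positivity : 0 ≤ C₁ * (c * s ^ α))).le
    linarith
  obtain ⟨ν, hν⟩ : ∃ ν : ℕ, ν = ⌈C₂ * (v / s + ((C i).reads : ℝ) / w + 1)⌉₊ := ⟨_, rfl⟩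
  have hd := hdiv _ _ _ (C i) v c hi2 s w β ν hs1 hw0 hβ1 (by rw [hν]; exact Nat.le_ceil _)
  have hνle : (ν : ℝ) ≤ 67 * C₂ * (Q / n) := by
    have h1 : (v : ℝ) / s ≤ Q / n := by
      have h4 : (v : ℝ) * n / Q ≤ s := by rw [hs]; exact le_max_right _ _
      rw [div_le_iff₀ hQ0] at h4
      rw [div_le_div_iff₀ hs0 hn0]
      linarith
    have h2 : ((C i).reads : ℝ) / w ≤ 64 * (Q / n) := by
      have h3 : ((C i).reads : ℝ) ≤ Q := by
        have : ((C i).reads : ℝ) ≤ r := by exact_mod_cast hi1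
        rw [hQ]; linarith
      have h4 : (n : ℝ) ≤ 64 * w := by exact_mod_cast (by omega : n ≤ 64 * w)
      rw [div_le_iff₀ hwR]
      have h5 : Q * n ≤ Q * (64 * w) := mul_le_mul_of_nonneg_left h4 hQ0.le
      have h6 : 64 * (Q / n) * w = Q * (64 * w) / n := by ring
      rw [h6, le_div_iff₀ hn0]
      nlinarith
    have h3 : 1 ≤ Q / n := by
      rw [le_div_iff₀ hn0, hQ]; linarith
    have h0 : 0 ≤ C₂ * (v / s + ((C i).reads : ℝ) / w + 1) := by positivity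
    have h4 := (Nat.ceil_lt_add_one h0).le
    rw [hν]
    refine h4.trans ?_
    have h5 : C₂ * (v / s + ((C i).reads : ℝ) / w + 1) ≤ C₂ * (66 * (Q / n)) := by
      apply mul_le_mul_of_nonneg_left _ (by linarith)
      linarith
    have h6 : 1 ≤ C₂ * (Q / n) := by nlinarith
    linarith
  have h1 := mv_net3 M hM (C i) β ν π (by rw [← hw]; exact hd) hi
  have h2 : (n : ℝ) * m ≤ 16 * (π + β + 1) * ν := by exact_mod_cast h1
  have h3 : (π : ℝ) + β + 1 ≤ (1 + 2 * C₁) * ((π + 1) * (c * s ^ α)) := by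
    have h4 : (π : ℝ) + 1 ≤ (π + 1) * (c * s ^ α) := le_mul_of_one_le_right (by linarith) hcs
    have h5 : 2 * C₁ * (c * s ^ α) ≤ 2 * C₁ * ((π + 1) * (c * s ^ α)) := by
      apply mul_le_mul_of_nonneg_left _ (by linarith)
      exact le_mul_of_one_le_left (by linarith) (by linarith)
    linarith
  have h4 : (n : ℝ) ^ 2 * m ≤ M₀ * ((π + 1) * c) * (Q * s ^ α) := by
    have h5 : (n : ℝ) * m ≤ 16 * ((1 + 2 * C₁) * ((π + 1) * (c * s ^ α))) *
        (67 * C₂ * (Q / n)) := by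
      refine h2.trans ?_
      apply mul_le_mul _ hνle (Nat.cast_nonneg _) (by positivity)
      linarith
    have h6 : (n : ℝ) * (n * m) ≤ n * (16 * ((1 + 2 * C₁) * ((π + 1) * (c * s ^ α))) *
        (67 * C₂ * (Q / n))) := mul_le_mul_of_nonneg_left h5 hn0.le
    calc (n : ℝ) ^ 2 * m = n * (n * m) := by ring
      _ ≤ _ := h6
      _ = _ := by
          rw [hM₀]
          field_simp
          ring
  have hMM : 1 ≤ M₀ * ((π + 1) * c) := by
    have h5 : (1 : ℝ) ≤ (π + 1) * c := by nlinarith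
    nlinarith
  rw [hQ] at hs hQ0 h4
  exact combine_mv hα hα1 hnR hmR hMM hvR hQ0 hs h4

/-- **Circuits of bounded fan-in laid out in a lattice.** -/
theorem mv_lattice {D : ℕ} (hD : 2 ≤ D) : ∃ M₁ : ℕ, ∀ (F : Type) [Field F] [Fintype F]
      [DecidableEq F] (n : ℕ), 32 ≤ n → ∀ (M : Fin n → Fin n → F), LG M → ∀ (κ c : ℕ), (M₁ * (c ^ 2 * (κ + 1))) ^ D < n →
      ∀ (C : Net (Fin n × Fin n) (Fin n × Fin n) F) (J : Finset (Fin D → ℤ))
        (reg : Fin C.size → Finset (Fin D → ℤ)), (∀ g, C.arity g ≤ κ) →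
      Layout C.Joined (lattice D) J c reg → (∀ v, C.Computes v (mv M v)) →
      n ^ (2 * D + 1) ≤ (M₁ * (c ^ 2 * (κ + 1)) * J.card) ^ D := by
  have hD0 : (2 : ℝ) ≤ D := by exact_mod_cast hD
  have hDpos : (0 : ℝ) < D := by linarith
  have h1 : 1 / (D : ℝ) ≤ 1 / 2 := one_div_le_one_div_of_le (by norm_num) hD0
  have h2 : 1 / (3 * (D : ℝ)) ≤ 1 / 2 := one_div_le_one_div_of_le (by norm_num) (by linarith)
  have h3 : 0 < 1 / (D : ℝ) := by positivity
  have h4 : 0 < 1 / (3 * (D : ℝ)) := by positivity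
  obtain ⟨M₀, hM1, hM₀⟩ := mv_hosts (K := 3) (α := 1 - 1 / (D : ℝ)) (θ := 1 - 1 / (3 * (D : ℝ)))
    (by norm_num) (by linarith) (by linarith) (by linarith) (by linarith)
  refine ⟨⌈2 * M₀⌉₊, ?_⟩
  obtain ⟨M₁, hM₁⟩ : ∃ M₁ : ℕ, M₁ = ⌈2 * M₀⌉₊ := ⟨_, rfl⟩
  rw [← hM₁]
  have hMM : 2 * M₀ ≤ M₁ := by rw [hM₁]; exact Nat.le_ceil _
  intro F _ _ _ n hn M hM κ c hnc C J reg hκ hL hC
  obtain ⟨α, hα⟩ : ∃ α : ℝ, α = 1 - 1 / (D : ℝ) := ⟨_, rfl⟩
  rw [← hα] at hM₀
  have hn0 : (0 : ℝ) < n := by exact_mod_cast (by omega : 0 < n)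
  have hn1 : (1 : ℝ) ≤ n := by exact_mod_cast (by omega : 1 ≤ n)
  have hsize : C.size ≤ c * J.card := by
    have h4 := size_le_of_layout hL
    rwa [Fintype.card_fin] at h4
  have hreads : C.reads ≤ κ * (c * J.card) :=
    (reads_le_of_arity C κ hκ).trans (Nat.mul_le_mul_left _ hsize)
  have h5 := hM₀ F n hn M hM n (κ * (c * J.card)) c J.card 0 Unit (fun _ => C)
    (fun _ => ⟨hreads, ⟨_, lattice D, J, reg, by rw [hα]; exact hasSep_lattice (by omega),
      le_refl _, hL⟩⟩) (by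
      have e0 : Nat.card {u : Unit × (Fin n × Fin n → F) // C.Computes u.2 (mv M u.2)} =
          Nat.card (Unit × (Fin n × Fin n → F)) := by
        apply Nat.card_congr
        exact Equiv.subtypeUnivEquiv fun u => hC u.2
      have e1 : Nat.card {u : Unit × (Fin n × Fin n → F) // C.Computes u.2 (mv M u.2)} =
          Fintype.card F ^ (n * n) := by
        rw [e0, Nat.card_eq_fintype_card, Fintype.card_prod, Fintype.card_unit, one_mul,
          Fintype.card_fun, Fintype.card_prod, Fintype.card_fin]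
      rw [e1, pow_zero, one_mul, Nat.card_eq_fintype_card, Fintype.card_unit, one_mul])
  obtain ⟨V, hV⟩ : ∃ V : ℝ, V = J.card + n * n := ⟨_, rfl⟩
  have hJ0 : (0 : ℝ) ≤ J.card := Nat.cast_nonneg _
  have hV0 : 0 < V := by rw [hV]; positivity
  have hc1 : 1 ≤ c := hL.pos (C.out (⟨0, by omega⟩, ⟨0, by omega⟩))
  have hcR : (1 : ℝ) ≤ c := by exact_mod_cast hc1
  have hκR : (0 : ℝ) ≤ κ := Nat.cast_nonneg _
  have hα1 : 0 ≤ 1 - α := by rw [hα]; linarith
  have hα0 : 0 ≤ α := by rw [hα]; linarith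
  have h6 : (((κ * (c * J.card) : ℕ) : ℝ) + n) ^ (1 - α) ≤ (c * (κ + 1)) * V ^ (1 - α) := by
    have h7 : ((κ * (c * J.card) : ℕ) : ℝ) + n ≤ (c * (κ + 1)) * V := by
      rw [hV]
      push_cast
      have e1 : (n : ℝ) ≤ n * n := by nlinarith
      have e2 : (0 : ℝ) ≤ c * J.card := by positivity
      have e3 : (n : ℝ) * n ≤ (c * (κ + 1)) * (n * n) := by
        apply le_mul_of_one_le_left (by positivity)
        nlinarith
      nlinarith
    calc _ ≤ ((c * (κ + 1)) * V) ^ (1 - α) := Real.rpow_le_rpow (by positivity) h7 hα1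
      _ = ((c : ℝ) * (κ + 1)) ^ (1 - α) * V ^ (1 - α) := Real.mul_rpow (by positivity) hV0.le
      _ ≤ (c * (κ + 1)) * V ^ (1 - α) := by
          apply mul_le_mul_of_nonneg_right _ (by positivity)
          calc ((c : ℝ) * (κ + 1)) ^ (1 - α) ≤ ((c : ℝ) * (κ + 1)) ^ (1 : ℝ) :=
                Real.rpow_le_rpow_of_exponent_le (by nlinarith) (by linarith)
            _ = _ := Real.rpow_one _
  have hVV : V ^ (1 - α) * V ^ α = V := by
    rw [← Real.rpow_add hV0, show 1 - α + α = 1 by ring, Real.rpow_one]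
  obtain ⟨A, hA⟩ : ∃ A : ℝ, A = M₀ * (c ^ 2 * (κ + 1)) := ⟨_, rfl⟩
  have hA0 : 0 < A := by rw [hA]; positivity
  have h7 : (n : ℝ) ^ (2 + 1 / (D : ℝ)) ≤ A * V := by
    have e1 : (n : ℝ) ^ (2 - α) * n = (n : ℝ) ^ (2 + 1 / (D : ℝ)) := by
      rw [← Real.rpow_add_one hn0.ne', hα]
      congr 1
      ring
    rw [← e1]
    calc _ ≤ _ := h5
      _ ≤ M₀ * ((((0 : ℕ) : ℝ) + 1) * c) * ((c * (κ + 1)) * V ^ (1 - α) * V ^ α) := by
          rw [← hV]
          apply mul_le_mul_of_nonneg_left _ (by positivity)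
          exact mul_le_mul_of_nonneg_right h6 (Real.rpow_nonneg hV0.le _)
      _ = M₀ * (c * (c * (κ + 1))) * (V ^ (1 - α) * V ^ α) := by push_cast; ring
      _ = _ := by rw [hVV, hA]; ring
  have hAM : 2 * A ≤ ((M₁ * (c ^ 2 * (κ + 1)) : ℕ) : ℝ) := by
    rw [hA]
    push_cast
    have : (0 : ℝ) ≤ c ^ 2 * (κ + 1) := by positivity
    nlinarith
  have h8 : (n : ℝ) ^ (2 + 1 / (D : ℝ)) = (n : ℝ) ^ 2 * (n : ℝ) ^ (1 / (D : ℝ)) := by
    rw [Real.rpow_add hn0]
    norm_cast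
  have h9 : ((n : ℝ) ^ (1 / (D : ℝ))) ^ D = n := by
    rw [← Real.rpow_natCast, ← Real.rpow_mul hn0.le, one_div, inv_mul_cancel₀ hDpos.ne',
      Real.rpow_one]
  have h10 : ((M₁ * (c ^ 2 * (κ + 1)) : ℕ) : ℝ) < (n : ℝ) ^ (1 / (D : ℝ)) := by
    by_contra hcon
    push Not at hcon
    have e1 : ((n : ℝ) ^ (1 / (D : ℝ))) ^ D ≤ (((M₁ * (c ^ 2 * (κ + 1)) : ℕ) : ℝ)) ^ D :=
      pow_le_pow_left₀ (by positivity) hcon D
    rw [h9] at e1
    have e2 : (n : ℕ) ≤ (M₁ * (c ^ 2 * (κ + 1))) ^ D := by exact_mod_cast e1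
    omega
  have h11 : (n : ℝ) * n ≤ J.card := by
    by_contra hcon
    push Not at hcon
    have e1 : A * V ≤ A * (2 * (n * n)) := by
      apply mul_le_mul_of_nonneg_left _ hA0.le
      rw [hV]; linarith
    have e2 : (n : ℝ) ^ 2 * (n : ℝ) ^ (1 / (D : ℝ)) ≤ (n : ℝ) ^ 2 * (2 * A) := by
      rw [← h8]
      calc _ ≤ A * V := h7
        _ ≤ A * (2 * (n * n)) := e1
        _ = _ := by ring
    have e3 := le_of_mul_le_mul_left e2 (by positivity)
    linarith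
  have h12 : (n : ℝ) ^ (2 + 1 / (D : ℝ)) ≤ ((M₁ * (c ^ 2 * (κ + 1)) : ℕ) : ℝ) * J.card := by
    calc _ ≤ A * V := h7
      _ ≤ A * (2 * J.card) := by
          apply mul_le_mul_of_nonneg_left _ hA0.le
          rw [hV]; linarith
      _ = 2 * A * J.card := by ring
      _ ≤ _ := mul_le_mul_of_nonneg_right hAM hJ0
  have h13 : ((n : ℝ) ^ (2 + 1 / (D : ℝ))) ^ D = (n : ℝ) ^ (2 * D + 1) := by
    rw [h8, mul_pow, h9, ← pow_mul, pow_succ]
  have h14 : (n : ℝ) ^ (2 * D + 1) ≤ (((M₁ * (c ^ 2 * (κ + 1)) * J.card : ℕ) : ℝ)) ^ D := by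
    rw [← h13]
    push_cast at h12 ⊢
    exact pow_le_pow_left₀ (by positivity) h12 D
  exact_mod_cast h14

/-- a graph without edges is laid out in the lattice -/
lemma layout_of_no_edges {D V : ℕ} (hD : 1 ≤ D) {E : Fin V → Fin V → Prop}
    (hE : ∀ a b, ¬ E a b) : ∃ (J : Finset (Fin D → ℤ)) (reg : Fin V → Finset (Fin D → ℤ)),
      J.card = V ∧ Layout E (lattice D) J 1 reg := by
  classical
  obtain ⟨f, hf⟩ : ∃ f : Fin V → (Fin D → ℤ), ∀ g i, f g i = (g : ℕ) := ⟨fun g _ => (g : ℕ),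
    fun _ _ => rfl⟩
  have hinj : Function.Injective f := by
    intro a b hab
    have h1 := congrFun hab ⟨0, hD⟩
    rw [hf, hf] at h1
    exact Fin.ext (by exact_mod_cast h1)
  refine ⟨univ.image f, fun g => {f g}, ?_, ?_, ?_, ?_, ?_⟩
  · rw [card_image_of_injective _ hinj, card_univ, Fintype.card_fin]
  · intro g
    have : Nonempty (({f g} : Finset (Fin D → ℤ)) : Set (Fin D → ℤ)) :=
      ⟨⟨f g, by simp⟩⟩
    refine SimpleGraph.Connected.mk ?_
    rintro ⟨a, ha⟩ ⟨b, hb⟩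
    have ha' : a = f g := by simpa using ha
    have hb' : b = f g := by simpa using hb
    subst ha'
    subst hb'
    exact SimpleGraph.Reachable.refl _
  · intro g x hx
    rw [mem_singleton] at hx
    rw [hx]
    exact mem_image_of_mem _ (mem_univ _)
  · intro x _
    have key : (univ.filter fun g : Fin V => x ∈ ({f g} : Finset (Fin D → ℤ))).card ≤ 1 := by
      rw [card_le_one]
      intro a ha b hb
      rw [mem_filter, mem_singleton] at ha hb
      exact hinj (ha.2.symm.trans hb.2)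
    convert key
  · intro a b hab
    exact absurd hab (hE a b)

end Pool.Agent.U286.LY
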