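import Mathlib
import Pool.Agent.Y631.WcC
import Pool.Agent.Y631.WcNum

/-!
# Word circuits: separated pairs

The variables of a word circuit belong to cells (`own`). The gates are divided into a boundary `B`
and parts. There is a set `P` of pairs and a family of matchings `s`: the pair `t` joins the cell
`e₁ t` to the cell `e₂ s t`. If every part reads few variables, then for one of the matchings there
are many pairs whose cells can be given to two different players.
-/

set_option autoImplicit false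

open Finset

namespace Pool.Agent.U286.LY

open Pool.Agent.Y631.Wc

variable {ι τ X Z : Type}

/-- the circuit whose variables are the cells -/
def mapVar (C : WCirc ι X Z) (own : ι → τ) : WCirc τ X Z where
  size := C.size
  vars := C.vars
  gates := C.gates
  vsrc := fun g a => own (C.vsrc g a)
  gsrc := C.gsrc
  rel := C.rel
  out := C.out
  acc := C.acc
  acyclic := C.acyclic

/-- **Choice of the sides for pairs.** -/
theorem sides_pairs {β : Type} [DecidableEq β] {s ρ : ℕ} (P : Finset β) (T1 T2 : β → Finset (Fin s))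
    (h1 : ∀ x ∈ P, (T1 x).card ≤ ρ) (h2 : ∀ x ∈ P, (T2 x).card ≤ ρ)
    (hd : ∀ x ∈ P, Disjoint (T1 x) (T2 x)) :
    ∃ J : Finset (Fin s), P.card ≤ 4 ^ ρ * (P.filter fun x => T1 x ⊆ J ∧ Disjoint (T2 x) J).card := by
  classical
  by_contra hcon
  push Not at hcon
  have h4 : ∀ p ∈ P, 2 ^ s ≤ 4 ^ ρ *
      (univ.filter fun J : Finset (Fin s) => T1 p ⊆ J ∧ Disjoint (T2 p) J).card := by
    intro p hp
    have hp3 := hd p hp
    have h5 : 2 ^ (s - (T1 p).card - (T2 p).card) ≤
        (univ.filter fun J : Finset (Fin s) => T1 p ⊆ J ∧ Disjoint (T2 p) J).card := by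
      have h6 : ((T1 p ∪ T2 p)ᶜ.powerset).card ≤
          (univ.filter fun J : Finset (Fin s) => T1 p ⊆ J ∧ Disjoint (T2 p) J).card := by
        apply Finset.card_le_card_of_injOn (fun K => K ∪ T1 p)
        · intro K hK
          rw [Finset.mem_coe, mem_powerset] at hK
          rw [Finset.mem_coe, mem_filter]
          refine ⟨mem_univ _, subset_union_right, ?_⟩
          rw [Finset.disjoint_left]
          intro j hj hj2
          rcases mem_union.1 hj2 with h | h
          · have := hK h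
            rw [mem_compl, mem_union] at this
            exact this (Or.inr hj)
          · exact Finset.disjoint_left.1 hp3 h hj
        · intro K hK K' hK' hKK
          rw [Finset.mem_coe, mem_powerset] at hK hK'
          ext j
          have h7 : j ∈ K ∪ T1 p ↔ j ∈ K' ∪ T1 p := by
            have : K ∪ T1 p = K' ∪ T1 p := hKK
            rw [this]
          constructor
          · intro hj
            rcases mem_union.1 (h7.1 (mem_union_left _ hj)) with h | h
            · exact h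
            · have := hK hj
              rw [mem_compl, mem_union] at this
              exact absurd (Or.inl h) this
          · intro hj
            rcases mem_union.1 (h7.2 (mem_union_left _ hj)) with h | h
            · exact h
            · have := hK' hj
              rw [mem_compl, mem_union] at this
              exact absurd (Or.inl h) this
      rw [card_powerset, card_compl, Fintype.card_fin, card_union_of_disjoint hp3,
        ← Nat.sub_sub] at h6
      exact h6
    have h7 := h1 _ hp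
    have h8 := h2 _ hp
    calc 2 ^ s ≤ 2 ^ (2 * ρ + (s - (T1 p).card - (T2 p).card)) :=
          Nat.pow_le_pow_right (by norm_num) (by omega)
      _ = 4 ^ ρ * 2 ^ (s - (T1 p).card - (T2 p).card) := by
          rw [pow_add, pow_mul]
          norm_num
      _ ≤ _ := Nat.mul_le_mul_left _ h5
  have h9 : ∑ p ∈ P, (univ.filter fun J : Finset (Fin s) => T1 p ⊆ J ∧ Disjoint (T2 p) J).card =
      ∑ J : Finset (Fin s), (P.filter fun x => T1 x ⊆ J ∧ Disjoint (T2 x) J).card := by
    simp only [Finset.card_filter]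
    rw [Finset.sum_comm]
  have h11 : P.card * 2 ^ s ≤ 4 ^ ρ * ∑ p ∈ P, (univ.filter fun J : Finset (Fin s) =>
      T1 p ⊆ J ∧ Disjoint (T2 p) J).card := by
    rw [Finset.mul_sum, ← smul_eq_mul, ← Finset.sum_const]
    exact Finset.sum_le_sum h4
  have h12 : 4 ^ ρ * ∑ J : Finset (Fin s), (P.filter fun x => T1 x ⊆ J ∧ Disjoint (T2 x) J).card <
      P.card * 2 ^ s := by
    rw [Finset.mul_sum]
    calc _ < ∑ _J : Finset (Fin s), P.card :=
          Finset.sum_lt_sum_of_nonempty univ_nonempty (fun J _ => hcon J)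
      _ = _ := by
          rw [Finset.sum_const, card_univ, Fintype.card_finset, Fintype.card_fin, smul_eq_mul,
            mul_comm]
  rw [h9] at h11
  omega

/-- the number of cells which are read by gates of the set `S` -/
theorem card_read {β : Type} [Fintype β] (C : WCirc ι X Z) (own : ι → τ)
    (S : Finset (Fin C.size)) (f : β → τ) (hf : Function.Injective f) (Q : β → Prop)
    [DecidablePred Q] (hQ : ∀ t, Q t → ∃ g ∈ S, ∃ a, own (C.vsrc g a) = f t) :
    (univ.filter Q).card ≤ ∑ g ∈ S, C.vars g := by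
  classical
  rw [← card_image_of_injective _ hf]
  have h1 : (univ.filter Q).image f ⊆
      S.biUnion fun g => (univ : Finset (Fin (C.vars g))).image fun a => own (C.vsrc g a) := by
    intro i hi
    obtain ⟨t, ht, rfl⟩ := mem_image.1 hi
    obtain ⟨g, hg, a, ha⟩ := hQ t (mem_filter.1 ht).2
    rw [mem_biUnion]
    exact ⟨g, hg, mem_image.2 ⟨a, mem_univ _, ha⟩⟩
  refine (card_le_card h1).trans (card_biUnion_le.trans (Finset.sum_le_sum fun g _ => ?_))
  exact card_image_le.trans (by rw [card_univ, Fintype.card_fin])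

/-- the gates outside the boundary `B` are divided into `ν` parts such that wires outside `B` stay
in a part; each part reads at most `w` variables -/
structure Parts (C : WCirc ι X Z) (B : Finset (Fin C.size)) (part : Fin C.size → ℕ) (ν w : ℕ) :
    Prop where
  closed : ∀ h g, C.Joined h g → h ∉ B → g ∉ B → part h = part g
  lt : ∀ g, g ∉ B → part g < ν
  few : ∀ j, ∑ g ∈ univ.filter (fun g => g ∉ B ∧ part g = j), C.vars g ≤ w

/-- **Separated pairs.** -/
theorem separated {P S : Type} [Fintype P] [Fintype S] [Nonempty S] [DecidableEq ι]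
    [DecidableEq τ] (C : WCirc ι X Z) {κ R w ρ ν : ℕ} (hκ : C.FanIn κ) (hR : C.reads ≤ R)
    {B : Finset (Fin C.size)} {part : Fin C.size → ℕ} (hB : Parts C B part ν w) (own : ι → τ)
    (e₁ : P → τ) (e₂ : S → P → τ) (he₁ : Function.Injective e₁)
    (he₂ : ∀ s, Function.Injective (e₂ s)) (he₃ : ∀ t, Function.Injective fun s => e₂ s t)
    (hρ : 16 * R ≤ (ρ + 1) * Fintype.card P) (hw : 8 * (ρ * w) ≤ Fintype.card S)
    (hbig : 16 * (κ * B.card) ≤ Fintype.card P) :
    ∃ (s : S) (Q : Finset P), Fintype.card P ≤ 2 * 4 ^ ρ * Q.card ∧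
      ∀ (c : {g // g ∈ C.plus B} → Z) (x x' y : ι → X), x ∈ C.Cls B c → x' ∈ C.Cls B c →
        (∀ i, own i ∉ Q.image e₁ → own i ∉ Q.image (e₂ s) → x i = x' i) →
        (∀ i, own i ∈ Q.image e₁ → y i = x i) →
        (∀ i, own i ∉ Q.image e₁ → y i = x' i) → y ∈ C.Cls B c := by
  classical
  obtain ⟨C', hC'⟩ : ∃ C', C' = mapVar C own := ⟨_, rfl⟩
  obtain ⟨T, hT⟩ : ∃ T : τ → Finset (Fin ν), T = (mapVar C own).parts B part ν := ⟨_, rfl⟩
  have hreads : ∀ (g : Fin C.size) (e : τ), (mapVar C own).Reads g e ↔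
      ∃ a, own (C.vsrc g a) = e := fun g e => Iff.rfl
  have hTm : ∀ e j, j ∈ T e ↔ ∃ g, g ∉ B ∧ part g = j.1 ∧ ∃ a, own (C.vsrc g a) = e := by
    intro e j
    rw [hT]
    exact (mapVar C own).mem_parts B part ν e j
  have hTs : ∀ Y : Finset τ, ∑ e ∈ Y, (T e).card ≤ R := by
    intro Y
    rw [hT]
    exact ((mapVar C own).sum_parts B part ν Y).trans hR
  obtain ⟨M, hM⟩ : ∃ M, M = Fintype.card P := ⟨_, rfl⟩
  have hSpos : 0 < Fintype.card S := Fintype.card_pos
  rw [← hM] at hρ hbig ⊢
  -- cells which are read at the boundary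
  have hbd : ∀ f : P → τ, Function.Injective f →
      (univ.filter fun t => ∃ g ∈ B, ∃ a, own (C.vsrc g a) = f t).card ≤ κ * B.card := by
    intro f hf
    refine (card_read C own B f hf _ fun t h => h).trans ?_
    calc ∑ g ∈ B, C.vars g ≤ ∑ _g ∈ B, κ :=
          Finset.sum_le_sum (fun g _ => le_trans (Nat.le_add_right _ _) (hκ g))
      _ = κ * B.card := by rw [Finset.sum_const, smul_eq_mul, mul_comm]
  -- cells in many parts
  have hmany : ∀ f : P → τ, Function.Injective f →
      (univ.filter fun t => ρ < (T (f t)).card).card * 16 ≤ M := by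
    intro f hf
    have h8 : (univ.filter fun t => ρ < (T (f t)).card).card * (ρ + 1) ≤ R := by
      calc _ = ∑ _t ∈ univ.filter (fun t => ρ < (T (f t)).card), (ρ + 1) := by
            rw [Finset.sum_const, smul_eq_mul]
        _ ≤ ∑ t ∈ univ.filter (fun t => ρ < (T (f t)).card), (T (f t)).card :=
            Finset.sum_le_sum (fun i hi => (mem_filter.1 hi).2)
        _ ≤ ∑ t, (T (f t)).card := Finset.sum_le_sum_of_subset (filter_subset _ _)
        _ = ∑ e ∈ univ.image f, (T e).card := by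
            rw [Finset.sum_image (fun a _ b _ h => hf h)]
        _ ≤ R := hTs _
    have h10 : (ρ + 1) * ((univ.filter fun t => ρ < (T (f t)).card).card * 16) ≤ (ρ + 1) * M := by
      calc _ = 16 * ((univ.filter fun t => ρ < (T (f t)).card).card * (ρ + 1)) := by ring
        _ ≤ 16 * R := Nat.mul_le_mul_left _ h8
        _ ≤ _ := hρ
    exact Nat.le_of_mul_le_mul_left h10 (Nat.succ_pos _)
  -- the choice of the matching
  obtain ⟨s, hs⟩ : ∃ s : S, 8 * (univ.filter fun t : P =>
      (T (e₁ t)).card ≤ ρ ∧ ¬ Disjoint (T (e₁ t)) (T (e₂ s t))).card ≤ M := by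
    by_contra hcon
    push Not at hcon
    have h1 : ∑ s : S, (univ.filter fun t : P =>
        (T (e₁ t)).card ≤ ρ ∧ ¬ Disjoint (T (e₁ t)) (T (e₂ s t))).card ≤ M * (ρ * w) := by
      simp only [Finset.card_filter]
      rw [Finset.sum_comm]
      simp only [← Finset.card_filter]
      calc _ ≤ ∑ _t : P, ρ * w := by
            apply Finset.sum_le_sum
            intro t _
            by_cases ht : (T (e₁ t)).card ≤ ρ
            · have h2 : (univ.filter fun s : S =>
                  (T (e₁ t)).card ≤ ρ ∧ ¬ Disjoint (T (e₁ t)) (T (e₂ s t))) ⊆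
                  (T (e₁ t)).biUnion fun j => univ.filter fun s : S => j ∈ T (e₂ s t) := by
                intro s hs
                obtain ⟨j, hj1, hj2⟩ := Finset.not_disjoint_iff.1 (mem_filter.1 hs).2.2
                exact mem_biUnion.2 ⟨j, hj1, mem_filter.2 ⟨mem_univ _, hj2⟩⟩
              refine (card_le_card h2).trans ((card_biUnion_le_card_mul _ _ w fun j _ => ?_).trans
                (Nat.mul_le_mul_right _ ht))
              refine (card_read C own (univ.filter fun g => g ∉ B ∧ part g = j.1) _ (he₃ t) _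
                fun s hs => ?_).trans (hB.few j.1)
              obtain ⟨g, hg1, hg2, hg3⟩ := (hTm _ _).1 hs
              exact ⟨g, mem_filter.2 ⟨mem_univ _, hg1, hg2⟩, hg3⟩
            · rw [Finset.filter_false_of_mem (fun s _ h => ht h.1), card_empty]
              exact Nat.zero_le _
        _ = M * (ρ * w) := by
            rw [Finset.sum_const, smul_eq_mul, card_univ, hM]
    have h2 : Fintype.card S * M < ∑ s : S, 8 * (univ.filter fun t : P =>
        (T (e₁ t)).card ≤ ρ ∧ ¬ Disjoint (T (e₁ t)) (T (e₂ s t))).card := by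
      calc _ = ∑ _s : S, M := by rw [Finset.sum_const, smul_eq_mul, card_univ]
        _ < _ := Finset.sum_lt_sum_of_nonempty univ_nonempty fun s _ => hcon s
    rw [← Finset.mul_sum] at h2
    have h3 : Fintype.card S * M < Fintype.card S * M := by
      calc _ < _ := h2
        _ ≤ 8 * (M * (ρ * w)) := Nat.mul_le_mul_left _ h1
        _ = 8 * (ρ * w) * M := by ring
        _ ≤ _ := Nat.mul_le_mul_right _ hw
    exact lt_irrefl _ h3
  -- good pairs
  obtain ⟨G, hG⟩ : ∃ G : Finset P, G = univ.filter fun t =>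
    ((¬ ∃ g ∈ B, ∃ a, own (C.vsrc g a) = e₁ t) ∧ (¬ ∃ g ∈ B, ∃ a, own (C.vsrc g a) = e₂ s t)) ∧
    ((T (e₁ t)).card ≤ ρ ∧ (T (e₂ s t)).card ≤ ρ) ∧ Disjoint (T (e₁ t)) (T (e₂ s t)) := ⟨_, rfl⟩
  have hGm : ∀ t ∈ G, ((¬ ∃ g ∈ B, ∃ a, own (C.vsrc g a) = e₁ t) ∧
      (¬ ∃ g ∈ B, ∃ a, own (C.vsrc g a) = e₂ s t)) ∧
      ((T (e₁ t)).card ≤ ρ ∧ (T (e₂ s t)).card ≤ ρ) ∧ Disjoint (T (e₁ t)) (T (e₂ s t)) := by
    intro t ht
    rw [hG, mem_filter] at ht
    exact ht.2
  have hGc : M ≤ 2 * G.card := by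
    have h1 : (univ : Finset P) ⊆ G ∪
        (((univ.filter fun t => ∃ g ∈ B, ∃ a, own (C.vsrc g a) = e₁ t) ∪
          (univ.filter fun t => ∃ g ∈ B, ∃ a, own (C.vsrc g a) = e₂ s t)) ∪
        (((univ.filter fun t => ρ < (T (e₁ t)).card) ∪
          (univ.filter fun t => ρ < (T (e₂ s t)).card)) ∪
          (univ.filter fun t : P =>
            (T (e₁ t)).card ≤ ρ ∧ ¬ Disjoint (T (e₁ t)) (T (e₂ s t))))) := by
      intro t _
      simp only [mem_union, hG, mem_filter, mem_univ, true_and]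
      by_cases a1 : ∃ g ∈ B, ∃ a, own (C.vsrc g a) = e₁ t
      · exact Or.inr (Or.inl (Or.inl a1))
      by_cases a2 : ∃ g ∈ B, ∃ a, own (C.vsrc g a) = e₂ s t
      · exact Or.inr (Or.inl (Or.inr a2))
      by_cases a3 : (T (e₁ t)).card ≤ ρ
      · by_cases a4 : (T (e₂ s t)).card ≤ ρ
        · by_cases a5 : Disjoint (T (e₁ t)) (T (e₂ s t))
          · exact Or.inl ⟨⟨a1, a2⟩, ⟨a3, a4⟩, a5⟩
          · exact Or.inr (Or.inr (Or.inr ⟨a3, a5⟩))
        · exact Or.inr (Or.inr (Or.inl (Or.inr (by omega))))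
      · exact Or.inr (Or.inr (Or.inl (Or.inl (by omega))))
    have h2 := hbd e₁ he₁
    have h3 := hbd (e₂ s) (he₂ s)
    have h4 := hmany e₁ he₁
    have h5 := hmany (e₂ s) (he₂ s)
    have h6 := (card_le_card h1).trans ((card_union_le _ _).trans (Nat.add_le_add_left
      ((card_union_le _ _).trans (Nat.add_le_add (card_union_le _ _)
        ((card_union_le _ _).trans (Nat.add_le_add_right (card_union_le _ _) _)))) _))
    rw [card_univ, ← hM] at h6
    omega
  obtain ⟨J, hJ⟩ := sides_pairs (ρ := ρ) G (fun t => T (e₁ t)) (fun t => T (e₂ s t))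
    (fun t ht => (hGm t ht).2.1.1) (fun t ht => (hGm t ht).2.1.2) (fun t ht => (hGm t ht).2.2)
  obtain ⟨Q, hQ⟩ : ∃ Q, Q = G.filter fun x => T (e₁ x) ⊆ J ∧ Disjoint (T (e₂ s x)) J := ⟨_, rfl⟩
  rw [← hQ] at hJ
  have hQm : ∀ t ∈ Q, t ∈ G ∧ T (e₁ t) ⊆ J ∧ Disjoint (T (e₂ s t)) J := by
    intro t ht
    rw [hQ, mem_filter] at ht
    exact ht
  refine ⟨s, Q, ?_, ?_⟩
  · calc M ≤ 2 * G.card := hGc
      _ ≤ 2 * (4 ^ ρ * Q.card) := Nat.mul_le_mul_left _ hJ
      _ = _ := by ring
  · intro c x x' y hx hx' hxx hy1 hy2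
    refine C.mixing (B := B) (part := part) hB.closed
      (fun j => ∃ h : j < ν, (⟨j, h⟩ : Fin ν) ∈ J)
      {i | own i ∈ Q.image e₁} {i | own i ∈ Q.image (e₂ s)} ?_ ?_ ?_ hx hx'
      (fun i h h' => hxx i h h') (fun i hi => hy1 i hi) (fun i hi => hy2 i hi)
    · rintro g hg i ⟨a, hi⟩
      constructor
      · intro h
        obtain ⟨t, ht, he⟩ := mem_image.1 (show own i ∈ Q.image e₁ from h)
        exact (hGm t (hQm t ht).1).1.1 ⟨g, hg, a, by rw [hi, he]⟩
      · intro h
        obtain ⟨t, ht, he⟩ := mem_image.1 (show own i ∈ Q.image (e₂ s) from h)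
        exact (hGm t (hQm t ht).1).1.2 ⟨g, hg, a, by rw [hi, he]⟩
    · rintro g hg ⟨h, hJ'⟩ i ⟨a, hi⟩ h'
      obtain ⟨t, ht, he⟩ := mem_image.1 (show own i ∈ Q.image (e₂ s) from h')
      exact Finset.disjoint_left.1 (hQm t ht).2.2
        ((hTm (e₂ s t) _).2 ⟨g, hg, rfl, a, by rw [hi, he]⟩) hJ'
    · rintro g hg hJ' i ⟨a, hi⟩ h'
      obtain ⟨t, ht, he⟩ := mem_image.1 (show own i ∈ Q.image e₁ from h')
      apply hJ'
      have h7 : part g < ν := hB.lt g hg
      exact ⟨h7, (hQm t ht).2.1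
        ((hTm (e₁ t) ⟨part g, h7⟩).2 ⟨g, hg, rfl, a, by rw [hi, he]⟩)⟩

/-- There are inputs `inst a b` for which `F` says that `a` and `b` differ everywhere, where `a` is
written in the cells in `A` and `b` in the cells in `E`. -/
def HasInst (own : ι → τ) (F Good : (ι → X) → Prop) (k q : ℕ) (A E : Finset τ) : Prop :=
  ∃ inst : (Fin k → Fin q) → (Fin k → Fin q) → ι → X,
    (∀ a b b' i, own i ∉ E → inst a b i = inst a b' i) ∧
    (∀ a a' b i, own i ∉ A → inst a b i = inst a' b i) ∧ (∀ a b, Good (inst a b)) ∧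
    ∀ a b, F (inst a b) ↔ ∀ j, a j ≠ b j

/-- **The bounds.** -/
theorem bounds {P S : Type} [Fintype P] [Fintype S] [Nonempty S] [DecidableEq ι]
    [DecidableEq τ] [Fintype Z] (C : WCirc ι X Z) {κ R w ρ ν k q L K : ℕ} (hκ : C.FanIn κ)
    (hR : C.reads ≤ R)
    {B : Finset (Fin C.size)} {part : Fin C.size → ℕ} (hB : Parts C B part ν w) (own : ι → τ)
    (e₁ : P → τ) (e₂ : S → P → τ) (he₁ : Function.Injective e₁)
    (he₂ : ∀ s, Function.Injective (e₂ s)) (he₃ : ∀ t, Function.Injective fun s => e₂ s t)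
    (he₄ : ∀ s t t', e₁ t ≠ e₂ s t')
    (hρ : 16 * R ≤ (ρ + 1) * Fintype.card P) (hw : 8 * (ρ * w) ≤ Fintype.card S)
    (hk : 2 * 4 ^ ρ * k ≤ Fintype.card P) (hK : 16 * ((κ + 1) * B.card) ≤ K) (hq : 2 ≤ q)
    (hqL : q ≤ L) (hZ : Fintype.card Z ≤ L) (F Good : (ι → X) → Prop)
    (hinst : ∀ s (Q : Finset P), k ≤ Q.card →
      HasInst own F Good k q (Q.image e₁) (Q.image (e₂ s))) :
    ((∀ x, Good x → (C.Accepts x ↔ F x)) → 2 ^ k ≤ L ^ K) ∧
    (C.Unambiguous → (∀ x, Good x → (C.Accepts x ↔ F x)) → q ^ k ≤ L ^ K) ∧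
    (C.Unambiguous → (∀ x, Good x → (C.Accepts x ↔ ¬ F x)) → q ^ k ≤ L ^ K + 1) := by
  classical
  have hL1 : 1 ≤ L := by omega
  have h4pos : 0 < 2 * 4 ^ ρ := by positivity
  by_cases hbig : 16 * (κ * B.card) ≤ Fintype.card P
  · obtain ⟨s, Q, hQ, hmix⟩ := separated C hκ hR hB own e₁ e₂ he₁ he₂ he₃ hρ hw hbig
    have hkQ : k ≤ Q.card := Nat.le_of_mul_le_mul_left (hk.trans hQ) h4pos
    obtain ⟨inst, hi1, hi2, hgood, hF⟩ := hinst s Q hkQ
    have hAE : ∀ e, e ∈ Q.image e₁ → e ∉ Q.image (e₂ s) := by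
      intro e he he'
      obtain ⟨t, _, rfl⟩ := mem_image.1 he
      obtain ⟨t', _, h⟩ := mem_image.1 he'
      exact he₄ s t t' h.symm
    have hcl : Fintype.card ({g // g ∈ C.plus B} → Z) ≤ L ^ K := by
      rw [Fintype.card_fun, Fintype.card_coe]
      refine (Nat.pow_le_pow_left hZ _).trans (Nat.pow_le_pow_right hL1 ?_)
      have := C.card_plus B κ hκ
      omega
    have rect : ∀ (c : {g // g ∈ C.plus B} → Z) a b a' b', inst a b ∈ C.Cls B c →
        inst a' b' ∈ C.Cls B c → inst a b' ∈ C.Cls B c := by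
      intro c a b a' b' h1 h2
      apply hmix c _ _ _ h1 h2
      · intro i hiA hiE
        rw [hi1 a b b' i hiE]
        exact hi2 a a' b' i hiA
      · intro i hiA
        exact hi1 a b' b i (hAE _ hiA)
      · intro i hiA
        exact hi2 a a' b' i hiA
    have hacc : ∀ a b, (∃ c, inst a b ∈ C.Cls B c) ↔ C.Accepts (inst a b) := by
      intro a b
      constructor
      · rintro ⟨c, v, hv, ho, -⟩
        exact ⟨v, hv, ho⟩
      · rintro ⟨v, hv, ho⟩
        exact ⟨fun g => v g.1, v, hv, ho, fun _ => rfl⟩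
    have hdisj : C.Unambiguous → ∀ (c c' : {g // g ∈ C.plus B} → Z) a b, inst a b ∈ C.Cls B c →
        inst a b ∈ C.Cls B c' → c = c' := by
      rintro hU c c' a b ⟨v, hv, ho, hvc⟩ ⟨v', hv', ho', hvc'⟩
      have h1 := hU _ v v' hv ho hv' ho'
      funext g
      rw [← hvc, ← hvc', h1]
    refine ⟨fun hC => ?_, fun hU hC => ?_, fun hU hC => ?_⟩
    · refine (fool_bound (fun c a b => inst a b ∈ C.Cls B c) rect hq ?_).trans hcl
      intro a b
      rw [hacc, hC _ (hgood a b), hF]
    · refine (rank_bound (fun c a b => inst a b ∈ C.Cls B c) rect hq (hdisj hU) ?_).trans hcl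
      intro a b
      rw [hacc, hC _ (hgood a b), hF]
    · refine (rank_bound' (fun c a b => inst a b ∈ C.Cls B c) rect hq (hdisj hU) ?_).trans
        (Nat.succ_le_succ hcl)
      intro a b
      rw [hacc, hC _ (hgood a b), hF]
  · have hkM : k ≤ K := by
      push Not at hbig
      have h1 : 1 * k ≤ 2 * 4 ^ ρ * k := Nat.mul_le_mul_right _ h4pos
      have h2 : κ * B.card ≤ (κ + 1) * B.card := Nat.mul_le_mul_right _ (Nat.le_succ _)
      omega
    have h1 : q ^ k ≤ L ^ K := (Nat.pow_le_pow_left hqL _).trans (Nat.pow_le_pow_right hL1 hkM)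
    have h2 : 2 ^ k ≤ q ^ k := Nat.pow_le_pow_left hq _
    exact ⟨fun _ => h2.trans h1, fun _ _ => h1, fun _ _ => h1.trans (Nat.le_succ _)⟩

end Pool.Agent.U286.LY
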