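import Mathlib
import Pool.Agent.U286.LY.Mat

/-!
# Exact Triangle and word circuits: the instances

The vertices `0, …, N - 1` are on the left side, `N, …, 2 N - 1` on the right side, and
`2 N, …, 3 N - 1` are hubs. All vertices of the left side are joined to all of the right side, with
weight `0`, and all hubs are joined to both sides. The other vertices are isolated.
For the shift `s`, the left vertex `i` is the partner of the right vertex `N + (i + s) % N`. The
weight between `i` and the hub `2 N + c` is `(q + 1) i + x`, the weight between the partner of `i` and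
this hub is `-((q + 1) i + y)`; so the only triangles of weight zero consist of partners and a hub
with `x = y`.
-/

set_option autoImplicit false

open Finset

namespace Pool.Agent.U286.LY.ET

open Pool.Agent.Y631.Wc

/-- `x` is a valid instance of Exact Triangle on `n` vertices: the entry `x (i, j)` consists of the
edge flag and the weight. -/
def Valid (n : ℕ) (x : Fin n × Fin n → Bool × ℤ) : Prop :=
  (∀ i j, x (i, j) = x (j, i)) ∧ (∀ i, (x (i, i)).1 = false) ∧ ∀ i j, |(x (i, j)).2| ≤ (n : ℤ) ^ 300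

/-- there is a triangle of weight zero -/
def ZeroTriangle {n : ℕ} (x : Fin n × Fin n → Bool × ℤ) : Prop :=
  ∃ i j k : Fin n, i ≠ j ∧ j ≠ k ∧ i ≠ k ∧
    (x (i, j)).1 = true ∧ (x (j, k)).1 = true ∧ (x (i, k)).1 = true ∧
    (x (i, j)).2 + (x (j, k)).2 + (x (i, k)).2 = 0

/-- the flags -/
def flag (N u v : ℕ) : Bool :=
  decide ((u < N ∧ N ≤ v ∧ v < 3 * N) ∨ (N ≤ u ∧ u < 2 * N ∧ 2 * N ≤ v ∧ v < 3 * N))

/-- the left partner of the right vertex `v` -/
def partner (N s v : ℕ) : ℕ := (v - N + (N - s)) % N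

/-- the entry of the pair `u < v`, for the shift `s` and the letters `fa`, `fb` -/
def entry (N q s : ℕ) (fa fb : ℕ → ℕ → ℕ) (u v : ℕ) : Bool × ℤ :=
  (flag N u v,
    if flag N u v = true then
      if u < N then (if v < 2 * N then 0 else ((q : ℤ) + 1) * u + fa u (v - 2 * N))
      else -(((q : ℤ) + 1) * (partner N s u : ℕ) + fb (partner N s u) (v - 2 * N))
    else 0)

/-- the instance -/
def inst (n N q s : ℕ) (fa fb : ℕ → ℕ → ℕ) (p : Fin n × Fin n) : Bool × ℤ :=
  entry N q s fa fb (min p.1.1 p.2.1) (max p.1.1 p.2.1)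

lemma flag_iff (N u v : ℕ) : flag N u v = true ↔
    (u < N ∧ N ≤ v ∧ v < 3 * N) ∨ (N ≤ u ∧ u < 2 * N ∧ 2 * N ≤ v ∧ v < 3 * N) := by
  unfold flag
  rw [decide_eq_true_iff]

lemma partner_lt {N s v : ℕ} (hN : 0 < N) : partner N s v < N := Nat.mod_lt _ hN

lemma partner_shift {N s i : ℕ} (hi : i < N) (hs : s < N) : partner N s (N + (i + s) % N) = i := by
  unfold partner
  rw [Nat.add_sub_cancel_left]
  rcases Nat.lt_or_ge (i + s) N with h | h
  · rw [Nat.mod_eq_of_lt h, show i + s + (N - s) = i + N by omega, Nat.add_mod_right,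
      Nat.mod_eq_of_lt hi]
  · rw [Nat.mod_eq_sub_mod h, Nat.mod_eq_of_lt (by omega : i + s - N < N),
      show i + s - N + (N - s) = i by omega, Nat.mod_eq_of_lt hi]

lemma shift_partner {N s v : ℕ} (h1 : N ≤ v) (h2 : v < 2 * N) (hs : s < N) :
    N + (partner N s v + s) % N = v := by
  unfold partner
  rcases Nat.lt_or_ge (v - N + (N - s)) N with h | h
  · rw [Nat.mod_eq_of_lt h, show v - N + (N - s) + s = v by omega, Nat.mod_eq_sub_mod h1,
      Nat.mod_eq_of_lt (by omega : v - N < N)]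
    omega
  · rw [Nat.mod_eq_sub_mod h, Nat.mod_eq_of_lt (by omega : v - N + (N - s) - N < N),
      show v - N + (N - s) - N + s = v - N by omega, Nat.mod_eq_of_lt (by omega : v - N < N)]
    omega

/-- a triangle with increasing vertices -/
lemma exists_sorted {n : ℕ} {x : Fin n × Fin n → Bool × ℤ} (hx : ∀ i j, x (i, j) = x (j, i))
    (h : ZeroTriangle x) : ∃ i j k : Fin n, i < j ∧ j < k ∧
    (x (i, j)).1 = true ∧ (x (j, k)).1 = true ∧ (x (i, k)).1 = true ∧
    (x (i, j)).2 + (x (j, k)).2 + (x (i, k)).2 = 0 := by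
  obtain ⟨i, j, k, h1, h2, h3, h4, h5, h6, h7⟩ := h
  have e1 := hx i j
  have e2 := hx j k
  have e3 := hx i k
  rcases lt_or_gt_of_ne h1 with a | a <;> rcases lt_or_gt_of_ne h2 with b | b <;>
    rcases lt_or_gt_of_ne h3 with c | c
  · exact ⟨i, j, k, a, b, h4, h5, h6, h7⟩
  · exact absurd (a.trans b) (not_lt.2 c.le)
  · -- i < j, k < j, i < k
    exact ⟨i, k, j, c, b, h6, by rw [← e2]; exact h5, h4, by rw [← e2]; linarith⟩
  · -- k < i < j
    exact ⟨k, i, j, c, a, by rw [← e3]; exact h6, h4, by rw [← e2]; exact h5,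
      by rw [← e2, ← e3]; linarith⟩
  · -- j < i < k
    exact ⟨j, i, k, a, c, by rw [← e1]; exact h4, h6, h5, by rw [← e1]; linarith⟩
  · -- j < k < i
    exact ⟨j, k, i, b, c, h5, by rw [← e3]; exact h6, by rw [← e1]; exact h4,
      by rw [← e1, ← e3]; linarith⟩
  · exact absurd (b.trans a) (not_lt.2 c.le)
  · -- k < j < i
    exact ⟨k, j, i, b, a, by rw [← e2]; exact h5, by rw [← e1]; exact h4,
      by rw [← e3]; exact h6, by rw [← e1, ← e2, ← e3]; linarith⟩

lemma inst_of_lt {n N q s : ℕ} {fa fb : ℕ → ℕ → ℕ} {i j : Fin n} (h : i < j) :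
    inst n N q s fa fb (i, j) = entry N q s fa fb i j := by
  have h' : (i : ℕ) < j := h
  unfold inst
  rw [min_eq_left h'.le, max_eq_right h'.le]

lemma valid_inst {n N q s : ℕ} {fa fb : ℕ → ℕ → ℕ} (hN : 3 * N ≤ n) (hN1 : 1 ≤ N) (hq : q ≤ n)
    (ha : ∀ i c, fa i c ≤ q) (hb : ∀ i c, fb i c ≤ q) : Valid n (inst n N q s fa fb) := by
  refine ⟨fun i j => ?_, fun i => ?_, fun i j => ?_⟩
  · unfold inst
    simp only
    rw [min_comm, max_comm]
  · unfold inst entry
    simp only [min_self, max_self]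
    rw [Bool.eq_false_iff]
    intro h
    rw [flag_iff] at h
    omega
  · have key : ∀ (t y : ℕ), t < N → y ≤ q → |((q : ℤ) + 1) * t + y| ≤ (n : ℤ) ^ 300 := by
      intro t y ht hy
      rw [abs_of_nonneg (by positivity)]
      have h1 : (q + 1) * t + y ≤ n ^ 2 := by
        have h2 : t + 1 ≤ N := ht
        nlinarith
      have h2 : n ^ 2 ≤ n ^ 300 := Nat.pow_le_pow_right (by omega) (by norm_num)
      have h3 : (((q + 1) * t + y : ℕ) : ℤ) ≤ ((n ^ 300 : ℕ) : ℤ) := by
        exact_mod_cast h1.trans h2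
      push_cast at h3
      exact h3
    have h0 : |(0 : ℤ)| ≤ (n : ℤ) ^ 300 := by
      rw [abs_zero]; positivity
    unfold inst entry
    simp only
    split_ifs with h1 h2 h3
    · exact h0
    · exact key _ _ h2 (ha _ _)
    · rw [abs_neg]
      exact key _ _ (partner_lt hN1) (hb _ _)
    · exact h0

/-- the triangles of weight zero -/
lemma zero_iff {n N q s : ℕ} {fa fb : ℕ → ℕ → ℕ} (hN : 3 * N ≤ n) (hs : s < N)
    (ha : ∀ i c, fa i c ≤ q) (hb : ∀ i c, fb i c ≤ q) :
    ZeroTriangle (inst n N q s fa fb) ↔ ∃ i < N, ∃ c < N, fa i c = fb i c := by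
  constructor
  · intro h
    obtain ⟨i, j, k, hij, hjk, h1, h2, h3, h4⟩ := exists_sorted (fun i j => by
      unfold inst
      simp only
      rw [min_comm, max_comm]) h
    have hik := hij.trans hjk
    rw [inst_of_lt hij] at h1 h4
    rw [inst_of_lt hjk] at h2 h4
    rw [inst_of_lt hik] at h3 h4
    unfold entry at h1 h2 h3 h4
    simp only at h1 h2 h3 h4
    rw [if_pos h1, if_pos h2, if_pos h3] at h4
    rw [flag_iff] at h1 h2 h3
    have hij' : (i : ℕ) < j := hij
    have hjk' : (j : ℕ) < k := hjk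
    have hi : (i : ℕ) < N := by omega
    have hj1 : N ≤ (j : ℕ) := by omega
    have hj2 : (j : ℕ) < 2 * N := by omega
    have hk1 : 2 * N ≤ (k : ℕ) := by omega
    have hk2 : (k : ℕ) < 3 * N := by omega
    rw [if_pos hi, if_pos hj2, if_neg (by omega : ¬ (j : ℕ) < N), if_pos hi,
      if_neg (by omega : ¬ (k : ℕ) < 2 * N)] at h4
    obtain ⟨c, hc⟩ : ∃ c, c = (k : ℕ) - 2 * N := ⟨_, rfl⟩
    obtain ⟨t, ht⟩ : ∃ t, t = partner N s j := ⟨_, rfl⟩
    rw [← hc, ← ht] at h4
    have ha1 := ha i c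
    have hb1 := hb t c
    have h5 : (q + 1) * (i : ℕ) + fa i c = (q + 1) * t + fb t c := by
      zify
      linarith
    have h6 : (i : ℕ) = t := by
      have h7 : ((q + 1) * (i : ℕ) + fa i c) / (q + 1) = i := by
        rw [Nat.mul_add_div (Nat.succ_pos q), Nat.div_eq_of_lt (by omega), add_zero]
      have h8 : ((q + 1) * t + fb t c) / (q + 1) = t := by
        rw [Nat.mul_add_div (Nat.succ_pos q), Nat.div_eq_of_lt (by omega), add_zero]
      rw [← h7, ← h8, h5]
    refine ⟨i, hi, c, by omega, ?_⟩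
    rw [← h6] at h5
    omega
  · rintro ⟨i, hi, c, hc, h⟩
    have hr : (i + s) % N < N := Nat.mod_lt _ (by omega)
    obtain ⟨j, hj⟩ : ∃ j, j = N + (i + s) % N := ⟨_, rfl⟩
    have hp : partner N s j = i := by rw [hj]; exact partner_shift hi hs
    refine ⟨⟨i, by omega⟩, ⟨j, by omega⟩, ⟨2 * N + c, by omega⟩, ?_, ?_, ?_, ?_⟩
    · intro h; have := congrArg Fin.val h; simp only at this; omega
    · intro h; have := congrArg Fin.val h; simp only at this; omega
    · intro h; have := congrArg Fin.val h; simp only at this; omega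
    · rw [inst_of_lt (Fin.mk_lt_mk.2 (by omega)), inst_of_lt (Fin.mk_lt_mk.2 (by omega)),
        inst_of_lt (Fin.mk_lt_mk.2 (by omega))]
      unfold entry
      simp only
      have f1 : flag N i j = true := (flag_iff _ _ _).2 (Or.inl ⟨hi, by omega, by omega⟩)
      have f2 : flag N j (2 * N + c) = true :=
        (flag_iff _ _ _).2 (Or.inr ⟨by omega, by omega, by omega, by omega⟩)
      have f3 : flag N i (2 * N + c) = true :=
        (flag_iff _ _ _).2 (Or.inl ⟨hi, by omega, by omega⟩)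
      refine ⟨f1, f2, f3, ?_⟩
      rw [if_pos f1, if_pos f2, if_pos f3, if_pos hi, if_pos (by omega : j < 2 * N),
        if_neg (by omega : ¬ j < N), if_pos hi, if_neg (by omega : ¬ 2 * N + c < 2 * N), hp,
        Nat.add_sub_cancel_left, h]
      ring

open Classical in
/-- the letter at the place `(i, c)` -/
noncomputable def letter {k q N : ℕ} (pt : Fin k → Fin N × Fin N) (d : ℕ) (a : Fin k → Fin q)
    (i c : ℕ) : ℕ :=
  if h : ∃ j, ((pt j).1 : ℕ) = i ∧ ((pt j).2 : ℕ) = c then a h.choose else d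

lemma letter_of {k q N : ℕ} {pt : Fin k → Fin N × Fin N} (hpt : Function.Injective pt) (d : ℕ)
    (a : Fin k → Fin q) (j : Fin k) : letter pt d a (pt j).1 (pt j).2 = a j := by
  have h : ∃ j', ((pt j').1 : ℕ) = (pt j).1 ∧ ((pt j').2 : ℕ) = (pt j).2 := ⟨j, rfl, rfl⟩
  unfold letter
  rw [dif_pos h]
  have h1 : h.choose = j :=
    hpt (Prod.ext (Fin.ext h.choose_spec.1) (Fin.ext h.choose_spec.2))
  rw [h1]

lemma letter_none {k q N : ℕ} {pt : Fin k → Fin N × Fin N} {d : ℕ} {a : Fin k → Fin q}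
    {i c : ℕ} (h : ¬ ∃ j, ((pt j).1 : ℕ) = i ∧ ((pt j).2 : ℕ) = c) : letter pt d a i c = d := by
  unfold letter
  rw [dif_neg h]

lemma letter_le {k q N : ℕ} {pt : Fin k → Fin N × Fin N} {d : ℕ} (hd : d ≤ q)
    {a : Fin k → Fin q} (i c : ℕ) : letter pt d a i c ≤ q := by
  unfold letter
  split_ifs with h
  · exact (a _).2.le
  · exact hd

/-- the cells of the matrix -/
def own {n : ℕ} (p : Fin n × Fin n) : ℕ × ℕ := (min p.1.1 p.2.1, max p.1.1 p.2.1)

/-- the cell on the left -/
def cell₁ {N : ℕ} (t : Fin N × Fin N) : ℕ × ℕ := (t.1, 2 * N + t.2)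

/-- the cell on the right -/
def cell₂ {N : ℕ} (s : Fin N) (t : Fin N × Fin N) : ℕ × ℕ := (N + (t.1 + s) % N, 2 * N + t.2)

lemma cell₁_inj {N : ℕ} : Function.Injective (cell₁ (N := N)) := by
  intro t t' h
  unfold cell₁ at h
  rw [Prod.mk.injEq] at h
  exact Prod.ext (Fin.ext h.1) (Fin.ext (by omega))

lemma cell₂_inj {N : ℕ} (s : Fin N) : Function.Injective (cell₂ s) := by
  intro t t' h
  unfold cell₂ at h
  rw [Prod.mk.injEq] at h
  refine Prod.ext (Fin.ext ?_) (Fin.ext (by omega))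
  have h1 := partner_shift t.1.2 s.2
  have h2 := partner_shift t'.1.2 s.2
  rw [← h1, ← h2, h.1]

lemma cell₂_inj' {N : ℕ} (t : Fin N × Fin N) : Function.Injective fun s => cell₂ s t := by
  intro s s' h
  unfold cell₂ at h
  simp only [Prod.mk.injEq, and_true, add_right_inj] at h
  have h1 := partner_shift s.2 t.1.2
  have h2 := partner_shift s'.2 t.1.2
  apply Fin.ext
  rw [← h1, ← h2, add_comm (s : ℕ), add_comm (s' : ℕ), h]

lemma cell₁_ne {N : ℕ} (s : Fin N) (t t' : Fin N × Fin N) : cell₁ t ≠ cell₂ s t' := by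
  intro h
  unfold cell₁ cell₂ at h
  rw [Prod.mk.injEq] at h
  have := t.1.2
  omega

/-- **The instances.** -/
theorem hasInst {n N q k : ℕ} (hN : 3 * N ≤ n) (hN1 : 1 ≤ N) (hq : 2 ≤ q) (hqn : q ≤ n)
    (s : Fin N) (Q : Finset (Fin N × Fin N)) (hk : k ≤ Q.card) :
    HasInst (own (n := n)) (fun x => ¬ ZeroTriangle x) (Valid n) k q (Q.image cell₁)
      (Q.image (cell₂ s)) := by
  classical
  obtain ⟨pt, hpt, hptQ⟩ : ∃ pt : Fin k → Fin N × Fin N, Function.Injective pt ∧ ∀ j, pt j ∈ Q := by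
    obtain ⟨Q', hQ', hc⟩ := Finset.exists_subset_card_eq hk
    let e := (Q'.equivFinOfCardEq hc).symm
    exact ⟨fun j => (e j : Fin N × Fin N), fun a b h => e.injective (Subtype.ext h),
      fun j => hQ' (e j).2⟩
  refine ⟨fun a b => inst n N q s (letter pt 0 a) (letter pt q b), ?_, ?_, ?_, ?_⟩
  · intro a b b' p hp
    unfold inst entry
    simp only
    congr 1
    split_ifs with h1 h2 h3
    · rfl
    · rfl
    · rw [flag_iff] at h1
      obtain ⟨u, hu⟩ : ∃ u, u = min (p.1 : ℕ) p.2 := ⟨_, rfl⟩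
      obtain ⟨v, hv⟩ : ∃ v, v = max (p.1 : ℕ) p.2 := ⟨_, rfl⟩
      rw [← hu, ← hv] at h1 ⊢
      rw [← hu] at h2
      have hno : ¬ ∃ j, ((pt j).1 : ℕ) = partner N s u ∧ ((pt j).2 : ℕ) = v - 2 * N := by
        rintro ⟨j, hj1, hj2⟩
        apply hp
        refine mem_image.2 ⟨pt j, hptQ j, ?_⟩
        unfold cell₂ own
        rw [← hu, ← hv, hj1, hj2, shift_partner (by omega) (by omega) s.2]
        congr 1
        omega
      rw [letter_none hno, letter_none hno]
    · rfl
  · intro a a' b p hp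
    unfold inst entry
    simp only
    congr 1
    split_ifs with h1 h2 h3
    · rfl
    · obtain ⟨u, hu⟩ : ∃ u, u = min (p.1 : ℕ) p.2 := ⟨_, rfl⟩
      obtain ⟨v, hv⟩ : ∃ v, v = max (p.1 : ℕ) p.2 := ⟨_, rfl⟩
      rw [← hu, ← hv]
      rw [← hv] at h3
      have hno : ¬ ∃ j, ((pt j).1 : ℕ) = u ∧ ((pt j).2 : ℕ) = v - 2 * N := by
        rintro ⟨j, hj1, hj2⟩
        apply hp
        refine mem_image.2 ⟨pt j, hptQ j, ?_⟩
        unfold cell₁ own
        rw [← hu, ← hv, hj1, hj2]
        congr 1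
        omega
      rw [letter_none hno, letter_none hno]
    · rfl
    · rfl
  · intro a b
    exact valid_inst hN hN1 hqn (letter_le (Nat.zero_le _)) (letter_le le_rfl)
  · intro a b
    show ¬ ZeroTriangle (inst n N q s (letter pt 0 a) (letter pt q b)) ↔ _
    rw [zero_iff hN s.2 (letter_le (Nat.zero_le _)) (letter_le le_rfl)]
    constructor
    · intro h j hj
      apply h
      refine ⟨(pt j).1, (pt j).1.2, (pt j).2, (pt j).2.2, ?_⟩
      rw [letter_of hpt, letter_of hpt, hj]
    · rintro h ⟨i, hi, c, hc, he⟩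
      by_cases hex : ∃ j, ((pt j).1 : ℕ) = i ∧ ((pt j).2 : ℕ) = c
      · obtain ⟨j, rfl, rfl⟩ := hex
        rw [letter_of hpt, letter_of hpt] at he
        exact h j (Fin.ext he)
      · rw [letter_none hex, letter_none hex] at he
        omega

end Pool.Agent.U286.LY.ET
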