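import Mathlib
import Pool.Agent.U286.LY.Rout
import Pool.Agent.U514.PD.Tw

/-!
# The treewidth of graphs laid out in a host graph
-/

set_option autoImplicit false

namespace Pool.Agent.U286.LY

open Finset Pool.Agent.U514.PD

variable {X : Type*} {V : Type*} [Fintype V] {H : SimpleGraph X} {J : Finset X} {c : ℕ}
  {reg : V → Finset X}

lemma Layout.fromRel {E : V → V → Prop} (hL : Layout E H J c reg) :
    Layout (SimpleGraph.fromRel E).Adj H J c reg := by
  refine ⟨hL.conn, hL.sub, hL.load, ?_⟩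
  intro h g hhg
  rcases ((SimpleGraph.fromRel_adj _ _ _).1 hhg).2 with h1 | h1
  · exact hL.meet _ _ h1
  · obtain ⟨x, hx, y, hy, hxy⟩ := hL.meet _ _ h1
    refine ⟨y, hy, x, hx, ?_⟩
    rcases hxy with h2 | h2
    · exact Or.inl h2.symm
    · exact Or.inr h2.symm

omit [Fintype V] in
lemma Part.piece {U S A B : Finset X} (h : Part H U S A B) : Piece H U (A, S) := by
  refine ⟨h.disSA.symm, h.subA, h.subS, ?_⟩
  intro v hv u hu hvu
  rcases h.cov u hu with h1 | h1 | h1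
  · exact Or.inr h1
  · exact Or.inl h1
  · exact absurd hvu (h.sep v hv u h1)

open Classical in
/-- **The elimination order** of a region of a graph that is laid out in a host graph. -/
theorem exists_elim_layout {G : SimpleGraph V} {K α : ℝ} (h : HasWSep H K α)
    (hL : Layout G.Adj H J c reg) (R : ℕ) (hR : (c : ℝ) * (K * (J.card : ℝ) ^ α) ≤ R) :
    ∀ (n : ℕ) (I B : Finset V), I.card = n → Disjoint I B →
      (∀ v ∈ I, ∀ u, G.Adj v u → u ∈ I ∨ u ∈ B) → B.card ≤ 3 * (R + 1) →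
      ∃ rk bag, Elim G I B (4 * (R + 1)) rk bag := by
  choose z hz using fun g => hL.nonempty g
  intro n
  induction n using Nat.strong_induction_on with
  | _ n ih =>
  intro I B hn hIB hcl hB
  rcases I.eq_empty_or_nonempty with h0 | ⟨a, ha⟩
  · subst h0
    exact ⟨fun _ => 0, fun _ => ∅, by constructor <;> simp⟩
  have hnot : ∀ v ∈ B, v ∉ I := fun v hv hv' => disjoint_left.1 hIB hv' hv
  -- the weights
  obtain ⟨x, hx⟩ : ∃ x : X → ℝ, ∀ v, x v = ((B.filter fun g => z g = v).card : ℝ) :=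
    ⟨_, fun _ => rfl⟩
  have hxB : ∑ v ∈ J, x v = B.card := by
    simp only [hx]
    rw [← Nat.cast_sum]
    congr 1
    exact (card_eq_sum_card_fiberwise fun g _ => hL.sub g (hz g)).symm
  obtain ⟨S₀, P₁, P₂, hP, hS0, hP1, hP2⟩ := h x (fun v => by rw [hx]; positivity) J
  rw [hxB] at hP1 hP2
  obtain ⟨S, hS⟩ : ∃ S, S = (I ∪ B).filter (fun g => g ∈ touch reg S₀) := ⟨_, rfl⟩
  have hSmem : ∀ g, g ∈ S ↔ g ∈ I ∪ B ∧ ∃ y ∈ reg g, y ∈ S₀ := by
    intro g
    rw [hS, mem_filter, touch, mem_filter]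
    simp
  have hSc : S.card ≤ R := by
    have h1 : S.card ≤ c * S₀.card := by
      refine le_trans (card_le_card ?_) (card_touch hL hP.subS)
      intro g hg
      rw [hS] at hg
      exact (mem_filter.1 hg).2
    have h2 : (S.card : ℝ) ≤ R := by
      calc (S.card : ℝ) ≤ c * S₀.card := by exact_mod_cast h1
        _ ≤ c * (K * (J.card : ℝ) ^ α) := mul_le_mul_of_nonneg_left hS0 (Nat.cast_nonneg _)
        _ ≤ R := hR
    exact_mod_cast h2
  -- the parts
  have part : ∀ P P' : Finset X, Part H J S₀ P P' → ∑ v ∈ P, x v ≤ 2 / 3 * (B.card : ℝ) →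
      3 * (((I ∪ B).filter (fun g => g ∉ S ∧ reg g ⊆ P)) ∩ B).card ≤ 2 * B.card := by
    intro P P' hPP hPx
    have h1 : ((((I ∪ B).filter (fun g => g ∉ S ∧ reg g ⊆ P)) ∩ B).card : ℝ) ≤ ∑ v ∈ P, x v := by
      simp only [hx]
      rw [← Nat.cast_sum]
      norm_cast
      rw [card_eq_sum_card_fiberwise (t := P) (f := z)]
      · apply sum_le_sum
        intro y _
        apply card_le_card
        intro g hg
        rw [mem_filter, mem_inter] at hg
        exact mem_filter.2 ⟨hg.1.2, hg.2⟩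
      · intro g hg
        have hg' := mem_filter.1 (mem_inter.1 (mem_coe.1 hg)).1
        exact hg'.2.2 (hz g)
    have h2 : (3 : ℝ) * ((((I ∪ B).filter (fun g => g ∉ S ∧ reg g ⊆ P)) ∩ B).card : ℝ) ≤
        2 * B.card := by linarith
    exact_mod_cast h2
  have pcl : ∀ P P' : Finset X, Part H J S₀ P P' →
      ∀ v ∈ (I ∪ B).filter (fun g => g ∉ S ∧ reg g ⊆ P), v ∈ I → ∀ u, G.Adj v u →
        u ∈ (I ∪ B).filter (fun g => g ∉ S ∧ reg g ⊆ P) ∨ u ∈ S := by
    intro P P' hPP v hv hvI u hvu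
    rw [mem_filter] at hv
    have huU : u ∈ I ∪ B := by
      rcases hcl v hvI u hvu with h1 | h1
      · exact mem_union_left _ h1
      · exact mem_union_right _ h1
    by_cases huS : u ∈ S
    · exact Or.inr huS
    · left
      rw [mem_filter]
      refine ⟨huU, huS, ?_⟩
      rcases nbr_of_piece hL hPP.piece (Or.inr hvu) hv.2.2 with h1 | h1
      · exact h1
      · exact absurd ((hSmem u).2 ⟨huU, h1⟩) huS
  obtain ⟨M₁, hM1⟩ : ∃ M₁, M₁ = (I ∪ B).filter (fun g => g ∉ S ∧ reg g ⊆ P₁) := ⟨_, rfl⟩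
  obtain ⟨M₂, hM2⟩ : ∃ M₂, M₂ = (I ∪ B).filter (fun g => g ∉ S ∧ reg g ⊆ P₂) := ⟨_, rfl⟩
  have hX1 := part P₁ P₂ hP hP1
  have hX2 := part P₂ P₁ hP.swap hP2
  have hcl1 := pcl P₁ P₂ hP
  have hcl2 := pcl P₂ P₁ hP.swap
  rw [← hM1] at hX1 hcl1
  rw [← hM2] at hX2 hcl2
  have hM12 : Disjoint M₁ M₂ := by
    rw [disjoint_left]
    intro v hv hv'
    rw [hM1, mem_filter] at hv
    rw [hM2, mem_filter] at hv'
    exact disjoint_left.1 hP.disAB (hv.2.2 (hz v)) (hv'.2.2 (hz v))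
  have hcov : ∀ v ∈ I ∪ B, v ∈ S ∨ v ∈ M₁ ∨ v ∈ M₂ := by
    intro v hv
    by_cases hvS : v ∈ S
    · exact Or.inl hvS
    · right
      rw [hM1, hM2, mem_filter, mem_filter]
      rcases hP.cov (z v) (hL.sub v (hz v)) with h1 | h1 | h1
      · exact absurd ((hSmem v).2 ⟨hv, z v, hz v, h1⟩) hvS
      · left
        rcases region_of_piece hL hP.piece (hz v) (Or.inl h1) with h2 | h2
        · exact ⟨hv, hvS, h2⟩
        · exact absurd ((hSmem v).2 ⟨hv, h2⟩) hvS
      · right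
        rcases region_of_piece hL hP.swap.piece (hz v) (Or.inl h1) with h2 | h2
        · exact ⟨hv, hvS, h2⟩
        · exact absurd ((hSmem v).2 ⟨hv, h2⟩) hvS
  have hSs : S ⊆ I ∪ B := fun g hg => ((hSmem g).1 hg).1
  have hMs1 : M₁ ⊆ (I ∪ B) \ S := by
    intro g hg
    rw [hM1, mem_filter] at hg
    exact mem_sdiff.2 ⟨hg.1, hg.2.1⟩
  have hMs2 : M₂ ⊆ (I ∪ B) \ S := by
    intro g hg
    rw [hM2, mem_filter] at hg
    exact mem_sdiff.2 ⟨hg.1, hg.2.1⟩
  obtain ⟨S', hS'⟩ : ∃ S', S' = insert a S := ⟨_, rfl⟩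
  have hS'c : S'.card ≤ R + 1 := by
    rw [hS']
    exact (card_insert_le _ _).trans (by omega)
  have haS : a ∈ S' := by rw [hS']; exact mem_insert_self _ _
  have hSS : S ⊆ S' := by rw [hS']; exact subset_insert _ _
  have hS's : S' ⊆ I ∪ B := by
    rw [hS']
    exact insert_subset (mem_union_left _ ha) hSs
  have key : ∀ M : Finset V, M ⊆ (I ∪ B) \ S → 3 * (M ∩ B).card ≤ 2 * B.card →
      (∀ v ∈ M, v ∈ I → ∀ u, G.Adj v u → u ∈ M ∨ u ∈ S) →
      (∀ v ∈ (M ∩ I) \ S', ∀ u, G.Adj v u → u ∈ (M ∩ I) \ S' ∨ u ∈ (M ∩ B) ∪ S') ∧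
      ∃ rk bag, Elim G ((M ∩ I) \ S') ((M ∩ B) ∪ S') (4 * (R + 1)) rk bag := by
    intro M hM hMB hMcl
    have hc : ∀ v ∈ (M ∩ I) \ S', ∀ u, G.Adj v u → u ∈ (M ∩ I) \ S' ∨ u ∈ (M ∩ B) ∪ S' := by
      intro v hv u hvu
      rw [mem_sdiff, mem_inter] at hv
      by_cases huS : u ∈ S'
      · exact Or.inr (mem_union_right _ huS)
      · rcases hMcl v hv.1.1 hv.1.2 u hvu with h | h
        · rcases mem_union.1 (mem_sdiff.1 (hM h)).1 with h3 | h3
          · exact Or.inl (mem_sdiff.2 ⟨mem_inter.2 ⟨h, h3⟩, huS⟩)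
          · exact Or.inr (mem_union_left _ (mem_inter.2 ⟨h, h3⟩))
        · exact absurd (hSS h) huS
    refine ⟨hc, ih ((M ∩ I) \ S').card ?_ _ _ rfl ?_ hc ?_⟩
    · rw [← hn]
      apply card_lt_card
      refine ⟨fun v hv => (mem_inter.1 (mem_sdiff.1 hv).1).2, fun h => ?_⟩
      exact (mem_sdiff.1 (h ha)).2 haS
    · rw [disjoint_left]
      intro v hv hv'
      rw [mem_sdiff, mem_inter] at hv
      rcases mem_union.1 hv' with h | h
      · exact hnot v (mem_inter.1 h).2 hv.1.2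
      · exact hv.2 h
    · refine (card_union_le _ _).trans ?_
      omega
  obtain ⟨hc1, r₁, b₁, he1⟩ := key M₁ hMs1 hX1 hcl1
  obtain ⟨hc2, r₂, b₂, he2⟩ := key M₂ hMs2 hX2 hcl2
  refine Elim.glue (S := S') hIB hS's ?_ ?_ ?_ ?_ ?_ ?_ hc1 hc2 (by omega) he1 he2
  · intro v hv
    by_cases hvS : v ∈ S'
    · exact Or.inl hvS
    · rcases hcov v (mem_union_left _ hv) with h | h | h
      · exact Or.inl (hSS h)
      · exact Or.inr (Or.inl (mem_sdiff.2 ⟨mem_inter.2 ⟨h, hv⟩, hvS⟩))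
      · exact Or.inr (Or.inr (mem_sdiff.2 ⟨mem_inter.2 ⟨h, hv⟩, hvS⟩))
  · intro v hv
    rw [mem_sdiff, mem_inter] at hv
    exact mem_sdiff.2 ⟨hv.1.2, hv.2⟩
  · intro v hv
    rw [mem_sdiff, mem_inter] at hv
    exact mem_sdiff.2 ⟨hv.1.2, hv.2⟩
  · rw [disjoint_left]
    intro v hv hv'
    exact disjoint_left.1 hM12 (mem_inter.1 (mem_sdiff.1 hv).1).1
      (mem_inter.1 (mem_sdiff.1 hv').1).1
  · intro v hv
    rcases mem_union.1 hv with h | h
    · exact mem_union_left _ (mem_inter.1 h).2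
    · exact mem_union_right _ h
  · intro v hv
    rcases mem_union.1 hv with h | h
    · exact mem_union_left _ (mem_inter.1 h).2
    · exact mem_union_right _ h

open Pool.Agent.Y631.Wc in
/-- **The treewidth of a word circuit that is laid out in a host graph.** -/
theorem treewidth_of_layout {ι Y Z : Type} {X : Type*} {H : SimpleGraph X} {K α : ℝ}
    (h : HasWSep H K α) (C : WCirc ι Y Z) {J : Finset X} {c : ℕ}
    {reg : Fin C.size → Finset X} (hL : Layout C.Joined H J c reg) (R : ℕ)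
    (hR : (c : ℝ) * (K * (J.card : ℝ) ^ α) ≤ R) :
    ∃ θ, C.TreewidthLE θ ∧ θ + 1 ≤ 4 * (R + 1) := by
  classical
  obtain ⟨rk, bag, he⟩ := exists_elim_layout h hL.fromRel R hR _ univ ∅ rfl (by simp)
    (by simp) (by simp)
  have hs : 0 < C.size := by
    have := C.out.2
    omega
  obtain ⟨T, par, nb, t1, t2, t3, t4⟩ := W.tree_of_elim hs he
  refine ⟨4 * (R + 1) - 1, ⟨T, par, nb, t1, fun i => ?_, t3, fun a b hab => ?_⟩, by omega⟩
  · have := t2 i
    omega
  · have hne : a ≠ b := by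
      obtain ⟨c, hc⟩ := hab
      have := C.acyclic b c
      rw [hc] at this
      exact this.ne
    exact t4 a b ((SimpleGraph.fromRel_adj _ _ _).2 ⟨hne, Or.inl hab⟩)

end Pool.Agent.U286.LY
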