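import Mathlib
import Pool.Agent.U286.LY.Tree
import Pool.Agent.U286.LY.Lat
import Pool.Agent.U514.PD.WNum

/-!
# Word circuits laid out in host graphs: the numbers
-/

set_option autoImplicit false

namespace Pool.Agent.U286.LY

open Finset Pool.Agent.Y631.Wc Pool.Agent.U514.PD.W

variable {ι Y Z : Type}

/-- **The treewidth of a word circuit that is laid out in a host graph.** -/
theorem tw_of_laidOut {K α ϑ : ℝ} (hK : 0 ≤ K) (hα : 0 < α) (hϑ0 : 0 ≤ ϑ) (hϑ : ϑ < 1)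
    (C : WCirc ι Y Z) {v c : ℕ} (h : LaidOut C.Joined K α ϑ v c) :
    1 ≤ (c : ℝ) * (v : ℝ) ^ α ∧ ∃ θ, C.TreewidthLE θ ∧
      (θ : ℝ) + 1 ≤ 4 * (K / (1 - ϑ ^ α) + 2) * (c * (v : ℝ) ^ α) := by
  obtain ⟨X, H, J, reg, hH, hJ, hL⟩ := h
  obtain ⟨K₁, hK₁⟩ : ∃ K₁, K₁ = K / (1 - ϑ ^ α) := ⟨_, rfl⟩
  have hϑα : ϑ ^ α < 1 := Real.rpow_lt_one hϑ0 hϑ hα
  have hK10 : 0 ≤ K₁ := by rw [hK₁]; exact div_nonneg hK (by linarith)
  have hc : 1 ≤ c := hL.pos C.out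
  have hcR : (1 : ℝ) ≤ c := by exact_mod_cast hc
  have hv : 1 ≤ v := by
    obtain ⟨x, hx⟩ := hL.nonempty C.out
    have : 0 < J.card := card_pos.2 ⟨x, hL.sub _ hx⟩
    omega
  have hvR : (1 : ℝ) ≤ (v : ℝ) ^ α := Real.one_le_rpow (by exact_mod_cast hv) hα.le
  have hcv : 1 ≤ (c : ℝ) * (v : ℝ) ^ α := by nlinarith
  refine ⟨hcv, ?_⟩
  have hW := hH.weighted hK hα hϑ0 hϑ
  rw [← hK₁] at hW ⊢
  obtain ⟨θ, h1, h2⟩ := treewidth_of_layout hW C hL ⌈(c : ℝ) * (K₁ * (J.card : ℝ) ^ α)⌉₊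
    (Nat.le_ceil _)
  refine ⟨θ, h1, ?_⟩
  have h3 : (J.card : ℝ) ^ α ≤ (v : ℝ) ^ α :=
    Real.rpow_le_rpow (Nat.cast_nonneg _) (by exact_mod_cast hJ) hα.le
  have h4 := (Nat.ceil_lt_add_one (by positivity : 0 ≤ (c : ℝ) * (K₁ * (J.card : ℝ) ^ α))).le
  have h5 : ((θ : ℝ) + 1) ≤ 4 * ((⌈(c : ℝ) * (K₁ * (J.card : ℝ) ^ α)⌉₊ : ℝ) + 1) := by
    exact_mod_cast h2
  have h6 : (c : ℝ) * (K₁ * (J.card : ℝ) ^ α) ≤ K₁ * (c * (v : ℝ) ^ α) := by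
    calc (c : ℝ) * (K₁ * (J.card : ℝ) ^ α) ≤ c * (K₁ * (v : ℝ) ^ α) := by gcongr
      _ = _ := by ring
  nlinarith

/-- **The linear bound.** -/
theorem linear_bound {m r κ θ b q : ℕ} {K₁ x : ℝ} (hr : 1 ≤ r) (hb : 1 ≤ b) (hq : 2 ≤ q)
    (hK1 : 0 ≤ K₁) (hx : 1 ≤ x) (hθ : (θ : ℝ) + 1 ≤ 4 * (K₁ + 2) * x)
    (h : q ^ (m / 2 ^ (24 * r + 1)) ≤ (q ^ b) ^ (10000 * r ^ 2 * (κ + 1) * (θ + 1)) + 1) :
    (m : ℝ) ≤ 2 ^ (24 * r + 17) * (K₁ + 2) * (r ^ 2 * (κ + 1) * b * x) := by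
  obtain ⟨K, hK⟩ : ∃ K, K = 10000 * r ^ 2 * (κ + 1) * (θ + 1) := ⟨_, rfl⟩
  obtain ⟨d, hd⟩ : ∃ d, d = m / 2 ^ (24 * r + 1) := ⟨_, rfl⟩
  rw [← hK, ← hd] at h
  have h1 : d ≤ b * K + 1 := by
    by_contra hcon
    exact no_bound hq (by omega) h
  have hpos : 0 < 2 ^ (24 * r + 1) := Nat.pow_pos (by norm_num)
  have h2 : m ≤ 2 ^ (24 * r + 1) * (b * K + 2) := by
    have h4 : m < (d + 1) * 2 ^ (24 * r + 1) := by
      rw [hd, add_mul, one_mul]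
      exact Nat.lt_div_mul_add hpos
    calc m ≤ (d + 1) * 2 ^ (24 * r + 1) := h4.le
      _ = 2 ^ (24 * r + 1) * (d + 1) := mul_comm _ _
      _ ≤ _ := Nat.mul_le_mul_left _ (by omega)
  have h3 : (m : ℝ) ≤ 2 ^ (24 * r + 1) * (b * K + 2) := by exact_mod_cast h2
  have hrR : (1 : ℝ) ≤ r := by exact_mod_cast hr
  have hbR : (1 : ℝ) ≤ b := by exact_mod_cast hb
  have hκR : (0 : ℝ) ≤ κ := Nat.cast_nonneg _
  obtain ⟨E, hE⟩ : ∃ E : ℝ, E = r ^ 2 * (κ + 1) * b * x := ⟨_, rfl⟩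
  have hr2 : (1 : ℝ) ≤ (r : ℝ) ^ 2 := one_le_pow₀ hrR
  have hE1 : 1 ≤ E := by
    rw [hE]
    have e1 : (1 : ℝ) ≤ (r : ℝ) ^ 2 * (κ + 1) := by nlinarith
    have e2 : (1 : ℝ) ≤ (r : ℝ) ^ 2 * (κ + 1) * b := by nlinarith
    nlinarith
  have h4 : (b : ℝ) * K ≤ 40000 * ((K₁ + 2) * E) := by
    have h5 : (K : ℝ) = 10000 * r ^ 2 * (κ + 1) * (θ + 1) := by rw [hK]; push_cast; ring
    rw [h5]
    calc (b : ℝ) * (10000 * r ^ 2 * (κ + 1) * (θ + 1)) ≤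
          b * (10000 * r ^ 2 * (κ + 1) * (4 * (K₁ + 2) * x)) := by gcongr
      _ = _ := by rw [hE]; ring
  have h5 : 2 ≤ (K₁ + 2) * E := by nlinarith
  rw [← hE]
  calc (m : ℝ) ≤ 2 ^ (24 * r + 1) * (b * K + 2) := h3
    _ ≤ 2 ^ (24 * r + 1) * (2 ^ 16 * ((K₁ + 2) * E)) := by
        apply mul_le_mul_of_nonneg_left _ (by positivity)
        norm_num
        linarith
    _ = 2 ^ (24 * r + 17) * (K₁ + 2) * E := by
        rw [show 24 * r + 17 = (24 * r + 1) + 16 by ring, pow_add 2 (24 * r + 1)]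
        ring

/-- The circuit is a solution of the question `Q` for the inputs with the property `P`: either it
is nondeterministic, with words of `b` bits, and accepts exactly the inputs for which the answer is
no, or it has words of `b log m` bits and at most one accepting computation for each input, and
accepts exactly the inputs for which the answer is yes, or exactly those for which it is no. -/
def Solves {m : ℕ} {Y Z : Type} [Fintype Z] (P Q : (Fin m → Y) → Prop) (C : WCirc (Fin m) Y Z)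
    (b : ℕ) : Prop :=
  (Fintype.card Z ≤ 2 ^ b ∧ ∀ x, P x → (C.Accepts x ↔ ¬ Q x)) ∨
  (Fintype.card Z ≤ m ^ b ∧ C.Unambiguous ∧
    ((∀ x, P x → (C.Accepts x ↔ Q x)) ∨ (∀ x, P x → (C.Accepts x ↔ ¬ Q x))))

/-- the trade-off between treewidth and reads for the question -/
def TradeOff (m : ℕ) {Y : Type} (P Q : (Fin m → Y) → Prop) : Prop :=
  ∀ (r κ θ q L : ℕ), 1 ≤ r → 2 ≤ q → q ≤ L → q ≤ m →
    ∀ (Z : Type) [Fintype Z], Fintype.card Z ≤ L → ∀ (C : WCirc (Fin m) Y Z), C.FanIn κ →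
    C.TreewidthLE θ → C.reads ≤ r * m →
    ((∀ x, P x → (C.Accepts x ↔ ¬ Q x)) →
      2 ^ (m / 2 ^ (24 * r + 1)) ≤ L ^ (10000 * r ^ 2 * (κ + 1) * (θ + 1))) ∧
    (C.Unambiguous → (∀ x, P x → (C.Accepts x ↔ ¬ Q x)) →
      q ^ (m / 2 ^ (24 * r + 1)) ≤ L ^ (10000 * r ^ 2 * (κ + 1) * (θ + 1))) ∧
    (C.Unambiguous → (∀ x, P x → (C.Accepts x ↔ Q x)) →
      q ^ (m / 2 ^ (24 * r + 1)) ≤ L ^ (10000 * r ^ 2 * (κ + 1) * (θ + 1)) + 1)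

/-- **Host graphs with small separators.** -/
theorem wc_hosts {m : ℕ} {Y : Type} {P Q : (Fin m → Y) → Prop} (hT : TradeOff m P Q)
    {K α ϑ : ℝ} (hK : 0 ≤ K) (hα : 0 < α) (hϑ0 : 0 ≤ ϑ) (hϑ : ϑ < 1) {r κ b c v : ℕ}
    (hr : 1 ≤ r) (hb : 1 ≤ b) {Z : Type} [Fintype Z] (C : WCirc (Fin m) Y Z) (hκ : C.FanIn κ)
    (hR : C.reads ≤ r * m) (hC : Solves P Q C b) (h : LaidOut C.Joined K α ϑ v c) :
    (m : ℝ) ≤ 2 ^ (24 * r + 17) * (K / (1 - ϑ ^ α) + 2) *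
      (r ^ 2 * (κ + 1) * b * (c * (v : ℝ) ^ α)) := by
  obtain ⟨hx, θ, h1, h2⟩ := tw_of_laidOut hK hα hϑ0 hϑ C h
  have hϑα : ϑ ^ α < 1 := Real.rpow_lt_one hϑ0 hϑ hα
  have hK10 : 0 ≤ K / (1 - ϑ ^ α) := div_nonneg hK (by linarith)
  by_cases hm : m < 2
  · have hrR : (1 : ℝ) ≤ r := by exact_mod_cast hr
    have hbR : (1 : ℝ) ≤ b := by exact_mod_cast hb
    have hκR : (0 : ℝ) ≤ κ := Nat.cast_nonneg _
    have hmR : (m : ℝ) ≤ 1 := by exact_mod_cast (by omega : m ≤ 1)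
    have hr2 : (1 : ℝ) ≤ (r : ℝ) ^ 2 := one_le_pow₀ hrR
    have e1 : (1 : ℝ) ≤ (r : ℝ) ^ 2 * (κ + 1) := by nlinarith
    have e2 : (1 : ℝ) ≤ (r : ℝ) ^ 2 * (κ + 1) * b := by nlinarith
    have e3 : (1 : ℝ) ≤ (r : ℝ) ^ 2 * (κ + 1) * b * (c * (v : ℝ) ^ α) := by nlinarith
    have e4 : (1 : ℝ) ≤ 2 ^ (24 * r + 17) := one_le_pow₀ (by norm_num)
    have e5 : (1 : ℝ) ≤ 2 ^ (24 * r + 17) * (K / (1 - ϑ ^ α) + 2) := by nlinarith
    nlinarith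
  · rcases hC with ⟨hZ, hC⟩ | ⟨hZ, hU, hC⟩
    · have h3 := (hT r κ θ 2 (2 ^ b) hr le_rfl (by
        calc 2 = 2 ^ 1 := (pow_one 2).symm
          _ ≤ 2 ^ b := Nat.pow_le_pow_right (by norm_num) hb) (by omega) Z hZ C hκ h1 hR).1 hC
      exact linear_bound hr hb le_rfl hK10 hx h2 (h3.trans (Nat.le_succ _))
    · have h3 := hT r κ θ m (m ^ b) hr (by omega) (by
        calc m = m ^ 1 := (pow_one m).symm
          _ ≤ m ^ b := Nat.pow_le_pow_right (by omega) hb) le_rfl Z hZ C hκ h1 hR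
      rcases hC with hC | hC
      · exact linear_bound hr hb (by omega) hK10 hx h2 (h3.2.2 hU hC)
      · exact linear_bound hr hb (by omega) hK10 hx h2 ((h3.2.1 hU hC).trans (Nat.le_succ _))

/-- the constant for lattices -/
lemma lattice_const {D : ℕ} (hD : 2 ≤ D) :
    3 / (1 - (1 - 1 / (3 * (D : ℝ))) ^ (1 - 1 / (D : ℝ))) + 2 ≤ 32 * D := by
  have hD0 : (2 : ℝ) ≤ D := by exact_mod_cast hD
  have h1 : 1 / (D : ℝ) ≤ 1 / 2 := one_div_le_one_div_of_le (by norm_num) hD0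
  have h3 : 0 < 1 / (D : ℝ) := by positivity
  obtain ⟨t, ht⟩ : ∃ t : ℝ, t = 1 / (3 * (D : ℝ)) := ⟨_, rfl⟩
  have ht0 : 0 < t := by rw [ht]; positivity
  have ht1 : t ≤ 1 / 6 := by
    rw [ht]
    exact one_div_le_one_div_of_le (by norm_num) (by linarith)
  have h2 : (1 - t) ^ (1 - 1 / (D : ℝ)) ≤ (1 - t) ^ (1 / 2 : ℝ) :=
    Real.rpow_le_rpow_of_exponent_ge (by linarith) (by linarith) (by linarith)
  have h4 : (1 - t) ^ (1 / 2 : ℝ) ≤ 1 - t / 2 := by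
    rw [← Real.sqrt_eq_rpow]
    apply Real.sqrt_le_iff.2
    constructor
    · linarith
    · nlinarith
  rw [← ht]
  have h5 : t / 2 ≤ 1 - (1 - t) ^ (1 - 1 / (D : ℝ)) := by linarith
  have h6 : 3 / (1 - (1 - t) ^ (1 - 1 / (D : ℝ))) ≤ 3 / (t / 2) :=
    div_le_div_of_nonneg_left (by norm_num) (by linarith) h5
  have h7 : 3 / (t / 2) = 18 * D := by
    rw [ht]
    field_simp
    norm_num
  linarith

/-- **Lattices.** -/
theorem wc_lattice {m : ℕ} {Y : Type} {P Q : (Fin m → Y) → Prop} (hT : TradeOff m P Q)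
    {D r κ b c : ℕ} (hD : 2 ≤ D) (hr : 1 ≤ r) (hb : 1 ≤ b) {Z : Type} [Fintype Z]
    (C : WCirc (Fin m) Y Z) (hκ : C.FanIn κ) (hR : C.reads ≤ r * m) (hC : Solves P Q C b)
    {J : Finset (Fin D → ℤ)} {reg : Fin C.size → Finset (Fin D → ℤ)}
    (h : Layout C.Joined (lattice D) J c reg) :
    m ^ D ≤ (2 ^ (24 * r + 22) * (D * r ^ 2 * (κ + 1) * b * c)) ^ D * J.card ^ (D - 1) := by
  have hD0 : (2 : ℝ) ≤ D := by exact_mod_cast hD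
  have hD1 : (0 : ℝ) < D := by linarith
  have h1 : 1 / (D : ℝ) ≤ 1 / 2 := one_div_le_one_div_of_le (by norm_num) hD0
  have h2 : 1 / (3 * (D : ℝ)) ≤ 1 / 2 := one_div_le_one_div_of_le (by norm_num) (by linarith)
  have h3 : 0 < 1 / (D : ℝ) := by positivity
  have h4 : 0 < 1 / (3 * (D : ℝ)) := by positivity
  have h5 := wc_hosts hT (K := 3) (α := 1 - 1 / (D : ℝ)) (ϑ := 1 - 1 / (3 * (D : ℝ)))
    (by norm_num) (by linarith) (by linarith) (by linarith) hr hb C hκ hR hC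
    ⟨_, lattice D, J, reg, hasSep_lattice (by omega), le_refl _, h⟩
  have h6 : (m : ℝ) ≤ 2 ^ (24 * r + 22) * (D * r ^ 2 * (κ + 1) * b * c) *
      (J.card : ℝ) ^ (1 - 1 / (D : ℝ)) := by
    refine h5.trans ?_
    have hJ0 : 0 ≤ (J.card : ℝ) ^ (1 - 1 / (D : ℝ)) := Real.rpow_nonneg (Nat.cast_nonneg _) _
    calc _ ≤ 2 ^ (24 * r + 17) * (32 * (D : ℝ)) *
          (r ^ 2 * (κ + 1) * b * (c * (J.card : ℝ) ^ (1 - 1 / (D : ℝ)))) := by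
            have := lattice_const hD
            gcongr
      _ = _ := by
          rw [show 24 * r + 22 = (24 * r + 17) + 5 by ring, pow_add 2 (24 * r + 17)]
          ring
  have h7 : ((m : ℝ)) ^ D ≤ (2 ^ (24 * r + 22) * (D * r ^ 2 * (κ + 1) * b * c)) ^ D *
      (J.card : ℝ) ^ (D - 1) := by
    calc ((m : ℝ)) ^ D ≤ (2 ^ (24 * r + 22) * (D * r ^ 2 * (κ + 1) * b * c) *
          (J.card : ℝ) ^ (1 - 1 / (D : ℝ))) ^ D := pow_le_pow_left₀ (Nat.cast_nonneg _) h6 D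
      _ = _ := by
          rw [mul_pow]
          congr 1
          rw [← Real.rpow_natCast, ← Real.rpow_mul (Nat.cast_nonneg _), ← Real.rpow_natCast]
          congr 1
          rw [Nat.cast_sub (by omega)]
          field_simp
          norm_num
  exact_mod_cast h7

/-- **Random circuits.** -/
theorem wc_random {Y : Type} (S : ℕ → ℕ → Prop) (P : ℕ → (m : ℕ) → (Fin m → Y) → Prop)
    (Q : (m : ℕ) → (Fin m → Y) → Prop) (a κ : ℕ)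
    (hT : ∀ ε : ℝ, 0 < ε → ε ≤ 1 → ∃ m₀ : ℕ,
      ∀ m ≥ m₀, ∀ n, S m n → ∀ (Z : Type) [Fintype Z], Fintype.card Z ≤ m ^ a →
      ∀ (C : WCirc (Fin m) Y Z) (θ : ℕ), C.FanIn κ → C.TreewidthLE θ →
        (θ : ℝ) ≤ (m : ℝ) ^ (1 - ε) → C.Unambiguous →
        ((∀ x, P n m x → (C.Accepts x ↔ Q m x)) ∨ (∀ x, P n m x → (C.Accepts x ↔ ¬ Q m x))) →
        ε / 30 * (m * Real.logb 2 m) ≤ C.reads)
    {K α ϑ : ℝ} (hK : 0 ≤ K) (hα : 0 < α) (hϑ0 : 0 ≤ ϑ) (hϑ : ϑ < 1) (ε : ℝ) (hε : 0 < ε)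
    (hε1 : ε ≤ 1) : ∃ m₀ : ℕ, ∀ m ≥ m₀, ∀ n, S m n → ∀ (Z : Type) [Fintype Z],
      Fintype.card Z ≤ m ^ a →
      ∀ (Ω : Type) [Fintype Ω] (p : Ω → ℝ), (∀ ω, 0 ≤ p ω) → ∑ ω, p ω = 1 →
      ∀ (C : Ω → WCirc (Fin m) Y Z) (c v : Ω → ℕ),
        (∀ ω, (C ω).FanIn κ ∧ LaidOut (C ω).Joined K α ϑ (v ω) (c ω) ∧
          (c ω : ℝ) * (v ω : ℝ) ^ α ≤ (m : ℝ) ^ (1 - ε) ∧ (C ω).Unambiguous ∧
          ((∀ x, P n m x → ((C ω).Accepts x ↔ Q m x)) ∨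
            (∀ x, P n m x → ((C ω).Accepts x ↔ ¬ Q m x)))) →
        ε / 60 * (m * Real.logb 2 m) ≤ ∑ ω, p ω * (C ω).reads := by
  obtain ⟨m₁, hm₁⟩ := hT (ε / 2) (by positivity) (by linarith)
  have hϑα : ϑ ^ α < 1 := Real.rpow_lt_one hϑ0 hϑ hα
  have hK10 : 0 ≤ K / (1 - ϑ ^ α) := div_nonneg hK (by linarith)
  have ht : Filter.Tendsto (fun m : ℕ => (m : ℝ) ^ (ε / 2)) Filter.atTop Filter.atTop :=
    (tendsto_rpow_atTop (by positivity)).comp tendsto_natCast_atTop_atTop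
  obtain ⟨m₂, hm₂⟩ := (ht.eventually_ge_atTop (4 * (K / (1 - ϑ ^ α) + 2))).exists_forall_of_atTop
  refine ⟨max (max m₁ m₂) 1, fun m hm n hn Z _ hZ Ω _ p hp hp1 C c v h => ?_⟩
  have hmm1 : m₁ ≤ m := (le_max_left _ _).trans ((le_max_left _ _).trans hm)
  have hmm2 : m₂ ≤ m := (le_max_right _ _).trans ((le_max_left _ _).trans hm)
  have hmm3 : 1 ≤ m := (le_max_right _ _).trans hm
  have hm0 : (0 : ℝ) < m := by exact_mod_cast hmm3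
  apply average p hp hp1
  intro ω
  obtain ⟨hκ, hlay, hs, hU, hC⟩ := h ω
  obtain ⟨-, θ, h3, h4⟩ := tw_of_laidOut hK hα hϑ0 hϑ (C ω) hlay
  have h5 : (θ : ℝ) ≤ (m : ℝ) ^ (1 - ε / 2) := by
    calc (θ : ℝ) ≤ 4 * (K / (1 - ϑ ^ α) + 2) * (c ω * (v ω : ℝ) ^ α) := by linarith
      _ ≤ (m : ℝ) ^ (ε / 2) * (m : ℝ) ^ (1 - ε) :=
          mul_le_mul (hm₂ m hmm2) hs (by positivity) (by positivity)
      _ = _ := by
          rw [← Real.rpow_add hm0]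
          congr 1
          ring
  have h6 := hm₁ m hmm1 n hn Z hZ (C ω) θ hκ h3 h5 hU hC
  calc ε / 60 * (m * Real.logb 2 m) = ε / 2 / 30 * (m * Real.logb 2 m) := by ring
    _ ≤ _ := h6

end Pool.Agent.U286.LY
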