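import Mathlib
import Pool.Agent.U286.LY.ETri
import Pool.Agent.U286.LY.WcN
import Pool.Agent.U514.PD.Division

/-!
# Exact Triangle and word circuits: the numbers
-/

set_option autoImplicit false

open Finset

namespace Pool.Agent.U286.LY.ET

open Pool.Agent.Y631.Wc Pool.Agent.Helper770.Crossing

variable {ι X Z : Type}

/-- The circuit solves Exact Triangle on `n` vertices: either it is nondeterministic, with words of
`b` bits, and accepts exactly the valid instances without a triangle of weight zero, or it has words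
of `b log n` bits and at most one accepting computation for each input, and it accepts exactly the
valid instances with a triangle of weight zero, or exactly those without one. -/
def Solves {n : ℕ} {Z : Type} [Fintype Z] (C : WCirc (Fin n × Fin n) (Bool × ℤ) Z) (b : ℕ) : Prop :=
  (Fintype.card Z ≤ 2 ^ b ∧ ∀ x, Valid n x → (C.Accepts x ↔ ¬ ZeroTriangle x)) ∨
  (Fintype.card Z ≤ n ^ b ∧ C.Unambiguous ∧ ((∀ x, Valid n x → (C.Accepts x ↔ ZeroTriangle x)) ∨
    (∀ x, Valid n x → (C.Accepts x ↔ ¬ ZeroTriangle x))))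

/-- **The boundary of a division into small parts.** -/
theorem cut {n r κ b ν w : ℕ} (hn : 3 ≤ n) (hr : 1 ≤ r) (hb : 1 ≤ b) {Z : Type} [Fintype Z]
    (C : WCirc (Fin n × Fin n) (Bool × ℤ) Z) (hκ : C.FanIn κ) (hR : C.reads ≤ r * n ^ 2)
    (hC : Solves C b) {B : Finset (Fin C.size)} {part : Fin C.size → ℕ} (hB : Parts C B part ν w)
    (hw : 9600 * r * w ≤ n) : n ^ 2 ≤ 2 ^ (800 * r + 9) * ((κ + 1) * b * (B.card + 1)) := by
  classical
  obtain ⟨N, hN⟩ : ∃ N, N = n / 3 := ⟨_, rfl⟩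
  have hN1 : 1 ≤ N := by omega
  have hN3 : 3 * N ≤ n := by omega
  have hN5 : n ≤ 5 * N := by omega
  have : Nonempty (Fin N) := ⟨⟨0, by omega⟩⟩
  obtain ⟨ρ, hρ⟩ : ∃ ρ, ρ = 400 * r - 1 := ⟨_, rfl⟩
  have hρ1 : ρ + 1 = 400 * r := by omega
  obtain ⟨k, hk⟩ : ∃ k, k = N * N / 4 ^ (400 * r) := ⟨_, rfl⟩
  obtain ⟨K, hK⟩ : ∃ K, K = 16 * ((κ + 1) * B.card) := ⟨_, rfl⟩
  have hcP : Fintype.card (Fin N × Fin N) = N * N := by
    rw [Fintype.card_prod, Fintype.card_fin]
  have h4 : 4 ^ (400 * r) = 4 ^ ρ * 4 := by rw [← hρ1, pow_succ]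
  have hk2 : 4 ^ (400 * r) * k ≤ N * N := by
    rw [hk]; exact Nat.mul_div_le _ _
  have hmain : ∀ q L : ℕ, 2 ≤ q → q ≤ n → q ≤ L → Fintype.card Z ≤ L → _ := fun q L hq hqn hqL hZ =>
    bounds (P := Fin N × Fin N) (S := Fin N) C (R := r * n ^ 2) (ρ := ρ) (k := k) (q := q) (L := L)
      (K := K) hκ hR hB (own (n := n)) cell₁ cell₂ cell₁_inj cell₂_inj cell₂_inj' cell₁_ne
      (by
        rw [hcP, hρ1]
        calc 16 * (r * n ^ 2) ≤ 16 * (r * (5 * N) ^ 2) := by gcongr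
          _ = 400 * r * (N * N) := by ring)
      (by
        rw [Fintype.card_fin]
        have h1 : ρ * w ≤ 400 * r * w := Nat.mul_le_mul_right _ (by omega)
        have h2 : 9600 * r * w = 3 * (8 * (400 * r * w)) := by ring
        omega)
      (by
        rw [hcP]
        refine le_trans ?_ hk2
        rw [h4]
        apply Nat.mul_le_mul_right
        omega)
      hK.ge hq hqL hZ (fun x => ¬ ZeroTriangle x) (Valid n)
      (fun s Q hQ => hasInst hN3 hN1 hq hqn s Q hQ)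
  have hfin : ∀ q : ℕ, 2 ≤ q → q ^ k ≤ (q ^ b) ^ K + 1 →
      n ^ 2 ≤ 2 ^ (800 * r + 9) * ((κ + 1) * b * (B.card + 1)) := by
    intro q hq h
    have h1 : k ≤ b * K + 1 := by
      by_contra hcon
      exact no_bound hq (by omega) h
    have hpos : 0 < 4 ^ (400 * r) := Nat.pow_pos (by norm_num)
    have h2 : N * N ≤ 4 ^ (400 * r) * (b * K + 2) := by
      have h5 : N * N < (k + 1) * 4 ^ (400 * r) := by
        rw [hk, add_mul, one_mul]
        exact Nat.lt_div_mul_add hpos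
      calc N * N ≤ (k + 1) * 4 ^ (400 * r) := h5.le
        _ = 4 ^ (400 * r) * (k + 1) := mul_comm _ _
        _ ≤ _ := Nat.mul_le_mul_left _ (by omega)
    have h3 : (4 : ℕ) ^ (400 * r) = 2 ^ (800 * r) := by
      rw [show (4 : ℕ) = 2 ^ 2 by norm_num, ← pow_mul]
      congr 1
      ring
    have h5 : 1 ≤ (κ + 1) * b := Nat.mul_pos (Nat.succ_pos _) hb
    calc n ^ 2 ≤ (5 * N) ^ 2 := Nat.pow_le_pow_left hN5 2
      _ = 25 * (N * N) := by ring
      _ ≤ 25 * (4 ^ (400 * r) * (b * K + 2)) := Nat.mul_le_mul_left _ h2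
      _ = 2 ^ (800 * r) * (400 * ((κ + 1) * b * B.card) + 50) := by rw [hK, h3]; ring
      _ ≤ 2 ^ (800 * r) * (512 * ((κ + 1) * b * (B.card + 1))) := by
          apply Nat.mul_le_mul_left
          rw [mul_add ((κ + 1) * b), mul_one]
          omega
      _ = _ := by rw [pow_add]; ring
  rcases hC with ⟨hZ, hC⟩ | ⟨hZ, hU, hC⟩
  · have h1 := (hmain 2 (2 ^ b) le_rfl (by omega) (by
      calc 2 = 2 ^ 1 := (pow_one 2).symm
        _ ≤ 2 ^ b := Nat.pow_le_pow_right (by norm_num) hb) hZ).1 hC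
    exact hfin 2 le_rfl (h1.trans (Nat.le_succ _))
  · have h1 := hmain n (n ^ b) (by omega) le_rfl (by
      calc n = n ^ 1 := (pow_one n).symm
        _ ≤ n ^ b := Nat.pow_le_pow_right (by omega) hb) hZ
    rcases hC with hC | hC
    · refine hfin n (by omega) (h1.2.2 hU fun x hx => ?_)
      rw [hC x hx, not_not]
    · exact hfin n (by omega) ((h1.2.1 hU hC).trans (Nat.le_succ _))

/-- **From pieces to parts.** -/
theorem parts_of_list (C : WCirc ι X Z) {β w : ℕ}
    (L : List (Finset (Fin C.size) × Finset (Fin C.size)))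
    (h1 : ∀ p ∈ L, (∀ h g, C.Joined h g ∨ C.Joined g h → g ∈ p.1 → h ∈ p.1 ∨ h ∈ p.2) ∧
      p.2.card ≤ β ∧ ∑ g ∈ p.1, C.vars g ≤ w)
    (h2 : ∀ g, ∃ p ∈ L, g ∈ p.1 ∨ g ∈ p.2) :
    ∃ (B : Finset (Fin C.size)) (part : Fin C.size → ℕ), Parts C B part L.length w ∧
      B.card ≤ L.length * β := by
  classical
  obtain ⟨B, hB⟩ : ∃ B : Finset (Fin C.size), B = L.toFinset.biUnion Prod.snd := ⟨_, rfl⟩
  have hBm : ∀ g, g ∉ B → ∀ p ∈ L, g ∉ p.2 := by
    intro g hg p hp hgp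
    apply hg
    rw [hB]
    exact mem_biUnion.2 ⟨p, List.mem_toFinset.2 hp, hgp⟩
  obtain ⟨S, hS⟩ : ∃ S : Fin C.size → Set ℕ, ∀ g, S g = {i | ∃ h : i < L.length, g ∈ (L[i]).1} :=
    ⟨_, fun _ => rfl⟩
  have hmem : ∀ g, g ∉ B → ∃ h : sInf (S g) < L.length, g ∈ (L[sInf (S g)]).1 := by
    intro g hg
    have h3 : sInf (S g) ∈ S g := by
      apply Nat.sInf_mem
      obtain ⟨p, hp, hp2⟩ := h2 g
      obtain ⟨i, hi, hip⟩ := List.getElem_of_mem hp
      refine ⟨i, ?_⟩
      rw [hS]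
      refine ⟨hi, ?_⟩
      rw [hip]
      exact hp2.resolve_right (hBm g hg p hp)
    have h4 : ∀ i, i ∈ S g → ∃ h : i < L.length, g ∈ (L[i]).1 := by
      intro i hi
      rw [hS] at hi
      exact hi
    exact h4 _ h3
  have hlt : ∀ g, g ∉ B → sInf (S g) < L.length := fun g hg => (hmem g hg).1
  refine ⟨B, fun g => sInf (S g), ⟨?_, hlt, ?_⟩, ?_⟩
  · intro h g hj hh hg
    have : S h = S g := by
      rw [hS, hS]
      ext i
      constructor
      · rintro ⟨hi, hhi⟩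
        refine ⟨hi, ?_⟩
        exact (((h1 _ (List.getElem_mem hi)).1 g h (Or.inr hj) hhi)).resolve_right
          (hBm g hg _ (List.getElem_mem hi))
      · rintro ⟨hi, hhi⟩
        refine ⟨hi, ?_⟩
        exact (((h1 _ (List.getElem_mem hi)).1 h g (Or.inl hj) hhi)).resolve_right
          (hBm h hh _ (List.getElem_mem hi))
    rw [this]
  · intro j
    by_cases hj : j < L.length
    · refine le_trans (sum_le_sum_of_subset ?_) (h1 _ (List.getElem_mem hj)).2.2
      intro g hg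
      obtain ⟨-, hg1, hg2⟩ := mem_filter.1 hg
      obtain ⟨h3, h4⟩ := hmem g hg1
      have hg2' : sInf (S g) = j := hg2
      simp only [hg2'] at h4
      exact h4
    · rw [Finset.filter_false_of_mem, sum_empty]
      · exact Nat.zero_le _
      · rintro g _ ⟨hg1, hg2⟩
        exact hj (hg2 ▸ hlt g hg1)
  · rw [hB]
    refine (card_biUnion_le_card_mul _ _ β fun p hp => ?_).trans
      (Nat.mul_le_mul_right _ (List.toFinset_card_le L))
    exact (h1 p (List.mem_toFinset.1 hp)).2.1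

/-- the number `w` of reads in a part -/
lemma choose_w {n r : ℕ} (hr : 1 ≤ r) (hn : 9600 * r ≤ n) : ∃ w : ℕ, 0 < w ∧ 9600 * r * w ≤ n ∧
    n ≤ 19200 * r * w := by
  have h0 : 0 < 9600 * r := by omega
  refine ⟨n / (9600 * r), Nat.div_pos hn h0, Nat.mul_div_le _ _, ?_⟩
  obtain ⟨w, hw⟩ : ∃ w, w = n / (9600 * r) := ⟨_, rfl⟩
  have h1 : 1 ≤ w := by rw [hw]; exact Nat.div_pos hn h0
  have h2 : n < (w + 1) * (9600 * r) := by
    rw [hw, add_mul, one_mul]
    exact Nat.lt_div_mul_add h0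
  rw [← hw]
  calc n ≤ (w + 1) * (9600 * r) := h2.le
    _ ≤ (2 * w) * (9600 * r) := Nat.mul_le_mul_right _ (by omega)
    _ = _ := by ring

/-- **Treewidth.** -/
theorem treewidth_bound {n r κ b θ : ℕ} (hr : 1 ≤ r) (hb : 1 ≤ b) {Z : Type} [Fintype Z]
    (C : WCirc (Fin n × Fin n) (Bool × ℤ) Z) (hκ : C.FanIn κ) (hθ : C.TreewidthLE θ)
    (hR : C.reads ≤ r * n ^ 2) (hC : Solves C b) :
    n ≤ 2 ^ (831 * r) * ((κ + 1) * b * (θ + 1)) := by
  have hr2 : r < 2 ^ r := Nat.lt_two_pow_self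
  have hE : 1 ≤ (κ + 1) * b * (θ + 1) :=
    Nat.mul_pos (Nat.mul_pos (Nat.succ_pos _) hb) (Nat.succ_pos _)
  by_cases hn : 9600 * r ≤ n
  · obtain ⟨w, hw0, hw1, hw2⟩ := choose_w hr hn
    obtain ⟨s, B, part, h1, h2, h3, h4, h5⟩ := C.skel.exists_parts θ (C.tw_skel hθ) C.vars w
    have hB : Parts C B part s w :=
      ⟨fun h g hj => h3 h g ((C.joined_skel h g).2 hj), h4, h5⟩
    have h6 := cut (by omega) hr hb C hκ hR hC hB hw1
    have hR' : ∑ g, C.vars g ≤ r * n ^ 2 := hR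
    have hs : s ≤ 2 ^ 18 * (r ^ 2 * n) := by
      have h7 : w * s ≤ w * (2 ^ 18 * (r ^ 2 * n)) := by
        calc w * s ≤ 8 * ∑ g, C.vars g + w := h1
          _ ≤ 8 * (r * n ^ 2) + w := Nat.add_le_add_right (Nat.mul_le_mul_left _ hR') _
          _ = 8 * (r * (n * n)) + w * 1 := by ring
          _ ≤ 8 * (r * (19200 * r * w * n)) + w * (r ^ 2 * n) := by
              apply Nat.add_le_add
              · gcongr
              · apply Nat.mul_le_mul_left
                have h0 : 0 < n := by omega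
                have h0' : 0 < r := by omega
                exact Nat.mul_pos (Nat.pow_pos h0') h0
          _ = w * (153601 * (r ^ 2 * n)) := by ring
          _ ≤ _ := by gcongr; norm_num
      exact Nat.le_of_mul_le_mul_left h7 hw0
    have h7 : B.card + 1 ≤ 2 ^ 20 * (r ^ 2 * n * (θ + 1)) := by
      have h8 : 1 ≤ r ^ 2 * n * (θ + 1) := by
        have h0 : 0 < n := by omega
        have h0' : 0 < r := by omega
        exact Nat.mul_pos (Nat.mul_pos (Nat.pow_pos h0') h0) (Nat.succ_pos _)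
      calc B.card + 1 ≤ s * (2 * (θ + 1)) + 1 := Nat.add_le_add_right h2 _
        _ ≤ 2 ^ 18 * (r ^ 2 * n) * (2 * (θ + 1)) + r ^ 2 * n * (θ + 1) := by gcongr
        _ = (2 ^ 19 + 1) * (r ^ 2 * n * (θ + 1)) := by ring
        _ ≤ _ := by gcongr; norm_num
    have h8 : n * n ≤ n * (2 ^ (831 * r) * ((κ + 1) * b * (θ + 1))) := by
      calc n * n = n ^ 2 := (sq n).symm
        _ ≤ 2 ^ (800 * r + 9) * ((κ + 1) * b * (B.card + 1)) := h6
        _ ≤ 2 ^ (800 * r + 9) * ((κ + 1) * b * (2 ^ 20 * (r ^ 2 * n * (θ + 1)))) := by gcongr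
        _ = 2 ^ (800 * r + 9) * 2 ^ 20 * r ^ 2 * (n * ((κ + 1) * b * (θ + 1))) := by ring
        _ ≤ 2 ^ (800 * r + 9) * 2 ^ 20 * (2 ^ r) ^ 2 * (n * ((κ + 1) * b * (θ + 1))) := by gcongr
        _ = 2 ^ (802 * r + 29) * (n * ((κ + 1) * b * (θ + 1))) := by
            rw [← pow_add, ← pow_mul, ← pow_add]
            congr 2
            ring
        _ ≤ 2 ^ (831 * r) * (n * ((κ + 1) * b * (θ + 1))) := by
            apply Nat.mul_le_mul_right
            apply Nat.pow_le_pow_right (by norm_num)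
            omega
        _ = _ := by ring
    exact Nat.le_of_mul_le_mul_left h8 (by omega)
  · push Not at hn
    have h1 : 9600 * r ≤ 2 ^ (831 * r) := by
      calc 9600 * r ≤ 2 ^ 14 * 2 ^ r := Nat.mul_le_mul (by norm_num) hr2.le
        _ = 2 ^ (14 + r) := (pow_add _ _ _).symm
        _ ≤ _ := Nat.pow_le_pow_right (by norm_num) (by omega)
    calc n ≤ 2 ^ (831 * r) * 1 := by omega
      _ ≤ _ := Nat.mul_le_mul_left _ hE

/-- **Pieces of a drawn circuit.** -/
theorem parts_of_drawing (C : WCirc ι X Z) (k : ℕ) (h : Pool.Agent.U514.PD.W.CrossingsLE C k)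
    (q w : ℕ) (hq : 5000 ≤ q) (hw : 0 < w) :
    ∃ (ν : ℕ) (B : Finset (Fin C.size)) (part : Fin C.size → ℕ), Parts C B part ν w ∧
      B.card ≤ ν * (5000 * q) ∧
      ν * (q ^ 2 * w) ≤ 10 * (w * (C.size + 16 * k) + q ^ 2 * C.reads) + q ^ 2 * w := by
  obtain ⟨D, hfin, hk⟩ := h
  obtain ⟨L, h1, h2, h3⟩ := Pool.Agent.U514.PD.division D hfin C.vars q w hq hw
  have hne : ∀ h g, C.Joined h g → h ≠ g := by
    rintro h g ⟨a, ha⟩
    rw [← ha]
    exact (C.acyclic g a).ne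
  obtain ⟨B, part, h4, h5⟩ := parts_of_list C (β := 5000 * q) (w := w) L (fun p hp => by
    obtain ⟨h6, -, h7, h8⟩ := h1 p hp
    refine ⟨?_, h7, h8⟩
    intro h g hhg hg
    refine h6 g hg h ((SimpleGraph.fromRel_adj _ _ _).2 ?_)
    rcases hhg with hj | hj
    · exact ⟨(hne _ _ hj).symm, Or.inr hj⟩
    · exact ⟨hne _ _ hj, Or.inl hj⟩) h2
  refine ⟨L.length, B, part, h4, h5, h3.trans ?_⟩
  apply Nat.add_le_add_right
  apply Nat.mul_le_mul_left
  rw [Fintype.card_fin]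
  have : C.reads = ∑ g, C.vars g := rfl
  rw [this]
  apply Nat.add_le_add_right
  apply Nat.mul_le_mul_left
  omega

/-- **Drawings.** -/
theorem drawing_bound {n r κ b k g : ℕ} (hr : 1 ≤ r) (hb : 1 ≤ b) {Z : Type} [Fintype Z]
    (C : WCirc (Fin n × Fin n) (Bool × ℤ) Z) (hκ : C.FanIn κ)
    (hk : Pool.Agent.U514.PD.W.CrossingsLE C k) (hg : C.size + k ≤ g)
    (hR : C.reads ≤ r * n ^ 2) (hC : Solves C b) :
    n ^ 3 ≤ 2 ^ (1712 * r) * (((κ + 1) * b) ^ 2 * (g + n)) := by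
  have hr2 : r < 2 ^ r := Nat.lt_two_pow_self
  have hE : 1 ≤ ((κ + 1) * b) ^ 2 := Nat.pow_pos (Nat.mul_pos (Nat.succ_pos _) hb)
  by_cases hn : 9600 * r ≤ n
  · obtain ⟨w, hw0, hw1, hw2⟩ := choose_w hr hn
    have hn0 : 0 < n := by omega
    have hr0 : 0 < r := hr
    obtain ⟨G, hG⟩ : ∃ G, G = g + n := ⟨_, rfl⟩
    obtain ⟨u, hu⟩ : ∃ u, u = Nat.sqrt (G / n) := ⟨_, rfl⟩
    have hu1 : 1 ≤ u := by
      rw [hu]
      exact Nat.le_sqrt.2 (by rw [Nat.le_div_iff_mul_le hn0]; omega)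
    obtain ⟨t, ht⟩ : ∃ t, t = u + 1 := ⟨_, rfl⟩
    have ht1 : G ≤ t ^ 2 * n := by
      have h1 : G / n < t * t := by
        rw [ht, hu]
        exact Nat.lt_succ_sqrt _
      have h2 := (Nat.div_lt_iff_lt_mul hn0).1 h1
      rw [sq]
      exact h2.le
    have ht2 : t ^ 2 * n ≤ 4 * G := by
      have h1 : u * u ≤ G / n := by rw [hu]; exact Nat.sqrt_le _
      calc t ^ 2 * n ≤ (2 * u) ^ 2 * n := by
            apply Nat.mul_le_mul_right
            apply Nat.pow_le_pow_left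
            omega
        _ = 4 * ((u * u) * n) := by ring
        _ ≤ 4 * (G / n * n) := by gcongr
        _ ≤ 4 * G := Nat.mul_le_mul_left _ (Nat.div_mul_le_self _ _)
    obtain ⟨ν, B, part, hB, h1, h2⟩ := parts_of_drawing C k hk (5000 * t) w (by omega) hw0
    have h6 := cut (by omega) hr hb C hκ hR hC hB hw1
    have hν : ν ≤ 2 ^ 18 * (r ^ 2 * n) := by
      have h7 : ((5000 * t) ^ 2 * w) * ν ≤ ((5000 * t) ^ 2 * w) * (2 ^ 18 * (r ^ 2 * n)) := by
        have e1 : C.size + 16 * k ≤ 16 * (t ^ 2 * n) := by omega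
        have e2 : 1 ≤ r ^ 2 * n := by
          have : 0 < r ^ 2 * n := by positivity
          omega
        calc ((5000 * t) ^ 2 * w) * ν = ν * ((5000 * t) ^ 2 * w) := mul_comm _ _
          _ ≤ 10 * (w * (C.size + 16 * k) + (5000 * t) ^ 2 * C.reads) + (5000 * t) ^ 2 * w := h2
          _ ≤ 10 * (w * (16 * (t ^ 2 * n)) + (5000 * t) ^ 2 * (r * n ^ 2)) +
              (5000 * t) ^ 2 * w := by gcongr
          _ = 160 * (w * (t ^ 2 * n)) + 10 * ((5000 * t) ^ 2 * (r * (n * n))) +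
              (5000 * t) ^ 2 * w * 1 := by ring
          _ ≤ 25000000 * (w * (t ^ 2 * (r ^ 2 * n))) +
              10 * ((5000 * t) ^ 2 * (r * (19200 * r * w * n))) +
              (5000 * t) ^ 2 * w * (r ^ 2 * n) := by
              have e3 : n ≤ r ^ 2 * n := by
                have : 1 ≤ r ^ 2 := Nat.one_le_pow _ _ hr0
                nlinarith
              gcongr
              norm_num
          _ = ((5000 * t) ^ 2 * w) * (192002 * (r ^ 2 * n)) := by ring
          _ ≤ _ := by gcongr; norm_num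
      have ht0 : 0 < t := by omega
      exact Nat.le_of_mul_le_mul_left h7 (by positivity)
    have h7 : B.card + 1 ≤ 2 ^ 44 * (r ^ 2 * n * t) := by
      have h8 : 1 ≤ r ^ 2 * n * t := by
        have : 0 < t := by omega
        have : 0 < r ^ 2 * n * t := by positivity
        omega
      calc B.card + 1 ≤ ν * (5000 * (5000 * t)) + 1 := Nat.add_le_add_right h1 _
        _ ≤ 2 ^ 18 * (r ^ 2 * n) * (5000 * (5000 * t)) + r ^ 2 * n * t := by gcongr
        _ = (2 ^ 18 * 25000000 + 1) * (r ^ 2 * n * t) := by ring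
        _ ≤ _ := by gcongr; norm_num
    have h8 : n * n ≤ n * (2 ^ (800 * r + 53) * r ^ 2 * ((κ + 1) * b) * t) := by
      calc n * n = n ^ 2 := (sq n).symm
        _ ≤ 2 ^ (800 * r + 9) * ((κ + 1) * b * (B.card + 1)) := h6
        _ ≤ 2 ^ (800 * r + 9) * ((κ + 1) * b * (2 ^ 44 * (r ^ 2 * n * t))) := by gcongr
        _ = n * (2 ^ (800 * r + 9) * 2 ^ 44 * r ^ 2 * ((κ + 1) * b) * t) := by ring
        _ = _ := by rw [← pow_add]
    have h9 := Nat.le_of_mul_le_mul_left h8 hn0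
    calc n ^ 3 = n ^ 2 * n := by ring
      _ ≤ (2 ^ (800 * r + 53) * r ^ 2 * ((κ + 1) * b) * t) ^ 2 * n := by gcongr
      _ = 2 ^ (1600 * r + 106) * r ^ 4 * (((κ + 1) * b) ^ 2 * (t ^ 2 * n)) := by
          have : (2 : ℕ) ^ (1600 * r + 106) = (2 ^ (800 * r + 53)) ^ 2 := by
            rw [← pow_mul]
            congr 1
            ring
          rw [this]
          ring
      _ ≤ 2 ^ (1600 * r + 106) * (2 ^ r) ^ 4 * (((κ + 1) * b) ^ 2 * (4 * G)) := by gcongr
      _ = 2 ^ (1604 * r + 108) * (((κ + 1) * b) ^ 2 * G) := by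
          rw [← pow_mul, ← pow_add, show 1604 * r + 108 = 1600 * r + 106 + r * 4 + 2 by ring,
            pow_add 2 (1600 * r + 106 + r * 4)]
          ring
      _ ≤ 2 ^ (1712 * r) * (((κ + 1) * b) ^ 2 * G) := by
          apply Nat.mul_le_mul_right
          apply Nat.pow_le_pow_right (by norm_num)
          omega
      _ = _ := by rw [hG]
  · push Not at hn
    have h1 : (9600 * r) ^ 2 ≤ 2 ^ (1712 * r) := by
      calc (9600 * r) ^ 2 ≤ (2 ^ 14 * 2 ^ r) ^ 2 :=
            Nat.pow_le_pow_left (Nat.mul_le_mul (by norm_num) hr2.le) 2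
        _ = 2 ^ (2 * (14 + r)) := by rw [← pow_add, ← pow_mul, mul_comm 2]
        _ ≤ _ := Nat.pow_le_pow_right (by norm_num) (by omega)
    calc n ^ 3 = n ^ 2 * (1 * n) := by ring
      _ ≤ 2 ^ (1712 * r) * (((κ + 1) * b) ^ 2 * (g + n)) := by
          apply Nat.mul_le_mul
          · exact (Nat.pow_le_pow_left hn.le 2).trans h1
          · exact Nat.mul_le_mul hE (Nat.le_add_left _ _)

end Pool.Agent.U286.LY.ET
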