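import Mathlib
import Pool.Agent.U286.LY.ETnum

/-!
# Exact Triangle and word circuits laid out in host graphs
-/

set_option autoImplicit false

open Finset

namespace Pool.Agent.U286.LY.ET

open Pool.Agent.Y631.Wc Pool.Agent.U514.PD.W

/-- **Host graphs with small separators.** -/
theorem hosts_bound {K α ϑ : ℝ} (hK : 0 ≤ K) (hα : 0 < α) (hα1 : α < 1) (hϑ0 : 0 ≤ ϑ)
    (hϑ : ϑ < 1) : ∃ C₀ : ℝ, 1 ≤ C₀ ∧ ∀ {n r κ b c v : ℕ}, 1 ≤ r → 1 ≤ b →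
    ∀ {Z : Type} [Fintype Z] (C : WCirc (Fin n × Fin n) (Bool × ℤ) Z), C.FanIn κ →
      C.reads ≤ r * n ^ 2 → Solves C b → LaidOut C.Joined K α ϑ v c →
      (n : ℝ) ^ (1 + α) ≤ C₀ * 2 ^ (826 * r) * ((κ + 1) * b * (c * ((v : ℝ) + n) ^ α)) := by
  classical
  obtain ⟨C₁, C₂, hC1, hC2, hdiv⟩ := exists_pieces (K / (1 - ϑ ^ α)) hα hα1
  refine ⟨C₁ * C₂, by nlinarith, ?_⟩
  intro n r κ b c v hr hb Z _ C hκ hR hC hlay
  obtain ⟨X, H, J, reg, hH, hJ, hL⟩ := hlay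
  have hc : (1 : ℝ) ≤ c := by exact_mod_cast hL.pos C.out
  have hrR : (1 : ℝ) ≤ r := by exact_mod_cast hr
  have hbR : (1 : ℝ) ≤ b := by exact_mod_cast hb
  have hκR : (0 : ℝ) ≤ κ := Nat.cast_nonneg _
  have hCC : 1 ≤ C₁ * C₂ := by nlinarith
  have hr2 : r < 2 ^ r := Nat.lt_two_pow_self
  by_cases hn0 : n = 0
  · rw [hn0, Nat.cast_zero, Real.zero_rpow (by linarith)]
    positivity
  have hn1 : 1 ≤ n := Nat.one_le_iff_ne_zero.2 hn0
  have hnR : (1 : ℝ) ≤ n := by exact_mod_cast hn1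
  have hnpos : (0 : ℝ) < n := by linarith
  have hv0 : (0 : ℝ) ≤ v := Nat.cast_nonneg _
  by_cases hn : 9600 * r ≤ n
  · obtain ⟨w, hw0, hw1, hw2⟩ := choose_w hr hn
    have hwR : (0 : ℝ) < w := by exact_mod_cast hw0
    obtain ⟨s, hs⟩ : ∃ s : ℝ, s = ((v : ℝ) + n) / n := ⟨_, rfl⟩
    have hs1 : 1 ≤ s := by
      rw [hs, le_div_iff₀ hnpos]
      linarith
    have hS1 : 1 ≤ s ^ α := Real.one_le_rpow hs1 hα.le
    have hL' : Layout (fun h g => C.Joined h g ∨ C.Joined g h) H J c reg := by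
      refine ⟨hL.conn, hL.sub, hL.load, ?_⟩
      rintro h g (hj | hj)
      · exact hL.meet _ _ hj
      · obtain ⟨x, hx, y, hy, hxy⟩ := hL.meet _ _ hj
        refine ⟨y, hy, x, hx, ?_⟩
        rcases hxy with h1 | h1
        · exact Or.inl h1.symm
        · exact Or.inr h1.symm
    obtain ⟨L, h1, h2, h3⟩ := hdiv X H (hH.weighted hK hα hϑ0 hϑ) (Fin C.size) _ J c reg hL'
      C.vars s w hs1 hwR
    obtain ⟨B, part, hB, hBc⟩ := parts_of_list C (β := ⌊C₁ * (c * s ^ α)⌋₊) (w := w) L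
      (fun p hp => by
        obtain ⟨h4, h5, h6⟩ := h1 p hp
        exact ⟨fun h g hj hg => h4 h g hj hg, Nat.le_floor h5, by exact_mod_cast h6⟩) h2
    have h6 := cut (by omega) hr hb C hκ hR hC hB hw1
    have hβ : ((⌊C₁ * (c * s ^ α)⌋₊ : ℕ) : ℝ) ≤ C₁ * (c * s ^ α) :=
      Nat.floor_le (by positivity)
    have hlen : (L.length : ℝ) ≤ C₂ * (19202 * (r ^ 2 * n)) := by
      refine h3.trans (mul_le_mul_of_nonneg_left ?_ (by linarith))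
      have e1 : (J.card : ℝ) / s ≤ n := by
        rw [div_le_iff₀ (by linarith), hs]
        have : (J.card : ℝ) ≤ v := by exact_mod_cast hJ
        have e2 : (n : ℝ) * (((v : ℝ) + n) / n) = v + n := by field_simp
        rw [e2]
        linarith
      have e2 : ((∑ g, C.vars g : ℕ) : ℝ) / w ≤ 19200 * (r ^ 2 * n) := by
        rw [div_le_iff₀ hwR]
        have e3 : ((∑ g, C.vars g : ℕ) : ℝ) ≤ r * n ^ 2 := by
          have : ∑ g, C.vars g ≤ r * n ^ 2 := hR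
          exact_mod_cast this
        have e4 : (n : ℝ) ≤ 19200 * r * w := by exact_mod_cast hw2
        calc ((∑ g, C.vars g : ℕ) : ℝ) ≤ r * n ^ 2 := e3
          _ = r * n * n := by ring
          _ ≤ r * n * (19200 * r * w) := mul_le_mul_of_nonneg_left e4 (by positivity)
          _ = _ := by ring
      have e3 : (n : ℝ) ≤ r ^ 2 * n := by
        have : (1 : ℝ) ≤ (r : ℝ) ^ 2 := one_le_pow₀ hrR
        nlinarith
      linarith
    have hBR : (B.card : ℝ) + 1 ≤ 2 ^ 15 * (C₁ * C₂ * (r ^ 2 * n * (c * s ^ α))) := by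
      have e1 : (B.card : ℝ) ≤ C₂ * (19202 * (r ^ 2 * n)) * (C₁ * (c * s ^ α)) := by
        calc (B.card : ℝ) ≤ (L.length : ℝ) * (⌊C₁ * (c * s ^ α)⌋₊ : ℕ) := by exact_mod_cast hBc
          _ ≤ _ := mul_le_mul hlen hβ (by positivity) (by positivity)
      have e2 : (1 : ℝ) ≤ C₁ * C₂ * (r ^ 2 * n * (c * s ^ α)) := by
        have a1 : (1 : ℝ) ≤ (r : ℝ) ^ 2 := one_le_pow₀ hrR
        have a2 : (1 : ℝ) ≤ (r : ℝ) ^ 2 * n := by nlinarith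
        have a3 : (1 : ℝ) ≤ c * s ^ α := by nlinarith
        have a4 : (1 : ℝ) ≤ (r : ℝ) ^ 2 * n * (c * s ^ α) := by nlinarith
        nlinarith
      calc (B.card : ℝ) + 1 ≤ C₂ * (19202 * (r ^ 2 * n)) * (C₁ * (c * s ^ α)) +
            C₁ * C₂ * (r ^ 2 * n * (c * s ^ α)) := add_le_add e1 e2
        _ = 19203 * (C₁ * C₂ * (r ^ 2 * n * (c * s ^ α))) := by ring
        _ ≤ _ := by
            apply mul_le_mul_of_nonneg_right (by norm_num)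
            linarith
    have h7 : (n : ℝ) ^ 2 ≤ 2 ^ (800 * r + 9) * ((κ + 1) * b * ((B.card : ℝ) + 1)) := by
      exact_mod_cast h6
    have h8 : (n : ℝ) ≤ 2 ^ (800 * r + 9) * 2 ^ 15 * (r : ℝ) ^ 2 *
        (C₁ * C₂ * ((κ + 1) * b * (c * s ^ α))) := by
      have h9 : (n : ℝ) * n ≤ n * (2 ^ (800 * r + 9) * 2 ^ 15 * (r : ℝ) ^ 2 *
          (C₁ * C₂ * ((κ + 1) * b * (c * s ^ α)))) := by
        calc (n : ℝ) * n = (n : ℝ) ^ 2 := (sq _).symm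
          _ ≤ 2 ^ (800 * r + 9) * ((κ + 1) * b * ((B.card : ℝ) + 1)) := h7
          _ ≤ 2 ^ (800 * r + 9) * ((κ + 1) * b *
              (2 ^ 15 * (C₁ * C₂ * (r ^ 2 * n * (c * s ^ α))))) := by gcongr
          _ = _ := by ring
      exact le_of_mul_le_mul_left h9 hnpos
    have h9 : (2 : ℝ) ^ (800 * r + 9) * 2 ^ 15 * (r : ℝ) ^ 2 ≤ 2 ^ (826 * r) := by
      have e1 : 2 ^ (800 * r + 9) * 2 ^ 15 * r ^ 2 ≤ 2 ^ (826 * r) := by
        calc 2 ^ (800 * r + 9) * 2 ^ 15 * r ^ 2 ≤ 2 ^ (800 * r + 9) * 2 ^ 15 * (2 ^ r) ^ 2 := by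
              gcongr
          _ = 2 ^ (802 * r + 24) := by
              rw [← pow_add, ← pow_mul, ← pow_add]
              congr 1
              ring
          _ ≤ _ := Nat.pow_le_pow_right (by norm_num) (by omega)
      exact_mod_cast e1
    have hnα : 0 ≤ (n : ℝ) ^ α := by positivity
    have hsn : s ^ α * (n : ℝ) ^ α = ((v : ℝ) + n) ^ α := by
      rw [← Real.mul_rpow (by linarith) hnpos.le]
      congr 1
      rw [hs]
      field_simp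
    calc (n : ℝ) ^ (1 + α) = n * (n : ℝ) ^ α := by rw [Real.rpow_add hnpos, Real.rpow_one]
      _ ≤ (2 ^ (800 * r + 9) * 2 ^ 15 * (r : ℝ) ^ 2 *
          (C₁ * C₂ * ((κ + 1) * b * (c * s ^ α)))) * (n : ℝ) ^ α :=
            mul_le_mul_of_nonneg_right h8 hnα
      _ ≤ (2 ^ (826 * r) * (C₁ * C₂ * ((κ + 1) * b * (c * s ^ α)))) * (n : ℝ) ^ α := by
            apply mul_le_mul_of_nonneg_right _ hnα
            apply mul_le_mul_of_nonneg_right h9 (by positivity)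
      _ = C₁ * C₂ * 2 ^ (826 * r) * ((κ + 1) * b * (c * (s ^ α * (n : ℝ) ^ α))) := by ring
      _ = _ := by rw [hsn]
  · push Not at hn
    have h1 : (n : ℝ) ≤ 2 ^ (826 * r) := by
      have h2 : n ≤ 2 ^ (826 * r) := by
        calc n ≤ 9600 * r := hn.le
          _ ≤ 2 ^ 14 * 2 ^ r := Nat.mul_le_mul (by norm_num) hr2.le
          _ = 2 ^ (14 + r) := (pow_add _ _ _).symm
          _ ≤ _ := Nat.pow_le_pow_right (by norm_num) (by omega)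
      exact_mod_cast h2
    have h2 : (n : ℝ) ^ α ≤ ((v : ℝ) + n) ^ α :=
      Real.rpow_le_rpow hnpos.le (by linarith) hα.le
    have h0 : 0 ≤ ((v : ℝ) + n) ^ α := by positivity
    have e1 : (1 : ℝ) ≤ ((κ : ℝ) + 1) * b := by nlinarith
    have e2 : (1 : ℝ) ≤ ((κ : ℝ) + 1) * b * c := by nlinarith
    have e3 : (1 : ℝ) ≤ C₁ * C₂ * (((κ : ℝ) + 1) * b * c) := by nlinarith
    calc (n : ℝ) ^ (1 + α) = n * (n : ℝ) ^ α := by rw [Real.rpow_add hnpos, Real.rpow_one]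
      _ ≤ 2 ^ (826 * r) * ((v : ℝ) + n) ^ α := mul_le_mul h1 h2 (by positivity) (by positivity)
      _ ≤ (C₁ * C₂ * (((κ : ℝ) + 1) * b * c)) * (2 ^ (826 * r) * ((v : ℝ) + n) ^ α) :=
          le_mul_of_one_le_left (by positivity) e3
      _ = _ := by ring

/-- **Lattices.** -/
theorem lattice_bound (D : ℕ) (hD : 2 ≤ D) : ∃ C₀ : ℕ, ∀ {n r κ b c : ℕ}, 1 ≤ r → 1 ≤ b →
    ∀ {Z : Type} [Fintype Z] (C : WCirc (Fin n × Fin n) (Bool × ℤ) Z), C.FanIn κ →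
      C.reads ≤ r * n ^ 2 → Solves C b → ∀ (J : Finset (Fin D → ℤ))
      (reg : Fin C.size → Finset (Fin D → ℤ)), Layout C.Joined (lattice D) J c reg →
      n ^ (2 * D - 1) ≤ (C₀ ^ r * ((κ + 1) * b * c)) ^ D * (J.card + n) ^ (D - 1) := by
  have hD0 : (2 : ℝ) ≤ D := by exact_mod_cast hD
  have hD1 : (0 : ℝ) < D := by linarith
  have h1 : 1 / (D : ℝ) ≤ 1 / 2 := one_div_le_one_div_of_le (by norm_num) hD0
  have h2 : 1 / (3 * (D : ℝ)) ≤ 1 / 2 := one_div_le_one_div_of_le (by norm_num) (by linarith)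
  have h3 : 0 < 1 / (D : ℝ) := by positivity
  have h4 : 0 < 1 / (3 * (D : ℝ)) := by positivity
  obtain ⟨C₁, hC1, hC⟩ := hosts_bound (K := 3) (α := 1 - 1 / (D : ℝ))
    (ϑ := 1 - 1 / (3 * (D : ℝ))) (by norm_num) (by linarith) (by linarith) (by linarith)
    (by linarith)
  obtain ⟨C₀, hC0⟩ : ∃ C₀ : ℕ, C₁ * 2 ^ 826 ≤ (C₀ : ℝ) := ⟨_, Nat.le_ceil _⟩
  refine ⟨C₀, ?_⟩
  intro n r κ b c hr hb Z _ C hκ hR hS J reg hlay
  have h5 := hC hr hb C hκ hR hS ⟨_, lattice D, J, reg, hasSep_lattice (by omega), le_refl _, hlay⟩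
  have h6 : C₁ * (2 : ℝ) ^ (826 * r) ≤ (C₀ : ℝ) ^ r := by
    calc C₁ * (2 : ℝ) ^ (826 * r) ≤ C₁ ^ r * (2 ^ 826) ^ r := by
          rw [pow_mul]
          apply mul_le_mul_of_nonneg_right _ (by positivity)
          calc C₁ = C₁ ^ 1 := (pow_one _).symm
            _ ≤ C₁ ^ r := pow_le_pow_right₀ hC1 hr
      _ = (C₁ * 2 ^ 826) ^ r := (mul_pow _ _ _).symm
      _ ≤ _ := pow_le_pow_left₀ (by positivity) hC0 _
  have hx0 : (0 : ℝ) ≤ (J.card : ℝ) + n := by positivity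
  have h7 : (n : ℝ) ^ (1 + (1 - 1 / (D : ℝ))) ≤
      (C₀ : ℝ) ^ r * ((κ + 1) * b * c) * ((J.card : ℝ) + n) ^ (1 - 1 / (D : ℝ)) := by
    refine h5.trans ?_
    have hJ0 : 0 ≤ ((J.card : ℝ) + n) ^ (1 - 1 / (D : ℝ)) := by positivity
    calc _ ≤ (C₀ : ℝ) ^ r * ((κ + 1) * b * (c * ((J.card : ℝ) + n) ^ (1 - 1 / (D : ℝ)))) :=
          mul_le_mul_of_nonneg_right h6 (by positivity)
      _ = _ := by ring
  have h8 : (n : ℝ) ^ (2 * D - 1) ≤ ((C₀ : ℝ) ^ r * ((κ + 1) * b * c)) ^ D *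
      ((J.card : ℝ) + n) ^ (D - 1) := by
    calc (n : ℝ) ^ (2 * D - 1) = ((n : ℝ) ^ (1 + (1 - 1 / (D : ℝ)))) ^ D := by
          rw [← Real.rpow_natCast, ← Real.rpow_natCast, ← Real.rpow_mul (Nat.cast_nonneg _)]
          congr 1
          rw [Nat.cast_sub (by omega)]
          field_simp
          push_cast
          ring
      _ ≤ ((C₀ : ℝ) ^ r * ((κ + 1) * b * c) *
          ((J.card : ℝ) + n) ^ (1 - 1 / (D : ℝ))) ^ D := pow_le_pow_left₀ (by positivity) h7 D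
      _ = _ := by
          rw [mul_pow]
          congr 1
          rw [← Real.rpow_natCast, ← Real.rpow_mul hx0, ← Real.rpow_natCast]
          congr 1
          rw [Nat.cast_sub (by omega)]
          field_simp
          norm_num
  exact_mod_cast h8

/-- **The number of the reads.** -/
theorem trade (C₀ x : ℝ) (D : ℕ) (hD : 0 < D) (ε : ℝ) (hε : 0 < ε) : ∃ n₀ : ℕ, ∀ n ≥ n₀,
    ∀ (R : ℕ) (M : ℝ), 0 ≤ M → M ≤ (n : ℝ) ^ (x - ε) →
      (∀ r : ℕ, 1 ≤ r → R ≤ r * n ^ 2 → (n : ℝ) ^ x ≤ C₀ * 2 ^ (D * r) * M) →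
      ε / (2 * D) * ((n : ℝ) ^ 2 * Real.logb 2 n) ≤ R := by
  obtain ⟨W, hW⟩ : ∃ W : ℝ, W = max C₀ 1 * 2 ^ D := ⟨_, rfl⟩
  have hW0 : 0 < W := by
    rw [hW]
    have : (0 : ℝ) < max C₀ 1 := lt_of_lt_of_le one_pos (le_max_right _ _)
    positivity
  have ht : Filter.Tendsto (fun m : ℕ => (m : ℝ) ^ (ε / 2)) Filter.atTop Filter.atTop :=
    (tendsto_rpow_atTop (by positivity)).comp tendsto_natCast_atTop_atTop
  obtain ⟨n₀, hn₀⟩ := (ht.eventually_gt_atTop W).exists_forall_of_atTop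
  refine ⟨max n₀ 1, fun n hn R M hM0 hM h => ?_⟩
  have hnW := hn₀ n ((le_max_left _ _).trans hn)
  have hn1 : 1 ≤ n := (le_max_right _ _).trans hn
  have hnR : (1 : ℝ) ≤ n := by exact_mod_cast hn1
  have hn0 : (0 : ℝ) < n := by linarith
  have hDR : (0 : ℝ) < D := by exact_mod_cast hD
  have hlog : 0 ≤ Real.logb 2 n := Real.logb_nonneg (by norm_num) hnR
  by_contra hcon
  push Not at hcon
  obtain ⟨y, hy⟩ : ∃ y : ℝ, y = ε / (2 * D) * Real.logb 2 n := ⟨_, rfl⟩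
  have hy0 : 0 ≤ y := by rw [hy]; positivity
  obtain ⟨r, hr⟩ : ∃ r, r = ⌊y⌋₊ + 1 := ⟨_, rfl⟩
  have hry : y < r := by rw [hr]; push_cast; exact Nat.lt_floor_add_one y
  have hry2 : (r : ℝ) ≤ y + 1 := by
    rw [hr]; push_cast
    have := Nat.floor_le hy0
    linarith
  have hR : R ≤ r * n ^ 2 := by
    have h1 : (R : ℝ) < ((r * n ^ 2 : ℕ) : ℝ) := by
      push_cast
      calc (R : ℝ) < ε / (2 * D) * ((n : ℝ) ^ 2 * Real.logb 2 n) := hcon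
        _ = y * (n : ℝ) ^ 2 := by rw [hy]; ring
        _ < r * (n : ℝ) ^ 2 := mul_lt_mul_of_pos_right hry (by positivity)
    exact_mod_cast h1.le
  have h1 := h r (by omega) hR
  have h2 : (2 : ℝ) ^ (D * r) ≤ 2 ^ D * (n : ℝ) ^ (ε / 2) := by
    have e2 : (2 : ℝ) ^ (Real.logb 2 n) = n := Real.rpow_logb (by norm_num) (by norm_num) hn0
    calc (2 : ℝ) ^ (D * r) = (2 : ℝ) ^ ((D : ℝ) * r) := by
          rw [← Real.rpow_natCast]
          push_cast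
          rfl
      _ ≤ (2 : ℝ) ^ ((D : ℝ) + Real.logb 2 n * (ε / 2)) := by
          apply Real.rpow_le_rpow_of_exponent_le (by norm_num)
          calc (D : ℝ) * r ≤ D * (y + 1) := mul_le_mul_of_nonneg_left hry2 hDR.le
            _ = _ := by rw [hy]; field_simp; ring
      _ = _ := by
          rw [Real.rpow_add (by norm_num), Real.rpow_mul (by norm_num), e2, Real.rpow_natCast]
  have hMn : 0 < (n : ℝ) ^ (x - ε) := by positivity
  have h3 : (n : ℝ) ^ x ≤ W * (n : ℝ) ^ (ε / 2) * (n : ℝ) ^ (x - ε) := by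
    calc (n : ℝ) ^ x ≤ C₀ * 2 ^ (D * r) * M := h1
      _ ≤ max C₀ 1 * 2 ^ (D * r) * M := by
          apply mul_le_mul_of_nonneg_right _ hM0
          apply mul_le_mul_of_nonneg_right (le_max_left _ _) (by positivity)
      _ ≤ max C₀ 1 * (2 ^ D * (n : ℝ) ^ (ε / 2)) * (n : ℝ) ^ (x - ε) := by
          have : (0 : ℝ) < max C₀ 1 := lt_of_lt_of_le one_pos (le_max_right _ _)
          gcongr
      _ = _ := by rw [hW]; ring
  have h4 : (n : ℝ) ^ x = (n : ℝ) ^ (ε / 2) * (n : ℝ) ^ (ε / 2) * (n : ℝ) ^ (x - ε) := by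
    rw [← Real.rpow_add hn0, ← Real.rpow_add hn0]
    congr 1
    ring
  rw [h4] at h3
  have h5 := le_of_mul_le_mul_right h3 hMn
  have h6 : 0 < (n : ℝ) ^ (ε / 2) := by positivity
  have h7 := le_of_mul_le_mul_right h5 h6
  linarith

/-- **Random circuits: treewidth.** -/
theorem treewidth_random (a κ : ℕ) (ε : ℝ) (hε : 0 < ε) (hε1 : ε ≤ 1) : ∃ n₀ : ℕ, ∀ n ≥ n₀,
    ∀ (Z : Type) [Fintype Z], Fintype.card Z ≤ n ^ a →
    ∀ (Ω : Type) [Fintype Ω] (p : Ω → ℝ), (∀ ω, 0 ≤ p ω) → ∑ ω, p ω = 1 →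
    ∀ (C : Ω → WCirc (Fin n × Fin n) (Bool × ℤ) Z) (θ : Ω → ℕ),
      (∀ ω, (C ω).FanIn κ ∧ (C ω).TreewidthLE (θ ω) ∧ (θ ω : ℝ) ≤ (n : ℝ) ^ (1 - ε) ∧
        (C ω).Unambiguous ∧
        ((∀ x, Valid n x → ((C ω).Accepts x ↔ ZeroTriangle x)) ∨
          (∀ x, Valid n x → ((C ω).Accepts x ↔ ¬ ZeroTriangle x)))) →
      ε / 1662 * ((n : ℝ) ^ 2 * Real.logb 2 n) ≤ ∑ ω, p ω * (C ω).reads := by
  obtain ⟨n₀, hn₀⟩ := trade (2 * ((κ + 1) * (a + 1))) 1 831 (by norm_num) ε hε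
  refine ⟨max n₀ 1, fun n hn Z _ hZ Ω _ p hp hp1 C θ h => average p hp hp1 _ _ fun ω => ?_⟩
  obtain ⟨hκ, hθ, hs, hU, hC⟩ := h ω
  have hn1 : 1 ≤ n := (le_max_right _ _).trans hn
  have hnR : (1 : ℝ) ≤ n := by exact_mod_cast hn1
  have h1 : (1 : ℝ) ≤ (n : ℝ) ^ (1 - ε) := Real.one_le_rpow hnR (by linarith)
  have h2 := hn₀ n ((le_max_left _ _).trans hn) (C ω).reads (((θ ω : ℝ) + 1) / 2)
    (by positivity) (by linarith) (fun r hr hR => by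
      have h3 := treewidth_bound (b := a + 1) hr (Nat.le_add_left _ _) (C ω) hκ hθ hR
        (Or.inr ⟨hZ.trans (Nat.pow_le_pow_right hn1 (Nat.le_succ _)), hU, hC⟩)
      have h4 : (n : ℝ) ≤ 2 ^ (831 * r) * ((κ + 1) * (a + 1) * (θ ω + 1)) := by exact_mod_cast h3
      rw [Real.rpow_one]
      refine h4.trans (le_of_eq ?_)
      ring)
  calc _ = ε / (2 * ((831 : ℕ) : ℝ)) * ((n : ℝ) ^ 2 * Real.logb 2 n) := by norm_num
    _ ≤ _ := h2

/-- **Random circuits: drawings.** -/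
theorem drawing_random (a κ : ℕ) (ε : ℝ) (hε : 0 < ε) (hε1 : ε ≤ 2) : ∃ n₀ : ℕ, ∀ n ≥ n₀,
    ∀ (Z : Type) [Fintype Z], Fintype.card Z ≤ n ^ a →
    ∀ (Ω : Type) [Fintype Ω] (p : Ω → ℝ), (∀ ω, 0 ≤ p ω) → ∑ ω, p ω = 1 →
    ∀ (C : Ω → WCirc (Fin n × Fin n) (Bool × ℤ) Z) (k : Ω → ℕ),
      (∀ ω, (C ω).FanIn κ ∧ CrossingsLE (C ω) (k ω) ∧
        (((C ω).size + k ω : ℕ) : ℝ) ≤ (n : ℝ) ^ (3 - ε) ∧ (C ω).Unambiguous ∧
        ((∀ x, Valid n x → ((C ω).Accepts x ↔ ZeroTriangle x)) ∨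
          (∀ x, Valid n x → ((C ω).Accepts x ↔ ¬ ZeroTriangle x)))) →
      ε / 3424 * ((n : ℝ) ^ 2 * Real.logb 2 n) ≤ ∑ ω, p ω * (C ω).reads := by
  obtain ⟨n₀, hn₀⟩ := trade (2 * ((κ + 1) * (a + 1)) ^ 2) 3 1712 (by norm_num) ε hε
  refine ⟨max n₀ 1, fun n hn Z _ hZ Ω _ p hp hp1 C k h => average p hp hp1 _ _ fun ω => ?_⟩
  obtain ⟨hκ, hk, hs, hU, hC⟩ := h ω
  have hn1 : 1 ≤ n := (le_max_right _ _).trans hn
  have hnR : (1 : ℝ) ≤ n := by exact_mod_cast hn1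
  have h1 : (n : ℝ) ≤ (n : ℝ) ^ (3 - ε) := by
    calc (n : ℝ) = (n : ℝ) ^ (1 : ℝ) := (Real.rpow_one _).symm
      _ ≤ _ := Real.rpow_le_rpow_of_exponent_le hnR (by linarith)
  have h2 := hn₀ n ((le_max_left _ _).trans hn) (C ω).reads
    (((((C ω).size + k ω : ℕ) : ℝ) + n) / 2) (by positivity) (by linarith) (fun r hr hR => by
      have h3 := drawing_bound (b := a + 1) hr (Nat.le_add_left _ _) (C ω) hκ hk le_rfl hR
        (Or.inr ⟨hZ.trans (Nat.pow_le_pow_right hn1 (Nat.le_succ _)), hU, hC⟩)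
      have h4 : (n : ℝ) ^ 3 ≤ 2 ^ (1712 * r) * (((κ + 1) * (a + 1)) ^ 2 *
          ((((C ω).size + k ω : ℕ) : ℝ) + n)) := by exact_mod_cast h3
      have h5 : (n : ℝ) ^ (3 : ℝ) = (n : ℝ) ^ 3 := by
        rw [← Real.rpow_natCast]
        norm_num
      rw [h5]
      refine h4.trans (le_of_eq ?_)
      ring)
  calc _ = ε / (2 * ((1712 : ℕ) : ℝ)) * ((n : ℝ) ^ 2 * Real.logb 2 n) := by norm_num
    _ ≤ _ := h2

/-- **Random circuits: host graphs.** -/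
theorem hosts_random (a κ : ℕ) {K α ϑ : ℝ} (hK : 0 ≤ K) (hα : 0 < α) (hα1 : α < 1)
    (hϑ0 : 0 ≤ ϑ) (hϑ : ϑ < 1) (ε : ℝ) (hε : 0 < ε) : ∃ n₀ : ℕ, ∀ n ≥ n₀,
    ∀ (Z : Type) [Fintype Z], Fintype.card Z ≤ n ^ a →
    ∀ (Ω : Type) [Fintype Ω] (p : Ω → ℝ), (∀ ω, 0 ≤ p ω) → ∑ ω, p ω = 1 →
    ∀ (C : Ω → WCirc (Fin n × Fin n) (Bool × ℤ) Z) (c v : Ω → ℕ),
      (∀ ω, (C ω).FanIn κ ∧ LaidOut (C ω).Joined K α ϑ (v ω) (c ω) ∧
        (c ω : ℝ) * ((v ω : ℝ) + n) ^ α ≤ (n : ℝ) ^ (1 + α - ε) ∧ (C ω).Unambiguous ∧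
        ((∀ x, Valid n x → ((C ω).Accepts x ↔ ZeroTriangle x)) ∨
          (∀ x, Valid n x → ((C ω).Accepts x ↔ ¬ ZeroTriangle x)))) →
      ε / 1652 * ((n : ℝ) ^ 2 * Real.logb 2 n) ≤ ∑ ω, p ω * (C ω).reads := by
  obtain ⟨C₁, hC1, hC₁⟩ := hosts_bound hK hα hα1 hϑ0 hϑ
  obtain ⟨n₀, hn₀⟩ := trade (C₁ * ((κ + 1) * (a + 1))) (1 + α) 826 (by norm_num) ε hε
  refine ⟨max n₀ 1, fun n hn Z _ hZ Ω _ p hp hp1 C c v h => average p hp hp1 _ _ fun ω => ?_⟩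
  obtain ⟨hκ, hlay, hs, hU, hC⟩ := h ω
  have hn1 : 1 ≤ n := (le_max_right _ _).trans hn
  have h2 := hn₀ n ((le_max_left _ _).trans hn) (C ω).reads
    ((c ω : ℝ) * ((v ω : ℝ) + n) ^ α) (by positivity) hs (fun r hr hR => by
      have h3 := hC₁ (b := a + 1) hr (Nat.le_add_left _ _) (C ω) hκ hR
        (Or.inr ⟨hZ.trans (Nat.pow_le_pow_right hn1 (Nat.le_succ _)), hU, hC⟩) hlay
      refine h3.trans (le_of_eq ?_)
      push_cast
      ring)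
  calc _ = ε / (2 * ((826 : ℕ) : ℝ)) * ((n : ℝ) ^ 2 * Real.logb 2 n) := by norm_num
    _ ≤ _ := h2

end Pool.Agent.U286.LY.ET
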