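import Mathlib
import Pool.Agent.U286.LY.EThost

/-!
# From the boundary of divisions to drawings, layouts and treewidth
-/

set_option autoImplicit false

open Finset

namespace Pool.Agent.U286.LY.ET

open Pool.Agent.Y631.Wc

variable {ι X Z : Type}

/-- every division of the circuit into parts which read at most `n / (9600 r)` variables has a
boundary of at least `n ^ 2 / A - 1` gates -/
def Cut (C : WCirc ι X Z) (n r A : ℕ) : Prop :=
  9600 * r ≤ n → ∀ (ν w : ℕ) (B : Finset (Fin C.size)) (part : Fin C.size → ℕ),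
    Parts C B part ν w → 9600 * r * w ≤ n → n ^ 2 ≤ A * (B.card + 1)

theorem drawing_of_cut {n r k g A : ℕ} (hr : 1 ≤ r) (hA : 1 ≤ A) (C : WCirc ι X Z)
    (hcut : Cut C n r A) (hk : Pool.Agent.U514.PD.W.CrossingsLE C k) (hg : C.size + k ≤ g)
    (hR : C.reads ≤ r * n ^ 2) : n ^ 3 ≤ 2 ^ 90 * r ^ 4 * A ^ 2 * (g + n) := by
  by_cases hn : 9600 * r ≤ n
  · obtain ⟨w, hw0, hw1, hw2⟩ := choose_w hr hn
    have hn0 : 0 < n := by omega
    have hr0 : 0 < r := hr
    obtain ⟨G, hG⟩ : ∃ G, G = g + n := ⟨_, rfl⟩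
    obtain ⟨u, hu⟩ : ∃ u, u = Nat.sqrt (G / n) := ⟨_, rfl⟩
    have hu1 : 1 ≤ u := by
      rw [hu]
      exact Nat.le_sqrt.2 (by rw [Nat.le_div_iff_mul_le hn0]; omega)
    obtain ⟨t, ht⟩ : ∃ t, t = u + 1 := ⟨_, rfl⟩
    have ht1 : G ≤ t ^ 2 * n := by
      have h1 : G / n < t * t := by
        rw [ht, hu]
        exact Nat.lt_succ_sqrt _
      have h2 := (Nat.div_lt_iff_lt_mul hn0).1 h1
      rw [sq]
      exact h2.le
    have ht2 : t ^ 2 * n ≤ 4 * G := by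
      have h1 : u * u ≤ G / n := by rw [hu]; exact Nat.sqrt_le _
      calc t ^ 2 * n ≤ (2 * u) ^ 2 * n := by
            apply Nat.mul_le_mul_right
            apply Nat.pow_le_pow_left
            omega
        _ = 4 * ((u * u) * n) := by ring
        _ ≤ 4 * (G / n * n) := by gcongr
        _ ≤ 4 * G := Nat.mul_le_mul_left _ (Nat.div_mul_le_self _ _)
    obtain ⟨ν, B, part, hB, h1, h2⟩ := parts_of_drawing C k hk (5000 * t) w (by omega) hw0
    have h6 := hcut hn ν w B part hB hw1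
    have hν : ν ≤ 2 ^ 18 * (r ^ 2 * n) := by
      have h7 : ((5000 * t) ^ 2 * w) * ν ≤ ((5000 * t) ^ 2 * w) * (2 ^ 18 * (r ^ 2 * n)) := by
        have e1 : C.size + 16 * k ≤ 16 * (t ^ 2 * n) := by omega
        have e2 : 1 ≤ r ^ 2 * n := by
          have : 0 < r ^ 2 * n := by positivity
          omega
        calc ((5000 * t) ^ 2 * w) * ν = ν * ((5000 * t) ^ 2 * w) := mul_comm _ _
          _ ≤ 10 * (w * (C.size + 16 * k) + (5000 * t) ^ 2 * C.reads) + (5000 * t) ^ 2 * w := h2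
          _ ≤ 10 * (w * (16 * (t ^ 2 * n)) + (5000 * t) ^ 2 * (r * n ^ 2)) +
              (5000 * t) ^ 2 * w := by gcongr
          _ = 160 * (w * (t ^ 2 * n)) + 10 * ((5000 * t) ^ 2 * (r * (n * n))) +
              (5000 * t) ^ 2 * w * 1 := by ring
          _ ≤ 25000000 * (w * (t ^ 2 * (r ^ 2 * n))) +
              10 * ((5000 * t) ^ 2 * (r * (19200 * r * w * n))) +
              (5000 * t) ^ 2 * w * (r ^ 2 * n) := by
              have e3 : n ≤ r ^ 2 * n := by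
                have : 1 ≤ r ^ 2 := Nat.one_le_pow _ _ hr0
                nlinarith
              gcongr
              norm_num
          _ = ((5000 * t) ^ 2 * w) * (192002 * (r ^ 2 * n)) := by ring
          _ ≤ _ := by gcongr; norm_num
      have ht0 : 0 < t := by omega
      exact Nat.le_of_mul_le_mul_left h7 (by positivity)
    have h7 : B.card + 1 ≤ 2 ^ 44 * (r ^ 2 * n * t) := by
      have h8 : 1 ≤ r ^ 2 * n * t := by
        have : 0 < t := by omega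
        have : 0 < r ^ 2 * n * t := by positivity
        omega
      calc B.card + 1 ≤ ν * (5000 * (5000 * t)) + 1 := Nat.add_le_add_right h1 _
        _ ≤ 2 ^ 18 * (r ^ 2 * n) * (5000 * (5000 * t)) + r ^ 2 * n * t := by gcongr
        _ = (2 ^ 18 * 25000000 + 1) * (r ^ 2 * n * t) := by ring
        _ ≤ _ := by gcongr; norm_num
    have h8 : n * n ≤ n * (2 ^ 44 * r ^ 2 * A * t) := by
      calc n * n = n ^ 2 := (sq n).symm
        _ ≤ A * (B.card + 1) := h6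
        _ ≤ A * (2 ^ 44 * (r ^ 2 * n * t)) := by gcongr
        _ = _ := by ring
    have h9 := Nat.le_of_mul_le_mul_left h8 hn0
    calc n ^ 3 = n ^ 2 * n := by ring
      _ ≤ (2 ^ 44 * r ^ 2 * A * t) ^ 2 * n := by gcongr
      _ = 2 ^ 88 * r ^ 4 * A ^ 2 * (t ^ 2 * n) := by ring
      _ ≤ 2 ^ 88 * r ^ 4 * A ^ 2 * (4 * G) := by gcongr
      _ = 2 ^ 90 * r ^ 4 * A ^ 2 * (g + n) := by rw [hG]; ring
  · push Not at hn
    have hr1 : 1 ≤ r ^ 2 := Nat.one_le_pow _ _ hr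
    calc n ^ 3 = n ^ 2 * (1 * n) := by ring
      _ ≤ (9600 * r) ^ 2 * (1 * (g + n)) := by gcongr; omega
      _ ≤ (2 ^ 90 * r ^ 4) * (A ^ 2 * (g + n)) := by
          apply Nat.mul_le_mul
          · calc (9600 * r) ^ 2 = 92160000 * (1 * r ^ 2) := by ring
              _ ≤ 2 ^ 90 * (r ^ 2 * r ^ 2) := by gcongr; norm_num
              _ = _ := by ring
          · exact Nat.mul_le_mul_right _ (Nat.one_le_pow _ _ hA)
      _ = _ := by ring

theorem treewidth_of_cut {n r A θ : ℕ} (hr : 1 ≤ r) (hA : 1 ≤ A) (C : WCirc ι X Z)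
    (hcut : Cut C n r A) (hθ : C.TreewidthLE θ) (hR : C.reads ≤ r * n ^ 2) :
    n ≤ 2 ^ 20 * r ^ 2 * A * (θ + 1) := by
  have hr1 : 1 ≤ r ^ 2 := Nat.one_le_pow _ _ hr
  by_cases hn : 9600 * r ≤ n
  · obtain ⟨w, hw0, hw1, hw2⟩ := choose_w hr hn
    obtain ⟨s, B, part, h1, h2, h3, h4, h5⟩ := C.skel.exists_parts θ (C.tw_skel hθ) C.vars w
    have hB : Parts C B part s w :=
      ⟨fun h g hj => h3 h g ((C.joined_skel h g).2 hj), h4, h5⟩
    have h6 := hcut hn s w B part hB hw1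
    have hR' : ∑ g, C.vars g ≤ r * n ^ 2 := hR
    have hs : s ≤ 2 ^ 18 * (r ^ 2 * n) := by
      have h7 : w * s ≤ w * (2 ^ 18 * (r ^ 2 * n)) := by
        calc w * s ≤ 8 * ∑ g, C.vars g + w := h1
          _ ≤ 8 * (r * n ^ 2) + w := Nat.add_le_add_right (Nat.mul_le_mul_left _ hR') _
          _ = 8 * (r * (n * n)) + w * 1 := by ring
          _ ≤ 8 * (r * (19200 * r * w * n)) + w * (r ^ 2 * n) := by
              apply Nat.add_le_add
              · gcongr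
              · apply Nat.mul_le_mul_left
                have h0 : 0 < n := by omega
                have h0' : 0 < r := by omega
                exact Nat.mul_pos (Nat.pow_pos h0') h0
          _ = w * (153601 * (r ^ 2 * n)) := by ring
          _ ≤ _ := by gcongr; norm_num
      exact Nat.le_of_mul_le_mul_left h7 hw0
    have h7 : B.card + 1 ≤ 2 ^ 20 * (r ^ 2 * n * (θ + 1)) := by
      have h8 : 1 ≤ r ^ 2 * n * (θ + 1) := by
        have h0 : 0 < n := by omega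
        have h0' : 0 < r := by omega
        exact Nat.mul_pos (Nat.mul_pos (Nat.pow_pos h0') h0) (Nat.succ_pos _)
      calc B.card + 1 ≤ s * (2 * (θ + 1)) + 1 := Nat.add_le_add_right h2 _
        _ ≤ 2 ^ 18 * (r ^ 2 * n) * (2 * (θ + 1)) + r ^ 2 * n * (θ + 1) := by gcongr
        _ = (2 ^ 19 + 1) * (r ^ 2 * n * (θ + 1)) := by ring
        _ ≤ _ := by gcongr; norm_num
    have h8 : n * n ≤ n * (2 ^ 20 * r ^ 2 * A * (θ + 1)) := by
      calc n * n = n ^ 2 := (sq n).symm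
        _ ≤ A * (B.card + 1) := h6
        _ ≤ A * (2 ^ 20 * (r ^ 2 * n * (θ + 1))) := by gcongr
        _ = _ := by ring
    exact Nat.le_of_mul_le_mul_left h8 (by omega)
  · push Not at hn
    calc n ≤ 9600 * r := hn.le
      _ ≤ 2 ^ 20 * r ^ 2 := by
          calc 9600 * r ≤ 2 ^ 20 * (r * r) := by
                apply Nat.mul_le_mul (by norm_num)
                nlinarith
            _ = _ := by ring
      _ = 2 ^ 20 * r ^ 2 * 1 * 1 := by ring
      _ ≤ _ := by gcongr; omega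

theorem hosts_of_cut {K α ϑ : ℝ} (hK : 0 ≤ K) (hα : 0 < α) (hα1 : α < 1) (hϑ0 : 0 ≤ ϑ)
    (hϑ : ϑ < 1) : ∃ C₀ : ℝ, 1 ≤ C₀ ∧ ∀ {ι X Z : Type} {n r A c v : ℕ}, 1 ≤ r → 1 ≤ A →
    ∀ (C : WCirc ι X Z), Cut C n r A → C.reads ≤ r * n ^ 2 → LaidOut C.Joined K α ϑ v c →
      (n : ℝ) ^ (1 + α) ≤ C₀ * r ^ 2 * (A * (c * ((v : ℝ) + n) ^ α)) := by
  classical
  obtain ⟨C₁, C₂, hC1, hC2, hdiv⟩ := exists_pieces (K / (1 - ϑ ^ α)) hα hα1
  refine ⟨2 ^ 15 * (C₁ * C₂), by nlinarith, ?_⟩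
  intro ι X Z n r A c v hr hA C hcut hR hlay
  obtain ⟨Xh, H, J, reg, hH, hJ, hL⟩ := hlay
  have hc : (1 : ℝ) ≤ c := by exact_mod_cast hL.pos C.out
  have hrR : (1 : ℝ) ≤ r := by exact_mod_cast hr
  have hAR : (1 : ℝ) ≤ A := by exact_mod_cast hA
  have hr2 : (1 : ℝ) ≤ (r : ℝ) ^ 2 := one_le_pow₀ hrR
  have hCC : 1 ≤ C₁ * C₂ := by nlinarith
  by_cases hn0 : n = 0
  · rw [hn0, Nat.cast_zero, Real.zero_rpow (by linarith)]
    positivity
  have hn1 : 1 ≤ n := Nat.one_le_iff_ne_zero.2 hn0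
  have hnR : (1 : ℝ) ≤ n := by exact_mod_cast hn1
  have hnpos : (0 : ℝ) < n := by linarith
  have hv0 : (0 : ℝ) ≤ v := Nat.cast_nonneg _
  by_cases hn : 9600 * r ≤ n
  · obtain ⟨w, hw0, hw1, hw2⟩ := choose_w hr hn
    have hwR : (0 : ℝ) < w := by exact_mod_cast hw0
    obtain ⟨s, hs⟩ : ∃ s : ℝ, s = ((v : ℝ) + n) / n := ⟨_, rfl⟩
    have hs1 : 1 ≤ s := by
      rw [hs, le_div_iff₀ hnpos]
      linarith
    have hS1 : 1 ≤ s ^ α := Real.one_le_rpow hs1 hα.le
    have hL' : Layout (fun h g => C.Joined h g ∨ C.Joined g h) H J c reg := by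
      refine ⟨hL.conn, hL.sub, hL.load, ?_⟩
      rintro h g (hj | hj)
      · exact hL.meet _ _ hj
      · obtain ⟨x, hx, y, hy, hxy⟩ := hL.meet _ _ hj
        refine ⟨y, hy, x, hx, ?_⟩
        rcases hxy with h1 | h1
        · exact Or.inl h1.symm
        · exact Or.inr h1.symm
    obtain ⟨L, h1, h2, h3⟩ := hdiv Xh H (hH.weighted hK hα hϑ0 hϑ) (Fin C.size) _ J c reg hL'
      C.vars s w hs1 hwR
    obtain ⟨B, part, hB, hBc⟩ := parts_of_list C (β := ⌊C₁ * (c * s ^ α)⌋₊) (w := w) L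
      (fun p hp => by
        obtain ⟨h4, h5, h6⟩ := h1 p hp
        exact ⟨fun h g hj hg => h4 h g hj hg, Nat.le_floor h5, by exact_mod_cast h6⟩) h2
    have h6 := hcut hn _ w B part hB hw1
    have hβ : ((⌊C₁ * (c * s ^ α)⌋₊ : ℕ) : ℝ) ≤ C₁ * (c * s ^ α) :=
      Nat.floor_le (by positivity)
    have hlen : (L.length : ℝ) ≤ C₂ * (19202 * (r ^ 2 * n)) := by
      refine h3.trans (mul_le_mul_of_nonneg_left ?_ (by linarith))
      have e1 : (J.card : ℝ) / s ≤ n := by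
        rw [div_le_iff₀ (by linarith), hs]
        have : (J.card : ℝ) ≤ v := by exact_mod_cast hJ
        have e2 : (n : ℝ) * (((v : ℝ) + n) / n) = v + n := by field_simp
        rw [e2]
        linarith
      have e2 : ((∑ g, C.vars g : ℕ) : ℝ) / w ≤ 19200 * (r ^ 2 * n) := by
        rw [div_le_iff₀ hwR]
        have e3 : ((∑ g, C.vars g : ℕ) : ℝ) ≤ r * n ^ 2 := by
          have : ∑ g, C.vars g ≤ r * n ^ 2 := hR
          exact_mod_cast this
        have e4 : (n : ℝ) ≤ 19200 * r * w := by exact_mod_cast hw2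
        calc ((∑ g, C.vars g : ℕ) : ℝ) ≤ r * n ^ 2 := e3
          _ = r * n * n := by ring
          _ ≤ r * n * (19200 * r * w) := mul_le_mul_of_nonneg_left e4 (by positivity)
          _ = _ := by ring
      have e3 : (n : ℝ) ≤ r ^ 2 * n := by nlinarith
      linarith
    have hBR : (B.card : ℝ) + 1 ≤ 2 ^ 15 * (C₁ * C₂ * (r ^ 2 * n * (c * s ^ α))) := by
      have e1 : (B.card : ℝ) ≤ C₂ * (19202 * (r ^ 2 * n)) * (C₁ * (c * s ^ α)) := by
        calc (B.card : ℝ) ≤ (L.length : ℝ) * (⌊C₁ * (c * s ^ α)⌋₊ : ℕ) := by exact_mod_cast hBc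
          _ ≤ _ := mul_le_mul hlen hβ (by positivity) (by positivity)
      have e2 : (1 : ℝ) ≤ C₁ * C₂ * (r ^ 2 * n * (c * s ^ α)) := by
        have a2 : (1 : ℝ) ≤ (r : ℝ) ^ 2 * n := by nlinarith
        have a3 : (1 : ℝ) ≤ c * s ^ α := by nlinarith
        have a4 : (1 : ℝ) ≤ (r : ℝ) ^ 2 * n * (c * s ^ α) := by nlinarith
        nlinarith
      calc (B.card : ℝ) + 1 ≤ C₂ * (19202 * (r ^ 2 * n)) * (C₁ * (c * s ^ α)) +
            C₁ * C₂ * (r ^ 2 * n * (c * s ^ α)) := add_le_add e1 e2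
        _ = 19203 * (C₁ * C₂ * (r ^ 2 * n * (c * s ^ α))) := by ring
        _ ≤ _ := by
            apply mul_le_mul_of_nonneg_right (by norm_num)
            linarith
    have h7 : (n : ℝ) ^ 2 ≤ A * ((B.card : ℝ) + 1) := by
      exact_mod_cast h6
    have h8 : (n : ℝ) ≤ 2 ^ 15 * (C₁ * C₂) * (r : ℝ) ^ 2 * (A * (c * s ^ α)) := by
      have h9 : (n : ℝ) * n ≤ n * (2 ^ 15 * (C₁ * C₂) * (r : ℝ) ^ 2 * (A * (c * s ^ α))) := by
        calc (n : ℝ) * n = (n : ℝ) ^ 2 := (sq _).symm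
          _ ≤ A * ((B.card : ℝ) + 1) := h7
          _ ≤ A * (2 ^ 15 * (C₁ * C₂ * (r ^ 2 * n * (c * s ^ α)))) := by gcongr
          _ = _ := by ring
      exact le_of_mul_le_mul_left h9 hnpos
    have hnα : 0 ≤ (n : ℝ) ^ α := by positivity
    have hsn : s ^ α * (n : ℝ) ^ α = ((v : ℝ) + n) ^ α := by
      rw [← Real.mul_rpow (by linarith) hnpos.le]
      congr 1
      rw [hs]
      field_simp
    calc (n : ℝ) ^ (1 + α) = n * (n : ℝ) ^ α := by rw [Real.rpow_add hnpos, Real.rpow_one]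
      _ ≤ (2 ^ 15 * (C₁ * C₂) * (r : ℝ) ^ 2 * (A * (c * s ^ α))) * (n : ℝ) ^ α :=
            mul_le_mul_of_nonneg_right h8 hnα
      _ = 2 ^ 15 * (C₁ * C₂) * (r : ℝ) ^ 2 * (A * (c * (s ^ α * (n : ℝ) ^ α))) := by ring
      _ = _ := by rw [hsn]
  · push Not at hn
    have h1 : (n : ℝ) ≤ 2 ^ 15 * r ^ 2 := by
      have h2 : (n : ℝ) ≤ 9600 * r := by exact_mod_cast hn.le
      nlinarith
    have h2 : (n : ℝ) ^ α ≤ ((v : ℝ) + n) ^ α :=
      Real.rpow_le_rpow hnpos.le (by linarith) hα.le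
    have h0 : 0 ≤ ((v : ℝ) + n) ^ α := by positivity
    have e2 : (1 : ℝ) ≤ (A : ℝ) * c := by nlinarith
    have e3 : (1 : ℝ) ≤ C₁ * C₂ * (A * c) := by nlinarith
    calc (n : ℝ) ^ (1 + α) = n * (n : ℝ) ^ α := by rw [Real.rpow_add hnpos, Real.rpow_one]
      _ ≤ 2 ^ 15 * r ^ 2 * ((v : ℝ) + n) ^ α := mul_le_mul h1 h2 (by positivity) (by positivity)
      _ ≤ (C₁ * C₂ * (A * c)) * (2 ^ 15 * r ^ 2 * ((v : ℝ) + n) ^ α) :=
          le_mul_of_one_le_left (by positivity) e3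
      _ = _ := by ring

end Pool.Agent.U286.LY.ET
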