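import Mathlib

/-!
# Pairs of disjoint sets

`tri A f` is the sum of `f x y` over all `S ⊆ A`, `x ⊆ S` and `y ⊆ A \ S`. So the elements of `A` are
given to the first or to the second player, with probability `1 / 2` each, and every player takes
each of his elements with probability `1 / 2`.
-/

set_option autoImplicit false

open Finset

namespace Pool.Agent.U286.LY

variable {P : Type} [DecidableEq P]

/-- the sum over the pairs of disjoint subsets -/
def tri (A : Finset P) (f : Finset P → Finset P → ℝ) : ℝ :=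
  ∑ S ∈ A.powerset, ∑ x ∈ S.powerset, ∑ y ∈ (A \ S).powerset, f x y

lemma tri_empty (f : Finset P → Finset P → ℝ) : tri ∅ f = f ∅ ∅ := by
  unfold tri
  simp

lemma tri_congr {A : Finset P} {f g : Finset P → Finset P → ℝ}
    (h : ∀ x y, x ⊆ A → y ⊆ A → Disjoint x y → f x y = g x y) : tri A f = tri A g := by
  unfold tri
  refine sum_congr rfl fun S hS => sum_congr rfl fun x hx => sum_congr rfl fun y hy => ?_
  rw [mem_powerset] at hS hx hy
  exact h x y (hx.trans hS) (hy.trans sdiff_subset)
    (disjoint_of_subset_left hx (disjoint_of_subset_right hy disjoint_sdiff))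

lemma tri_mono {A : Finset P} {f g : Finset P → Finset P → ℝ}
    (h : ∀ x y, x ⊆ A → y ⊆ A → Disjoint x y → f x y ≤ g x y) : tri A f ≤ tri A g := by
  unfold tri
  refine sum_le_sum fun S hS => sum_le_sum fun x hx => sum_le_sum fun y hy => ?_
  rw [mem_powerset] at hS hx hy
  exact h x y (hx.trans hS) (hy.trans sdiff_subset)
    (disjoint_of_subset_left hx (disjoint_of_subset_right hy disjoint_sdiff))

lemma tri_add (A : Finset P) (f g : Finset P → Finset P → ℝ) :
    tri A (fun x y => f x y + g x y) = tri A f + tri A g := by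
  unfold tri
  simp only [sum_add_distrib]

lemma tri_mul (A : Finset P) (c : ℝ) (f : Finset P → Finset P → ℝ) :
    tri A (fun x y => c * f x y) = c * tri A f := by
  unfold tri
  simp only [mul_sum]

lemma tri_sum {ι : Type*} (A : Finset P) (s : Finset ι) (f : ι → Finset P → Finset P → ℝ) :
    tri A (fun x y => ∑ i ∈ s, f i x y) = ∑ i ∈ s, tri A (f i) := by
  classical
  induction s using Finset.induction_on with
  | empty =>
    simp only [sum_empty]
    unfold tri
    simp
  | insert a s ha ih =>
    simp only [sum_insert ha]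
    rw [tri_add, ih]

lemma tri_insert {A : Finset P} {a : P} (ha : a ∉ A) (f : Finset P → Finset P → ℝ) :
    tri (insert a A) f = 2 * tri A f + tri A (fun x y => f (insert a x) y) +
      tri A (fun x y => f x (insert a y)) := by
  unfold tri
  rw [sum_powerset_insert ha]
  have h1 : ∀ S ∈ A.powerset, ∑ x ∈ S.powerset, ∑ y ∈ (insert a A \ S).powerset, f x y =
      ∑ x ∈ S.powerset, ∑ y ∈ (A \ S).powerset, f x y +
        ∑ x ∈ S.powerset, ∑ y ∈ (A \ S).powerset, f x (insert a y) := by
    intro S hS
    have haS : a ∉ S := fun h => ha (mem_powerset.1 hS h)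
    rw [insert_sdiff_of_notMem _ haS, ← sum_add_distrib]
    refine sum_congr rfl fun x _ => ?_
    rw [sum_powerset_insert]
    intro h
    exact ha (mem_sdiff.1 h).1
  have h2 : ∀ S ∈ A.powerset, ∑ x ∈ (insert a S).powerset,
      ∑ y ∈ (insert a A \ insert a S).powerset, f x y =
      ∑ x ∈ S.powerset, ∑ y ∈ (A \ S).powerset, f x y +
        ∑ x ∈ S.powerset, ∑ y ∈ (A \ S).powerset, f (insert a x) y := by
    intro S hS
    have haS : a ∉ S := fun h => ha (mem_powerset.1 hS h)
    have h3 : insert a A \ insert a S = A \ S := by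
      ext t
      simp only [mem_sdiff, mem_insert, not_or]
      constructor
      · rintro ⟨h4 | h4, h5, h6⟩
        · exact absurd h4 h5
        · exact ⟨h4, h6⟩
      · rintro ⟨h4, h5⟩
        exact ⟨Or.inr h4, fun h6 => ha (h6 ▸ h4), h5⟩
    rw [h3, sum_powerset_insert haS]
  rw [sum_congr rfl h1, sum_congr rfl h2, sum_add_distrib, sum_add_distrib]
  ring

lemma tri_one (A : Finset P) (c : ℝ) : tri A (fun _ _ => c) = c * 4 ^ A.card := by
  induction A using Finset.induction_on with
  | empty => rw [tri_empty, card_empty, pow_zero, mul_one]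
  | insert a A ha ih =>
    rw [tri_insert ha, card_insert_of_notMem ha, ih, pow_succ]
    ring

lemma tri_union {A A' : Finset P} (h : Disjoint A A') (f : Finset P → Finset P → ℝ) :
    tri (A ∪ A') f = tri A' fun x' y' => tri A fun x y => f (x ∪ x') (y ∪ y') := by
  induction A' using Finset.induction_on generalizing f with
  | empty =>
    rw [tri_empty, union_empty]
    simp only [union_empty]
  | insert a A' ha ih =>
    have h1 : Disjoint A A' := disjoint_of_subset_right (subset_insert _ _) h
    have h2 : a ∉ A := fun h3 => disjoint_left.1 h h3 (mem_insert_self _ _)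
    have h3 : a ∉ A ∪ A' := by
      rw [mem_union]
      rintro (h4 | h4)
      · exact h2 h4
      · exact ha h4
    rw [union_insert, tri_insert h3, tri_insert ha, ih h1, ih h1, ih h1]
    simp only [union_insert]

/-- the mean -/
lemma exists_le_of_tri {A : Finset P} {f : Finset P → Finset P → ℝ} {c : ℝ}
    (h : tri A f ≤ c * 4 ^ A.card) :
    ∃ x y, x ⊆ A ∧ y ⊆ A ∧ Disjoint x y ∧ f x y ≤ c := by
  by_contra hcon
  push Not at hcon
  have h1 : tri A (fun _ _ => c) < tri A f := by
    unfold tri
    apply sum_lt_sum_of_nonempty ⟨∅, mem_powerset.2 (empty_subset _)⟩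
    intro S hS
    apply sum_lt_sum_of_nonempty ⟨∅, mem_powerset.2 (empty_subset _)⟩
    intro x hx
    apply sum_lt_sum_of_nonempty ⟨∅, mem_powerset.2 (empty_subset _)⟩
    intro y hy
    rw [mem_powerset] at hS hx hy
    exact hcon x y (hx.trans hS) (hy.trans sdiff_subset)
      (disjoint_of_subset_left hx (disjoint_of_subset_right hy disjoint_sdiff))
  rw [tri_one] at h1
  linarith

/-- the number of small sets -/
lemma card_small (I : Finset P) :
    ((I.powerset.filter fun z => 4 * z.card ≤ I.card).card : ℝ) ≤ (9 / 5 : ℝ) ^ I.card := by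
  obtain ⟨m, hm⟩ : ∃ m, m = I.card := ⟨_, rfl⟩
  obtain ⟨N, hN⟩ : ∃ N, N = (I.powerset.filter fun z => 4 * z.card ≤ I.card).card := ⟨_, rfl⟩
  rw [← hN, ← hm]
  have h1 : N * 3 ^ (m - m / 4) ≤ 4 ^ m := by
    have h2 := Finset.sum_pow_mul_eq_add_pow (1 : ℕ) 3 I
    rw [← hm] at h2
    calc N * 3 ^ (m - m / 4) =
        ∑ _z ∈ I.powerset.filter (fun z => 4 * z.card ≤ I.card), 3 ^ (m - m / 4) := by
          rw [sum_const, smul_eq_mul, hN]
      _ ≤ ∑ z ∈ I.powerset.filter (fun z => 4 * z.card ≤ I.card), 1 ^ z.card * 3 ^ (m - z.card) := by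
          apply sum_le_sum
          intro z hz
          rw [mem_filter, ← hm] at hz
          rw [one_pow, one_mul]
          apply Nat.pow_le_pow_right (by norm_num)
          omega
      _ ≤ ∑ z ∈ I.powerset, 1 ^ z.card * 3 ^ (m - z.card) :=
          sum_le_sum_of_subset (filter_subset _ _)
      _ = 4 ^ m := by rw [h2]
  have h2 : N ^ 4 * 27 ^ m ≤ 256 ^ m := by
    calc N ^ 4 * 27 ^ m = N ^ 4 * 3 ^ (3 * m) := by rw [pow_mul]; norm_num
      _ ≤ N ^ 4 * 3 ^ (4 * (m - m / 4)) := by
          apply Nat.mul_le_mul_left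
          apply Nat.pow_le_pow_right (by norm_num)
          omega
      _ = (N * 3 ^ (m - m / 4)) ^ 4 := by rw [mul_pow, ← pow_mul, mul_comm 4]
      _ ≤ (4 ^ m) ^ 4 := Nat.pow_le_pow_left h1 4
      _ = 256 ^ m := by rw [← pow_mul, mul_comm, pow_mul]; norm_num
  have h3 : (N : ℝ) ^ 4 ≤ ((9 / 5 : ℝ) ^ m) ^ 4 := by
    have h4 : (N : ℝ) ^ 4 * 27 ^ m ≤ 256 ^ m := by exact_mod_cast h2
    have h5 : (256 : ℝ) ^ m ≤ ((9 / 5 : ℝ) ^ m) ^ 4 * 27 ^ m := by
      rw [← pow_mul, mul_comm m 4, pow_mul, ← mul_pow]
      apply pow_le_pow_left₀ (by norm_num)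
      norm_num
    exact le_of_mul_le_mul_right (h4.trans h5) (by positivity)
  exact le_of_pow_le_pow_left₀ (by norm_num) (by positivity) h3

end Pool.Agent.U286.LY
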