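import Mathlib
import Pool.Agent.U286.LY.Tri

/-!
# Unique disjointness: rectangles

Razborov's lemma: a rectangle of pairs of sets which is not tiny contains almost as many pairs with
exactly one common element as disjoint pairs. Here in the form with a ground set `G` and product
measures.
-/

set_option autoImplicit false

open Finset

namespace Pool.Agent.U286.LY

variable {P : Type} [DecidableEq P]

/-- a family of sets which rarely contain the elements of `I` is small -/
lemma family_small {U I : Finset P} (hI : I ⊆ U) (T : Finset (Finset P)) (hT : ∀ x ∈ T, x ⊆ U)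
    (h : ∀ i ∈ I, 10 * (T.filter fun x => i ∈ x).card < T.card) :
    (T.card : ℝ) ≤ 2 * (2 ^ U.card * (9 / 10 : ℝ) ^ I.card) := by
  obtain ⟨m, hm⟩ : ∃ m, m = I.card := ⟨_, rfl⟩
  have h1 : 10 * ∑ x ∈ T, (x ∩ I).card ≤ m * T.card := by
    have h2 : ∑ x ∈ T, (x ∩ I).card = ∑ i ∈ I, (T.filter fun x => i ∈ x).card := by
      have h3 : ∀ x : Finset P, (x ∩ I).card = ∑ i ∈ I, if i ∈ x then 1 else 0 := by
        intro x
        rw [inter_comm, ← filter_mem_eq_inter, card_filter]
      simp only [h3, card_filter]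
      rw [sum_comm]
    rw [h2, mul_sum]
    calc ∑ i ∈ I, 10 * (T.filter fun x => i ∈ x).card ≤ ∑ _i ∈ I, T.card :=
          sum_le_sum fun i hi => (h i hi).le
      _ = m * T.card := by rw [sum_const, smul_eq_mul, hm]
  obtain ⟨T', hT'⟩ : ∃ T', T' = T.filter fun x => 4 * (x ∩ I).card ≤ m := ⟨_, rfl⟩
  obtain ⟨T'', hT''⟩ : ∃ T'', T'' = T.filter fun x => ¬ 4 * (x ∩ I).card ≤ m := ⟨_, rfl⟩
  have h2 : T'.card + T''.card = T.card := by
    rw [hT', hT'']
    exact card_filter_add_card_filter_not _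
  have h3 : 10 * T''.card ≤ 4 * T.card := by
    have h4 : (m + 1) * T''.card ≤ 4 * ∑ x ∈ T, (x ∩ I).card := by
      calc (m + 1) * T''.card = ∑ _x ∈ T'', (m + 1) := by rw [sum_const, smul_eq_mul, mul_comm]
        _ ≤ ∑ x ∈ T'', 4 * (x ∩ I).card := by
            apply sum_le_sum
            intro x hx
            rw [hT'', mem_filter] at hx
            omega
        _ = 4 * ∑ x ∈ T'', (x ∩ I).card := by rw [mul_sum]
        _ ≤ _ := by
            apply Nat.mul_le_mul_left
            apply sum_le_sum_of_subset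
            rw [hT'']
            exact filter_subset _ _
    have h5 : (m + 1) * (10 * T''.card) ≤ (m + 1) * (4 * T.card) := by
      calc (m + 1) * (10 * T''.card) = 10 * ((m + 1) * T''.card) := by ring
        _ ≤ 10 * (4 * ∑ x ∈ T, (x ∩ I).card) := Nat.mul_le_mul_left _ h4
        _ = 4 * (10 * ∑ x ∈ T, (x ∩ I).card) := by ring
        _ ≤ 4 * (m * T.card) := Nat.mul_le_mul_left _ h1
        _ ≤ 4 * ((m + 1) * T.card) := by gcongr; omega
        _ = _ := by ring
    exact Nat.le_of_mul_le_mul_left h5 (Nat.succ_pos _)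
  have h4 : T.card ≤ 2 * T'.card := by omega
  have h5 : T'.card ≤ (I.powerset.filter fun z => 4 * z.card ≤ I.card).card * 2 ^ (U \ I).card := by
    rw [← card_powerset, ← card_product]
    apply card_le_card_of_injOn (fun x => (x ∩ I, x \ I))
    · intro x hx
      rw [mem_coe, hT', mem_filter] at hx
      rw [mem_coe, mem_product, mem_filter, mem_powerset, mem_powerset]
      refine ⟨⟨inter_subset_right, ?_⟩, sdiff_subset_sdiff (hT x hx.1) (subset_refl _)⟩
      rw [← hm]
      exact hx.2
    · intro x _ x' _ hxx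
      rw [Prod.mk.injEq] at hxx
      rw [← sdiff_union_inter x I, ← sdiff_union_inter x' I, hxx.1, hxx.2]
  have h6 : (U \ I).card = U.card - I.card := card_sdiff_of_subset hI
  have h7 : I.card ≤ U.card := card_le_card hI
  calc (T.card : ℝ) ≤ 2 * T'.card := by exact_mod_cast h4
    _ ≤ 2 * (((I.powerset.filter fun z => 4 * z.card ≤ I.card).card : ℝ) * 2 ^ (U \ I).card) := by
        apply mul_le_mul_of_nonneg_left _ (by norm_num)
        exact_mod_cast h5
    _ ≤ 2 * ((9 / 5 : ℝ) ^ I.card * 2 ^ (U \ I).card) := by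
        apply mul_le_mul_of_nonneg_left _ (by norm_num)
        exact mul_le_mul_of_nonneg_right (card_small I) (by positivity)
    _ = 2 * (2 ^ U.card * (9 / 10 : ℝ) ^ I.card) := by
        rw [h6]
        have h8 : (2 : ℝ) ^ U.card = 2 ^ I.card * 2 ^ (U.card - I.card) := by
          rw [← pow_add]
          congr 1
          omega
        have h9 : (9 / 5 : ℝ) ^ I.card = 2 ^ I.card * (9 / 10 : ℝ) ^ I.card := by
          rw [← mul_pow]
          norm_num
        rw [h8, h9]
        ring

open Classical in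
/-- the number of the subsets of `S` in `X` -/
noncomputable def cnt (X : Finset P → Prop) (S : Finset P) : ℝ := ((S.powerset.filter X).card : ℝ)

open Classical in
/-- the number of the subsets of `S` which are in `X` together with `i` -/
noncomputable def cnt1 (X : Finset P → Prop) (i : P) (S : Finset P) : ℝ :=
  ((S.powerset.filter fun x => X (insert i x)).card : ℝ)

omit [DecidableEq P] in
lemma cnt_nonneg (X : Finset P → Prop) (S : Finset P) : 0 ≤ cnt X S := Nat.cast_nonneg _

lemma cnt1_nonneg (X : Finset P → Prop) (i : P) (S : Finset P) : 0 ≤ cnt1 X i S :=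
  Nat.cast_nonneg _

omit [DecidableEq P] in
lemma cnt_le (X : Finset P → Prop) (S : Finset P) : cnt X S ≤ 2 ^ S.card := by
  classical
  unfold cnt
  have := card_filter_le S.powerset X
  rw [card_powerset] at this
  exact_mod_cast this

open Classical in
lemma card_mem {X : Finset P → Prop} {i : P} {U : Finset P} (hi : i ∈ U) :
    ((U.powerset.filter X).filter fun x => i ∈ x).card =
      ((U.erase i).powerset.filter fun x => X (insert i x)).card := by
  apply card_nbij' (fun x => x.erase i) (fun x => insert i x)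
  · intro x hx
    rw [mem_coe, mem_filter, mem_filter, mem_powerset] at hx
    rw [mem_coe, mem_filter, mem_powerset, insert_erase hx.2]
    exact ⟨erase_subset_erase _ hx.1.1, hx.1.2⟩
  · intro x hx
    rw [mem_coe, mem_filter, mem_powerset] at hx
    rw [mem_coe, mem_filter, mem_filter, mem_powerset]
    exact ⟨⟨insert_subset hi (hx.1.trans (erase_subset _ _)), hx.2⟩, mem_insert_self _ _⟩
  · intro x hx
    rw [mem_coe, mem_filter] at hx
    exact insert_erase hx.2
  · intro x hx
    rw [mem_coe, mem_filter, mem_powerset] at hx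
    exact erase_insert (fun h => notMem_erase _ _ (hx.1 h))

open Classical in
lemma card_notMem {X : Finset P → Prop} {i : P} {U : Finset P} :
    ((U.powerset.filter X).filter fun x => i ∉ x).card =
      ((U.erase i).powerset.filter X).card := by
  congr 1
  ext x
  simp only [mem_filter, mem_powerset, subset_erase]
  tauto

lemma cnt_split {X : Finset P → Prop} {i : P} {U : Finset P} (hi : i ∈ U) :
    cnt X U = cnt X (U.erase i) + cnt1 X i (U.erase i) := by
  classical
  unfold cnt cnt1
  have h1 := card_filter_add_card_filter_not (s := U.powerset.filter X) (fun x => i ∈ x)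
  rw [card_mem hi, card_notMem] at h1
  rw [← h1]
  push_cast
  ring

open Classical in
/-- the elements which are rarely in the sets of `X` -/
noncomputable def bad1 (X : Finset P → Prop) (U : Finset P) : Finset P :=
  U.filter fun i => 10 * cnt1 X i (U.erase i) < cnt X U

open Classical in
/-- the elements which are mostly in the sets of `X` -/
noncomputable def bad0 (X : Finset P → Prop) (U : Finset P) : Finset P :=
  U.filter fun i => 10 * cnt X (U.erase i) < cnt X U

lemma bad1_le (X : Finset P → Prop) (U : Finset P) :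
    cnt X U ≤ 2 * (2 ^ U.card * (9 / 10 : ℝ) ^ (bad1 X U).card) := by
  classical
  unfold cnt
  apply family_small (filter_subset _ _)
  · intro x hx
    exact mem_powerset.1 (mem_filter.1 hx).1
  · intro i hi
    obtain ⟨h1, h2⟩ := mem_filter.1 hi
    unfold cnt cnt1 at h2
    rw [card_mem h1]
    exact_mod_cast h2

lemma bad0_le (X : Finset P → Prop) (U : Finset P) :
    cnt X U ≤ 2 * (2 ^ U.card * (9 / 10 : ℝ) ^ (bad0 X U).card) := by
  classical
  obtain ⟨T, hT⟩ : ∃ T, T = U.powerset.filter X := ⟨_, rfl⟩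
  have hTU : ∀ x ∈ T, x ⊆ U := by
    intro x hx
    rw [hT] at hx
    exact mem_powerset.1 (mem_filter.1 hx).1
  have hinj : Set.InjOn (fun x => U \ x) (T : Set (Finset P)) := by
    intro x hx x' hx' h
    have h1 := hTU x hx
    have h2 := hTU x' hx'
    have h3 : U \ (U \ x) = U \ (U \ x') := by
      have : U \ x = U \ x' := h
      rw [this]
    rw [Finset.sdiff_sdiff_eq_self h1, Finset.sdiff_sdiff_eq_self h2] at h3
    exact h3
  have hc : (T.image fun x => U \ x).card = T.card := card_image_of_injOn hinj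
  have h1 := family_small (U := U) (I := bad0 X U) (filter_subset _ _) (T.image fun x => U \ x)
    (by
      intro x hx
      obtain ⟨y, _, rfl⟩ := mem_image.1 hx
      exact sdiff_subset)
    (by
      intro i hi
      unfold bad0 at hi
      obtain ⟨h1, h2⟩ := mem_filter.1 hi
      unfold cnt at h2
      rw [← hT, ← card_notMem, ← hT] at h2
      have h3 : ((T.image fun x => U \ x).filter fun x => i ∈ x) =
          (T.filter fun x => i ∉ x).image fun x => U \ x := by
        ext x
        simp only [mem_filter, mem_image]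
        constructor
        · rintro ⟨⟨y, hy, rfl⟩, h4⟩
          exact ⟨y, ⟨hy, (mem_sdiff.1 h4).2⟩, rfl⟩
        · rintro ⟨y, ⟨hy, h4⟩, rfl⟩
          exact ⟨⟨y, hy, rfl⟩, mem_sdiff.2 ⟨h1, h4⟩⟩
      rw [hc, h3]
      have h4 : ((T.filter fun x => i ∉ x).image fun x => U \ x).card =
          (T.filter fun x => i ∉ x).card :=
        card_image_of_injOn (hinj.mono (by
          intro x hx
          exact (mem_filter.1 (mem_coe.1 hx)).1))
      rw [h4]
      exact_mod_cast h2)
  rw [hc] at h1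
  unfold cnt
  rw [← hT]
  exact h1

/-- reindexing -/
lemma sum_erase_powerset (G : Finset P) (F : P → Finset P → ℝ) :
    ∑ i ∈ G, ∑ S ∈ (G.erase i).powerset, F i S =
      ∑ U ∈ G.powerset, ∑ i ∈ U, F i (U.erase i) := by
  rw [sum_sigma', sum_sigma']
  apply sum_bij' (fun (p : (_ : P) × Finset P) _ =>
      (⟨insert p.1 p.2, p.1⟩ : (_ : Finset P) × P))
    (fun (p : (_ : Finset P) × P) _ => (⟨p.2, p.1.erase p.2⟩ : (_ : P) × Finset P))
  · rintro ⟨i, S⟩ h
    rw [mem_sigma, mem_powerset] at h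
    rw [mem_sigma, mem_powerset]
    exact ⟨insert_subset h.1 (h.2.trans (erase_subset _ _)), mem_insert_self _ _⟩
  · rintro ⟨U, i⟩ h
    rw [mem_sigma, mem_powerset] at h
    rw [mem_sigma, mem_powerset]
    exact ⟨h.1 h.2, erase_subset_erase _ h.1⟩
  · rintro ⟨i, S⟩ h
    rw [mem_sigma, mem_powerset] at h
    have h1 : i ∉ S := fun h2 => notMem_erase _ _ (h.2 h2)
    simp only [erase_insert h1]
  · rintro ⟨U, i⟩ h
    rw [mem_sigma] at h
    simp only [insert_erase h.2]
  · rintro ⟨i, S⟩ h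
    rw [mem_sigma, mem_powerset] at h
    have h1 : i ∉ S := fun h2 => notMem_erase _ _ (h.2 h2)
    simp only [erase_insert h1]

lemma sum_compl_powerset (A : Finset P) (F : Finset P → ℝ) :
    ∑ S ∈ A.powerset, F S = ∑ S ∈ A.powerset, F (A \ S) := by
  apply sum_nbij' (fun S => A \ S) (fun S => A \ S)
  · intro S _
    exact mem_powerset.2 sdiff_subset
  · intro S _
    exact mem_powerset.2 sdiff_subset
  · intro S hS
    exact Finset.sdiff_sdiff_eq_self (mem_powerset.1 hS)
  · intro S hS
    exact Finset.sdiff_sdiff_eq_self (mem_powerset.1 hS)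
  · intro S hS
    rw [Finset.sdiff_sdiff_eq_self (mem_powerset.1 hS)]

/-- the bound for one set `U` -/
lemma bad_sum_le (X : Finset P → Prop) {k m : ℕ} (hm : 164 * m ≤ k) (U : Finset P)
    (hU : U.card ≤ k) :
    ∑ i ∈ bad1 X U, cnt X (U.erase i) ≤ 1 / 4 * ∑ i ∈ U, cnt X (U.erase i) +
      (k : ℝ) * (2 * (2 ^ U.card * (9 / 10 : ℝ) ^ m) +
        if 4 * U.card ≤ k then 2 ^ U.card else 0) := by
  classical
  obtain ⟨a, ha⟩ : ∃ a, a = cnt X U := ⟨_, rfl⟩
  have ha0 : 0 ≤ a := by rw [ha]; exact cnt_nonneg _ _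
  have hmono : ∀ i ∈ U, cnt X (U.erase i) ≤ a := by
    intro i hi
    rw [ha, cnt_split hi]
    have := cnt1_nonneg X i (U.erase i)
    linarith
  have hsub : bad1 X U ⊆ U := filter_subset _ _
  have h1 : ∑ i ∈ bad1 X U, cnt X (U.erase i) ≤ (bad1 X U).card * a := by
    calc ∑ i ∈ bad1 X U, cnt X (U.erase i) ≤ ∑ _i ∈ bad1 X U, a :=
          sum_le_sum fun i hi => hmono i (hsub hi)
      _ = _ := by rw [sum_const, nsmul_eq_mul]
  have h2 : ((U.card : ℝ) - (bad0 X U).card) * (a / 10) ≤ ∑ i ∈ U, cnt X (U.erase i) := by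
    have h3 : (U \ bad0 X U).card = U.card - (bad0 X U).card :=
      card_sdiff_of_subset (filter_subset _ _)
    have h4 : (bad0 X U).card ≤ U.card := card_le_card (filter_subset _ _)
    calc ((U.card : ℝ) - (bad0 X U).card) * (a / 10) = ∑ _i ∈ U \ bad0 X U, a / 10 := by
          rw [sum_const, nsmul_eq_mul, h3, Nat.cast_sub h4]
      _ ≤ ∑ i ∈ U \ bad0 X U, cnt X (U.erase i) := by
          apply sum_le_sum
          intro i hi
          rw [mem_sdiff] at hi
          by_contra hcon
          push Not at hcon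
          apply hi.2
          unfold bad0
          rw [mem_filter, ← ha]
          exact ⟨hi.1, by linarith⟩
      _ ≤ _ := by
          apply sum_le_sum_of_subset_of_nonneg sdiff_subset
          intro i _ _
          exact cnt_nonneg _ _
  have hE0 : 0 ≤ ∑ i ∈ U, cnt X (U.erase i) := sum_nonneg fun i _ => cnt_nonneg _ _
  have hk0 : (0 : ℝ) ≤ k := Nat.cast_nonneg _
  have hcard : ((bad1 X U).card : ℝ) ≤ k := by exact_mod_cast (card_le_card hsub).trans hU
  have hind : (0 : ℝ) ≤ if 4 * U.card ≤ k then (2 : ℝ) ^ U.card else 0 := by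
    split_ifs
    · positivity
    · exact le_rfl
  have hp0 : (0 : ℝ) ≤ 2 * (2 ^ U.card * (9 / 10 : ℝ) ^ m) := by positivity
  by_cases c1 : a ≤ 2 * (2 ^ U.card * (9 / 10 : ℝ) ^ m)
  · calc ∑ i ∈ bad1 X U, cnt X (U.erase i) ≤ (bad1 X U).card * a := h1
      _ ≤ k * (2 * (2 ^ U.card * (9 / 10 : ℝ) ^ m)) :=
          mul_le_mul hcard c1 ha0 hk0
      _ ≤ _ := by nlinarith
  · by_cases c2 : 4 * U.card ≤ k
    · rw [if_pos c2]
      have h5 : a ≤ 2 ^ U.card := by rw [ha]; exact cnt_le _ _
      calc ∑ i ∈ bad1 X U, cnt X (U.erase i) ≤ (bad1 X U).card * a := h1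
        _ ≤ k * 2 ^ U.card := mul_le_mul hcard h5 ha0 hk0
        _ ≤ _ := by nlinarith
    · push Not at c1
      have key : ∀ t : ℕ, a ≤ 2 * (2 ^ U.card * (9 / 10 : ℝ) ^ t) → t ≤ m := by
        intro t ht
        by_contra hcon
        push Not at hcon
        have h6 : (9 / 10 : ℝ) ^ t ≤ (9 / 10 : ℝ) ^ m :=
          pow_le_pow_of_le_one (by norm_num) (by norm_num) hcon.le
        have h7 : 2 * (2 ^ U.card * (9 / 10 : ℝ) ^ t) ≤ 2 * (2 ^ U.card * (9 / 10 : ℝ) ^ m) := by
          gcongr
        linarith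
      have h8 : (bad1 X U).card ≤ m := key _ (by rw [ha]; exact bad1_le X U)
      have h9 : (bad0 X U).card ≤ m := key _ (by rw [ha]; exact bad0_le X U)
      have h10 : 41 * m ≤ U.card := by omega
      have h8R : ((bad1 X U).card : ℝ) ≤ m := by exact_mod_cast h8
      have h9R : ((bad0 X U).card : ℝ) ≤ m := by exact_mod_cast h9
      have h10R : 41 * (m : ℝ) ≤ U.card := by exact_mod_cast h10
      have h11 : ∑ i ∈ bad1 X U, cnt X (U.erase i) ≤ 1 / 4 * ∑ i ∈ U, cnt X (U.erase i) := by
        calc ∑ i ∈ bad1 X U, cnt X (U.erase i) ≤ (bad1 X U).card * a := h1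
          _ ≤ m * a := mul_le_mul_of_nonneg_right h8R ha0
          _ = 1 / 4 * (40 * m * (a / 10)) := by ring
          _ ≤ 1 / 4 * (((U.card : ℝ) - (bad0 X U).card) * (a / 10)) := by
              apply mul_le_mul_of_nonneg_left _ (by norm_num)
              apply mul_le_mul_of_nonneg_right _ (by linarith)
              linarith
          _ ≤ _ := mul_le_mul_of_nonneg_left h2 (by norm_num)
      nlinarith

/-- the sum over disjoint pairs -/
noncomputable def M0 (G : Finset P) (X Y : Finset P → Prop) : ℝ :=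
  ∑ i ∈ G, ∑ S ∈ (G.erase i).powerset, cnt X S * cnt Y ((G.erase i) \ S)

/-- the sum over pairs with one common element -/
noncomputable def M1 (G : Finset P) (X Y : Finset P → Prop) : ℝ :=
  ∑ i ∈ G, ∑ S ∈ (G.erase i).powerset, cnt1 X i S * cnt1 Y i ((G.erase i) \ S)

open Classical in
/-- the bad part of the sum -/
noncomputable def MB (G : Finset P) (X Y : Finset P → Prop) : ℝ :=
  ∑ i ∈ G, ∑ S ∈ (G.erase i).powerset,
    if 10 * cnt1 X i S < cnt X S + cnt1 X i S then cnt X S * cnt Y ((G.erase i) \ S) else 0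

lemma M0_symm (G : Finset P) (X Y : Finset P → Prop) : M0 G X Y = M0 G Y X := by
  unfold M0
  refine sum_congr rfl fun i _ => ?_
  rw [sum_compl_powerset]
  refine sum_congr rfl fun S hS => ?_
  rw [Finset.sdiff_sdiff_eq_self (mem_powerset.1 hS), mul_comm]

lemma MB_le (G : Finset P) (X Y : Finset P → Prop) {m : ℕ} (hm : 164 * m ≤ G.card) :
    MB G X Y ≤ 1 / 4 * M0 G X Y + 3 * (G.card * 4 ^ G.card * (9 / 10 : ℝ) ^ m) := by
  classical
  obtain ⟨k, hk⟩ : ∃ k, k = G.card := ⟨_, rfl⟩
  have hset : ∀ U ∈ G.powerset, ∀ i ∈ U, (G.erase i) \ (U.erase i) = G \ U := by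
    intro U _ i hi
    ext t
    simp only [mem_sdiff, mem_erase, not_and]
    constructor
    · rintro ⟨⟨h1, h2⟩, h3⟩
      exact ⟨h2, h3 h1⟩
    · rintro ⟨h1, h2⟩
      exact ⟨⟨fun h3 => h2 (h3 ▸ hi), h1⟩, fun _ => h2⟩
  have e0 : M0 G X Y = ∑ U ∈ G.powerset, cnt Y (G \ U) * ∑ i ∈ U, cnt X (U.erase i) := by
    unfold M0
    rw [sum_erase_powerset G fun i S => cnt X S * cnt Y ((G.erase i) \ S)]
    refine sum_congr rfl fun U hU => ?_
    rw [mul_sum]
    refine sum_congr rfl fun i hi => ?_
    rw [hset U hU i hi, mul_comm]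
  have e1 : MB G X Y = ∑ U ∈ G.powerset, cnt Y (G \ U) * ∑ i ∈ bad1 X U, cnt X (U.erase i) := by
    unfold MB
    rw [sum_erase_powerset G fun i S => if 10 * cnt1 X i S < cnt X S + cnt1 X i S then
      cnt X S * cnt Y ((G.erase i) \ S) else 0]
    refine sum_congr rfl fun U hU => ?_
    unfold bad1
    rw [sum_filter, mul_sum]
    refine sum_congr rfl fun i hi => ?_
    rw [← cnt_split hi, hset U hU i hi]
    split_ifs
    · rw [mul_comm]
    · rw [mul_zero]
  have h1 : ∀ U ∈ G.powerset, cnt Y (G \ U) * ∑ i ∈ bad1 X U, cnt X (U.erase i) ≤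
      1 / 4 * (cnt Y (G \ U) * ∑ i ∈ U, cnt X (U.erase i)) +
        (2 * (k * 2 ^ k * (9 / 10 : ℝ) ^ m) + if 4 * U.card ≤ k then (k : ℝ) * 2 ^ k else 0) := by
    intro U hU
    rw [mem_powerset] at hU
    have h2 := bad_sum_le X (k := k) (m := m) (by omega) U (by rw [hk]; exact card_le_card hU)
    have h3 := cnt_nonneg Y (G \ U)
    have h4 := cnt_le Y (G \ U)
    rw [card_sdiff_of_subset hU, ← hk] at h4
    have h5 : (2 : ℝ) ^ (k - U.card) * 2 ^ U.card = 2 ^ k := by
      rw [← pow_add]
      congr 1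
      have := card_le_card hU
      omega
    have hk0 : (0 : ℝ) ≤ k := Nat.cast_nonneg _
    calc cnt Y (G \ U) * ∑ i ∈ bad1 X U, cnt X (U.erase i) ≤
        cnt Y (G \ U) * (1 / 4 * ∑ i ∈ U, cnt X (U.erase i) +
      (k : ℝ) * (2 * (2 ^ U.card * (9 / 10 : ℝ) ^ m) +
        if 4 * U.card ≤ k then 2 ^ U.card else 0)) := mul_le_mul_of_nonneg_left h2 h3
      _ = 1 / 4 * (cnt Y (G \ U) * ∑ i ∈ U, cnt X (U.erase i)) + cnt Y (G \ U) *
          ((k : ℝ) * (2 * (2 ^ U.card * (9 / 10 : ℝ) ^ m) +
            if 4 * U.card ≤ k then 2 ^ U.card else 0)) := by ring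
      _ ≤ 1 / 4 * (cnt Y (G \ U) * ∑ i ∈ U, cnt X (U.erase i)) + 2 ^ (k - U.card) *
          ((k : ℝ) * (2 * (2 ^ U.card * (9 / 10 : ℝ) ^ m) +
            if 4 * U.card ≤ k then 2 ^ U.card else 0)) := by
          apply add_le_add_right
          apply mul_le_mul_of_nonneg_right h4
          apply mul_nonneg hk0
          apply add_nonneg (by positivity)
          split_ifs
          · positivity
          · exact le_rfl
      _ = _ := by
          congr 1
          split_ifs
          · calc _ = 2 * (k * (2 ^ (k - U.card) * 2 ^ U.card) * (9 / 10 : ℝ) ^ m) +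
                  k * (2 ^ (k - U.card) * 2 ^ U.card) := by ring
              _ = _ := by rw [h5]
          · calc _ = 2 * (k * (2 ^ (k - U.card) * 2 ^ U.card) * (9 / 10 : ℝ) ^ m) + 0 := by ring
              _ = _ := by rw [h5]
  rw [e1]
  refine (sum_le_sum h1).trans ?_
  rw [sum_add_distrib, ← mul_sum, ← e0]
  apply add_le_add_right
  rw [sum_add_distrib, sum_const, card_powerset, ← sum_filter, sum_const, nsmul_eq_mul,
    nsmul_eq_mul, ← hk]
  have h6 := card_small G
  rw [← hk] at h6
  have hk0 : (0 : ℝ) ≤ k := Nat.cast_nonneg _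
  have h7 : (9 / 10 : ℝ) ^ k ≤ (9 / 10 : ℝ) ^ m :=
    pow_le_pow_of_le_one (by norm_num) (by norm_num) (by omega)
  have h8 : (2 : ℝ) ^ k * 2 ^ k = 4 ^ k := by rw [← mul_pow]; norm_num
  have h9 : (9 / 5 : ℝ) ^ k * 2 ^ k = 4 ^ k * (9 / 10 : ℝ) ^ k := by
    rw [← mul_pow, ← mul_pow]; norm_num
  calc ((2 ^ k : ℕ) : ℝ) * (2 * (k * 2 ^ k * (9 / 10 : ℝ) ^ m)) +
      ((G.powerset.filter fun a => 4 * a.card ≤ k).card : ℝ) * (k * 2 ^ k) ≤
      (2 ^ k : ℝ) * (2 * (k * 2 ^ k * (9 / 10 : ℝ) ^ m)) + (9 / 5 : ℝ) ^ k * (k * 2 ^ k) := by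
        push_cast
        gcongr
    _ = 2 * (k * (2 ^ k * 2 ^ k) * (9 / 10 : ℝ) ^ m) + k * ((9 / 5 : ℝ) ^ k * 2 ^ k) := by ring
    _ = 2 * (k * 4 ^ k * (9 / 10 : ℝ) ^ m) + k * (4 ^ k * (9 / 10 : ℝ) ^ k) := by rw [h8, h9]
    _ ≤ 2 * (k * 4 ^ k * (9 / 10 : ℝ) ^ m) + k * (4 ^ k * (9 / 10 : ℝ) ^ m) := by gcongr
    _ = _ := by ring

/-- **Razborov's lemma.** -/
theorem corruption (G : Finset P) (X Y : Finset P → Prop) {m : ℕ} (hm : 164 * m ≤ G.card) :
    M0 G X Y ≤ 200 * M1 G X Y + 12 * (G.card * 4 ^ G.card * (9 / 10 : ℝ) ^ m) := by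
  classical
  have h1 := MB_le G X Y hm
  have h2 := MB_le G Y X hm
  rw [← M0_symm G X Y] at h2
  have h3 : M0 G X Y ≤ 100 * M1 G X Y + MB G X Y + MB G Y X := by
    have h4 : MB G Y X = ∑ i ∈ G, ∑ S ∈ (G.erase i).powerset,
        if 10 * cnt1 Y i ((G.erase i) \ S) < cnt Y ((G.erase i) \ S) +
          cnt1 Y i ((G.erase i) \ S) then cnt Y ((G.erase i) \ S) * cnt X S else 0 := by
      unfold MB
      refine sum_congr rfl fun i _ => ?_
      rw [sum_compl_powerset]
      refine sum_congr rfl fun S hS => ?_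
      rw [Finset.sdiff_sdiff_eq_self (mem_powerset.1 hS)]
    rw [h4]
    unfold M0 M1 MB
    rw [mul_sum, ← sum_add_distrib, ← sum_add_distrib]
    apply sum_le_sum
    intro i _
    rw [mul_sum, ← sum_add_distrib, ← sum_add_distrib]
    apply sum_le_sum
    intro S _
    have a0 := cnt_nonneg X S
    have a1 := cnt1_nonneg X i S
    have b0 := cnt_nonneg Y ((G.erase i) \ S)
    have b1 := cnt1_nonneg Y i ((G.erase i) \ S)
    split_ifs with c1 c2 c2
    · nlinarith
    · nlinarith
    · nlinarith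
    · push Not at c1 c2
      have d1 : cnt X S ≤ 10 * cnt1 X i S := by linarith
      have d2 : cnt Y ((G.erase i) \ S) ≤ 10 * cnt1 Y i ((G.erase i) \ S) := by linarith
      calc cnt X S * cnt Y ((G.erase i) \ S) ≤
          (10 * cnt1 X i S) * (10 * cnt1 Y i ((G.erase i) \ S)) :=
            mul_le_mul d1 d2 b0 (by positivity)
        _ = _ := by ring
  linarith

end Pool.Agent.U286.LY
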