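import Mathlib
import Pool.Agent.U286.LY.Raz
import Pool.Agent.U286.LY.Mat

/-!
# Circuits with errors

The separation of pairs for circuits which may err.
-/

set_option autoImplicit false

open Finset

namespace Pool.Agent.U286.LY

open Pool.Agent.Y631.Wc

section

variable {P : Type} [DecidableEq P]

omit [DecidableEq P] in
lemma sum_sum_ite {s t : Finset (Finset P)} (p q : Finset P → Prop) [DecidablePred p]
    [DecidablePred q] : ∑ x ∈ s, ∑ y ∈ t, (if p x ∧ q y then (1 : ℝ) else 0) =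
      ((s.filter p).card : ℝ) * ((t.filter q).card : ℝ) := by
  rw [card_filter, card_filter]
  push_cast
  rw [sum_mul_sum]
  refine sum_congr rfl fun x _ => sum_congr rfl fun y _ => ?_
  by_cases h1 : p x <;> by_cases h2 : q y <;> simp [h1, h2]

open Classical in
lemma M0_eq (G : Finset P) (X Y : Finset P → Prop) : M0 G X Y =
    ∑ i ∈ G, tri (G.erase i) (fun x y => if X x ∧ Y y then 1 else 0) := by
  unfold M0 tri
  refine sum_congr rfl fun i _ => sum_congr rfl fun S _ => ?_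
  rw [sum_sum_ite]
  rfl

open Classical in
lemma M1_eq (G : Finset P) (X Y : Finset P → Prop) : M1 G X Y =
    ∑ i ∈ G, tri (G.erase i) (fun x y => if X (insert i x) ∧ Y (insert i y) then 1 else 0) := by
  unfold M1 tri
  refine sum_congr rfl fun i _ => sum_congr rfl fun S _ => ?_
  rw [sum_sum_ite (fun x => X (insert i x)) (fun y => Y (insert i y))]
  rfl

open Classical in
/-- **Unique disjointness with errors.** -/
theorem udisj {Cl : Type} [Fintype Cl] (R : Cl → Finset P → Finset P → Prop) (G : Finset P)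
    (hG : G.Nonempty)
    (rect : ∀ c x y x' y', x ⊆ G → y ⊆ G → x' ⊆ G → y' ⊆ G → R c x y → R c x' y' → R c x y')
    (disj : ∀ c c' x y, R c x y → R c' x y → c = c')
    (herr : ∑ i ∈ G, tri (G.erase i) (fun x y => (if ∃ c, R c x y then 0 else 1) +
      200 * (if ∃ c, R c (insert i x) (insert i y) then 1 else 0)) ≤
        1 / 2 * (G.card * 4 ^ (G.card - 1))) :
    1 ≤ 96 * ((Fintype.card Cl : ℝ) * (9 / 10 : ℝ) ^ (G.card / 164)) := by
  obtain ⟨m, hm⟩ : ∃ m, m = G.card / 164 := ⟨_, rfl⟩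
  rw [← hm]
  obtain ⟨X, hX⟩ : ∃ X : Cl → Finset P → Prop, ∀ c x, X c x ↔ x ⊆ G ∧ ∃ y, y ⊆ G ∧ R c x y :=
    ⟨fun c x => x ⊆ G ∧ ∃ y, y ⊆ G ∧ R c x y, fun _ _ => Iff.rfl⟩
  obtain ⟨Y, hY⟩ : ∃ Y : Cl → Finset P → Prop, ∀ c y, Y c y ↔ y ⊆ G ∧ ∃ x, x ⊆ G ∧ R c x y :=
    ⟨fun c y => y ⊆ G ∧ ∃ x, x ⊆ G ∧ R c x y, fun _ _ => Iff.rfl⟩
  have hXY : ∀ c x y, x ⊆ G → y ⊆ G → (X c x ∧ Y c y ↔ R c x y) := by
    intro c x y hx hy
    rw [hX, hY]
    constructor
    · rintro ⟨⟨_, y', hy', h1⟩, _, x', hx', h2⟩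
      exact rect c x y' x' y hx hy' hx' hy h1 h2
    · intro h
      exact ⟨⟨hx, y, hy, h⟩, hy, x, hx, h⟩
  have hone : ∀ x y, (∑ c, if R c x y then (1 : ℝ) else 0) = if ∃ c, R c x y then 1 else 0 := by
    intro x y
    by_cases h : ∃ c, R c x y
    · obtain ⟨c, hc⟩ := h
      rw [if_pos ⟨c, hc⟩, sum_eq_single c]
      · rw [if_pos hc]
      · intro c' _ hcc
        rw [if_neg]
        intro h'
        exact hcc (disj _ _ _ _ h' hc)
      · intro h'
        exact absurd (mem_univ _) h'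
    · rw [if_neg h]
      apply sum_eq_zero
      intro c _
      rw [if_neg (fun h' => h ⟨c, h'⟩)]
  have hsubG : ∀ i x, x ⊆ G.erase i → x ⊆ G := fun i x h => h.trans (erase_subset _ _)
  have h0 : ∑ c, M0 G (X c) (Y c) = ∑ i ∈ G, tri (G.erase i) fun x y =>
      if ∃ c, R c x y then 1 else 0 := by
    simp only [M0_eq]
    rw [sum_comm]
    refine sum_congr rfl fun i _ => ?_
    rw [← tri_sum]
    apply tri_congr
    intro x y hx hy _
    rw [← hone]
    refine sum_congr rfl fun c _ => ?_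
    simp only [hXY c x y (hsubG i x hx) (hsubG i y hy)]
  have h1 : ∑ c, M1 G (X c) (Y c) = ∑ i ∈ G, tri (G.erase i) fun x y =>
      if ∃ c, R c (insert i x) (insert i y) then 1 else 0 := by
    simp only [M1_eq]
    rw [sum_comm]
    refine sum_congr rfl fun i hi => ?_
    rw [← tri_sum]
    apply tri_congr
    intro x y hx hy _
    rw [← hone]
    refine sum_congr rfl fun c _ => ?_
    simp only [hXY c _ _ (insert_subset hi (hsubG i x hx)) (insert_subset hi (hsubG i y hy))]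
  have h2 : ∑ c, M0 G (X c) (Y c) ≤ 200 * ∑ c, M1 G (X c) (Y c) +
      (Fintype.card Cl : ℝ) * (12 * (G.card * 4 ^ G.card * (9 / 10 : ℝ) ^ m)) := by
    calc ∑ c, M0 G (X c) (Y c) ≤ ∑ c, (200 * M1 G (X c) (Y c) +
          12 * (G.card * 4 ^ G.card * (9 / 10 : ℝ) ^ m)) :=
          sum_le_sum fun c _ => corruption G (X c) (Y c) (by omega)
      _ = _ := by
          rw [sum_add_distrib, ← mul_sum, sum_const, card_univ, nsmul_eq_mul]
  have h3 : ∑ i ∈ G, tri (G.erase i) (fun x y => (if ∃ c, R c x y then 0 else 1) +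
      200 * (if ∃ c, R c (insert i x) (insert i y) then 1 else 0)) =
      (∑ i ∈ G, tri (G.erase i) fun x y => (if ∃ c, R c x y then (0 : ℝ) else 1)) +
      200 * ∑ i ∈ G, tri (G.erase i) fun x y =>
        (if ∃ c, R c (insert i x) (insert i y) then (1 : ℝ) else 0) := by
    rw [mul_sum, ← sum_add_distrib]
    refine sum_congr rfl fun i _ => ?_
    rw [tri_add, tri_mul]
  have h4 : (∑ i ∈ G, tri (G.erase i) fun x y => (if ∃ c, R c x y then (0 : ℝ) else 1)) +
      (∑ i ∈ G, tri (G.erase i) fun x y => if ∃ c, R c x y then (1 : ℝ) else 0) =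
      G.card * 4 ^ (G.card - 1) := by
    rw [← sum_add_distrib]
    calc _ = ∑ i ∈ G, (4 : ℝ) ^ (G.card - 1) := by
          refine sum_congr rfl fun i hi => ?_
          rw [← tri_add, ← card_erase_of_mem hi, ← one_mul ((4 : ℝ) ^ _), ← tri_one]
          apply tri_congr
          intro x y _ _ _
          by_cases h : ∃ c, R c x y
          · rw [if_pos h, if_pos h, zero_add]
          · rw [if_neg h, if_neg h, add_zero]
      _ = _ := by rw [sum_const, nsmul_eq_mul]
  rw [h3, ← h1] at herr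
  rw [← h0] at h4
  have hk : 1 ≤ G.card := hG.card_pos
  have h5 : (4 : ℝ) ^ G.card = 4 * 4 ^ (G.card - 1) := by
    rw [← pow_succ']
    congr 1
    omega
  rw [h5] at h2
  have hkR : (1 : ℝ) ≤ G.card := by exact_mod_cast hk
  have hW : 0 < (G.card : ℝ) * 4 ^ (G.card - 1) := by positivity
  obtain ⟨W, hWd⟩ : ∃ W : ℝ, W = (G.card : ℝ) * 4 ^ (G.card - 1) := ⟨_, rfl⟩
  have h6 : 1 * W ≤ 96 * ((Fintype.card Cl : ℝ) * (9 / 10 : ℝ) ^ m) * W := by
    have h7 : (Fintype.card Cl : ℝ) * (12 * (G.card * (4 * 4 ^ (G.card - 1)) *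
        (9 / 10 : ℝ) ^ m)) = 48 * ((Fintype.card Cl : ℝ) * (9 / 10 : ℝ) ^ m) * W := by
      rw [hWd]; ring
    rw [h7] at h2
    rw [← hWd] at h4 herr
    linarith
  rw [← hWd] at hW
  exact le_of_mul_le_mul_right h6 hW

end

/-- the number of sets between two sets -/
lemma card_between {U : Type} [Fintype U] [DecidableEq U] {A B : Finset U} (h : Disjoint A B) :
    (univ.filter fun J : Finset U => A ⊆ J ∧ Disjoint B J).card =
      2 ^ (Fintype.card U - A.card - B.card) := by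
  have h1 : Fintype.card U - A.card - B.card = ((A ∪ B)ᶜ).card := by
    rw [card_compl, card_union_of_disjoint h, Nat.sub_sub]
  rw [h1, ← card_powerset]
  apply card_nbij' (fun J => J \ A) (fun K => K ∪ A)
  · intro J hJ
    rw [mem_coe, mem_filter] at hJ
    rw [mem_coe, mem_powerset]
    intro j hj
    rw [mem_sdiff] at hj
    rw [mem_compl, mem_union]
    rintro (h2 | h2)
    · exact hj.2 h2
    · exact disjoint_left.1 hJ.2.2 h2 hj.1
  · intro K hK
    rw [mem_coe, mem_powerset] at hK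
    rw [mem_coe, mem_filter]
    refine ⟨mem_univ _, subset_union_right, ?_⟩
    rw [disjoint_left]
    intro j hj hj2
    rcases mem_union.1 hj2 with h2 | h2
    · have := hK h2
      rw [mem_compl, mem_union] at this
      exact this (Or.inr hj)
    · exact disjoint_left.1 h h2 hj
  · intro J hJ
    rw [mem_coe, mem_filter] at hJ
    exact sdiff_union_of_subset hJ.2.1
  · intro K hK
    rw [mem_coe, mem_powerset] at hK
    ext j
    simp only [mem_sdiff, mem_union]
    constructor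
    · rintro ⟨h2 | h2, h3⟩
      · exact h2
      · exact absurd h2 h3
    · intro h2
      refine ⟨Or.inl h2, fun h3 => ?_⟩
      have := hK h2
      rw [mem_compl, mem_union] at this
      exact this (Or.inl h3)

/-- **Choice of the sides, with weights.** -/
theorem sides_weighted {β : Type} [Fintype β] [DecidableEq β] {ν ρ : ℕ} (P : Finset β)
    (T1 T2 : β → Finset (Fin ν)) (h1 : ∀ x ∈ P, (T1 x).card ≤ ρ) (h2 : ∀ x ∈ P, (T2 x).card ≤ ρ)
    (hd : ∀ x ∈ P, Disjoint (T1 x) (T2 x)) (g : β → ℝ) :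
    ∃ (Q : Finset β) (J : Finset (Fin ν)), Q ⊆ P ∧ (∀ x ∈ Q, T1 x ⊆ J ∧ Disjoint (T2 x) J) ∧
      ∑ x ∈ P, g x ≤ 4 ^ ρ * ∑ x ∈ Q, g x := by
  classical
  rcases P.eq_empty_or_nonempty with hP | ⟨x₀, hx₀⟩
  · exact ⟨∅, ∅, empty_subset _, by simp, by rw [hP]; simp⟩
  obtain ⟨ext, hext⟩ : ∃ ext : (β → Finset (Fin ν)) → Bool → β →
      Finset (Fin ν ⊕ (β × Bool × Fin ρ)), ∀ T b x, ext T b x =
      (T x).map ⟨Sum.inl, Sum.inl_injective⟩ ∪
        (univ.filter fun l : Fin ρ => l.1 < ρ - (T x).card).map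
          ⟨fun l => Sum.inr (x, b, l), fun l l' h => by simpa using h⟩ := ⟨_, fun _ _ _ => rfl⟩
  have hcard : ∀ T b x, (T x).card ≤ ρ → (ext T b x).card = ρ := by
    intro T b x hx
    rw [hext, card_union_of_disjoint, card_map, card_map]
    · have h3 : (univ.filter fun l : Fin ρ => l.1 < ρ - (T x).card).card = ρ - (T x).card := by
        rw [Fin.card_filter_val_lt]
        omega
      rw [h3]
      omega
    · rw [disjoint_left]
      intro j hj hj2
      obtain ⟨a, _, rfl⟩ := mem_map.1 hj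
      obtain ⟨b, _, hb⟩ := mem_map.1 hj2
      simp at hb
  have hdis : ∀ x ∈ P, Disjoint (ext T1 false x) (ext T2 true x) := by
    intro x hx
    rw [hext, hext, disjoint_left]
    intro j hj hj2
    rcases mem_union.1 hj with h3 | h3 <;> rcases mem_union.1 hj2 with h4 | h4
    · obtain ⟨a, ha, rfl⟩ := mem_map.1 h3
      obtain ⟨b, hb, hab⟩ := mem_map.1 h4
      have : b = a := by simpa using hab
      exact disjoint_left.1 (hd x hx) ha (this ▸ hb)
    · obtain ⟨a, _, rfl⟩ := mem_map.1 h3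
      obtain ⟨b, _, hb⟩ := mem_map.1 h4
      simp at hb
    · obtain ⟨a, _, rfl⟩ := mem_map.1 h3
      obtain ⟨b, _, hb⟩ := mem_map.1 h4
      simp at hb
    · obtain ⟨a, _, rfl⟩ := mem_map.1 h3
      obtain ⟨b, _, hb⟩ := mem_map.1 h4
      have hb' : (Sum.inr (x, true, b) : Fin ν ⊕ (β × Bool × Fin ρ)) =
        Sum.inr (x, false, a) := hb
      have h5 := congrArg (fun p : β × Bool × Fin ρ => p.2.1) (Sum.inr_injective hb')
      exact Bool.noConfusion h5
  obtain ⟨u, hu⟩ : ∃ u, u = Fintype.card (Fin ν ⊕ (β × Bool × Fin ρ)) := ⟨_, rfl⟩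
  have hcnt : ∀ x ∈ P, (univ.filter fun J : Finset (Fin ν ⊕ (β × Bool × Fin ρ)) =>
      ext T1 false x ⊆ J ∧ Disjoint (ext T2 true x) J).card * 4 ^ ρ = 2 ^ u := by
    intro x hx
    have hu2 : 2 * ρ ≤ u := by
      have h3 : (ext T1 false x ∪ ext T2 true x).card ≤ u := by
        rw [hu]; exact card_le_univ _
      rw [card_union_of_disjoint (hdis x hx), hcard _ _ _ (h1 x hx), hcard _ _ _ (h2 x hx)] at h3
      omega
    rw [card_between (hdis x hx), hcard _ _ _ (h1 x hx), hcard _ _ _ (h2 x hx), ← hu,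
      show (4 : ℕ) = 2 ^ 2 by norm_num, ← pow_mul, ← pow_add]
    congr 1
    omega
  obtain ⟨J, hJ⟩ : ∃ J : Finset (Fin ν ⊕ (β × Bool × Fin ρ)), ∑ x ∈ P, g x ≤ 4 ^ ρ *
      ∑ x ∈ P.filter (fun x => ext T1 false x ⊆ J ∧ Disjoint (ext T2 true x) J), g x := by
    by_contra hcon
    push Not at hcon
    have h3 : ∑ J : Finset (Fin ν ⊕ (β × Bool × Fin ρ)), (4 : ℝ) ^ ρ *
        ∑ x ∈ P.filter (fun x => ext T1 false x ⊆ J ∧ Disjoint (ext T2 true x) J), g x <
        ∑ _J : Finset (Fin ν ⊕ (β × Bool × Fin ρ)), ∑ x ∈ P, g x :=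
      sum_lt_sum_of_nonempty univ_nonempty fun J _ => hcon J
    rw [← mul_sum] at h3
    simp only [sum_filter] at h3
    rw [sum_comm, sum_const, card_univ, Fintype.card_finset, ← hu, nsmul_eq_mul, mul_sum,
      mul_sum] at h3
    apply absurd h3
    rw [not_lt]
    apply le_of_eq
    refine sum_congr rfl fun x hx => ?_
    rw [← sum_filter, sum_const, nsmul_eq_mul, ← mul_assoc]
    congr 1
    have := hcnt x hx
    rw [← this]
    push_cast
    ring
  refine ⟨P.filter (fun x => ext T1 false x ⊆ J ∧ Disjoint (ext T2 true x) J),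
    univ.filter fun j => Sum.inl j ∈ J, filter_subset _ _, ?_, hJ⟩
  intro x hx
  obtain ⟨_, h3, h4⟩ := mem_filter.1 hx
  rw [hext] at h3 h4
  constructor
  · intro j hj
    exact mem_filter.2 ⟨mem_univ _, h3 (mem_union_left _ (mem_map.2 ⟨j, hj, rfl⟩))⟩
  · rw [disjoint_left]
    intro j hj hj2
    exact disjoint_left.1 h4 (mem_union_left _ (mem_map.2 ⟨j, hj, rfl⟩)) (mem_filter.1 hj2).2

end Pool.Agent.U286.LY
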