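import Mathlib
import Pool.Agent.U286.LY.Udisj

/-!
# Circuits with errors: the engine
-/

set_option autoImplicit false

open Finset

namespace Pool.Agent.U286.LY

open Pool.Agent.Y631.Wc

variable {ι τ X Z : Type}

/-- **Mixing** for two sides. -/
theorem mix_of_sides {P : Type} [DecidableEq τ] (C : WCirc ι X Z) {w ν : ℕ}
    {B : Finset (Fin C.size)} {part : Fin C.size → ℕ} (hB : Parts C B part ν w) (own : ι → τ)
    (e₁ e₂ : P → τ) (Q : Finset P) (J : Finset (Fin ν))
    (hQ1 : ∀ t ∈ Q, ¬ ∃ g ∈ B, ∃ a, own (C.vsrc g a) = e₁ t)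
    (hQ2 : ∀ t ∈ Q, ¬ ∃ g ∈ B, ∃ a, own (C.vsrc g a) = e₂ t)
    (hJ1 : ∀ t ∈ Q, (mapVar C own).parts B part ν (e₁ t) ⊆ J)
    (hJ2 : ∀ t ∈ Q, Disjoint ((mapVar C own).parts B part ν (e₂ t)) J)
    (c : {g // g ∈ C.plus B} → Z) (x x' y : ι → X) (hx : x ∈ C.Cls B c) (hx' : x' ∈ C.Cls B c)
    (hxx : ∀ i, own i ∉ Q.image e₁ → own i ∉ Q.image e₂ → x i = x' i)
    (hy1 : ∀ i, own i ∈ Q.image e₁ → y i = x i)
    (hy2 : ∀ i, own i ∉ Q.image e₁ → y i = x' i) : y ∈ C.Cls B c := by
  classical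
  have hTm : ∀ e j, j ∈ (mapVar C own).parts B part ν e ↔
      ∃ g, g ∉ B ∧ part g = j.1 ∧ ∃ a, own (C.vsrc g a) = e :=
    fun e j => (mapVar C own).mem_parts B part ν e j
  refine C.mixing (B := B) (part := part) hB.closed
    (fun j => ∃ h : j < ν, (⟨j, h⟩ : Fin ν) ∈ J)
    {i | own i ∈ Q.image e₁} {i | own i ∈ Q.image e₂} ?_ ?_ ?_ hx hx'
    (fun i h h' => hxx i h h') (fun i hi => hy1 i hi) (fun i hi => hy2 i hi)
  · rintro g hg i ⟨a, hi⟩
    constructor
    · intro h
      obtain ⟨t, ht, he⟩ := mem_image.1 (show own i ∈ Q.image e₁ from h)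
      exact hQ1 t ht ⟨g, hg, a, by rw [hi, he]⟩
    · intro h
      obtain ⟨t, ht, he⟩ := mem_image.1 (show own i ∈ Q.image e₂ from h)
      exact hQ2 t ht ⟨g, hg, a, by rw [hi, he]⟩
  · rintro g hg ⟨h, hJ'⟩ i ⟨a, hi⟩ h'
    obtain ⟨t, ht, he⟩ := mem_image.1 (show own i ∈ Q.image e₂ from h')
    exact Finset.disjoint_left.1 (hJ2 t ht)
      ((hTm (e₂ t) _).2 ⟨g, hg, rfl, a, by rw [hi, he]⟩) hJ'
  · rintro g hg hJ' i ⟨a, hi⟩ h'
    obtain ⟨t, ht, he⟩ := mem_image.1 (show own i ∈ Q.image e₁ from h')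
    apply hJ'
    have h7 : part g < ν := hB.lt g hg
    exact ⟨h7, hJ1 t ht ((hTm (e₁ t) ⟨part g, h7⟩).2 ⟨g, hg, rfl, a, by rw [hi, he]⟩)⟩

/-- the good pairs -/
def Good {P : Type} [DecidableEq τ] (C : WCirc ι X Z) (B : Finset (Fin C.size))
    (part : Fin C.size → ℕ) (ν ρ : ℕ) (own : ι → τ) (e₁ e₂ : P → τ) (t : P) : Prop :=
  ((¬ ∃ g ∈ B, ∃ a, own (C.vsrc g a) = e₁ t) ∧ (¬ ∃ g ∈ B, ∃ a, own (C.vsrc g a) = e₂ t)) ∧
    (((mapVar C own).parts B part ν (e₁ t)).card ≤ ρ ∧
      ((mapVar C own).parts B part ν (e₂ t)).card ≤ ρ) ∧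
    Disjoint ((mapVar C own).parts B part ν (e₁ t)) ((mapVar C own).parts B part ν (e₂ t))

open Classical in
/-- **Most pairs are good.** -/
theorem many_good {P S : Type} [Fintype P] [Fintype S] [DecidableEq ι]
    [DecidableEq τ] (C : WCirc ι X Z) {κ R w ρ ν : ℕ} (hκ : C.FanIn κ) (hR : C.reads ≤ R)
    {B : Finset (Fin C.size)} {part : Fin C.size → ℕ} (hB : Parts C B part ν w) (own : ι → τ)
    (e₁ : P → τ) (e₂ : S → P → τ) (he₁ : Function.Injective e₁)
    (he₂ : ∀ s, Function.Injective (e₂ s)) (he₃ : ∀ t, Function.Injective fun s => e₂ s t)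
    (hρ : 16 * R ≤ (ρ + 1) * Fintype.card P) (hw : 8 * (ρ * w) ≤ Fintype.card S)
    (hbig : 16 * (κ * B.card) ≤ Fintype.card P) :
    5 * (Fintype.card S * Fintype.card P) ≤
      8 * ∑ s : S, (univ.filter fun t => Good C B part ν ρ own e₁ (e₂ s) t).card := by
  obtain ⟨T, hT⟩ : ∃ T : τ → Finset (Fin ν), T = (mapVar C own).parts B part ν := ⟨_, rfl⟩
  have hTm : ∀ e j, j ∈ T e ↔ ∃ g, g ∉ B ∧ part g = j.1 ∧ ∃ a, own (C.vsrc g a) = e := by
    intro e j
    rw [hT]
    exact (mapVar C own).mem_parts B part ν e j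
  have hTs : ∀ Y : Finset τ, ∑ e ∈ Y, (T e).card ≤ R := by
    intro Y
    rw [hT]
    exact ((mapVar C own).sum_parts B part ν Y).trans hR
  obtain ⟨M, hM⟩ : ∃ M, M = Fintype.card P := ⟨_, rfl⟩
  rw [← hM] at hρ hbig ⊢
  have hbd : ∀ f : P → τ, Function.Injective f →
      (univ.filter fun t => ∃ g ∈ B, ∃ a, own (C.vsrc g a) = f t).card ≤ κ * B.card := by
    intro f hf
    refine (card_read C own B f hf _ fun t h => h).trans ?_
    calc ∑ g ∈ B, C.vars g ≤ ∑ _g ∈ B, κ :=
          Finset.sum_le_sum (fun g _ => le_trans (Nat.le_add_right _ _) (hκ g))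
      _ = κ * B.card := by rw [Finset.sum_const, smul_eq_mul, mul_comm]
  have hmany : ∀ f : P → τ, Function.Injective f →
      (univ.filter fun t => ρ < (T (f t)).card).card * 16 ≤ M := by
    intro f hf
    have h8 : (univ.filter fun t => ρ < (T (f t)).card).card * (ρ + 1) ≤ R := by
      calc _ = ∑ _t ∈ univ.filter (fun t => ρ < (T (f t)).card), (ρ + 1) := by
            rw [Finset.sum_const, smul_eq_mul]
        _ ≤ ∑ t ∈ univ.filter (fun t => ρ < (T (f t)).card), (T (f t)).card :=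
            Finset.sum_le_sum (fun i hi => (mem_filter.1 hi).2)
        _ ≤ ∑ t, (T (f t)).card := Finset.sum_le_sum_of_subset (filter_subset _ _)
        _ = ∑ e ∈ univ.image f, (T e).card := by
            rw [Finset.sum_image (fun a _ b _ h => hf h)]
        _ ≤ R := hTs _
    have h10 : (ρ + 1) * ((univ.filter fun t => ρ < (T (f t)).card).card * 16) ≤ (ρ + 1) * M := by
      calc _ = 16 * ((univ.filter fun t => ρ < (T (f t)).card).card * (ρ + 1)) := by ring
        _ ≤ 16 * R := Nat.mul_le_mul_left _ h8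
        _ ≤ _ := hρ
    exact Nat.le_of_mul_le_mul_left h10 (Nat.succ_pos _)
  have h1 : ∑ s : S, (univ.filter fun t : P =>
      (T (e₁ t)).card ≤ ρ ∧ ¬ Disjoint (T (e₁ t)) (T (e₂ s t))).card ≤ M * (ρ * w) := by
    simp only [Finset.card_filter]
    rw [Finset.sum_comm]
    simp only [← Finset.card_filter]
    calc _ ≤ ∑ _t : P, ρ * w := by
          apply Finset.sum_le_sum
          intro t _
          by_cases ht : (T (e₁ t)).card ≤ ρ
          · have h2 : (univ.filter fun s : S =>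
                (T (e₁ t)).card ≤ ρ ∧ ¬ Disjoint (T (e₁ t)) (T (e₂ s t))) ⊆
                (T (e₁ t)).biUnion fun j => univ.filter fun s : S => j ∈ T (e₂ s t) := by
              intro s hs
              obtain ⟨j, hj1, hj2⟩ := Finset.not_disjoint_iff.1 (mem_filter.1 hs).2.2
              exact mem_biUnion.2 ⟨j, hj1, mem_filter.2 ⟨mem_univ _, hj2⟩⟩
            refine (card_le_card h2).trans ((card_biUnion_le_card_mul _ _ w fun j _ => ?_).trans
              (Nat.mul_le_mul_right _ ht))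
            refine (card_read C own (univ.filter fun g => g ∉ B ∧ part g = j.1) _ (he₃ t) _
              fun s hs => ?_).trans (hB.few j.1)
            obtain ⟨g, hg1, hg2, hg3⟩ := (hTm _ _).1 hs
            exact ⟨g, mem_filter.2 ⟨mem_univ _, hg1, hg2⟩, hg3⟩
          · rw [Finset.filter_false_of_mem (fun s _ h => ht h.1), card_empty]
            exact Nat.zero_le _
      _ = M * (ρ * w) := by
          rw [Finset.sum_const, smul_eq_mul, card_univ, hM]
  have h2 : ∀ s : S, 6 * M ≤ 8 * (univ.filter fun t => Good C B part ν ρ own e₁ (e₂ s) t).card +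
      8 * (univ.filter fun t : P =>
        (T (e₁ t)).card ≤ ρ ∧ ¬ Disjoint (T (e₁ t)) (T (e₂ s t))).card := by
    intro s
    have h3 : (univ : Finset P) ⊆ (univ.filter fun t => Good C B part ν ρ own e₁ (e₂ s) t) ∪
        (((univ.filter fun t => ∃ g ∈ B, ∃ a, own (C.vsrc g a) = e₁ t) ∪
          (univ.filter fun t => ∃ g ∈ B, ∃ a, own (C.vsrc g a) = e₂ s t)) ∪
        (((univ.filter fun t => ρ < (T (e₁ t)).card) ∪
          (univ.filter fun t => ρ < (T (e₂ s t)).card)) ∪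
          (univ.filter fun t : P =>
            (T (e₁ t)).card ≤ ρ ∧ ¬ Disjoint (T (e₁ t)) (T (e₂ s t))))) := by
      intro t _
      simp only [mem_union, mem_filter, mem_univ, true_and]
      by_cases a1 : ∃ g ∈ B, ∃ a, own (C.vsrc g a) = e₁ t
      · exact Or.inr (Or.inl (Or.inl a1))
      by_cases a2 : ∃ g ∈ B, ∃ a, own (C.vsrc g a) = e₂ s t
      · exact Or.inr (Or.inl (Or.inr a2))
      by_cases a3 : (T (e₁ t)).card ≤ ρ
      · by_cases a4 : (T (e₂ s t)).card ≤ ρ
        · by_cases a5 : Disjoint (T (e₁ t)) (T (e₂ s t))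
          · left
            rw [hT] at a3 a4 a5
            exact ⟨⟨a1, a2⟩, ⟨a3, a4⟩, a5⟩
          · exact Or.inr (Or.inr (Or.inr ⟨a3, a5⟩))
        · exact Or.inr (Or.inr (Or.inl (Or.inr (by omega))))
      · exact Or.inr (Or.inr (Or.inl (Or.inl (by omega))))
    have h4 := hbd e₁ he₁
    have h5 := hbd (e₂ s) (he₂ s)
    have h6 := hmany e₁ he₁
    have h7 := hmany (e₂ s) (he₂ s)
    have h8 := (card_le_card h3).trans ((card_union_le _ _).trans (Nat.add_le_add_left
      ((card_union_le _ _).trans (Nat.add_le_add (card_union_le _ _)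
        ((card_union_le _ _).trans (Nat.add_le_add_right (card_union_le _ _) _)))) _))
    rw [card_univ, ← hM] at h8
    omega
  have h3 : Fintype.card S * (6 * M) ≤
      8 * (∑ s : S, (univ.filter fun t => Good C B part ν ρ own e₁ (e₂ s) t).card) +
      8 * ∑ s : S, (univ.filter fun t : P =>
        (T (e₁ t)).card ≤ ρ ∧ ¬ Disjoint (T (e₁ t)) (T (e₂ s t))).card := by
    rw [mul_sum, mul_sum, ← sum_add_distrib]
    calc Fintype.card S * (6 * M) = ∑ _s : S, 6 * M := by
          rw [sum_const, smul_eq_mul, card_univ]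
      _ ≤ _ := sum_le_sum fun s _ => h2 s
  have h4 : 8 * (M * (ρ * w)) ≤ Fintype.card S * M := by
    calc 8 * (M * (ρ * w)) = 8 * (ρ * w) * M := by ring
      _ ≤ _ := Nat.mul_le_mul_right _ hw
  have h5 : Fintype.card S * (6 * M) = 6 * (Fintype.card S * M) := by ring
  omega

open Classical in
/-- the weight of the errors for the pair `t`, for a set of inputs `Acc x y` that are accepted
although `x` and `y` are disjoint except for `t`, or rejected although they are disjoint -/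
noncomputable def err {P : Type} [Fintype P] [DecidableEq P] (Acc : Finset P → Finset P → Prop)
    (t : P) : ℝ :=
  tri (univ.erase t) fun x y => (if Acc x y then 0 else 1) +
    200 * (if Acc (insert t x) (insert t y) then 1 else 0)

lemma err_nonneg {P : Type} [Fintype P] [DecidableEq P] (Acc : Finset P → Finset P → Prop)
    (t : P) : 0 ≤ err Acc t := by
  classical
  unfold err tri
  refine sum_nonneg fun S _ => sum_nonneg fun x _ => sum_nonneg fun y _ => ?_
  beta_reduce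
  split_ifs <;> norm_num

/-- **The engine for circuits with errors.** -/
theorem bounded_error {P S : Type} [Fintype P] [Nonempty P] [Fintype S] [Nonempty S]
    [DecidableEq P] [DecidableEq ι] [DecidableEq τ] [Fintype Z] (C : WCirc ι X Z)
    (hU : C.Unambiguous) {κ R w ρ ν b : ℕ} (hκ : C.FanIn κ) (hR : C.reads ≤ R)
    {B : Finset (Fin C.size)} {part : Fin C.size → ℕ} (hB : Parts C B part ν w) (own : ι → τ)
    (e₁ : P → τ) (e₂ : S → P → τ) (he₁ : Function.Injective e₁)
    (he₂ : ∀ s, Function.Injective (e₂ s)) (he₃ : ∀ t, Function.Injective fun s => e₂ s t)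
    (he₄ : ∀ s t t', e₁ t ≠ e₂ s t')
    (hρ : 16 * R ≤ (ρ + 1) * Fintype.card P) (hw : 8 * (ρ * w) ≤ Fintype.card S)
    (inst : S → Finset P → Finset P → ι → X)
    (hi1 : ∀ s x x' y i, (∀ t, own i = e₁ t → (t ∈ x ↔ t ∈ x')) → inst s x y i = inst s x' y i)
    (hi2 : ∀ s x y y' i, (∀ t, own i = e₂ s t → (t ∈ y ↔ t ∈ y')) → inst s x y i = inst s x y' i)
    (herr : ∑ s, ∑ t, err (fun x y => C.Accepts (inst s x y)) t ≤
      1 / 16 * (Fintype.card S * Fintype.card P * 4 ^ (Fintype.card P - 1)))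
    (hb : 1 ≤ b) (hZ : Fintype.card Z ≤ 2 ^ b) :
    Fintype.card P ≤ 2 ^ (2 * ρ + 15) * ((κ + 1) * b * (B.card + 1)) := by
  classical
  obtain ⟨M, hM⟩ : ∃ M, M = Fintype.card P := ⟨_, rfl⟩
  have hM1 : 1 ≤ M := by rw [hM]; exact Fintype.card_pos
  have hkb : 1 ≤ (κ + 1) * b := Nat.mul_pos (Nat.succ_pos _) hb
  by_cases hbig : 16 * (κ * B.card) ≤ Fintype.card P
  swap
  · push Not at hbig
    calc Fintype.card P ≤ 16 * (κ * B.card) := hbig.le
      _ ≤ 2 ^ (2 * ρ + 15) * ((κ + 1) * b * (B.card + 1)) := by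
          apply Nat.mul_le_mul
          · calc 16 = 2 ^ 4 := by norm_num
              _ ≤ _ := Nat.pow_le_pow_right (by norm_num) (by omega)
          · apply Nat.mul_le_mul _ (Nat.le_succ _)
            calc κ ≤ (κ + 1) * 1 := by omega
              _ ≤ _ := Nat.mul_le_mul_left _ hb
  have hgood := many_good C hκ hR hB own e₁ e₂ he₁ he₂ he₃ hρ hw hbig
  rw [← hM] at hgood herr ⊢
  obtain ⟨E, hE⟩ : ∃ E : S → P → ℝ, ∀ s t, E s t = err (fun x y => C.Accepts (inst s x y)) t :=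
    ⟨_, fun _ _ => rfl⟩
  have hE0 : ∀ s t, 0 ≤ E s t := fun s t => by rw [hE]; exact err_nonneg _ _
  simp only [← hE] at herr
  obtain ⟨G, hG⟩ : ∃ G : S → Finset P, ∀ s, G s =
    univ.filter fun t => Good C B part ν ρ own e₁ (e₂ s) t := ⟨_, fun _ => rfl⟩
  simp only [← hG] at hgood
  have h4pos : (0 : ℝ) < 4 ^ (M - 1) := by positivity
  obtain ⟨q, hq⟩ : ∃ q : ℝ, q = 4 ^ (M - 1) := ⟨_, rfl⟩
  rw [← hq] at h4pos herr
  -- the choice of the matching
  obtain ⟨s, hs⟩ : ∃ s, (M : ℝ) / 2 * q ≤ ∑ t ∈ G s, (q - 2 * E s t) := by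
    by_contra hcon
    push Not at hcon
    have h1 : ∑ s, ∑ t ∈ G s, (q - 2 * E s t) < ∑ _s : S, (M : ℝ) / 2 * q :=
      sum_lt_sum_of_nonempty univ_nonempty fun s _ => hcon s
    rw [sum_const, card_univ, nsmul_eq_mul] at h1
    have h2 : ∑ s, ((G s).card : ℝ) * q - 2 * ∑ s, ∑ t, E s t ≤
        ∑ s, ∑ t ∈ G s, (q - 2 * E s t) := by
      rw [mul_sum, ← sum_sub_distrib]
      apply sum_le_sum
      intro s _
      rw [sum_sub_distrib, sum_const, nsmul_eq_mul, ← mul_sum]
      apply sub_le_sub_left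
      apply mul_le_mul_of_nonneg_left _ (by norm_num)
      exact sum_le_sum_of_subset_of_nonneg (subset_univ _) fun t _ _ => hE0 s t
    have h3 : 5 / 8 * ((Fintype.card S : ℝ) * M) * q ≤ ∑ s, ((G s).card : ℝ) * q := by
      rw [← sum_mul]
      apply mul_le_mul_of_nonneg_right _ h4pos.le
      have h4 : (5 : ℝ) * (Fintype.card S * M) ≤ 8 * ∑ s, ((G s).card : ℝ) := by
        exact_mod_cast hgood
      linarith
    have h5 : (Fintype.card S : ℝ) * ((M : ℝ) / 2 * q) = 1 / 2 * ((Fintype.card S : ℝ) * M * q) := by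
      ring
    have h6 : 5 / 8 * ((Fintype.card S : ℝ) * M) * q = 5 / 8 * ((Fintype.card S : ℝ) * M * q) := by
      ring
    rw [h5] at h1
    rw [h6] at h3
    linarith
  have hGm : ∀ t ∈ G s, Good C B part ν ρ own e₁ (e₂ s) t := by
    intro t ht
    rw [hG, mem_filter] at ht
    exact ht.2
  obtain ⟨Q, J, hQG, hQJ, hQ⟩ := sides_weighted (ρ := ρ) (G s)
    (fun t => (mapVar C own).parts B part ν (e₁ t))
    (fun t => (mapVar C own).parts B part ν (e₂ s t))
    (fun t ht => (hGm t ht).2.1.1) (fun t ht => (hGm t ht).2.1.2) (fun t ht => (hGm t ht).2.2)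
    (fun t => q - 2 * E s t)
  have hQ2 : (M : ℝ) / 2 * q ≤ 4 ^ ρ * ∑ t ∈ Q, (q - 2 * E s t) := hs.trans hQ
  rw [sum_sub_distrib, sum_const, nsmul_eq_mul, ← mul_sum] at hQ2
  have hsum0 : 0 ≤ ∑ t ∈ Q, E s t := sum_nonneg fun t _ => hE0 s t
  have hMR : (1 : ℝ) ≤ M := by exact_mod_cast hM1
  have h4ρ : (0 : ℝ) < 4 ^ ρ := by positivity
  have hpos : 0 < (Q.card : ℝ) * q - 2 * ∑ t ∈ Q, E s t := by
    by_contra hcon
    push Not at hcon
    have h1 : (4 : ℝ) ^ ρ * ((Q.card : ℝ) * q - 2 * ∑ t ∈ Q, E s t) ≤ 0 :=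
      mul_nonpos_of_nonneg_of_nonpos h4ρ.le hcon
    have h2 : 0 < (M : ℝ) / 2 * q := by positivity
    linarith
  have hQcard : (M : ℝ) ≤ 2 * (4 ^ ρ * Q.card) := by
    have h1 : (M : ℝ) / 2 * q ≤ 4 ^ ρ * Q.card * q := by
      calc (M : ℝ) / 2 * q ≤ 4 ^ ρ * ((Q.card : ℝ) * q - 2 * ∑ t ∈ Q, E s t) := hQ2
        _ ≤ 4 ^ ρ * ((Q.card : ℝ) * q) := by
            apply mul_le_mul_of_nonneg_left _ h4ρ.le
            linarith
        _ = _ := by ring
    have h2 := le_of_mul_le_mul_right h1 h4pos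
    linarith
  have hQne : Q.Nonempty := by
    rw [nonempty_iff_ne_empty]
    intro h
    rw [h, card_empty, Nat.cast_zero, mul_zero, mul_zero] at hQcard
    linarith
  have hQerr : ∑ t ∈ Q, E s t ≤ 1 / 2 * Q.card * q := by linarith
  -- the rest of the input
  have hcardQ : Q.card + (Qᶜ).card = M := by rw [hM]; exact card_add_card_compl Q
  have hQ1 : 1 ≤ Q.card := hQne.card_pos
  obtain ⟨x₀, y₀, hx₀, hy₀, -, hxy⟩ : ∃ x₀ y₀, x₀ ⊆ Qᶜ ∧ y₀ ⊆ Qᶜ ∧ Disjoint x₀ y₀ ∧
      ∑ t ∈ Q, tri (Q.erase t) (fun x y => (if C.Accepts (inst s (x ∪ x₀) (y ∪ y₀)) then 0 else 1) +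
        200 * (if C.Accepts (inst s (insert t x ∪ x₀) (insert t y ∪ y₀)) then 1 else 0)) ≤
        1 / 2 * (Q.card * 4 ^ (Q.card - 1)) := by
    apply exists_le_of_tri (A := Qᶜ)
      (f := fun x₀ y₀ => ∑ t ∈ Q, tri (Q.erase t) (fun x y =>
        (if C.Accepts (inst s (x ∪ x₀) (y ∪ y₀)) then 0 else 1) +
        200 * (if C.Accepts (inst s (insert t x ∪ x₀) (insert t y ∪ y₀)) then 1 else 0)))
    rw [tri_sum]
    calc ∑ t ∈ Q, tri Qᶜ (fun x₀ y₀ => tri (Q.erase t) (fun x y =>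
          (if C.Accepts (inst s (x ∪ x₀) (y ∪ y₀)) then 0 else 1) +
          200 * (if C.Accepts (inst s (insert t x ∪ x₀) (insert t y ∪ y₀)) then 1 else 0))) =
        ∑ t ∈ Q, E s t := by
          refine sum_congr rfl fun t ht => ?_
          have h1 : (univ : Finset P).erase t = Q.erase t ∪ Qᶜ := by
            ext j
            simp only [mem_erase, mem_univ, and_true, mem_union, mem_compl]
            constructor
            · intro h
              by_cases hj : j ∈ Q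
              · exact Or.inl ⟨h, hj⟩
              · exact Or.inr hj
            · rintro (h | h)
              · exact h.1
              · rintro rfl
                exact h ht
          have h2 : Disjoint (Q.erase t) Qᶜ :=
            disjoint_of_subset_left (erase_subset _ _) disjoint_compl_right
          rw [hE]
          unfold err
          rw [h1, tri_union h2]
          simp only [insert_union]
      _ ≤ 1 / 2 * Q.card * q := hQerr
      _ = 1 / 2 * (Q.card * 4 ^ (Q.card - 1)) * 4 ^ (Qᶜ).card := by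
          rw [hq, show M - 1 = Q.card - 1 + (Qᶜ).card by omega, pow_add]
          ring
  -- rectangles
  obtain ⟨Rr, hRr⟩ : ∃ Rr : ({g // g ∈ C.plus B} → Z) → Finset P → Finset P → Prop,
    ∀ c x y, Rr c x y ↔ inst s (x ∪ x₀) (y ∪ y₀) ∈ C.Cls B c := ⟨_, fun _ _ _ => Iff.rfl⟩
  have hacc : ∀ x y, (∃ c, Rr c x y) ↔ C.Accepts (inst s (x ∪ x₀) (y ∪ y₀)) := by
    intro x y
    constructor
    · rintro ⟨c, hc⟩
      obtain ⟨v, hv, ho, -⟩ := (hRr c x y).1 hc
      exact ⟨v, hv, ho⟩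
    · rintro ⟨v, hv, ho⟩
      exact ⟨fun g => v g.1, (hRr _ x y).2 ⟨v, hv, ho, fun _ => rfl⟩⟩
  have hmain := udisj Rr Q hQne (by
      intro c x y x' y' hx hy hx' hy' h1 h2
      rw [hRr] at h1 h2 ⊢
      refine mix_of_sides C hB own e₁ (e₂ s) Q J (fun t ht => (hGm t (hQG ht)).1.1)
        (fun t ht => (hGm t (hQG ht)).1.2) (fun t ht => (hQJ t ht).1) (fun t ht => (hQJ t ht).2)
        c _ _ _ h1 h2 ?_ ?_ ?_
      · intro i hiA hiE
        refine (hi1 s _ (x' ∪ x₀) _ i ?_).trans (hi2 s _ _ (y' ∪ y₀) i ?_)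
        · intro t ht
          have htQ : t ∉ Q := fun h => hiA (mem_image.2 ⟨t, h, ht.symm⟩)
          rw [mem_union, mem_union]
          constructor
          · rintro (h | h)
            · exact absurd (hx h) htQ
            · exact Or.inr h
          · rintro (h | h)
            · exact absurd (hx' h) htQ
            · exact Or.inr h
        · intro t ht
          have htQ : t ∉ Q := fun h => hiE (mem_image.2 ⟨t, h, ht.symm⟩)
          rw [mem_union, mem_union]
          constructor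
          · rintro (h | h)
            · exact absurd (hy h) htQ
            · exact Or.inr h
          · rintro (h | h)
            · exact absurd (hy' h) htQ
            · exact Or.inr h
      · intro i hiA
        apply hi2
        intro t ht
        obtain ⟨t', _, ht'⟩ := mem_image.1 hiA
        exact absurd (ht'.trans ht) (he₄ s t' t)
      · intro i hiA
        apply hi1
        intro t ht
        have htQ : t ∉ Q := fun h => hiA (mem_image.2 ⟨t, h, ht.symm⟩)
        rw [mem_union, mem_union]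
        constructor
        · rintro (h | h)
          · exact absurd (hx h) htQ
          · exact Or.inr h
        · rintro (h | h)
          · exact absurd (hx' h) htQ
          · exact Or.inr h)
    (by
      intro c c' x y h1 h2
      obtain ⟨v, hv, ho, hvc⟩ := (hRr _ _ _).1 h1
      obtain ⟨v', hv', ho', hvc'⟩ := (hRr _ _ _).1 h2
      have h3 := hU _ v v' hv ho hv' ho'
      funext g
      rw [← hvc, ← hvc', h3])
    (by
      refine le_trans (le_of_eq ?_) hxy
      refine sum_congr rfl fun t _ => ?_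
      apply tri_congr
      intro x y _ _ _
      simp only [hacc])
  -- numbers
  obtain ⟨K, hK⟩ : ∃ K, K = b * ((κ + 1) * B.card) := ⟨_, rfl⟩
  have hCl : (Fintype.card ({g // g ∈ C.plus B} → Z) : ℝ) ≤ 2 ^ K := by
    have h1 : Fintype.card ({g // g ∈ C.plus B} → Z) ≤ 2 ^ K := by
      rw [Fintype.card_fun, Fintype.card_coe]
      calc Fintype.card Z ^ (C.plus B).card ≤ (2 ^ b) ^ (C.plus B).card :=
            Nat.pow_le_pow_left hZ _
        _ = 2 ^ (b * (C.plus B).card) := by rw [pow_mul]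
        _ ≤ 2 ^ K := by
            apply Nat.pow_le_pow_right (by norm_num)
            rw [hK]
            exact Nat.mul_le_mul_left _ (C.card_plus B κ hκ)
    exact_mod_cast h1
  obtain ⟨m, hm⟩ : ∃ m, m = Q.card / 164 := ⟨_, rfl⟩
  rw [← hm] at hmain
  have hm2 : m ≤ 49 + 7 * K := by
    by_contra hcon
    push Not at hcon
    have h1 : (9 / 10 : ℝ) ^ m ≤ (9 / 10 : ℝ) ^ (49 + 7 * K + 1) :=
      pow_le_pow_of_le_one (by norm_num) (by norm_num) hcon
    have h2 : (9 / 10 : ℝ) ^ (49 + 7 * K + 1) = (9 / 10 : ℝ) ^ 50 * ((9 / 10 : ℝ) ^ 7) ^ K := by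
      rw [← pow_mul, ← pow_add]
      congr 1
      ring
    have h3 : ((9 / 10 : ℝ) ^ 7) ^ K * 2 ^ K ≤ 1 := by
      rw [← mul_pow]
      apply pow_le_one₀ (by positivity)
      norm_num
    have h5 : (0 : ℝ) ≤ Fintype.card ({g // g ∈ C.plus B} → Z) := Nat.cast_nonneg _
    have h4 : (1 : ℝ) ≤ 96 * (9 / 10 : ℝ) ^ 50 := by
      calc (1 : ℝ) ≤ 96 * ((Fintype.card ({g // g ∈ C.plus B} → Z) : ℝ) * (9 / 10 : ℝ) ^ m) := hmain
        _ ≤ 96 * (2 ^ K * ((9 / 10 : ℝ) ^ 50 * ((9 / 10 : ℝ) ^ 7) ^ K)) := by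
            rw [← h2]
            gcongr
        _ = 96 * (9 / 10 : ℝ) ^ 50 * (((9 / 10 : ℝ) ^ 7) ^ K * 2 ^ K) := by ring
        _ ≤ 96 * (9 / 10 : ℝ) ^ 50 * 1 := by
            apply mul_le_mul_of_nonneg_left h3 (by positivity)
        _ = _ := mul_one _
    norm_num at h4
  have hQc : Q.card ≤ 164 * (50 + 7 * K) := by omega
  have hMQ : M ≤ 2 * (4 ^ ρ * Q.card) := by exact_mod_cast hQcard
  have h4pow : (4 : ℕ) ^ ρ = 2 ^ (2 * ρ) := by
    rw [show (4 : ℕ) = 2 ^ 2 by norm_num, ← pow_mul]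
  calc M ≤ 2 * (4 ^ ρ * Q.card) := hMQ
    _ ≤ 2 * (2 ^ (2 * ρ) * (164 * (50 + 7 * K))) := by rw [h4pow]; gcongr
    _ = 2 ^ (2 * ρ) * (16400 + 2296 * K) := by ring
    _ ≤ 2 ^ (2 * ρ) * (32768 * ((κ + 1) * b * (B.card + 1))) := by
        apply Nat.mul_le_mul_left
        have h6 : (κ + 1) * b * (B.card + 1) = K + (κ + 1) * b := by rw [hK]; ring
        rw [h6]
        omega
    _ = _ := by rw [pow_add]; ring

end Pool.Agent.U286.LY
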