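import Mathlib
import Pool.Agent.U286.LY.Samp

/-!
# Random circuits with errors
-/

set_option autoImplicit false

open Finset

namespace Pool.Agent.U286.LY

open Pool.Agent.Y631.Wc

variable {ι X Z : Type}

open Classical in
/-- The random circuit `C` gives the right answer to the question `F`, for every input with the
property `V`, except with probability at most `δ`. -/
def ErrLE {Ω : Type} [Fintype Ω] (p : Ω → ℝ) (C : Ω → WCirc ι X Z) (V F : (ι → X) → Prop)
    (δ : ℝ) : Prop :=
  ∀ z, V z → ∑ ω with ¬ ((C ω).Accepts z ↔ F z), p ω ≤ δ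

/-- the circuit with the opposite answer -/
def opp (C : WCirc ι X Z) : WCirc ι X Z where
  size := C.size
  vars := C.vars
  gates := C.gates
  vsrc := C.vsrc
  gsrc := C.gsrc
  rel := C.rel
  out := C.out
  acc := fun z => ¬ C.acc z
  acyclic := C.acyclic

theorem exists_run {C : WCirc ι X Z} (h : C.Deterministic) (x : ι → X) : ∃ v, C.Run x v := by
  classical
  have h0 : 0 < C.size := lt_of_le_of_lt (Nat.zero_le _) C.out.2
  obtain ⟨z, -⟩ := (h ⟨0, h0⟩ (fun a => x (C.vsrc ⟨0, h0⟩ a))
    (fun a => absurd (C.acyclic ⟨0, h0⟩ a) (by rw [Fin.lt_def]; simp))).exists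
  have key : ∀ n : ℕ, ∃ v : Fin C.size → Z, ∀ g : Fin C.size, g.1 < n →
      C.rel g (fun a => x (C.vsrc g a)) (fun a => v (C.gsrc g a)) (v g) := by
    intro n
    induction n with
    | zero => exact ⟨fun _ => z, fun g hg => absurd hg (Nat.not_lt_zero _)⟩
    | succ n ih =>
      obtain ⟨v, hv⟩ := ih
      by_cases hn : n < C.size
      · obtain ⟨z', hz'⟩ := (h ⟨n, hn⟩ (fun a => x (C.vsrc ⟨n, hn⟩ a))
          (fun a => v (C.gsrc ⟨n, hn⟩ a))).exists
        refine ⟨Function.update v ⟨n, hn⟩ z', fun g hg => ?_⟩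
        have h1 : (fun a => Function.update v ⟨n, hn⟩ z' (C.gsrc g a)) =
            fun a => v (C.gsrc g a) := by
          funext a
          rw [Function.update_of_ne]
          intro h2
          have h3 := C.acyclic g a
          rw [h2, Fin.lt_def] at h3
          simp only at h3
          omega
        rw [h1]
        by_cases hgn : g = ⟨n, hn⟩
        · subst hgn
          rw [Function.update_self]
          exact hz'
        · rw [Function.update_of_ne hgn]
          apply hv
          have : g.1 ≠ n := fun h2 => hgn (Fin.ext h2)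
          omega
      · exact ⟨v, fun g _ => hv g (by have := g.2; omega)⟩
  obtain ⟨v, hv⟩ := key C.size
  exact ⟨v, fun g => hv g g.2⟩

theorem accepts_opp {C : WCirc ι X Z} (h : C.Deterministic) (x : ι → X) :
    (opp C).Accepts x ↔ ¬ C.Accepts x := by
  constructor
  · rintro ⟨v, hv, ho⟩ ⟨v', hv', ho'⟩
    have hU : ∀ v v', C.Run x v → C.Run x v' → v = v' := by
      intro v v' hv hv'
      have key : ∀ n : ℕ, ∀ g : Fin C.size, g.1 = n → v g = v' g := by
        intro n
        induction n using Nat.strong_induction_on with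
        | _ n ih =>
          intro g hg
          have h1 : (fun a => v (C.gsrc g a)) = (fun a => v' (C.gsrc g a)) := by
            funext a
            exact ih _ (by have := C.acyclic g a; rw [Fin.lt_def] at this; omega) _ rfl
          have h2 := hv g
          have h3 := hv' g
          rw [← h1] at h3
          exact (h g _ _).unique h2 h3
      funext g
      exact key g.1 g rfl
    have h1 : v = v' := hU v v' hv hv'
    rw [← h1] at ho'
    exact ho ho'
  · intro hn
    obtain ⟨v, hv⟩ := exists_run h x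
    exact ⟨v, hv, fun h1 => hn ⟨v, hv, h1⟩⟩

theorem opp_unambiguous {C : WCirc ι X Z} (h : C.Deterministic) : (opp C).Unambiguous := by
  have h1 : (opp C).Deterministic := h
  exact WCirc.Deterministic.unambiguous h1

open Classical in
/-- **The choice of the circuit.** -/
theorem choose_circuit {P S Ω : Type} [Fintype P] [Nonempty P] [Fintype S] [Nonempty S] [Fintype Ω]
    [DecidableEq P] (p : Ω → ℝ) (hp : ∀ ω, 0 ≤ p ω) (hp1 : ∑ ω, p ω = 1)
    (C : Ω → WCirc ι X Z) (V F : (ι → X) → Prop) (hF : ErrLE p C V F (1 / 6432))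
    (inst : S → Finset P → Finset P → ι → X) (hV : ∀ s x y, V (inst s x y))
    (hFi : ∀ s x y, F (inst s x y) ↔ Disjoint x y) (cost : Ω → ℝ) (hcost : ∀ ω, 0 ≤ cost ω)
    (R : ℝ) (hR0 : 0 < R) (hR : ∑ ω, p ω * cost ω ≤ R) :
    ∃ ω, cost ω ≤ 2 * R ∧ ∑ s, ∑ t, err (fun x y => (C ω).Accepts (inst s x y)) t ≤
      1 / 16 * (Fintype.card S * Fintype.card P * 4 ^ (Fintype.card P - 1)) := by
  obtain ⟨E, hE⟩ : ∃ E : Ω → ℝ, ∀ ω, E ω =
    ∑ s, ∑ t, err (fun x y => (C ω).Accepts (inst s x y)) t := ⟨_, fun _ => rfl⟩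
  obtain ⟨W, hW⟩ : ∃ W : ℝ, W = Fintype.card S * Fintype.card P * 4 ^ (Fintype.card P - 1) :=
    ⟨_, rfl⟩
  have hW0 : 0 < W := by
    have h1 : (0 : ℝ) < Fintype.card S := by exact_mod_cast Fintype.card_pos
    have h2 : (0 : ℝ) < Fintype.card P := by exact_mod_cast Fintype.card_pos
    rw [hW]
    positivity
  simp only [← hE, ← hW]
  have hE0 : ∀ ω, 0 ≤ E ω := by
    intro ω
    rw [hE]
    exact sum_nonneg fun s _ => sum_nonneg fun t _ => err_nonneg _ _
  have hwrong1 : ∀ s x y, Disjoint x y →
      ∑ ω, p ω * (if (C ω).Accepts (inst s x y) then 0 else 1) ≤ 1 / 6432 := by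
    intro s x y hxy
    refine le_trans (le_of_eq ?_) (hF _ (hV s x y))
    rw [sum_filter]
    refine sum_congr rfl fun ω _ => ?_
    have h1 : F (inst s x y) := (hFi s x y).2 hxy
    by_cases h2 : (C ω).Accepts (inst s x y)
    · rw [if_pos h2, if_neg (not_not.2 (iff_of_true h2 h1)), mul_zero]
    · rw [if_neg h2, if_pos (fun h3 => h2 (h3.2 h1)), mul_one]
  have hwrong2 : ∀ s x y, ¬ Disjoint x y →
      ∑ ω, p ω * (if (C ω).Accepts (inst s x y) then 1 else 0) ≤ 1 / 6432 := by
    intro s x y hxy
    refine le_trans (le_of_eq ?_) (hF _ (hV s x y))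
    rw [sum_filter]
    refine sum_congr rfl fun ω _ => ?_
    have h1 : ¬ F (inst s x y) := fun h => hxy ((hFi s x y).1 h)
    by_cases h2 : (C ω).Accepts (inst s x y)
    · rw [if_pos h2, if_pos (fun h3 => h1 (h3.1 h2)), mul_one]
    · rw [if_neg h2, if_neg (not_not.2 (iff_of_false h2 h1)), mul_zero]
  have hmean : ∑ ω, p ω * E ω ≤ 1 / 32 * W := by
    have h1 : ∑ ω, p ω * E ω =
        ∑ s, ∑ t, ∑ ω, p ω * err (fun x y => (C ω).Accepts (inst s x y)) t := by
      simp only [hE, mul_sum]
      rw [sum_comm]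
      refine sum_congr rfl fun s _ => ?_
      rw [sum_comm]
    rw [h1]
    have h2 : ∀ s t, ∑ ω, p ω * err (fun x y => (C ω).Accepts (inst s x y)) t ≤
        1 / 32 * 4 ^ (Fintype.card P - 1) := by
      intro s t
      have h3 : ∑ ω, p ω * err (fun x y => (C ω).Accepts (inst s x y)) t =
          tri (univ.erase t) fun x y => ∑ ω, p ω * ((if (C ω).Accepts (inst s x y) then 0 else 1) +
            200 * (if (C ω).Accepts (inst s (insert t x) (insert t y)) then 1 else 0)) := by
        rw [tri_sum]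
        refine sum_congr rfl fun ω _ => ?_
        unfold err
        rw [tri_mul]
      rw [h3]
      have h4 : (univ.erase t : Finset P).card = Fintype.card P - 1 := by
        rw [card_erase_of_mem (mem_univ _), card_univ]
      rw [← h4, ← tri_one]
      apply tri_mono
      intro x y _ _ hxy
      have h5 := hwrong1 s x y hxy
      have h6 := hwrong2 s (insert t x) (insert t y) (by
        rw [not_disjoint_iff]
        exact ⟨t, mem_insert_self _ _, mem_insert_self _ _⟩)
      calc ∑ ω, p ω * ((if (C ω).Accepts (inst s x y) then 0 else 1) +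
            200 * (if (C ω).Accepts (inst s (insert t x) (insert t y)) then 1 else 0)) =
          ∑ ω, p ω * (if (C ω).Accepts (inst s x y) then 0 else 1) +
            200 * ∑ ω, p ω * (if (C ω).Accepts (inst s (insert t x) (insert t y)) then 1 else 0) := by
            rw [mul_sum, ← sum_add_distrib]
            refine sum_congr rfl fun ω _ => ?_
            ring
        _ ≤ 1 / 6432 + 200 * (1 / 6432) := by linarith
        _ = 1 / 32 := by norm_num
    calc _ ≤ ∑ _s : S, ∑ _t : P, (1 / 32 : ℝ) * 4 ^ (Fintype.card P - 1) :=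
          sum_le_sum fun s _ => sum_le_sum fun t _ => h2 s t
      _ = _ := by
          rw [sum_const, sum_const, card_univ, card_univ, nsmul_eq_mul, nsmul_eq_mul, hW]
          ring
  by_contra hcon
  push Not at hcon
  have h1 : ∀ ω, 1 < cost ω / (2 * R) + E ω / (1 / 16 * W) := by
    intro ω
    have h2 : 0 ≤ cost ω / (2 * R) := div_nonneg (hcost ω) (by linarith)
    have h3 : 0 ≤ E ω / (1 / 16 * W) := div_nonneg (hE0 ω) (by linarith)
    by_cases h4 : cost ω ≤ 2 * R
    · have h5 := hcon ω h4
      have h6 : 1 < E ω / (1 / 16 * W) := (one_lt_div (by linarith)).2 h5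
      linarith
    · push Not at h4
      have h6 : 1 < cost ω / (2 * R) := (one_lt_div (by linarith)).2 h4
      linarith
  obtain ⟨ω₀, hω₀⟩ : ∃ ω, 0 < p ω := by
    by_contra h2
    push Not at h2
    have h3 : ∑ ω, p ω ≤ 0 := sum_nonpos fun ω _ => h2 ω
    linarith
  have h2 : ∑ ω, p ω * 1 < ∑ ω, p ω * (cost ω / (2 * R) + E ω / (1 / 16 * W)) := by
    apply sum_lt_sum
    · intro ω _
      exact mul_le_mul_of_nonneg_left (h1 ω).le (hp ω)
    · exact ⟨ω₀, mem_univ _, mul_lt_mul_of_pos_left (h1 ω₀) hω₀⟩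
  have h3 : ∑ ω, p ω * (cost ω / (2 * R) + E ω / (1 / 16 * W)) =
      (∑ ω, p ω * cost ω) / (2 * R) + (∑ ω, p ω * E ω) / (1 / 16 * W) := by
    rw [sum_div, sum_div, ← sum_add_distrib]
    refine sum_congr rfl fun ω _ => ?_
    ring
  have h4 : (∑ ω, p ω * cost ω) / (2 * R) ≤ 1 / 2 := by
    rw [div_le_iff₀ (by linarith)]
    linarith
  have h5 : (∑ ω, p ω * E ω) / (1 / 16 * W) ≤ 1 / 2 := by
    rw [div_le_iff₀ (by linarith)]
    linarith
  rw [h3] at h2
  simp only [mul_one] at h2
  linarith

end Pool.Agent.U286.LY
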