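import Mathlib
import Pool.Agent.U286.LY.CutGeo
import Pool.Agent.U286.LY.Rnd

/-!
# Exact Triangle: random circuits with errors
-/

set_option autoImplicit false

open Finset

namespace Pool.Agent.U286.LY.ET

open Pool.Agent.Y631.Wc

open Classical in
/-- the letters of a set: `1` in the set, `d` outside -/
noncomputable def let2 {N : ℕ} (d : ℕ) (x : Finset (Fin N × Fin N)) (i c : ℕ) : ℕ :=
  if ∃ t ∈ x, (t.1 : ℕ) = i ∧ (t.2 : ℕ) = c then 1 else d

/-- the instance for two sets -/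
noncomputable def instS (n N : ℕ) (s : Fin N) (x y : Finset (Fin N × Fin N)) :
    Fin n × Fin n → Bool × ℤ :=
  inst n N 2 s (let2 0 x) (let2 2 y)

lemma let2_le {N d : ℕ} (hd : d ≤ 2) (x : Finset (Fin N × Fin N)) (i c : ℕ) :
    let2 d x i c ≤ 2 := by
  unfold let2
  split_ifs
  · norm_num
  · exact hd

lemma let2_congr {N d : ℕ} {x x' : Finset (Fin N × Fin N)} {i c : ℕ}
    (h : ∀ t : Fin N × Fin N, (t.1 : ℕ) = i → (t.2 : ℕ) = c → (t ∈ x ↔ t ∈ x')) :
    let2 d x i c = let2 d x' i c := by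
  unfold let2
  congr 1
  apply propext
  constructor
  · rintro ⟨t, ht, h1, h2⟩
    exact ⟨t, (h t h1 h2).1 ht, h1, h2⟩
  · rintro ⟨t, ht, h1, h2⟩
    exact ⟨t, (h t h1 h2).2 ht, h1, h2⟩

lemma instS_valid {n N : ℕ} (hN : 3 * N ≤ n) (hN1 : 1 ≤ N) (s : Fin N)
    (x y : Finset (Fin N × Fin N)) : Valid n (instS n N s x y) :=
  valid_inst hN hN1 (by omega) (let2_le (by norm_num) x) (let2_le le_rfl y)

lemma instS_zero {n N : ℕ} (hN : 3 * N ≤ n) (s : Fin N)
    (x y : Finset (Fin N × Fin N)) : ¬ ZeroTriangle (instS n N s x y) ↔ Disjoint x y := by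
  unfold instS
  rw [zero_iff hN s.2 (let2_le (by norm_num) x) (let2_le le_rfl y), disjoint_left]
  constructor
  · intro h t htx hty
    apply h
    refine ⟨t.1, t.1.2, t.2, t.2.2, ?_⟩
    unfold let2
    rw [if_pos ⟨t, htx, rfl, rfl⟩, if_pos ⟨t, hty, rfl, rfl⟩]
  · rintro h ⟨i, hi, c, hc, he⟩
    unfold let2 at he
    by_cases h1 : ∃ t ∈ x, (t.1 : ℕ) = i ∧ (t.2 : ℕ) = c
    · by_cases h2 : ∃ t ∈ y, (t.1 : ℕ) = i ∧ (t.2 : ℕ) = c
      · obtain ⟨t, ht, h3, h4⟩ := h1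
        obtain ⟨t', ht', h5, h6⟩ := h2
        have h7 : t = t' := Prod.ext (Fin.ext (h3.trans h5.symm)) (Fin.ext (h4.trans h6.symm))
        exact h ht (h7 ▸ ht')
      · rw [if_pos h1, if_neg h2] at he
        omega
    · rw [if_neg h1] at he
      split_ifs at he

lemma instS_left {n N : ℕ} (s : Fin N) (x x' y : Finset (Fin N × Fin N)) (p : Fin n × Fin n)
    (h : ∀ t, own p = cell₁ t → (t ∈ x ↔ t ∈ x')) : instS n N s x y p = instS n N s x' y p := by
  unfold instS inst entry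
  congr 1
  split_ifs with h1 h2 h3
  · rfl
  · congr 2
    apply let2_congr
    intro t ht1 ht2
    apply h
    unfold own cell₁
    rw [← ht1, ht2]
    congr 1
    omega
  · rfl
  · rfl

lemma instS_right {n N : ℕ} (s : Fin N) (x y y' : Finset (Fin N × Fin N)) (p : Fin n × Fin n)
    (h : ∀ t, own p = cell₂ s t → (t ∈ y ↔ t ∈ y')) : instS n N s x y p = instS n N s x y' p := by
  unfold instS inst entry
  congr 1
  split_ifs with h1 h2 h3
  · rfl
  · rfl
  · congr 3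
    apply let2_congr
    intro t ht1 ht2
    apply h
    rw [flag_iff] at h1
    unfold own cell₂
    rw [ht1, ht2, shift_partner (by omega) (by omega) s.2]
    congr 1
    omega
  · rfl

/-- **The cut theorem for random circuits with errors.** -/
theorem cut_random {n r κ b : ℕ} (hn : 3 ≤ n) (hr : 1 ≤ r) (hb : 1 ≤ b) {Z : Type} [Fintype Z]
    (hZ : Fintype.card Z ≤ 2 ^ b) {Ω : Type} [Fintype Ω] (p : Ω → ℝ) (hp : ∀ ω, 0 ≤ p ω)
    (hp1 : ∑ ω, p ω = 1) (C : Ω → WCirc (Fin n × Fin n) (Bool × ℤ) Z)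
    (hdet : ∀ ω, (C ω).Deterministic) (hκ : ∀ ω, (C ω).FanIn κ)
    (herr : ErrLE p C (Valid n) ZeroTriangle (1 / 6432))
    (hR : ∑ ω, p ω * (C ω).reads ≤ r * (n : ℝ) ^ 2) :
    ∃ ω, (C ω).reads ≤ 2 * r * n ^ 2 ∧
      Cut (C ω) n (2 * r) (2 ^ (1600 * r + 18) * ((κ + 1) * b)) := by
  classical
  obtain ⟨N, hN⟩ : ∃ N, N = n / 3 := ⟨_, rfl⟩
  have hN1 : 1 ≤ N := by omega
  have hN3 : 3 * N ≤ n := by omega
  have hN5 : n ≤ 5 * N := by omega
  have : Nonempty (Fin N) := ⟨⟨0, by omega⟩⟩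
  have hrR : (1 : ℝ) ≤ r := by exact_mod_cast hr
  have hnR : (0 : ℝ) < n := by exact_mod_cast (by omega : 0 < n)
  have herr' : ErrLE p (fun ω => opp (C ω)) (Valid n) (fun x => ¬ ZeroTriangle x)
      (1 / 6432) := by
    intro z hz
    refine le_trans (le_of_eq ?_) (herr z hz)
    congr 1
    ext ω
    simp only [mem_filter, mem_univ, true_and]
    rw [accepts_opp (hdet ω), not_iff_not, not_iff_not]
  obtain ⟨ω, h1, h2⟩ := choose_circuit (P := Fin N × Fin N) (S := Fin N) p hp hp1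
    (fun ω => opp (C ω)) (Valid n) (fun x => ¬ ZeroTriangle x) herr' (instS n N)
    (fun s x y => instS_valid hN3 hN1 s x y) (fun s x y => instS_zero hN3 s x y)
    (fun ω => ((C ω).reads : ℝ)) (fun ω => Nat.cast_nonneg _) (r * (n : ℝ) ^ 2) (by positivity) hR
  have h1' : (C ω).reads ≤ 2 * r * n ^ 2 := by
    have h3 : ((C ω).reads : ℝ) ≤ ((2 * r * n ^ 2 : ℕ) : ℝ) := by
      push_cast
      linarith
    exact_mod_cast h3
  refine ⟨ω, h1', ?_⟩
  intro _ ν w B part hB hw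
  have hcP : Fintype.card (Fin N × Fin N) = N * N := by
    rw [Fintype.card_prod, Fintype.card_fin]
  obtain ⟨ρ, hρ⟩ : ∃ ρ, ρ = 800 * r - 1 := ⟨_, rfl⟩
  have hρ1 : ρ + 1 = 800 * r := by omega
  have hB' : Parts (opp (C ω)) B part ν w := ⟨hB.closed, hB.lt, hB.few⟩
  have h3 := bounded_error (P := Fin N × Fin N) (S := Fin N) (opp (C ω))
    (opp_unambiguous (hdet ω)) (R := 2 * r * n ^ 2) (ρ := ρ) (b := b) (κ := κ) (hκ ω) h1' hB'
    (own (n := n)) cell₁ cell₂ cell₁_inj cell₂_inj cell₂_inj' cell₁_ne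
    (by
      rw [hcP, hρ1]
      calc 16 * (2 * r * n ^ 2) ≤ 16 * (2 * r * (5 * N) ^ 2) := by gcongr
        _ = 800 * r * (N * N) := by ring)
    (by
      rw [Fintype.card_fin]
      have h1 : ρ * w ≤ 800 * r * w := Nat.mul_le_mul_right _ (by omega)
      have h2 : 9600 * (2 * r) * w = 3 * (8 * (800 * r * w)) := by ring
      omega)
    (instS n N) (fun s x x' y i h => instS_left s x x' y i h)
    (fun s x y y' i h => instS_right s x y y' i h) h2 hb hZ
  rw [hcP] at h3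
  calc n ^ 2 ≤ (5 * N) ^ 2 := Nat.pow_le_pow_left hN5 2
    _ = 25 * (N * N) := by ring
    _ ≤ 2 ^ 5 * (2 ^ (2 * ρ + 15) * ((κ + 1) * b * (B.card + 1))) :=
        Nat.mul_le_mul (by norm_num) h3
    _ = 2 ^ (1600 * r + 18) * ((κ + 1) * b) * (B.card + 1) := by
        have h4 : 1600 * r + 18 = 5 + (2 * ρ + 15) := by omega
        rw [h4, pow_add 2 5]
        ring

end Pool.Agent.U286.LY.ET
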