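import Mathlib
import Pool.Agent.U286.LY.Rnd

/-!
# Families of circuits

The engine for a family of circuits and a function of their answers (such as the majority).
-/

set_option autoImplicit false

open Finset

namespace Pool.Agent.U286.LY

open Pool.Agent.Y631.Wc

/-- **Choice of the sides, with weights**, for an arbitrary set of parts. -/
theorem sides_weighted' {β U : Type} [Fintype β] [DecidableEq β] [Fintype U] [DecidableEq U]
    {ρ : ℕ} (P : Finset β) (T1 T2 : β → Finset U) (h1 : ∀ x ∈ P, (T1 x).card ≤ ρ)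
    (h2 : ∀ x ∈ P, (T2 x).card ≤ ρ) (hd : ∀ x ∈ P, Disjoint (T1 x) (T2 x)) (g : β → ℝ) :
    ∃ (Q : Finset β) (J : Finset U), Q ⊆ P ∧ (∀ x ∈ Q, T1 x ⊆ J ∧ Disjoint (T2 x) J) ∧
      ∑ x ∈ P, g x ≤ 4 ^ ρ * ∑ x ∈ Q, g x := by
  classical
  obtain ⟨e⟩ : Nonempty (U ≃ Fin (Fintype.card U)) := ⟨Fintype.equivFin U⟩
  obtain ⟨Q, J, hQ, hJ, hs⟩ := sides_weighted (ρ := ρ) P (fun x => (T1 x).map e.toEmbedding)
    (fun x => (T2 x).map e.toEmbedding) (fun x hx => by rw [card_map]; exact h1 x hx)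
    (fun x hx => by rw [card_map]; exact h2 x hx)
    (fun x hx => (disjoint_map e.toEmbedding).2 (hd x hx)) g
  refine ⟨Q, J.map e.symm.toEmbedding, hQ, fun x hx => ?_, hs⟩
  obtain ⟨h3, h4⟩ := hJ x hx
  constructor
  · intro j hj
    rw [mem_map]
    exact ⟨e j, h3 (mem_map_of_mem _ hj), by simp⟩
  · rw [disjoint_left]
    intro j hj hj2
    obtain ⟨i, hi, hij⟩ := mem_map.1 hj2
    refine disjoint_left.1 h4 (mem_map_of_mem _ hj) ?_
    have : e j = i := by rw [← hij]; simp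
    show e j ∈ J
    rw [this]
    exact hi

section

variable {ι τ X Z K : Type} [Fintype K] [DecidableEq K]

open Classical in
/-- the parts in which the cell `e` is read -/
noncomputable def fparts (D : K → WCirc ι X Z) (B : ∀ k, Finset (Fin (D k).size))
    (part : ∀ k, Fin (D k).size → ℕ) (ν : ℕ) (own : ι → τ) (e : τ) : Finset (K × Fin ν) :=
  univ.filter fun kj => kj.2 ∈ (mapVar (D kj.1) own).parts (B kj.1) (part kj.1) ν e

lemma mem_fparts (D : K → WCirc ι X Z) (B : ∀ k, Finset (Fin (D k).size))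
    (part : ∀ k, Fin (D k).size → ℕ) (ν : ℕ) (own : ι → τ) (e : τ) (kj : K × Fin ν) :
    kj ∈ fparts D B part ν own e ↔
      kj.2 ∈ (mapVar (D kj.1) own).parts (B kj.1) (part kj.1) ν e := by
  classical
  unfold fparts
  rw [mem_filter]
  simp

lemma mem_fparts' (D : K → WCirc ι X Z) (B : ∀ k, Finset (Fin (D k).size))
    (part : ∀ k, Fin (D k).size → ℕ) (ν : ℕ) (own : ι → τ) (e : τ) (kj : K × Fin ν) :
    kj ∈ fparts D B part ν own e ↔ ∃ g, g ∉ B kj.1 ∧ part kj.1 g = kj.2.1 ∧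
      ∃ a, own ((D kj.1).vsrc g a) = e := by
  rw [mem_fparts]
  exact (mapVar (D kj.1) own).mem_parts _ _ _ _ _

lemma sum_fparts (D : K → WCirc ι X Z) (B : ∀ k, Finset (Fin (D k).size))
    (part : ∀ k, Fin (D k).size → ℕ) (ν : ℕ) (own : ι → τ) (Y : Finset τ) :
    ∑ e ∈ Y, (fparts D B part ν own e).card ≤ ∑ k, (D k).reads := by
  classical
  have h1 : ∀ e, (fparts D B part ν own e).card ≤
      ∑ k, ((mapVar (D k) own).parts (B k) (part k) ν e).card := by
    intro e
    have h2 : fparts D B part ν own e ⊆ univ.biUnion fun k =>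
        ((mapVar (D k) own).parts (B k) (part k) ν e).image fun j => (k, j) := by
      rintro ⟨k, j⟩ h
      rw [mem_fparts] at h
      exact mem_biUnion.2 ⟨k, mem_univ _, mem_image.2 ⟨j, h, rfl⟩⟩
    exact (card_le_card h2).trans (card_biUnion_le.trans (sum_le_sum fun k _ => card_image_le))
  calc ∑ e ∈ Y, (fparts D B part ν own e).card ≤
        ∑ e ∈ Y, ∑ k, ((mapVar (D k) own).parts (B k) (part k) ν e).card :=
        sum_le_sum fun e _ => h1 e
    _ = ∑ k, ∑ e ∈ Y, ((mapVar (D k) own).parts (B k) (part k) ν e).card := sum_comm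
    _ ≤ _ := sum_le_sum fun k _ => (mapVar (D k) own).sum_parts (B k) (part k) ν Y

/-- the good pairs -/
def FGood {P : Type} [DecidableEq τ] (D : K → WCirc ι X Z) (B : ∀ k, Finset (Fin (D k).size))
    (part : ∀ k, Fin (D k).size → ℕ) (ν ρ : ℕ) (own : ι → τ) (e₁ e₂ : P → τ) (t : P) : Prop :=
  ((¬ ∃ k, ∃ g ∈ B k, ∃ a, own ((D k).vsrc g a) = e₁ t) ∧
    (¬ ∃ k, ∃ g ∈ B k, ∃ a, own ((D k).vsrc g a) = e₂ t)) ∧
    ((fparts D B part ν own (e₁ t)).card ≤ ρ ∧ (fparts D B part ν own (e₂ t)).card ≤ ρ) ∧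
    Disjoint (fparts D B part ν own (e₁ t)) (fparts D B part ν own (e₂ t))

open Classical in
/-- **Most pairs are good.** -/
theorem many_fgood {P S : Type} [Fintype P] [Fintype S]
    [DecidableEq τ] (D : K → WCirc ι X Z) {κ R w ρ ν : ℕ} (hκ : ∀ k, (D k).FanIn κ)
    (hR : ∑ k, (D k).reads ≤ R) {B : ∀ k, Finset (Fin (D k).size)}
    {part : ∀ k, Fin (D k).size → ℕ} (hB : ∀ k, Parts (D k) (B k) (part k) ν w) (own : ι → τ)
    (e₁ : P → τ) (e₂ : S → P → τ) (he₁ : Function.Injective e₁)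
    (he₂ : ∀ s, Function.Injective (e₂ s)) (he₃ : ∀ t, Function.Injective fun s => e₂ s t)
    (hρ : 16 * R ≤ (ρ + 1) * Fintype.card P) (hw : 8 * (ρ * w) ≤ Fintype.card S)
    (hbig : 16 * (κ * ∑ k, (B k).card) ≤ Fintype.card P) :
    5 * (Fintype.card S * Fintype.card P) ≤
      8 * ∑ s : S, (univ.filter fun t => FGood D B part ν ρ own e₁ (e₂ s) t).card := by
  obtain ⟨T, hT⟩ : ∃ T : τ → Finset (K × Fin ν), T = fparts D B part ν own := ⟨_, rfl⟩
  have hTm : ∀ e kj, kj ∈ T e ↔ ∃ g, g ∉ B kj.1 ∧ part kj.1 g = kj.2.1 ∧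
      ∃ a, own ((D kj.1).vsrc g a) = e := by
    intro e kj
    rw [hT]
    exact mem_fparts' D B part ν own e kj
  have hTs : ∀ Y : Finset τ, ∑ e ∈ Y, (T e).card ≤ R := by
    intro Y
    rw [hT]
    exact (sum_fparts D B part ν own Y).trans hR
  obtain ⟨M, hM⟩ : ∃ M, M = Fintype.card P := ⟨_, rfl⟩
  rw [← hM] at hρ hbig ⊢
  have hbd : ∀ f : P → τ, Function.Injective f →
      (univ.filter fun t => ∃ k, ∃ g ∈ B k, ∃ a, own ((D k).vsrc g a) = f t).card ≤
        κ * ∑ k, (B k).card := by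
    intro f hf
    have h1 : (univ.filter fun t => ∃ k, ∃ g ∈ B k, ∃ a, own ((D k).vsrc g a) = f t) ⊆
        univ.biUnion fun k => univ.filter fun t => ∃ g ∈ B k, ∃ a, own ((D k).vsrc g a) = f t := by
      intro t ht
      obtain ⟨k, hk⟩ := (mem_filter.1 ht).2
      exact mem_biUnion.2 ⟨k, mem_univ _, mem_filter.2 ⟨mem_univ _, hk⟩⟩
    refine (card_le_card h1).trans (card_biUnion_le.trans ?_)
    rw [mul_sum]
    apply sum_le_sum
    intro k _
    refine (card_read (D k) own (B k) f hf _ fun t h => h).trans ?_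
    calc ∑ g ∈ B k, (D k).vars g ≤ ∑ _g ∈ B k, κ :=
          Finset.sum_le_sum (fun g _ => le_trans (Nat.le_add_right _ _) (hκ k g))
      _ = κ * (B k).card := by rw [Finset.sum_const, smul_eq_mul, mul_comm]
  have hmany : ∀ f : P → τ, Function.Injective f →
      (univ.filter fun t => ρ < (T (f t)).card).card * 16 ≤ M := by
    intro f hf
    have h8 : (univ.filter fun t => ρ < (T (f t)).card).card * (ρ + 1) ≤ R := by
      calc _ = ∑ _t ∈ univ.filter (fun t => ρ < (T (f t)).card), (ρ + 1) := by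
            rw [Finset.sum_const, smul_eq_mul]
        _ ≤ ∑ t ∈ univ.filter (fun t => ρ < (T (f t)).card), (T (f t)).card :=
            Finset.sum_le_sum (fun i hi => (mem_filter.1 hi).2)
        _ ≤ ∑ t, (T (f t)).card := Finset.sum_le_sum_of_subset (filter_subset _ _)
        _ = ∑ e ∈ univ.image f, (T e).card := by
            rw [Finset.sum_image (fun a _ b _ h => hf h)]
        _ ≤ R := hTs _
    have h10 : (ρ + 1) * ((univ.filter fun t => ρ < (T (f t)).card).card * 16) ≤ (ρ + 1) * M := by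
      calc _ = 16 * ((univ.filter fun t => ρ < (T (f t)).card).card * (ρ + 1)) := by ring
        _ ≤ 16 * R := Nat.mul_le_mul_left _ h8
        _ ≤ _ := hρ
    exact Nat.le_of_mul_le_mul_left h10 (Nat.succ_pos _)
  have h1 : ∑ s : S, (univ.filter fun t : P =>
      (T (e₁ t)).card ≤ ρ ∧ ¬ Disjoint (T (e₁ t)) (T (e₂ s t))).card ≤ M * (ρ * w) := by
    simp only [Finset.card_filter]
    rw [Finset.sum_comm]
    simp only [← Finset.card_filter]
    calc _ ≤ ∑ _t : P, ρ * w := by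
          apply Finset.sum_le_sum
          intro t _
          by_cases ht : (T (e₁ t)).card ≤ ρ
          · have h2 : (univ.filter fun s : S =>
                (T (e₁ t)).card ≤ ρ ∧ ¬ Disjoint (T (e₁ t)) (T (e₂ s t))) ⊆
                (T (e₁ t)).biUnion fun j => univ.filter fun s : S => j ∈ T (e₂ s t) := by
              intro s hs
              obtain ⟨j, hj1, hj2⟩ := Finset.not_disjoint_iff.1 (mem_filter.1 hs).2.2
              exact mem_biUnion.2 ⟨j, hj1, mem_filter.2 ⟨mem_univ _, hj2⟩⟩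
            refine (card_le_card h2).trans ((card_biUnion_le_card_mul _ _ w fun j _ => ?_).trans
              (Nat.mul_le_mul_right _ ht))
            refine (card_read (D j.1) own (univ.filter fun g => g ∉ B j.1 ∧ part j.1 g = j.2.1) _
              (he₃ t) _ fun s hs => ?_).trans ((hB j.1).few j.2.1)
            obtain ⟨g, hg1, hg2, hg3⟩ := (hTm _ _).1 hs
            exact ⟨g, mem_filter.2 ⟨mem_univ _, hg1, hg2⟩, hg3⟩
          · rw [Finset.filter_false_of_mem (fun s _ h => ht h.1), card_empty]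
            exact Nat.zero_le _
      _ = M * (ρ * w) := by
          rw [Finset.sum_const, smul_eq_mul, card_univ, hM]
  have h2 : ∀ s : S, 6 * M ≤
      8 * (univ.filter fun t => FGood D B part ν ρ own e₁ (e₂ s) t).card +
      8 * (univ.filter fun t : P =>
        (T (e₁ t)).card ≤ ρ ∧ ¬ Disjoint (T (e₁ t)) (T (e₂ s t))).card := by
    intro s
    have h3 : (univ : Finset P) ⊆ (univ.filter fun t => FGood D B part ν ρ own e₁ (e₂ s) t) ∪
        (((univ.filter fun t => ∃ k, ∃ g ∈ B k, ∃ a, own ((D k).vsrc g a) = e₁ t) ∪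
          (univ.filter fun t => ∃ k, ∃ g ∈ B k, ∃ a, own ((D k).vsrc g a) = e₂ s t)) ∪
        (((univ.filter fun t => ρ < (T (e₁ t)).card) ∪
          (univ.filter fun t => ρ < (T (e₂ s t)).card)) ∪
          (univ.filter fun t : P =>
            (T (e₁ t)).card ≤ ρ ∧ ¬ Disjoint (T (e₁ t)) (T (e₂ s t))))) := by
      intro t _
      simp only [mem_union, mem_filter, mem_univ, true_and]
      by_cases a1 : ∃ k, ∃ g ∈ B k, ∃ a, own ((D k).vsrc g a) = e₁ t
      · exact Or.inr (Or.inl (Or.inl a1))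
      by_cases a2 : ∃ k, ∃ g ∈ B k, ∃ a, own ((D k).vsrc g a) = e₂ s t
      · exact Or.inr (Or.inl (Or.inr a2))
      by_cases a3 : (T (e₁ t)).card ≤ ρ
      · by_cases a4 : (T (e₂ s t)).card ≤ ρ
        · by_cases a5 : Disjoint (T (e₁ t)) (T (e₂ s t))
          · left
            rw [hT] at a3 a4 a5
            exact ⟨⟨a1, a2⟩, ⟨a3, a4⟩, a5⟩
          · exact Or.inr (Or.inr (Or.inr ⟨a3, a5⟩))
        · exact Or.inr (Or.inr (Or.inl (Or.inr (by omega))))
      · exact Or.inr (Or.inr (Or.inl (Or.inl (by omega))))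
    have h4 := hbd e₁ he₁
    have h5 := hbd (e₂ s) (he₂ s)
    have h6 := hmany e₁ he₁
    have h7 := hmany (e₂ s) (he₂ s)
    have h8 := (card_le_card h3).trans ((card_union_le _ _).trans (Nat.add_le_add_left
      ((card_union_le _ _).trans (Nat.add_le_add (card_union_le _ _)
        ((card_union_le _ _).trans (Nat.add_le_add_right (card_union_le _ _) _)))) _))
    rw [card_univ, ← hM] at h8
    omega
  have h3 : Fintype.card S * (6 * M) ≤
      8 * (∑ s : S, (univ.filter fun t => FGood D B part ν ρ own e₁ (e₂ s) t).card) +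
      8 * ∑ s : S, (univ.filter fun t : P =>
        (T (e₁ t)).card ≤ ρ ∧ ¬ Disjoint (T (e₁ t)) (T (e₂ s t))).card := by
    rw [mul_sum, mul_sum, ← sum_add_distrib]
    calc Fintype.card S * (6 * M) = ∑ _s : S, 6 * M := by
          rw [sum_const, smul_eq_mul, card_univ]
      _ ≤ _ := sum_le_sum fun s _ => h2 s
  have h4 : 8 * (M * (ρ * w)) ≤ Fintype.card S * M := by
    calc 8 * (M * (ρ * w)) = 8 * (ρ * w) * M := by ring
      _ ≤ _ := Nat.mul_le_mul_right _ hw
  have h5 : Fintype.card S * (6 * M) = 6 * (Fintype.card S * M) := by ring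
  omega

/-- the inputs with the answer `β` and a computation of the class `c` -/
def CB (C : WCirc ι X Z) (B : Finset (Fin C.size)) (β : Bool) (c : {g // g ∈ C.plus B} → Z) :
    Set (ι → X) :=
  {x | ∃ v, C.Run x v ∧ (C.acc (v C.out) ↔ β = true) ∧ ∀ g : {g // g ∈ C.plus B}, v g.1 = c g}

lemma CB_true (C : WCirc ι X Z) (B : Finset (Fin C.size)) (c : {g // g ∈ C.plus B} → Z)
    (x : ι → X) : x ∈ CB C B true c ↔ x ∈ C.Cls B c := by
  constructor
  · rintro ⟨v, h1, h2, h3⟩
    exact ⟨v, h1, h2.2 rfl, h3⟩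
  · rintro ⟨v, h1, h2, h3⟩
    exact ⟨v, h1, iff_of_true h2 rfl, h3⟩

lemma CB_false (C : WCirc ι X Z) (B : Finset (Fin C.size)) (c : {g // g ∈ C.plus B} → Z)
    (x : ι → X) : x ∈ CB C B false c ↔ x ∈ (opp C).Cls B c := by
  constructor
  · rintro ⟨v, h1, h2, h3⟩
    exact ⟨v, h1, fun h => Bool.noConfusion (h2.1 h), h3⟩
  · rintro ⟨v, h1, h2, h3⟩
    exact ⟨v, h1, iff_of_false h2 (by simp), h3⟩

/-- **Mixing** for a member of a family. -/
theorem mix_CB {P : Type} [DecidableEq τ] (C : WCirc ι X Z) {w ν : ℕ}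
    {B : Finset (Fin C.size)} {part : Fin C.size → ℕ} (hB : Parts C B part ν w) (own : ι → τ)
    (e₁ e₂ : P → τ) (Q : Finset P) (J : Finset (Fin ν))
    (hQ1 : ∀ t ∈ Q, ¬ ∃ g ∈ B, ∃ a, own (C.vsrc g a) = e₁ t)
    (hQ2 : ∀ t ∈ Q, ¬ ∃ g ∈ B, ∃ a, own (C.vsrc g a) = e₂ t)
    (hJ1 : ∀ t ∈ Q, (mapVar C own).parts B part ν (e₁ t) ⊆ J)
    (hJ2 : ∀ t ∈ Q, Disjoint ((mapVar C own).parts B part ν (e₂ t)) J)
    (β : Bool) (c : {g // g ∈ C.plus B} → Z) (x x' y : ι → X) (hx : x ∈ CB C B β c)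
    (hx' : x' ∈ CB C B β c)
    (hxx : ∀ i, own i ∉ Q.image e₁ → own i ∉ Q.image e₂ → x i = x' i)
    (hy1 : ∀ i, own i ∈ Q.image e₁ → y i = x i)
    (hy2 : ∀ i, own i ∉ Q.image e₁ → y i = x' i) : y ∈ CB C B β c := by
  cases β
  · rw [CB_false] at hx hx' ⊢
    have hB' : Parts (opp C) B part ν w := ⟨hB.closed, hB.lt, hB.few⟩
    exact mix_of_sides (opp C) hB' own e₁ e₂ Q J hQ1 hQ2 hJ1 hJ2 c x x' y hx hx' hxx hy1 hy2
  · rw [CB_true] at hx hx' ⊢
    exact mix_of_sides C hB own e₁ e₂ Q J hQ1 hQ2 hJ1 hJ2 c x x' y hx hx' hxx hy1 hy2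

lemma run_unique {C : WCirc ι X Z} (h : C.Deterministic) {x : ι → X} {v v' : Fin C.size → Z}
    (hv : C.Run x v) (hv' : C.Run x v') : v = v' := by
  have key : ∀ n : ℕ, ∀ g : Fin C.size, g.1 = n → v g = v' g := by
    intro n
    induction n using Nat.strong_induction_on with
    | _ n ih =>
      intro g hg
      have h1 : (fun a => v (C.gsrc g a)) = (fun a => v' (C.gsrc g a)) := by
        funext a
        exact ih _ (by have := C.acyclic g a; rw [Fin.lt_def] at this; omega) _ rfl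
      have h2 := hv g
      have h3 := hv' g
      rw [← h1] at h3
      exact (h g _ _).unique h2 h3
  funext g
  exact key g.1 g rfl

end

end Pool.Agent.U286.LY
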