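import Mathlib
import Pool.Agent.U286.LY.Fam

/-!
# Families of circuits: the engine for errors
-/

set_option autoImplicit false

open Finset

namespace Pool.Agent.U286.LY

open Pool.Agent.Y631.Wc

variable {ι τ X Z K : Type} [Fintype K] [DecidableEq K]

/-- **The engine for families of circuits with errors.** -/
theorem fam_error {P S : Type} [Fintype P] [Nonempty P] [Fintype S] [Nonempty S] [Nonempty K]
    [DecidableEq P] [DecidableEq τ] [Fintype Z] (D : K → WCirc ι X Z)
    (hdet : ∀ k, (D k).Deterministic) (Φ : (K → Prop) → Prop) {κ R w ρ ν b : ℕ}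
    (hκ : ∀ k, (D k).FanIn κ) (hR : ∑ k, (D k).reads ≤ R)
    {B : ∀ k, Finset (Fin (D k).size)} {part : ∀ k, Fin (D k).size → ℕ}
    (hB : ∀ k, Parts (D k) (B k) (part k) ν w) (own : ι → τ)
    (e₁ : P → τ) (e₂ : S → P → τ) (he₁ : Function.Injective e₁)
    (he₂ : ∀ s, Function.Injective (e₂ s)) (he₃ : ∀ t, Function.Injective fun s => e₂ s t)
    (he₄ : ∀ s t t', e₁ t ≠ e₂ s t')
    (hρ : 16 * R ≤ (ρ + 1) * Fintype.card P) (hw : 8 * (ρ * w) ≤ Fintype.card S)
    (inst : S → Finset P → Finset P → ι → X)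
    (hi1 : ∀ s x x' y i, (∀ t, own i = e₁ t → (t ∈ x ↔ t ∈ x')) → inst s x y i = inst s x' y i)
    (hi2 : ∀ s x y y' i, (∀ t, own i = e₂ s t → (t ∈ y ↔ t ∈ y')) → inst s x y i = inst s x y' i)
    (herr : ∑ s, ∑ t, err (fun x y => Φ fun k => (D k).Accepts (inst s x y)) t ≤
      1 / 16 * (Fintype.card S * Fintype.card P * 4 ^ (Fintype.card P - 1)))
    (hb : 1 ≤ b) (hZ : Fintype.card Z ≤ 2 ^ b) :
    Fintype.card P ≤ 2 ^ (2 * ρ + 15) * ((κ + 1) * b * (∑ k, (B k).card + Fintype.card K)) := by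
  classical
  obtain ⟨M, hM⟩ : ∃ M, M = Fintype.card P := ⟨_, rfl⟩
  have hM1 : 1 ≤ M := by rw [hM]; exact Fintype.card_pos
  have hK1 : 1 ≤ Fintype.card K := Fintype.card_pos
  have hkb : 1 ≤ (κ + 1) * b := Nat.mul_pos (Nat.succ_pos _) hb
  obtain ⟨β, hβ⟩ : ∃ β, β = ∑ k, (B k).card := ⟨_, rfl⟩
  by_cases hbig : 16 * (κ * ∑ k, (B k).card) ≤ Fintype.card P
  swap
  · rw [← hβ] at hbig ⊢
    push Not at hbig
    calc Fintype.card P ≤ 16 * (κ * β) := hbig.le
      _ ≤ 2 ^ (2 * ρ + 15) * ((κ + 1) * b * (β + Fintype.card K)) := by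
          apply Nat.mul_le_mul
          · calc 16 = 2 ^ 4 := by norm_num
              _ ≤ _ := Nat.pow_le_pow_right (by norm_num) (by omega)
          · apply Nat.mul_le_mul _ (Nat.le_add_right _ _)
            calc κ ≤ (κ + 1) * 1 := by omega
              _ ≤ _ := Nat.mul_le_mul_left _ hb
  have hgood := many_fgood D hκ hR hB own e₁ e₂ he₁ he₂ he₃ hρ hw hbig
  rw [← hβ]
  rw [← hM] at hgood herr ⊢
  obtain ⟨E, hE⟩ : ∃ E : S → P → ℝ, ∀ s t, E s t =
    err (fun x y => Φ fun k => (D k).Accepts (inst s x y)) t := ⟨_, fun _ _ => rfl⟩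
  have hE0 : ∀ s t, 0 ≤ E s t := fun s t => by rw [hE]; exact err_nonneg _ _
  simp only [← hE] at herr
  obtain ⟨G, hG⟩ : ∃ G : S → Finset P, ∀ s, G s =
    univ.filter fun t => FGood D B part ν ρ own e₁ (e₂ s) t := ⟨_, fun _ => rfl⟩
  simp only [← hG] at hgood
  have h4pos : (0 : ℝ) < 4 ^ (M - 1) := by positivity
  obtain ⟨q, hq⟩ : ∃ q : ℝ, q = 4 ^ (M - 1) := ⟨_, rfl⟩
  rw [← hq] at h4pos herr
  -- the choice of the matching
  obtain ⟨s, hs⟩ : ∃ s, (M : ℝ) / 2 * q ≤ ∑ t ∈ G s, (q - 2 * E s t) := by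
    by_contra hcon
    push Not at hcon
    have h1 : ∑ s, ∑ t ∈ G s, (q - 2 * E s t) < ∑ _s : S, (M : ℝ) / 2 * q :=
      sum_lt_sum_of_nonempty univ_nonempty fun s _ => hcon s
    rw [sum_const, card_univ, nsmul_eq_mul] at h1
    have h2 : ∑ s, ((G s).card : ℝ) * q - 2 * ∑ s, ∑ t, E s t ≤
        ∑ s, ∑ t ∈ G s, (q - 2 * E s t) := by
      rw [mul_sum, ← sum_sub_distrib]
      apply sum_le_sum
      intro s _
      rw [sum_sub_distrib, sum_const, nsmul_eq_mul, ← mul_sum]
      apply sub_le_sub_left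
      apply mul_le_mul_of_nonneg_left _ (by norm_num)
      exact sum_le_sum_of_subset_of_nonneg (subset_univ _) fun t _ _ => hE0 s t
    have h3 : 5 / 8 * ((Fintype.card S : ℝ) * M) * q ≤ ∑ s, ((G s).card : ℝ) * q := by
      rw [← sum_mul]
      apply mul_le_mul_of_nonneg_right _ h4pos.le
      have h4 : (5 : ℝ) * (Fintype.card S * M) ≤ 8 * ∑ s, ((G s).card : ℝ) := by
        exact_mod_cast hgood
      linarith
    have h5 : (Fintype.card S : ℝ) * ((M : ℝ) / 2 * q) = 1 / 2 * ((Fintype.card S : ℝ) * M * q) := by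
      ring
    have h6 : 5 / 8 * ((Fintype.card S : ℝ) * M) * q = 5 / 8 * ((Fintype.card S : ℝ) * M * q) := by
      ring
    rw [h5] at h1
    rw [h6] at h3
    linarith
  have hGm : ∀ t ∈ G s, FGood D B part ν ρ own e₁ (e₂ s) t := by
    intro t ht
    rw [hG, mem_filter] at ht
    exact ht.2
  obtain ⟨Q, J, hQG, hQJ, hQ⟩ := sides_weighted' (ρ := ρ) (G s)
    (fun t => fparts D B part ν own (e₁ t))
    (fun t => fparts D B part ν own (e₂ s t))
    (fun t ht => (hGm t ht).2.1.1) (fun t ht => (hGm t ht).2.1.2) (fun t ht => (hGm t ht).2.2)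
    (fun t => q - 2 * E s t)
  have hQ2 : (M : ℝ) / 2 * q ≤ 4 ^ ρ * ∑ t ∈ Q, (q - 2 * E s t) := hs.trans hQ
  rw [sum_sub_distrib, sum_const, nsmul_eq_mul, ← mul_sum] at hQ2
  have hsum0 : 0 ≤ ∑ t ∈ Q, E s t := sum_nonneg fun t _ => hE0 s t
  have hMR : (1 : ℝ) ≤ M := by exact_mod_cast hM1
  have h4ρ : (0 : ℝ) < 4 ^ ρ := by positivity
  have hpos : 0 < (Q.card : ℝ) * q - 2 * ∑ t ∈ Q, E s t := by
    by_contra hcon
    push Not at hcon
    have h1 : (4 : ℝ) ^ ρ * ((Q.card : ℝ) * q - 2 * ∑ t ∈ Q, E s t) ≤ 0 :=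
      mul_nonpos_of_nonneg_of_nonpos h4ρ.le hcon
    have h2 : 0 < (M : ℝ) / 2 * q := by positivity
    linarith
  have hQcard : (M : ℝ) ≤ 2 * (4 ^ ρ * Q.card) := by
    have h1 : (M : ℝ) / 2 * q ≤ 4 ^ ρ * Q.card * q := by
      calc (M : ℝ) / 2 * q ≤ 4 ^ ρ * ((Q.card : ℝ) * q - 2 * ∑ t ∈ Q, E s t) := hQ2
        _ ≤ 4 ^ ρ * ((Q.card : ℝ) * q) := by
            apply mul_le_mul_of_nonneg_left _ h4ρ.le
            linarith
        _ = _ := by ring
    have h2 := le_of_mul_le_mul_right h1 h4pos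
    linarith
  have hQne : Q.Nonempty := by
    rw [nonempty_iff_ne_empty]
    intro h
    rw [h, card_empty, Nat.cast_zero, mul_zero, mul_zero] at hQcard
    linarith
  have hQerr : ∑ t ∈ Q, E s t ≤ 1 / 2 * Q.card * q := by linarith
  -- the rest of the input
  have hcardQ : Q.card + (Qᶜ).card = M := by rw [hM]; exact card_add_card_compl Q
  have hQ1 : 1 ≤ Q.card := hQne.card_pos
  obtain ⟨A, hA⟩ : ∃ A : Finset P → Finset P → Prop, ∀ x y, A x y ↔
    Φ fun k => (D k).Accepts (inst s x y) := ⟨_, fun _ _ => Iff.rfl⟩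
  obtain ⟨x₀, y₀, hx₀, hy₀, -, hxy⟩ : ∃ x₀ y₀, x₀ ⊆ Qᶜ ∧ y₀ ⊆ Qᶜ ∧ Disjoint x₀ y₀ ∧
      ∑ t ∈ Q, tri (Q.erase t) (fun x y => (if A (x ∪ x₀) (y ∪ y₀) then 0 else 1) +
        200 * (if A (insert t x ∪ x₀) (insert t y ∪ y₀) then 1 else 0)) ≤
        1 / 2 * (Q.card * 4 ^ (Q.card - 1)) := by
    apply exists_le_of_tri (A := Qᶜ)
      (f := fun x₀ y₀ => ∑ t ∈ Q, tri (Q.erase t) (fun x y =>
        (if A (x ∪ x₀) (y ∪ y₀) then 0 else 1) +
        200 * (if A (insert t x ∪ x₀) (insert t y ∪ y₀) then 1 else 0)))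
    rw [tri_sum]
    calc ∑ t ∈ Q, tri Qᶜ (fun x₀ y₀ => tri (Q.erase t) (fun x y =>
          (if A (x ∪ x₀) (y ∪ y₀) then 0 else 1) +
          200 * (if A (insert t x ∪ x₀) (insert t y ∪ y₀) then 1 else 0))) =
        ∑ t ∈ Q, E s t := by
          refine sum_congr rfl fun t ht => ?_
          have h1 : (univ : Finset P).erase t = Q.erase t ∪ Qᶜ := by
            ext j
            simp only [mem_erase, mem_univ, and_true, mem_union, mem_compl]
            constructor
            · intro h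
              by_cases hj : j ∈ Q
              · exact Or.inl ⟨h, hj⟩
              · exact Or.inr hj
            · rintro (h | h)
              · exact h.1
              · rintro rfl
                exact h ht
          have h2 : Disjoint (Q.erase t) Qᶜ :=
            disjoint_of_subset_left (erase_subset _ _) disjoint_compl_right
          rw [hE]
          unfold err
          rw [h1, tri_union h2]
          simp only [insert_union, hA]
      _ ≤ 1 / 2 * Q.card * q := hQerr
      _ = 1 / 2 * (Q.card * 4 ^ (Q.card - 1)) * 4 ^ (Qᶜ).card := by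
          rw [hq, show M - 1 = Q.card - 1 + (Qᶜ).card by omega, pow_add]
          ring
  -- rectangles
  obtain ⟨Rr, hRr⟩ : ∃ Rr : (∀ k, Bool × ({g // g ∈ (D k).plus (B k)} → Z)) → Finset P →
    Finset P → Prop, ∀ c x y, Rr c x y ↔
      (∀ k, inst s (x ∪ x₀) (y ∪ y₀) ∈ CB (D k) (B k) (c k).1 (c k).2) ∧
        Φ fun k => (c k).1 = true := ⟨_, fun _ _ _ => Iff.rfl⟩
  have hval : ∀ (k : K) (β : Bool) (c : {g // g ∈ (D k).plus (B k)} → Z) (z : ι → X),
      z ∈ CB (D k) (B k) β c → ((D k).Accepts z ↔ β = true) := by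
    rintro k β c z ⟨v, hv, h1, -⟩
    constructor
    · rintro ⟨v', hv', h2⟩
      rw [run_unique (hdet k) hv' hv] at h2
      exact h1.1 h2
    · intro h2
      exact ⟨v, hv, h1.2 h2⟩
  have hacc : ∀ x y, (∃ c, Rr c x y) ↔ A (x ∪ x₀) (y ∪ y₀) := by
    intro x y
    rw [hA]
    constructor
    · rintro ⟨c, hc⟩
      obtain ⟨h1, h2⟩ := (hRr c x y).1 hc
      have h3 : (fun k => (D k).Accepts (inst s (x ∪ x₀) (y ∪ y₀))) =
          fun k => (c k).1 = true := by
        funext k
        exact propext (hval k _ _ _ (h1 k))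
      rw [h3]
      exact h2
    · intro h
      choose v hv using fun k => exists_run (hdet k) (inst s (x ∪ x₀) (y ∪ y₀))
      refine ⟨fun k => (decide ((D k).acc (v k (D k).out)), fun g => v k g.1), ?_⟩
      rw [hRr]
      have h1 : ∀ k, inst s (x ∪ x₀) (y ∪ y₀) ∈ CB (D k) (B k)
          (decide ((D k).acc (v k (D k).out))) (fun g => v k g.1) := fun k =>
        ⟨v k, hv k, by simp, fun _ => rfl⟩
      refine ⟨h1, ?_⟩
      have h3 : (fun k => (D k).Accepts (inst s (x ∪ x₀) (y ∪ y₀))) =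
          fun k => decide ((D k).acc (v k (D k).out)) = true := by
        funext k
        exact propext (hval k _ _ _ (h1 k))
      rw [h3] at h
      exact h
  have hmain := udisj Rr Q hQne (by
      intro c x y x' y' hx hy hx' hy' h1 h2
      rw [hRr] at h1 h2 ⊢
      refine ⟨fun k => ?_, h1.2⟩
      refine mix_CB (D k) (hB k) own e₁ (e₂ s) Q (univ.filter fun j => (k, j) ∈ J)
        (fun t ht h => (hGm t (hQG ht)).1.1 ⟨k, h⟩) (fun t ht h => (hGm t (hQG ht)).1.2 ⟨k, h⟩)
        (fun t ht j hj => ?_) (fun t ht => ?_) (c k).1 (c k).2 _ _ _ (h1.1 k) (h2.1 k) ?_ ?_ ?_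
      · exact mem_filter.2 ⟨mem_univ _, (hQJ t ht).1 ((mem_fparts D B part ν own _ (k, j)).2 hj)⟩
      · rw [disjoint_left]
        intro j hj hj2
        exact disjoint_left.1 (hQJ t ht).2 ((mem_fparts D B part ν own _ (k, j)).2 hj)
          (mem_filter.1 hj2).2
      · intro i hiA hiE
        refine (hi1 s _ (x' ∪ x₀) _ i ?_).trans (hi2 s _ _ (y' ∪ y₀) i ?_)
        · intro t ht
          have htQ : t ∉ Q := fun h => hiA (mem_image.2 ⟨t, h, ht.symm⟩)
          rw [mem_union, mem_union]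
          constructor
          · rintro (h | h)
            · exact absurd (hx h) htQ
            · exact Or.inr h
          · rintro (h | h)
            · exact absurd (hx' h) htQ
            · exact Or.inr h
        · intro t ht
          have htQ : t ∉ Q := fun h => hiE (mem_image.2 ⟨t, h, ht.symm⟩)
          rw [mem_union, mem_union]
          constructor
          · rintro (h | h)
            · exact absurd (hy h) htQ
            · exact Or.inr h
          · rintro (h | h)
            · exact absurd (hy' h) htQ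
            · exact Or.inr h
      · intro i hiA
        apply hi2
        intro t ht
        obtain ⟨t', _, ht'⟩ := mem_image.1 hiA
        exact absurd (ht'.trans ht) (he₄ s t' t)
      · intro i hiA
        apply hi1
        intro t ht
        have htQ : t ∉ Q := fun h => hiA (mem_image.2 ⟨t, h, ht.symm⟩)
        rw [mem_union, mem_union]
        constructor
        · rintro (h | h)
          · exact absurd (hx h) htQ
          · exact Or.inr h
        · rintro (h | h)
          · exact absurd (hx' h) htQ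
          · exact Or.inr h)
    (by
      intro c c' x y h1 h2
      rw [hRr] at h1 h2
      funext k
      obtain ⟨v, hv, ho, hvc⟩ := h1.1 k
      obtain ⟨v', hv', ho', hvc'⟩ := h2.1 k
      have h3 := run_unique (hdet k) hv hv'
      subst h3
      apply Prod.ext
      · rw [Bool.eq_iff_iff]
        exact ho.symm.trans ho'
      · funext g
        rw [← hvc, ← hvc'])
    (by
      refine le_trans (le_of_eq ?_) hxy
      refine sum_congr rfl fun t _ => ?_
      apply tri_congr
      intro x y _ _ _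
      simp only [hacc])
  -- numbers
  obtain ⟨L, hL⟩ : ∃ L, L = (κ + 1) * b * (β + Fintype.card K) := ⟨_, rfl⟩
  have hCl : (Fintype.card (∀ k, Bool × ({g // g ∈ (D k).plus (B k)} → Z)) : ℝ) ≤ 2 ^ L := by
    have h1 : Fintype.card (∀ k, Bool × ({g // g ∈ (D k).plus (B k)} → Z)) ≤ 2 ^ L := by
      rw [Fintype.card_pi]
      calc ∏ k, Fintype.card (Bool × ({g // g ∈ (D k).plus (B k)} → Z)) ≤
          ∏ k, 2 ^ (1 + b * ((κ + 1) * (B k).card)) := by
            apply prod_le_prod'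
            intro k _
            rw [Fintype.card_prod, Fintype.card_bool, Fintype.card_fun, Fintype.card_coe, pow_add,
              pow_one]
            apply Nat.mul_le_mul_left
            calc Fintype.card Z ^ ((D k).plus (B k)).card ≤ (2 ^ b) ^ ((D k).plus (B k)).card :=
                  Nat.pow_le_pow_left hZ _
              _ = 2 ^ (b * ((D k).plus (B k)).card) := by rw [pow_mul]
              _ ≤ _ := by
                  apply Nat.pow_le_pow_right (by norm_num)
                  exact Nat.mul_le_mul_left _ ((D k).card_plus (B k) κ (hκ k))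
        _ = 2 ^ (∑ k, (1 + b * ((κ + 1) * (B k).card))) := by rw [prod_pow_eq_pow_sum]
        _ ≤ 2 ^ L := by
            apply Nat.pow_le_pow_right (by norm_num)
            rw [sum_add_distrib, sum_const, card_univ, smul_eq_mul, mul_one, ← mul_sum, ← mul_sum,
              ← hβ, hL]
            calc Fintype.card K + b * ((κ + 1) * β) ≤
                  (κ + 1) * b * Fintype.card K + b * ((κ + 1) * β) := by
                    apply Nat.add_le_add_right
                    exact Nat.le_mul_of_pos_left _ hkb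
              _ = _ := by ring
    exact_mod_cast h1
  have hL1 : 1 ≤ L := by
    rw [hL]
    exact Nat.mul_pos hkb (by omega)
  obtain ⟨m, hm⟩ : ∃ m, m = Q.card / 164 := ⟨_, rfl⟩
  rw [← hm] at hmain
  have hm2 : m ≤ 49 + 7 * L := by
    by_contra hcon
    push Not at hcon
    have h1 : (9 / 10 : ℝ) ^ m ≤ (9 / 10 : ℝ) ^ (49 + 7 * L + 1) :=
      pow_le_pow_of_le_one (by norm_num) (by norm_num) hcon
    have h2 : (9 / 10 : ℝ) ^ (49 + 7 * L + 1) = (9 / 10 : ℝ) ^ 50 * ((9 / 10 : ℝ) ^ 7) ^ L := by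
      rw [← pow_mul, ← pow_add]
      congr 1
      ring
    have h3 : ((9 / 10 : ℝ) ^ 7) ^ L * 2 ^ L ≤ 1 := by
      rw [← mul_pow]
      apply pow_le_one₀ (by positivity)
      norm_num
    have h4 : (1 : ℝ) ≤ 96 * (9 / 10 : ℝ) ^ 50 := by
      calc (1 : ℝ) ≤ 96 * ((Fintype.card (∀ k, Bool × ({g // g ∈ (D k).plus (B k)} → Z)) : ℝ) *
            (9 / 10 : ℝ) ^ m) := hmain
        _ ≤ 96 * (2 ^ L * ((9 / 10 : ℝ) ^ 50 * ((9 / 10 : ℝ) ^ 7) ^ L)) := by
            rw [← h2]
            gcongr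
        _ = 96 * (9 / 10 : ℝ) ^ 50 * (((9 / 10 : ℝ) ^ 7) ^ L * 2 ^ L) := by ring
        _ ≤ 96 * (9 / 10 : ℝ) ^ 50 * 1 := by
            apply mul_le_mul_of_nonneg_left h3 (by positivity)
        _ = _ := mul_one _
    norm_num at h4
  have hQc : Q.card ≤ 164 * (50 + 7 * L) := by omega
  have hMQ : M ≤ 2 * (4 ^ ρ * Q.card) := by exact_mod_cast hQcard
  have h4pow : (4 : ℕ) ^ ρ = 2 ^ (2 * ρ) := by
    rw [show (4 : ℕ) = 2 ^ 2 by norm_num, ← pow_mul]
  rw [← hL]
  calc M ≤ 2 * (4 ^ ρ * Q.card) := hMQ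
    _ ≤ 2 * (2 ^ (2 * ρ) * (164 * (50 + 7 * L))) := by rw [h4pow]; gcongr
    _ = 2 ^ (2 * ρ) * (16400 + 2296 * L) := by ring
    _ ≤ 2 ^ (2 * ρ) * (32768 * L) := by
        apply Nat.mul_le_mul_left
        omega
    _ = _ := by rw [pow_add]; ring

end Pool.Agent.U286.LY
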