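import Mathlib
import Pool.Agent.U286.LY.FamErr

/-!
# Majorities of random circuits
-/

set_option autoImplicit false

open Finset

namespace Pool.Agent.U286.LY

open Pool.Agent.Y631.Wc

variable {ι X Z : Type}

open Classical in
/-- **The choice of the circuit.** -/
theorem choose_acc {P S Ω : Type} [Fintype P] [Nonempty P] [Fintype S] [Nonempty S] [Fintype Ω]
    [DecidableEq P] (p : Ω → ℝ) (hp : ∀ ω, 0 ≤ p ω) (hp1 : ∑ ω, p ω = 1)
    (Ac : Ω → (ι → X) → Prop) (V F : (ι → X) → Prop)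
    (hF : ∀ z, V z → ∑ ω with ¬ (Ac ω z ↔ F z), p ω ≤ 1 / 6432)
    (inst : S → Finset P → Finset P → ι → X) (hV : ∀ s x y, V (inst s x y))
    (hFi : ∀ s x y, F (inst s x y) ↔ Disjoint x y) (cost : Ω → ℝ) (hcost : ∀ ω, 0 ≤ cost ω)
    (R : ℝ) (hR0 : 0 < R) (hR : ∑ ω, p ω * cost ω ≤ R) :
    ∃ ω, cost ω ≤ 2 * R ∧ ∑ s, ∑ t, err (fun x y => Ac ω (inst s x y)) t ≤
      1 / 16 * (Fintype.card S * Fintype.card P * 4 ^ (Fintype.card P - 1)) := by
  obtain ⟨E, hE⟩ : ∃ E : Ω → ℝ, ∀ ω, E ω =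
    ∑ s, ∑ t, err (fun x y => Ac ω (inst s x y)) t := ⟨_, fun _ => rfl⟩
  obtain ⟨W, hW⟩ : ∃ W : ℝ, W = Fintype.card S * Fintype.card P * 4 ^ (Fintype.card P - 1) :=
    ⟨_, rfl⟩
  have hW0 : 0 < W := by
    have h1 : (0 : ℝ) < Fintype.card S := by exact_mod_cast Fintype.card_pos
    have h2 : (0 : ℝ) < Fintype.card P := by exact_mod_cast Fintype.card_pos
    rw [hW]
    positivity
  simp only [← hE, ← hW]
  have hE0 : ∀ ω, 0 ≤ E ω := by
    intro ω
    rw [hE]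
    exact sum_nonneg fun s _ => sum_nonneg fun t _ => err_nonneg _ _
  have hwrong1 : ∀ s x y, Disjoint x y →
      ∑ ω, p ω * (if Ac ω (inst s x y) then 0 else 1) ≤ 1 / 6432 := by
    intro s x y hxy
    refine le_trans (le_of_eq ?_) (hF _ (hV s x y))
    rw [sum_filter]
    refine sum_congr rfl fun ω _ => ?_
    have h1 : F (inst s x y) := (hFi s x y).2 hxy
    by_cases h2 : Ac ω (inst s x y)
    · rw [if_pos h2, if_neg (not_not.2 (iff_of_true h2 h1)), mul_zero]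
    · rw [if_neg h2, if_pos (fun h3 => h2 (h3.2 h1)), mul_one]
  have hwrong2 : ∀ s x y, ¬ Disjoint x y →
      ∑ ω, p ω * (if Ac ω (inst s x y) then 1 else 0) ≤ 1 / 6432 := by
    intro s x y hxy
    refine le_trans (le_of_eq ?_) (hF _ (hV s x y))
    rw [sum_filter]
    refine sum_congr rfl fun ω _ => ?_
    have h1 : ¬ F (inst s x y) := fun h => hxy ((hFi s x y).1 h)
    by_cases h2 : Ac ω (inst s x y)
    · rw [if_pos h2, if_pos (fun h3 => h1 (h3.1 h2)), mul_one]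
    · rw [if_neg h2, if_neg (not_not.2 (iff_of_false h2 h1)), mul_zero]
  have hmean : ∑ ω, p ω * E ω ≤ 1 / 32 * W := by
    have h1 : ∑ ω, p ω * E ω =
        ∑ s, ∑ t, ∑ ω, p ω * err (fun x y => Ac ω (inst s x y)) t := by
      simp only [hE, mul_sum]
      rw [sum_comm]
      refine sum_congr rfl fun s _ => ?_
      rw [sum_comm]
    rw [h1]
    have h2 : ∀ s t, ∑ ω, p ω * err (fun x y => Ac ω (inst s x y)) t ≤
        1 / 32 * 4 ^ (Fintype.card P - 1) := by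
      intro s t
      have h3 : ∑ ω, p ω * err (fun x y => Ac ω (inst s x y)) t =
          tri (univ.erase t) fun x y => ∑ ω, p ω * ((if Ac ω (inst s x y) then 0 else 1) +
            200 * (if Ac ω (inst s (insert t x) (insert t y)) then 1 else 0)) := by
        rw [tri_sum]
        refine sum_congr rfl fun ω _ => ?_
        unfold err
        rw [tri_mul]
      rw [h3]
      have h4 : (univ.erase t : Finset P).card = Fintype.card P - 1 := by
        rw [card_erase_of_mem (mem_univ _), card_univ]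
      rw [← h4, ← tri_one]
      apply tri_mono
      intro x y _ _ hxy
      have h5 := hwrong1 s x y hxy
      have h6 := hwrong2 s (insert t x) (insert t y) (by
        rw [not_disjoint_iff]
        exact ⟨t, mem_insert_self _ _, mem_insert_self _ _⟩)
      calc ∑ ω, p ω * ((if Ac ω (inst s x y) then 0 else 1) +
            200 * (if Ac ω (inst s (insert t x) (insert t y)) then 1 else 0)) =
          ∑ ω, p ω * (if Ac ω (inst s x y) then 0 else 1) +
            200 * ∑ ω, p ω * (if Ac ω (inst s (insert t x) (insert t y)) then 1 else 0) := by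
            rw [mul_sum, ← sum_add_distrib]
            refine sum_congr rfl fun ω _ => ?_
            ring
        _ ≤ 1 / 6432 + 200 * (1 / 6432) := by linarith
        _ = 1 / 32 := by norm_num
    calc _ ≤ ∑ _s : S, ∑ _t : P, (1 / 32 : ℝ) * 4 ^ (Fintype.card P - 1) :=
          sum_le_sum fun s _ => sum_le_sum fun t _ => h2 s t
      _ = _ := by
          rw [sum_const, sum_const, card_univ, card_univ, nsmul_eq_mul, nsmul_eq_mul, hW]
          ring
  by_contra hcon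
  push Not at hcon
  have h1 : ∀ ω, 1 < cost ω / (2 * R) + E ω / (1 / 16 * W) := by
    intro ω
    have h2 : 0 ≤ cost ω / (2 * R) := div_nonneg (hcost ω) (by linarith)
    have h3 : 0 ≤ E ω / (1 / 16 * W) := div_nonneg (hE0 ω) (by linarith)
    by_cases h4 : cost ω ≤ 2 * R
    · have h5 := hcon ω h4
      have h6 : 1 < E ω / (1 / 16 * W) := (one_lt_div (by linarith)).2 h5
      linarith
    · push Not at h4
      have h6 : 1 < cost ω / (2 * R) := (one_lt_div (by linarith)).2 h4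
      linarith
  obtain ⟨ω₀, hω₀⟩ : ∃ ω, 0 < p ω := by
    by_contra h2
    push Not at h2
    have h3 : ∑ ω, p ω ≤ 0 := sum_nonpos fun ω _ => h2 ω
    linarith
  have h2 : ∑ ω, p ω * 1 < ∑ ω, p ω * (cost ω / (2 * R) + E ω / (1 / 16 * W)) := by
    apply sum_lt_sum
    · intro ω _
      exact mul_le_mul_of_nonneg_left (h1 ω).le (hp ω)
    · exact ⟨ω₀, mem_univ _, mul_lt_mul_of_pos_left (h1 ω₀) hω₀⟩
  have h3 : ∑ ω, p ω * (cost ω / (2 * R) + E ω / (1 / 16 * W)) =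
      (∑ ω, p ω * cost ω) / (2 * R) + (∑ ω, p ω * E ω) / (1 / 16 * W) := by
    rw [sum_div, sum_div, ← sum_add_distrib]
    refine sum_congr rfl fun ω _ => ?_
    ring
  have h4 : (∑ ω, p ω * cost ω) / (2 * R) ≤ 1 / 2 := by
    rw [div_le_iff₀ (by linarith)]
    linarith
  have h5 : (∑ ω, p ω * E ω) / (1 / 16 * W) ≤ 1 / 2 := by
    rw [div_le_iff₀ (by linarith)]
    linarith
  rw [h3] at h2
  simp only [mul_one] at h2
  linarith

lemma sum_prod_pi {Ω : Type} [Fintype Ω] {T : ℕ} (f : Fin T → Ω → ℝ) :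
    ∑ ω : Fin T → Ω, ∏ k, f k (ω k) = ∏ k, ∑ a, f k a := by
  classical
  have h := Finset.prod_univ_sum (fun _ : Fin T => (univ : Finset Ω)) f
  rw [Fintype.piFinset_univ] at h
  exact h.symm

lemma sum_prod_one {Ω : Type} [Fintype Ω] {T : ℕ} {p : Ω → ℝ} (hp1 : ∑ ω, p ω = 1) :
    ∑ ω : Fin T → Ω, ∏ k, p (ω k) = 1 := by
  rw [sum_prod_pi fun _ => p]
  simp [hp1]

lemma sum_prod_single {Ω : Type} [Fintype Ω] {T : ℕ} {p : Ω → ℝ} (hp1 : ∑ ω, p ω = 1)
    (f : Ω → ℝ) (j : Fin T) :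
    ∑ ω : Fin T → Ω, (∏ k, p (ω k)) * f (ω j) = ∑ ω, p ω * f ω := by
  classical
  have h1 : ∀ ω : Fin T → Ω, (∏ k, p (ω k)) * f (ω j) =
      ∏ k, p (ω k) * (if k = j then f (ω k) else 1) := by
    intro ω
    rw [prod_mul_distrib, Finset.prod_ite_eq' univ j fun k => f (ω k), if_pos (mem_univ _)]
  simp only [h1]
  rw [sum_prod_pi fun k a => p a * (if k = j then f a else 1),
    Finset.prod_eq_single j]
  · simp
  · intro k _ hk
    simp [hk, hp1]
  · intro h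
    exact absurd (mem_univ _) h

open Classical in
/-- at most one half of the statements is true -/
def half {T : ℕ} (a : Fin T → Prop) : Prop := 2 * (univ.filter a).card ≤ T

open Classical in
/-- **Amplification.** -/
theorem amplify {Ω A : Type} [Fintype Ω] (p : Ω → ℝ) (hp : ∀ ω, 0 ≤ p ω) (hp1 : ∑ ω, p ω = 1)
    (Ac : Ω → A → Prop) (F : A → Prop) (z : A)
    (hF : ∑ ω with ¬ (Ac ω z ↔ F z), p ω ≤ 1 / 3) :
    ∑ ω : Fin 160 → Ω with ¬ ((half fun k => Ac (ω k) z) ↔ ¬ F z), ∏ k, p (ω k) ≤ 1 / 6432 := by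
  obtain ⟨wr, hwr⟩ : ∃ wr : Ω → ℕ, ∀ ω, wr ω = if ¬ (Ac ω z ↔ F z) then 1 else 0 :=
    ⟨_, fun _ => rfl⟩
  have hcount : ∀ ω : Fin 160 → Ω, ¬ ((half fun k => Ac (ω k) z) ↔ ¬ F z) →
      80 ≤ ∑ k, wr (ω k) := by
    intro ω h
    unfold half at h
    simp only [hwr]
    rw [← card_filter]
    by_cases hz : F z
    · have h1 : 2 * (univ.filter fun k => Ac (ω k) z).card ≤ 160 := by
        by_contra h2
        exact h (iff_of_false h2 (not_not.2 hz))
      have h2 := card_filter_add_card_filter_not (s := (univ : Finset (Fin 160)))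
        (fun k => Ac (ω k) z)
      rw [card_univ, Fintype.card_fin] at h2
      have h3 : (univ.filter fun k => ¬ Ac (ω k) z) ⊆
          univ.filter fun k => ¬ (Ac (ω k) z ↔ F z) := by
        intro k hk
        rw [mem_filter] at hk ⊢
        exact ⟨hk.1, fun h4 => hk.2 (h4.2 hz)⟩
      have h4 := card_le_card h3
      omega
    · have h1 : ¬ 2 * (univ.filter fun k => Ac (ω k) z).card ≤ 160 := by
        intro h2
        exact h (iff_of_true h2 hz)
      have h3 : (univ.filter fun k => Ac (ω k) z) ⊆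
          univ.filter fun k => ¬ (Ac (ω k) z ↔ F z) := by
        intro k hk
        rw [mem_filter] at hk ⊢
        exact ⟨hk.1, fun h4 => hz (h4.1 hk.2)⟩
      have h4 := card_le_card h3
      omega
  have h1 : ∑ ω : Fin 160 → Ω with ¬ ((half fun k => Ac (ω k) z) ↔ ¬ F z), ∏ k, p (ω k) ≤
      ∑ ω : Fin 160 → Ω, (1 / 2 : ℝ) ^ 80 * ∏ k, (p (ω k) * 2 ^ (wr (ω k))) := by
    rw [sum_filter]
    apply sum_le_sum
    intro ω _
    have h2 : 0 ≤ ∏ k, p (ω k) := prod_nonneg fun k _ => hp _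
    rw [prod_mul_distrib, prod_pow_eq_pow_sum]
    by_cases h : (half fun k => Ac (ω k) z) ↔ ¬ F z
    swap
    · rw [if_pos h]
      have h3 := hcount ω h
      have h4 : (1 : ℝ) ≤ (1 / 2 : ℝ) ^ 80 * 2 ^ (∑ k, wr (ω k)) := by
        have h5 : (2 : ℝ) ^ 80 ≤ 2 ^ (∑ k, wr (ω k)) :=
          pow_le_pow_right₀ (by norm_num) h3
        have h6 : (1 / 2 : ℝ) ^ 80 * 2 ^ 80 = 1 := by
          rw [← mul_pow]
          norm_num
        calc (1 : ℝ) = (1 / 2 : ℝ) ^ 80 * 2 ^ 80 := h6.symm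
          _ ≤ _ := mul_le_mul_of_nonneg_left h5 (by positivity)
      calc ∏ k, p (ω k) = (∏ k, p (ω k)) * 1 := (mul_one _).symm
        _ ≤ (∏ k, p (ω k)) * ((1 / 2 : ℝ) ^ 80 * 2 ^ (∑ k, wr (ω k))) :=
            mul_le_mul_of_nonneg_left h4 h2
        _ = _ := by ring
    · rw [if_neg (not_not.2 h)]
      positivity
  have h2 : ∑ ω, p ω * 2 ^ (wr ω) ≤ (4 / 3 : ℝ) := by
    have h3 : ∀ ω, p ω * 2 ^ (wr ω) = p ω + if ¬ (Ac ω z ↔ F z) then p ω else 0 := by
      intro ω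
      rw [hwr]
      split_ifs
      · ring
      · ring
    simp only [h3]
    rw [sum_add_distrib, hp1, ← sum_filter]
    linarith
  have h0 : 0 ≤ ∑ ω, p ω * 2 ^ (wr ω) :=
    sum_nonneg fun ω _ => mul_nonneg (hp ω) (by positivity)
  refine h1.trans ?_
  rw [← mul_sum, sum_prod_pi fun _ a => p a * 2 ^ (wr a), prod_const, card_univ,
    Fintype.card_fin]
  calc (1 / 2 : ℝ) ^ 80 * (∑ ω, p ω * 2 ^ (wr ω)) ^ 160 ≤ (1 / 2 : ℝ) ^ 80 * (4 / 3) ^ 160 := by
        apply mul_le_mul_of_nonneg_left (pow_le_pow_left₀ h0 h2 160) (by positivity)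
    _ ≤ 1 / 6432 := by norm_num

open Classical in
/-- **The choice of the family.** -/
theorem choose_family {P S Ω : Type} [Fintype P] [Nonempty P] [Fintype S] [Nonempty S] [Fintype Ω]
    [DecidableEq P] (p : Ω → ℝ) (hp : ∀ ω, 0 ≤ p ω) (hp1 : ∑ ω, p ω = 1)
    (C : Ω → WCirc ι X Z) (V F : (ι → X) → Prop) (hF : ErrLE p C V F (1 / 3))
    (inst : S → Finset P → Finset P → ι → X) (hV : ∀ s x y, V (inst s x y))
    (hFi : ∀ s x y, ¬ F (inst s x y) ↔ Disjoint x y) (c₁ c₂ : Ω → ℝ) (h₁ : ∀ ω, 0 ≤ c₁ ω)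
    (h₂ : ∀ ω, 0 ≤ c₂ ω) (R₁ R₂ : ℝ) (hR₁ : 0 < R₁) (hR₂ : 0 < R₂)
    (hc₁ : ∑ ω, p ω * c₁ ω ≤ R₁) (hc₂ : ∑ ω, p ω * c₂ ω ≤ R₂) :
    ∃ ω : Fin 160 → Ω, ∑ k, c₁ (ω k) ≤ 640 * R₁ ∧ ∑ k, c₂ (ω k) ≤ 640 * R₂ ∧
      ∑ s, ∑ t, err (fun x y => half fun k => (C (ω k)).Accepts (inst s x y)) t ≤
      1 / 16 * (Fintype.card S * Fintype.card P * 4 ^ (Fintype.card P - 1)) := by
  obtain ⟨c, hc⟩ : ∃ c : Ω → ℝ, ∀ ω, c ω = c₁ ω / R₁ + c₂ ω / R₂ := ⟨_, fun _ => rfl⟩
  have hc0 : ∀ ω, 0 ≤ c ω := fun ω => by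
    rw [hc]
    exact add_nonneg (div_nonneg (h₁ ω) hR₁.le) (div_nonneg (h₂ ω) hR₂.le)
  have hce : ∑ ω, p ω * c ω ≤ 2 := by
    have h3 : ∑ ω, p ω * c ω = (∑ ω, p ω * c₁ ω) / R₁ + (∑ ω, p ω * c₂ ω) / R₂ := by
      rw [sum_div, sum_div, ← sum_add_distrib]
      refine sum_congr rfl fun ω _ => ?_
      rw [hc]
      ring
    rw [h3]
    have h4 : (∑ ω, p ω * c₁ ω) / R₁ ≤ 1 := (div_le_one hR₁).2 hc₁
    have h5 : (∑ ω, p ω * c₂ ω) / R₂ ≤ 1 := (div_le_one hR₂).2 hc₂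
    linarith
  obtain ⟨ω, h1, h2⟩ := choose_acc (P := P) (S := S) (Ω := Fin 160 → Ω)
    (fun ω => ∏ k, p (ω k)) (fun ω => prod_nonneg fun k _ => hp _) (sum_prod_one hp1)
    (fun ω z => half fun k => (C (ω k)).Accepts z) V (fun z => ¬ F z)
    (fun z hz => by
      have := amplify p hp hp1 (fun ω z => (C ω).Accepts z) F z (hF z hz)
      convert this using 2
      ext ω
      simp only [mem_filter])
    inst hV hFi (fun ω => ∑ k, c (ω k))
    (fun ω => sum_nonneg fun k _ => hc0 _) 320 (by norm_num) (by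
      calc ∑ ω : Fin 160 → Ω, (∏ k, p (ω k)) * ∑ k, c (ω k) =
          ∑ k : Fin 160, ∑ ω : Fin 160 → Ω, (∏ k, p (ω k)) * c (ω k) := by
            simp only [mul_sum]
            rw [sum_comm]
        _ = ∑ _k : Fin 160, ∑ ω, p ω * c ω :=
            sum_congr rfl fun k _ => sum_prod_single hp1 c k
        _ ≤ ∑ _k : Fin 160, 2 := sum_le_sum fun _ _ => hce
        _ = 320 := by
            rw [sum_const, card_univ, Fintype.card_fin, nsmul_eq_mul]
            norm_num)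
  have h3 : ∑ k, c (ω k) = (∑ k, c₁ (ω k)) / R₁ + (∑ k, c₂ (ω k)) / R₂ := by
    rw [sum_div, sum_div, ← sum_add_distrib]
    exact sum_congr rfl fun k _ => hc _
  have h4 : 0 ≤ (∑ k, c₁ (ω k)) / R₁ := div_nonneg (sum_nonneg fun k _ => h₁ _) hR₁.le
  have h5 : 0 ≤ (∑ k, c₂ (ω k)) / R₂ := div_nonneg (sum_nonneg fun k _ => h₂ _) hR₂.le
  refine ⟨ω, ?_, ?_, h2⟩
  · rw [← div_le_iff₀ hR₁]
    linarith
  · rw [← div_le_iff₀ hR₂]
    linarith

end Pool.Agent.U286.LY
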