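import Mathlib
import Pool.Agent.U286.LY.CutGeo
import Pool.Agent.U286.LY.Maj

/-!
# Families of circuits: from the boundary of divisions to drawings, layouts and treewidth
-/

set_option autoImplicit false

open Finset

namespace Pool.Agent.U286.LY

open Pool.Agent.Y631.Wc Pool.Agent.U286.LY.ET

variable {ι X Z K : Type} [Fintype K]

lemma Parts.mono {C : WCirc ι X Z} {B : Finset (Fin C.size)} {part : Fin C.size → ℕ} {ν ν' w : ℕ}
    (h : Parts C B part ν w) (hν : ν ≤ ν') : Parts C B part ν' w :=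
  ⟨h.closed, fun g hg => lt_of_lt_of_le (h.lt g hg) hν, h.few⟩

/-- the divisions of the circuits of the family into parts which read at most `w` variables,
where `9600 r w` is at most `n`, have boundaries of at least `N / A - |K|` gates in total -/
def FCut (D : K → WCirc ι X Z) (N n r A : ℕ) : Prop :=
  9600 * r ≤ n → ∀ (ν w : ℕ) (B : ∀ k, Finset (Fin (D k).size)) (part : ∀ k, Fin (D k).size → ℕ),
    (∀ k, Parts (D k) (B k) (part k) ν w) → 9600 * r * w ≤ n →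
    N ≤ A * (∑ k, (B k).card + Fintype.card K)

theorem FCut.use {N n r A w : ℕ} {β : ℝ} {D : K → WCirc ι X Z} (hcut : FCut D N n r A)
    (hn : 9600 * r ≤ n) (hw : 9600 * r * w ≤ n)
    (h : ∀ k, ∃ (ν : ℕ) (B : Finset (Fin (D k).size)) (part : Fin (D k).size → ℕ),
      Parts (D k) B part ν w ∧ (B.card : ℝ) + 1 ≤ β) :
    (N : ℝ) ≤ A * (Fintype.card K * β) := by
  choose ν B part hB hβ using h
  have h1 := hcut hn (∑ k, ν k) w B part (fun k => (hB k).mono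
    (single_le_sum (f := ν) (fun _ _ => Nat.zero_le _) (mem_univ k))) hw
  have h2 : (N : ℝ) ≤ A * (∑ k, ((B k).card : ℝ) + Fintype.card K) := by exact_mod_cast h1
  refine h2.trans (mul_le_mul_of_nonneg_left ?_ (Nat.cast_nonneg _))
  calc ∑ k, ((B k).card : ℝ) + Fintype.card K = ∑ k, (((B k).card : ℝ) + 1) := by
        rw [sum_add_distrib, sum_const, card_univ, nsmul_eq_mul, mul_one]
    _ ≤ ∑ _k : K, β := sum_le_sum fun k _ => hβ k
    _ = _ := by rw [sum_const, card_univ, nsmul_eq_mul]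

theorem FCut.use' {N n r A w β : ℕ} {D : K → WCirc ι X Z} (hcut : FCut D N n r A)
    (hn : 9600 * r ≤ n) (hw : 9600 * r * w ≤ n)
    (h : ∀ k, ∃ (ν : ℕ) (B : Finset (Fin (D k).size)) (part : Fin (D k).size → ℕ),
      Parts (D k) B part ν w ∧ B.card + 1 ≤ β) :
    N ≤ A * (Fintype.card K * β) := by
  have h1 := hcut.use (β := (β : ℝ)) hn hw (fun k => by
    obtain ⟨ν, B, part, h2, h3⟩ := h k
    exact ⟨ν, B, part, h2, by exact_mod_cast h3⟩)
  exact_mod_cast h1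

/-- the division of a drawn circuit -/
theorem parts_drawing {N n r k g w t : ℕ} (hr : 1 ≤ r) (hN : 1 ≤ N) (hw0 : 0 < w)
    (hw2 : n ≤ 19200 * r * w) (ht : 1 ≤ t) (hg2 : g ≤ t ^ 2 * N) (C : WCirc ι X Z)
    (hk : Pool.Agent.U514.PD.W.CrossingsLE C k) (hg : C.size + k ≤ g)
    (hR : C.reads ≤ r * (n * N)) :
    ∃ (ν : ℕ) (B : Finset (Fin C.size)) (part : Fin C.size → ℕ), Parts C B part ν w ∧
      B.card + 1 ≤ 2 ^ 44 * (r ^ 2 * N * t) := by
  have hr0 : 0 < r := hr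
  obtain ⟨ν, B, part, hB, h1, h2⟩ := parts_of_drawing C k hk (5000 * t) w (by omega) hw0
  have hν : ν ≤ 2 ^ 18 * (r ^ 2 * N) := by
    have h7 : ((5000 * t) ^ 2 * w) * ν ≤ ((5000 * t) ^ 2 * w) * (2 ^ 18 * (r ^ 2 * N)) := by
      have e1 : C.size + 16 * k ≤ 16 * (t ^ 2 * N) := by omega
      calc ((5000 * t) ^ 2 * w) * ν = ν * ((5000 * t) ^ 2 * w) := mul_comm _ _
        _ ≤ 10 * (w * (C.size + 16 * k) + (5000 * t) ^ 2 * C.reads) + (5000 * t) ^ 2 * w := h2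
        _ ≤ 10 * (w * (16 * (t ^ 2 * N)) + (5000 * t) ^ 2 * (r * (n * N))) +
            (5000 * t) ^ 2 * w := by gcongr
        _ = 160 * (w * (t ^ 2 * N)) + 10 * ((5000 * t) ^ 2 * (r * (n * N))) +
            (5000 * t) ^ 2 * w * 1 := by ring
        _ ≤ 25000000 * (w * (t ^ 2 * (r ^ 2 * N))) +
            10 * ((5000 * t) ^ 2 * (r * (19200 * r * w * N))) +
            (5000 * t) ^ 2 * w * (r ^ 2 * N) := by
            have e2 : 1 ≤ r ^ 2 * N := by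
              have : 0 < r ^ 2 * N := by positivity
              omega
            have e3 : N ≤ r ^ 2 * N := by
              have : 1 ≤ r ^ 2 := Nat.one_le_pow _ _ hr0
              nlinarith
            gcongr
            norm_num
        _ = ((5000 * t) ^ 2 * w) * (192002 * (r ^ 2 * N)) := by ring
        _ ≤ _ := by gcongr; norm_num
    have ht0 : 0 < t := by omega
    exact Nat.le_of_mul_le_mul_left h7 (by positivity)
  refine ⟨ν, B, part, hB, ?_⟩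
  have h8 : 1 ≤ r ^ 2 * N * t := by
    have : 0 < t := by omega
    have : 0 < r ^ 2 * N * t := by positivity
    omega
  calc B.card + 1 ≤ ν * (5000 * (5000 * t)) + 1 := Nat.add_le_add_right h1 _
    _ ≤ 2 ^ 18 * (r ^ 2 * N) * (5000 * (5000 * t)) + r ^ 2 * N * t := by gcongr
    _ = (2 ^ 18 * 25000000 + 1) * (r ^ 2 * N * t) := by ring
    _ ≤ _ := by gcongr; norm_num

/-- **Drawings.** -/
theorem FCut.drawing {N n r g A : ℕ} (hr : 1 ≤ r) (hA : 1 ≤ A) (hN : 1 ≤ N) {D : K → WCirc ι X Z}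
    [Nonempty K] (hcut : FCut D (n * N) n r A)
    (hk : ∀ k', ∃ k, Pool.Agent.U514.PD.W.CrossingsLE (D k') k ∧ (D k').size + k ≤ g)
    (hR : ∀ k', (D k').reads ≤ r * (n * N)) :
    n ^ 2 * N ≤ 2 ^ 90 * r ^ 4 * (A * Fintype.card K) ^ 2 * (g + N) := by
  have hK1 : 1 ≤ Fintype.card K := Fintype.card_pos
  have hAK : 1 ≤ A * Fintype.card K := Nat.mul_pos hA hK1
  obtain ⟨q, hq⟩ : ∃ q, q = A * Fintype.card K := ⟨_, rfl⟩
  rw [← hq] at hAK ⊢
  by_cases hn : 9600 * r ≤ n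
  · obtain ⟨w, hw0, hw1, hw2⟩ := choose_w hr hn
    have hr0 : 0 < r := hr
    obtain ⟨G, hG⟩ : ∃ G, G = g + N := ⟨_, rfl⟩
    obtain ⟨u, hu⟩ : ∃ u, u = Nat.sqrt (G / N) := ⟨_, rfl⟩
    have hu1 : 1 ≤ u := by
      rw [hu]
      exact Nat.le_sqrt.2 (by rw [Nat.le_div_iff_mul_le hN]; omega)
    obtain ⟨t, ht⟩ : ∃ t, t = u + 1 := ⟨_, rfl⟩
    have ht1 : G ≤ t ^ 2 * N := by
      have h1 : G / N < t * t := by
        rw [ht, hu]
        exact Nat.lt_succ_sqrt _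
      have h2 := (Nat.div_lt_iff_lt_mul hN).1 h1
      rw [sq]
      exact h2.le
    have ht2 : t ^ 2 * N ≤ 4 * G := by
      have h1 : u * u ≤ G / N := by rw [hu]; exact Nat.sqrt_le _
      calc t ^ 2 * N ≤ (2 * u) ^ 2 * N := by
            apply Nat.mul_le_mul_right
            apply Nat.pow_le_pow_left
            omega
        _ = 4 * ((u * u) * N) := by ring
        _ ≤ 4 * (G / N * N) := by gcongr
        _ ≤ 4 * G := Nat.mul_le_mul_left _ (Nat.div_mul_le_self _ _)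
    have h6 := hcut.use' (β := 2 ^ 44 * (r ^ 2 * N * t)) hn hw1 (fun k' => by
      obtain ⟨k, h1, h2⟩ := hk k'
      exact parts_drawing hr hN hw0 hw2 (by omega) (g := g) (by omega) (D k') h1 h2 (hR k'))
    have h8 : N * n ≤ N * (2 ^ 44 * r ^ 2 * q * t) := by
      calc N * n = n * N := mul_comm _ _
        _ ≤ A * (Fintype.card K * (2 ^ 44 * (r ^ 2 * N * t))) := h6
        _ = _ := by rw [hq]; ring
    have h9 := Nat.le_of_mul_le_mul_left h8 hN
    calc n ^ 2 * N ≤ (2 ^ 44 * r ^ 2 * q * t) ^ 2 * N := by gcongr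
      _ = 2 ^ 88 * r ^ 4 * q ^ 2 * (t ^ 2 * N) := by ring
      _ ≤ 2 ^ 88 * r ^ 4 * q ^ 2 * (4 * G) := by gcongr
      _ = 2 ^ 90 * r ^ 4 * q ^ 2 * (g + N) := by rw [hG]; ring
  · push Not at hn
    have hr1 : 1 ≤ r ^ 2 := Nat.one_le_pow _ _ hr
    calc n ^ 2 * N = n ^ 2 * (1 * N) := by ring
      _ ≤ (9600 * r) ^ 2 * (1 * (g + N)) := by gcongr; omega
      _ ≤ (2 ^ 90 * r ^ 4) * (q ^ 2 * (g + N)) := by
          apply Nat.mul_le_mul
          · calc (9600 * r) ^ 2 = 92160000 * (1 * r ^ 2) := by ring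
              _ ≤ 2 ^ 90 * (r ^ 2 * r ^ 2) := by gcongr; norm_num
              _ = _ := by ring
          · exact Nat.mul_le_mul_right _ (Nat.one_le_pow _ _ hAK)
      _ = _ := by ring

/-- the division of a circuit of small treewidth -/
theorem parts_treewidth {N n r θ w : ℕ} (hr : 1 ≤ r) (hw0 : 0 < w)
    (hw2 : n ≤ 19200 * r * w) (hN : 1 ≤ N) (C : WCirc ι X Z) (hθ : C.TreewidthLE θ)
    (hR : C.reads ≤ r * (n * N)) :
    ∃ (ν : ℕ) (B : Finset (Fin C.size)) (part : Fin C.size → ℕ), Parts C B part ν w ∧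
      B.card + 1 ≤ 2 ^ 20 * (r ^ 2 * N * (θ + 1)) := by
  obtain ⟨s, B, part, h1, h2, h3, h4, h5⟩ := C.skel.exists_parts θ (C.tw_skel hθ) C.vars w
  refine ⟨s, B, part, ⟨fun h g hj => h3 h g ((C.joined_skel h g).2 hj), h4, h5⟩, ?_⟩
  have hR' : ∑ g, C.vars g ≤ r * (n * N) := hR
  have hs : s ≤ 2 ^ 18 * (r ^ 2 * N) := by
    have h7 : w * s ≤ w * (2 ^ 18 * (r ^ 2 * N)) := by
      calc w * s ≤ 8 * ∑ g, C.vars g + w := h1
        _ ≤ 8 * (r * (n * N)) + w := Nat.add_le_add_right (Nat.mul_le_mul_left _ hR') _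
        _ = 8 * (r * (n * N)) + w * 1 := by ring
        _ ≤ 8 * (r * (19200 * r * w * N)) + w * (r ^ 2 * N) := by
            apply Nat.add_le_add
            · gcongr
            · apply Nat.mul_le_mul_left
              have h0' : 0 < r := by omega
              exact Nat.mul_pos (Nat.pow_pos h0') hN
        _ = w * (153601 * (r ^ 2 * N)) := by ring
        _ ≤ _ := by gcongr; norm_num
    exact Nat.le_of_mul_le_mul_left h7 hw0
  have h8 : 1 ≤ r ^ 2 * N * (θ + 1) := by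
    have h0' : 0 < r := by omega
    exact Nat.mul_pos (Nat.mul_pos (Nat.pow_pos h0') hN) (Nat.succ_pos _)
  calc B.card + 1 ≤ s * (2 * (θ + 1)) + 1 := Nat.add_le_add_right h2 _
    _ ≤ 2 ^ 18 * (r ^ 2 * N) * (2 * (θ + 1)) + r ^ 2 * N * (θ + 1) := by gcongr
    _ = (2 ^ 19 + 1) * (r ^ 2 * N * (θ + 1)) := by ring
    _ ≤ _ := by gcongr; norm_num

/-- **Treewidth.** -/
theorem FCut.treewidth {N n r A θ : ℕ} (hr : 1 ≤ r) (hA : 1 ≤ A) (hN : 1 ≤ N)
    {D : K → WCirc ι X Z} [Nonempty K]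
    (hcut : FCut D (n * N) n r A) (hθ : ∀ k, (D k).TreewidthLE θ)
    (hR : ∀ k, (D k).reads ≤ r * (n * N)) :
    n ≤ 2 ^ 20 * r ^ 2 * (A * Fintype.card K) * (θ + 1) := by
  have hK1 : 1 ≤ Fintype.card K := Fintype.card_pos
  have hAK : 1 ≤ A * Fintype.card K := Nat.mul_pos hA hK1
  obtain ⟨q, hq⟩ : ∃ q, q = A * Fintype.card K := ⟨_, rfl⟩
  rw [← hq] at hAK ⊢
  by_cases hn : 9600 * r ≤ n
  · obtain ⟨w, hw0, hw1, hw2⟩ := choose_w hr hn
    have h6 := hcut.use' (β := 2 ^ 20 * (r ^ 2 * N * (θ + 1))) hn hw1 (fun k =>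
      parts_treewidth hr hw0 hw2 hN (D k) (hθ k) (hR k))
    have h8 : N * n ≤ N * (2 ^ 20 * r ^ 2 * q * (θ + 1)) := by
      calc N * n = n * N := mul_comm _ _
        _ ≤ A * (Fintype.card K * (2 ^ 20 * (r ^ 2 * N * (θ + 1)))) := h6
        _ = _ := by rw [hq]; ring
    exact Nat.le_of_mul_le_mul_left h8 hN
  · push Not at hn
    calc n ≤ 9600 * r := hn.le
      _ ≤ 2 ^ 20 * r ^ 2 := by
          calc 9600 * r ≤ 2 ^ 20 * (r * r) := by
                apply Nat.mul_le_mul (by norm_num)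
                nlinarith
            _ = _ := by ring
      _ = 2 ^ 20 * r ^ 2 * 1 * 1 := by ring
      _ ≤ _ := by gcongr; omega

/-- **Host graphs with small separators.** -/
theorem FCut.hosts {K₀ α ϑ : ℝ} (hK : 0 ≤ K₀) (hα : 0 < α) (hα1 : α < 1) (hϑ0 : 0 ≤ ϑ)
    (hϑ : ϑ < 1) : ∃ C₀ : ℝ, 1 ≤ C₀ ∧ ∀ {ι X Z K : Type} [Fintype K] [Nonempty K]
    {n r A c v : ℕ}, 1 ≤ r → 1 ≤ A →
    ∀ (D : K → WCirc ι X Z), FCut D (n ^ 2) n r A → (∀ k, (D k).reads ≤ r * n ^ 2) →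
      (∀ k, LaidOut (D k).Joined K₀ α ϑ v c) →
      (n : ℝ) ^ (1 + α) ≤ C₀ * r ^ 2 * (A * Fintype.card K) * (c * ((v : ℝ) + n) ^ α) := by
  classical
  obtain ⟨C₁, C₂, hC1, hC2, hdiv⟩ := exists_pieces (K₀ / (1 - ϑ ^ α)) hα hα1
  refine ⟨2 ^ 15 * (C₁ * C₂), by nlinarith, ?_⟩
  intro ι X Z K _ _ n r A c v hr hA D hcut hR hlay
  have hc : (1 : ℝ) ≤ c := by
    obtain ⟨k₀⟩ := (inferInstance : Nonempty K)
    obtain ⟨Xh, H, J, reg, hH, hJ, hL⟩ := hlay k₀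
    exact_mod_cast hL.pos (D k₀).out
  have hrR : (1 : ℝ) ≤ r := by exact_mod_cast hr
  obtain ⟨q, hq⟩ : ∃ q : ℝ, q = A * Fintype.card K := ⟨_, rfl⟩
  have hAK : 1 ≤ q := by
    have : 1 ≤ A * Fintype.card K := Nat.mul_pos hA Fintype.card_pos
    rw [hq]
    exact_mod_cast this
  rw [← hq]
  have hr2 : (1 : ℝ) ≤ (r : ℝ) ^ 2 := one_le_pow₀ hrR
  have hCC : 1 ≤ C₁ * C₂ := by nlinarith
  by_cases hn0 : n = 0
  · rw [hn0, Nat.cast_zero, Real.zero_rpow (by linarith)]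
    positivity
  have hn1 : 1 ≤ n := Nat.one_le_iff_ne_zero.2 hn0
  have hnR : (1 : ℝ) ≤ n := by exact_mod_cast hn1
  have hnpos : (0 : ℝ) < n := by linarith
  have hv0 : (0 : ℝ) ≤ v := Nat.cast_nonneg _
  by_cases hn : 9600 * r ≤ n
  · obtain ⟨w, hw0, hw1, hw2⟩ := choose_w hr hn
    have hwR : (0 : ℝ) < w := by exact_mod_cast hw0
    obtain ⟨s, hs⟩ : ∃ s : ℝ, s = ((v : ℝ) + n) / n := ⟨_, rfl⟩
    have hs1 : 1 ≤ s := by
      rw [hs, le_div_iff₀ hnpos]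
      linarith
    have hS1 : 1 ≤ s ^ α := Real.one_le_rpow hs1 hα.le
    have h7 := hcut.use (β := 2 ^ 15 * (C₁ * C₂ * (r ^ 2 * n * (c * s ^ α)))) hn hw1 (fun k => by
      obtain ⟨Xh, H, J, reg, hH, hJ, hL⟩ := hlay k
      have hL' : Layout (fun h g => (D k).Joined h g ∨ (D k).Joined g h) H J c reg := by
        refine ⟨hL.conn, hL.sub, hL.load, ?_⟩
        rintro h g (hj | hj)
        · exact hL.meet _ _ hj
        · obtain ⟨x, hx, y, hy, hxy⟩ := hL.meet _ _ hj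
          refine ⟨y, hy, x, hx, ?_⟩
          rcases hxy with h1 | h1
          · exact Or.inl h1.symm
          · exact Or.inr h1.symm
      obtain ⟨L, h1, h2, h3⟩ := hdiv Xh H (hH.weighted hK hα hϑ0 hϑ) (Fin (D k).size) _ J c reg hL'
        (D k).vars s w hs1 hwR
      obtain ⟨B, part, hB, hBc⟩ := parts_of_list (D k) (β := ⌊C₁ * (c * s ^ α)⌋₊) (w := w) L
        (fun p hp => by
          obtain ⟨h4, h5, h6⟩ := h1 p hp
          exact ⟨fun h g hj hg => h4 h g hj hg, Nat.le_floor h5, by exact_mod_cast h6⟩) h2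
      refine ⟨_, B, part, hB, ?_⟩
      have hβ : ((⌊C₁ * (c * s ^ α)⌋₊ : ℕ) : ℝ) ≤ C₁ * (c * s ^ α) :=
        Nat.floor_le (by positivity)
      have hlen : (L.length : ℝ) ≤ C₂ * (19202 * (r ^ 2 * n)) := by
        refine h3.trans (mul_le_mul_of_nonneg_left ?_ (by linarith))
        have e1 : (J.card : ℝ) / s ≤ n := by
          rw [div_le_iff₀ (by linarith), hs]
          have : (J.card : ℝ) ≤ v := by exact_mod_cast hJ
          have e2 : (n : ℝ) * (((v : ℝ) + n) / n) = v + n := by field_simp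
          rw [e2]
          linarith
        have e2 : ((∑ g, (D k).vars g : ℕ) : ℝ) / w ≤ 19200 * (r ^ 2 * n) := by
          rw [div_le_iff₀ hwR]
          have e3 : ((∑ g, (D k).vars g : ℕ) : ℝ) ≤ r * n ^ 2 := by
            have : ∑ g, (D k).vars g ≤ r * n ^ 2 := hR k
            exact_mod_cast this
          have e4 : (n : ℝ) ≤ 19200 * r * w := by exact_mod_cast hw2
          calc ((∑ g, (D k).vars g : ℕ) : ℝ) ≤ r * n ^ 2 := e3
            _ = r * n * n := by ring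
            _ ≤ r * n * (19200 * r * w) := mul_le_mul_of_nonneg_left e4 (by positivity)
            _ = _ := by ring
        have e3 : (n : ℝ) ≤ r ^ 2 * n := by nlinarith
        linarith
      have e1 : (B.card : ℝ) ≤ C₂ * (19202 * (r ^ 2 * n)) * (C₁ * (c * s ^ α)) := by
        calc (B.card : ℝ) ≤ (L.length : ℝ) * (⌊C₁ * (c * s ^ α)⌋₊ : ℕ) := by exact_mod_cast hBc
          _ ≤ _ := mul_le_mul hlen hβ (by positivity) (by positivity)
      have e2 : (1 : ℝ) ≤ C₁ * C₂ * (r ^ 2 * n * (c * s ^ α)) := by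
        have a2 : (1 : ℝ) ≤ (r : ℝ) ^ 2 * n := by nlinarith
        have a3 : (1 : ℝ) ≤ c * s ^ α := by nlinarith
        have a4 : (1 : ℝ) ≤ (r : ℝ) ^ 2 * n * (c * s ^ α) := by nlinarith
        nlinarith
      calc (B.card : ℝ) + 1 ≤ C₂ * (19202 * (r ^ 2 * n)) * (C₁ * (c * s ^ α)) +
            C₁ * C₂ * (r ^ 2 * n * (c * s ^ α)) := add_le_add e1 e2
        _ = 19203 * (C₁ * C₂ * (r ^ 2 * n * (c * s ^ α))) := by ring
        _ ≤ _ := by
            apply mul_le_mul_of_nonneg_right (by norm_num)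
            linarith)
    rw [Nat.cast_pow] at h7
    have h8 : (n : ℝ) ≤ 2 ^ 15 * (C₁ * C₂) * (r : ℝ) ^ 2 * q * (c * s ^ α) := by
      have h9 : (n : ℝ) * n ≤ n * (2 ^ 15 * (C₁ * C₂) * (r : ℝ) ^ 2 * q * (c * s ^ α)) := by
        calc (n : ℝ) * n = (n : ℝ) ^ 2 := (sq _).symm
          _ ≤ A * (Fintype.card K * (2 ^ 15 * (C₁ * C₂ * (r ^ 2 * n * (c * s ^ α))))) := h7
          _ = _ := by rw [hq]; ring
      exact le_of_mul_le_mul_left h9 hnpos
    have hnα : 0 ≤ (n : ℝ) ^ α := by positivity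
    have hsn : s ^ α * (n : ℝ) ^ α = ((v : ℝ) + n) ^ α := by
      rw [← Real.mul_rpow (by linarith) hnpos.le]
      congr 1
      rw [hs]
      field_simp
    calc (n : ℝ) ^ (1 + α) = n * (n : ℝ) ^ α := by rw [Real.rpow_add hnpos, Real.rpow_one]
      _ ≤ (2 ^ 15 * (C₁ * C₂) * (r : ℝ) ^ 2 * q * (c * s ^ α)) * (n : ℝ) ^ α :=
            mul_le_mul_of_nonneg_right h8 hnα
      _ = 2 ^ 15 * (C₁ * C₂) * (r : ℝ) ^ 2 * q * (c * (s ^ α * (n : ℝ) ^ α)) := by ring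
      _ = _ := by rw [hsn]
  · push Not at hn
    have h1 : (n : ℝ) ≤ 2 ^ 15 * r ^ 2 := by
      have h2 : (n : ℝ) ≤ 9600 * r := by exact_mod_cast hn.le
      nlinarith
    have h2 : (n : ℝ) ^ α ≤ ((v : ℝ) + n) ^ α :=
      Real.rpow_le_rpow hnpos.le (by linarith) hα.le
    have h0 : 0 ≤ ((v : ℝ) + n) ^ α := by positivity
    have e2 : (1 : ℝ) ≤ q * c := by nlinarith
    have e3 : (1 : ℝ) ≤ C₁ * C₂ * (q * c) := by nlinarith
    calc (n : ℝ) ^ (1 + α) = n * (n : ℝ) ^ α := by rw [Real.rpow_add hnpos, Real.rpow_one]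
      _ ≤ 2 ^ 15 * r ^ 2 * ((v : ℝ) + n) ^ α := mul_le_mul h1 h2 (by positivity) (by positivity)
      _ ≤ (C₁ * C₂ * (q * c)) * (2 ^ 15 * r ^ 2 * ((v : ℝ) + n) ^ α) :=
          le_mul_of_one_le_left (by positivity) e3
      _ = _ := by ring

/-- **Reads against resources**, with words of `O(log n)` bits. -/
theorem trade_log (C₀ x : ℝ) (D j : ℕ) (hD : 0 < D) (e : ℕ) (ε : ℝ) (hε : 0 < ε) :
    ∃ n₀ : ℕ, ∀ n ≥ n₀,
    ∀ R M : ℝ, 0 ≤ M → M ≤ (n : ℝ) ^ (x - ε) →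
      (∀ r : ℕ, 1 ≤ r → R ≤ r * (n : ℝ) ^ e →
        (n : ℝ) ^ x ≤ C₀ * 2 ^ (D * r) * (((Nat.log 2 n : ℝ) + 1) ^ j * M)) →
      ε / (4 * D) * ((n : ℝ) ^ e * Real.logb 2 n) ≤ R := by
  obtain ⟨W, hW⟩ : ∃ W : ℝ, W = max C₀ 1 * 2 ^ D := ⟨_, rfl⟩
  have hW0 : 0 < W := by
    rw [hW]
    have : (0 : ℝ) < max C₀ 1 := lt_of_lt_of_le one_pos (le_max_right _ _)
    positivity
  have ht : Filter.Tendsto (fun m : ℕ => (m : ℝ) ^ (ε / 4)) Filter.atTop Filter.atTop :=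
    (tendsto_rpow_atTop (by positivity)).comp tendsto_natCast_atTop_atTop
  -- the power of the logarithm
  obtain ⟨δ, hδ⟩ : ∃ δ : ℝ, δ = ε / (4 * ((j : ℝ) + 1)) := ⟨_, rfl⟩
  have hj0 : (0 : ℝ) ≤ j := Nat.cast_nonneg _
  have hδ0 : 0 < δ := by rw [hδ]; positivity
  obtain ⟨c, hc⟩ : ∃ c : ℝ, c = 2 / δ + 1 := ⟨_, rfl⟩
  have hc1 : 1 ≤ c := by rw [hc]; have : 0 < 2 / δ := by positivity
                         linarith
  have hlogp : ∀ n : ℕ, 1 ≤ n → ((Nat.log 2 n : ℝ) + 1) ^ j ≤ c ^ j * (n : ℝ) ^ (ε / 4) := by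
    intro n hn
    have hnR : (1 : ℝ) ≤ n := by exact_mod_cast hn
    have hn0 : (0 : ℝ) < n := by linarith
    have h1 : (Nat.log 2 n : ℝ) ≤ Real.logb 2 n := by
      have h2 : (2 : ℝ) ^ (Nat.log 2 n) ≤ n := by
        exact_mod_cast Nat.pow_log_le_self 2 (by omega)
      rw [Real.le_logb_iff_rpow_le (by norm_num) hn0, Real.rpow_natCast]
      exact h2
    have h2 : Real.logb 2 n ≤ 2 * Real.log n := by
      rw [Real.logb, div_le_iff₀ (Real.log_pos (by norm_num))]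
      have h3 : (0.6931471803 : ℝ) < Real.log 2 := Real.log_two_gt_d9
      have h4 : 0 ≤ Real.log n := Real.log_nonneg hnR
      nlinarith
    have h3 : Real.log n ≤ (n : ℝ) ^ δ / δ := Real.log_le_rpow_div hn0.le hδ0
    have h4 : (1 : ℝ) ≤ (n : ℝ) ^ δ := Real.one_le_rpow hnR hδ0.le
    have h5 : (Nat.log 2 n : ℝ) + 1 ≤ c * (n : ℝ) ^ δ := by
      calc (Nat.log 2 n : ℝ) + 1 ≤ 2 * ((n : ℝ) ^ δ / δ) + (n : ℝ) ^ δ := by linarith
        _ = _ := by rw [hc]; ring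
    calc ((Nat.log 2 n : ℝ) + 1) ^ j ≤ (c * (n : ℝ) ^ δ) ^ j :=
          pow_le_pow_left₀ (by positivity) h5 j
      _ = c ^ j * (n : ℝ) ^ (δ * j) := by
          rw [mul_pow, ← Real.rpow_natCast ((n : ℝ) ^ δ), ← Real.rpow_mul hn0.le]
      _ ≤ _ := by
          apply mul_le_mul_of_nonneg_left _ (by positivity)
          apply Real.rpow_le_rpow_of_exponent_le hnR
          rw [hδ, div_mul_eq_mul_div, div_le_div_iff₀ (by positivity) (by norm_num)]
          nlinarith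
  obtain ⟨n₀, hn₀⟩ := (ht.eventually_gt_atTop (W * c ^ j)).exists_forall_of_atTop
  refine ⟨max n₀ 1, fun n hn R M hM0 hM h => ?_⟩
  have hnW := hn₀ n ((le_max_left _ _).trans hn)
  have hn1 : 1 ≤ n := (le_max_right _ _).trans hn
  have hnR : (1 : ℝ) ≤ n := by exact_mod_cast hn1
  have hn0 : (0 : ℝ) < n := by linarith
  have hDR : (0 : ℝ) < D := by exact_mod_cast hD
  have hlog : 0 ≤ Real.logb 2 n := Real.logb_nonneg (by norm_num) hnR
  by_contra hcon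
  push Not at hcon
  obtain ⟨y, hy⟩ : ∃ y : ℝ, y = ε / (4 * D) * Real.logb 2 n := ⟨_, rfl⟩
  have hy0 : 0 ≤ y := by rw [hy]; positivity
  obtain ⟨r, hr⟩ : ∃ r, r = ⌊y⌋₊ + 1 := ⟨_, rfl⟩
  have hry : y < r := by rw [hr]; push_cast; exact Nat.lt_floor_add_one y
  have hry2 : (r : ℝ) ≤ y + 1 := by
    rw [hr]; push_cast
    have := Nat.floor_le hy0
    linarith
  have hR : R ≤ r * (n : ℝ) ^ e := by
    calc R ≤ ε / (4 * D) * ((n : ℝ) ^ e * Real.logb 2 n) := hcon.le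
      _ = y * (n : ℝ) ^ e := by rw [hy]; ring
      _ ≤ r * (n : ℝ) ^ e := mul_le_mul_of_nonneg_right hry.le (by positivity)
  have h1 := h r (by omega) hR
  have h2 : (2 : ℝ) ^ (D * r) ≤ 2 ^ D * (n : ℝ) ^ (ε / 4) := by
    have e2 : (2 : ℝ) ^ (Real.logb 2 n) = n := Real.rpow_logb (by norm_num) (by norm_num) hn0
    calc (2 : ℝ) ^ (D * r) = (2 : ℝ) ^ ((D : ℝ) * r) := by
          rw [← Real.rpow_natCast]
          push_cast
          rfl
      _ ≤ (2 : ℝ) ^ ((D : ℝ) + Real.logb 2 n * (ε / 4)) := by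
          apply Real.rpow_le_rpow_of_exponent_le (by norm_num)
          calc (D : ℝ) * r ≤ D * (y + 1) := mul_le_mul_of_nonneg_left hry2 hDR.le
            _ = _ := by rw [hy]; field_simp; ring
      _ = _ := by
          rw [Real.rpow_add (by norm_num), Real.rpow_mul (by norm_num), e2, Real.rpow_natCast]
  have hMn : 0 < (n : ℝ) ^ (x - ε) := by positivity
  have hmax : (0 : ℝ) < max C₀ 1 := lt_of_lt_of_le one_pos (le_max_right _ _)
  have h3 : (n : ℝ) ^ x ≤ (W * c ^ j) * (n : ℝ) ^ (ε / 4) * (n : ℝ) ^ (ε / 4) *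
      (n : ℝ) ^ (x - ε) := by
    calc (n : ℝ) ^ x ≤ C₀ * 2 ^ (D * r) * (((Nat.log 2 n : ℝ) + 1) ^ j * M) := h1
      _ ≤ max C₀ 1 * 2 ^ (D * r) * (((Nat.log 2 n : ℝ) + 1) ^ j * M) := by
          apply mul_le_mul_of_nonneg_right _ (by positivity)
          apply mul_le_mul_of_nonneg_right (le_max_left _ _) (by positivity)
      _ ≤ max C₀ 1 * (2 ^ D * (n : ℝ) ^ (ε / 4)) * ((c ^ j * (n : ℝ) ^ (ε / 4)) *
          (n : ℝ) ^ (x - ε)) := by
          have := hlogp n hn1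
          gcongr
      _ = _ := by rw [hW]; ring
  have h4 : (n : ℝ) ^ x = (n : ℝ) ^ (ε / 4) * (n : ℝ) ^ (ε / 4) * (n : ℝ) ^ (ε / 4) *
      (n : ℝ) ^ (ε / 4) * (n : ℝ) ^ (x - ε) := by
    rw [← Real.rpow_add hn0, ← Real.rpow_add hn0, ← Real.rpow_add hn0, ← Real.rpow_add hn0]
    congr 1
    ring
  have h5 : 1 ≤ (n : ℝ) ^ (ε / 4) := Real.one_le_rpow hnR (by positivity)
  have h6 : (W * c ^ j) * (n : ℝ) ^ (ε / 4) * (n : ℝ) ^ (ε / 4) * (n : ℝ) ^ (x - ε) <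
      (n : ℝ) ^ (ε / 4) * (n : ℝ) ^ (ε / 4) * (n : ℝ) ^ (ε / 4) * (n : ℝ) ^ (x - ε) := by
    have h7 : 0 < (n : ℝ) ^ (ε / 4) := by linarith
    gcongr
  have h7 : (n : ℝ) ^ (ε / 4) * (n : ℝ) ^ (ε / 4) * (n : ℝ) ^ (ε / 4) * (n : ℝ) ^ (x - ε) ≤
      (n : ℝ) ^ (ε / 4) * (n : ℝ) ^ (ε / 4) * (n : ℝ) ^ (ε / 4) * (n : ℝ) ^ (ε / 4) *
        (n : ℝ) ^ (x - ε) := by
    apply mul_le_mul_of_nonneg_right _ hMn.le
    apply le_mul_of_one_le_right _ h5
    positivity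
  linarith

end Pool.Agent.U286.LY
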