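import Mathlib
import Pool.Agent.U286.LY.ETrnd
import Pool.Agent.U286.LY.FCut

/-!
# Exact Triangle: random circuits with bounded error
-/

set_option autoImplicit false

open Finset

namespace Pool.Agent.U286.LY.ET

open Pool.Agent.Y631.Wc

/-- **The cut theorem for random circuits with bounded error.** -/
theorem fcut_random {n r κ b : ℕ} (hn : 3 ≤ n) (hr : 1 ≤ r) (hb : 1 ≤ b) {Z : Type} [Fintype Z]
    (hZ : Fintype.card Z ≤ 2 ^ b) {Ω : Type} [Fintype Ω] (p : Ω → ℝ) (hp : ∀ ω, 0 ≤ p ω)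
    (hp1 : ∑ ω, p ω = 1) (C : Ω → WCirc (Fin n × Fin n) (Bool × ℤ) Z)
    (hdet : ∀ ω, (C ω).Deterministic) (hκ : ∀ ω, (C ω).FanIn κ)
    (herr : ErrLE p C (Valid n) ZeroTriangle (1 / 3))
    (hR : ∑ ω, p ω * (C ω).reads ≤ r * (n : ℝ) ^ 2) (c : Ω → ℝ) (hc0 : ∀ ω, 0 ≤ c ω) (T : ℝ)
    (hT : 0 < T) (hc : ∑ ω, p ω * c ω ≤ T) :
    ∃ ω : Fin 160 → Ω, (∀ k, (C (ω k)).reads ≤ 640 * r * (n * n)) ∧ (∀ k, c (ω k) ≤ 640 * T) ∧
      FCut (fun k => C (ω k)) (n * n) n (640 * r) (2 ^ (512000 * r + 18) * ((κ + 1) * b)) := by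
  classical
  obtain ⟨N, hN⟩ : ∃ N, N = n / 3 := ⟨_, rfl⟩
  have hN1 : 1 ≤ N := by omega
  have hN3 : 3 * N ≤ n := by omega
  have hN5 : n ≤ 5 * N := by omega
  have : Nonempty (Fin N) := ⟨⟨0, by omega⟩⟩
  have hrR : (1 : ℝ) ≤ r := by exact_mod_cast hr
  have hnR : (0 : ℝ) < n := by exact_mod_cast (by omega : 0 < n)
  obtain ⟨ω, h1, hω, h2⟩ := choose_family (P := Fin N × Fin N) (S := Fin N) p hp hp1
    C (Valid n) ZeroTriangle herr (instS n N)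
    (fun s x y => instS_valid hN3 hN1 s x y) (fun s x y => instS_zero hN3 s x y)
    (fun ω => ((C ω).reads : ℝ)) c (fun ω => Nat.cast_nonneg _) hc0
    (r * (n : ℝ) ^ 2) T (by positivity) hT hR hc
  have h1' : ∑ k, (C (ω k)).reads ≤ 640 * r * (n * n) := by
    have h3 : ((∑ k, (C (ω k)).reads : ℕ) : ℝ) ≤ ((640 * r * (n * n) : ℕ) : ℝ) := by
      push_cast
      calc ∑ k, ((C (ω k)).reads : ℝ) ≤ 640 * (r * (n : ℝ) ^ 2) := h1
        _ = _ := by ring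
    exact_mod_cast h3
  refine ⟨ω, fun k => le_trans (single_le_sum (f := fun k => (C (ω k)).reads)
    (fun _ _ => Nat.zero_le _) (mem_univ k)) h1', fun k => le_trans
    (single_le_sum (f := fun k => c (ω k)) (fun _ _ => hc0 _) (mem_univ k)) hω, ?_⟩
  intro _ ν w B part hB hw
  have hcP : Fintype.card (Fin N × Fin N) = N * N := by
    rw [Fintype.card_prod, Fintype.card_fin]
  obtain ⟨r', hr'⟩ : ∃ r', r' = 640 * r := ⟨_, rfl⟩
  rw [← hr'] at hw h1'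
  obtain ⟨ρ, hρ⟩ : ∃ ρ, ρ = 400 * r' - 1 := ⟨_, rfl⟩
  have hρ1 : ρ + 1 = 400 * r' := by omega
  have h3 := fam_error (P := Fin N × Fin N) (S := Fin N) (fun k => C (ω k))
    (fun k => hdet _) half (R := r' * (n * n)) (ρ := ρ) (b := b) (κ := κ) (fun k => hκ _) h1' hB
    (own (n := n)) cell₁ cell₂ cell₁_inj cell₂_inj cell₂_inj' cell₁_ne
    (by
      rw [hcP, hρ1]
      calc 16 * (r' * (n * n)) ≤ 16 * (r' * (5 * N * (5 * N))) := by gcongr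
        _ = 400 * r' * (N * N) := by ring)
    (by
      rw [Fintype.card_fin]
      have h1 : ρ * w ≤ 400 * r' * w := Nat.mul_le_mul_right _ (by omega)
      have h2 : 9600 * r' * w = 3 * (8 * (400 * r' * w)) := by ring
      omega)
    (instS n N) (fun s x x' y i h => instS_left s x x' y i h)
    (fun s x y y' i h => instS_right s x y y' i h) h2 hb hZ
  rw [hcP] at h3
  calc n * n ≤ 5 * N * (5 * N) := Nat.mul_le_mul hN5 hN5
    _ = 25 * (N * N) := by ring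
    _ ≤ 2 ^ 5 * (2 ^ (2 * ρ + 15) * ((κ + 1) * b * (∑ k, (B k).card + Fintype.card (Fin 160)))) :=
        Nat.mul_le_mul (by norm_num) h3
    _ = 2 ^ (512000 * r + 18) * ((κ + 1) * b) * (∑ k, (B k).card + Fintype.card (Fin 160)) := by
        have h4 : 512000 * r + 18 = 5 + (2 * ρ + 15) := by omega
        rw [h4, pow_add 2 5]
        ring

end Pool.Agent.U286.LY.ET

namespace Pool.Agent.U286.LY

/-- numbers -/
lemma consts (r : ℕ) (hr : 1 ≤ r) :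
    2 ^ 90 * (640 * r) ^ 4 * (2 ^ (512000 * r + 18) * 160) ^ 2 * 1280 ≤ 2 ^ (1200000 * r) := by
  have hr2 : r ≤ 2 ^ r := Nat.lt_two_pow_self.le
  calc 2 ^ 90 * (640 * r) ^ 4 * (2 ^ (512000 * r + 18) * 160) ^ 2 * 1280 ≤
      2 ^ 90 * (2 ^ 10 * 2 ^ r) ^ 4 * (2 ^ (512000 * r + 18) * 2 ^ 8) ^ 2 * 2 ^ 11 := by
        gcongr <;> norm_num
    _ = 2 ^ (90 + (10 + r) * 4 + (512000 * r + 18 + 8) * 2 + 11) := by
        rw [← pow_add 2 10, ← pow_mul 2 (10 + r), ← pow_add 2 (512000 * r + 18), ← pow_mul,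
          ← pow_add, ← pow_add, ← pow_add]
    _ ≤ _ := Nat.pow_le_pow_right (by norm_num) (by omega)

/-- numbers -/
lemma consts' (r : ℕ) (hr : 1 ≤ r) :
    2 ^ 20 * (640 * r) ^ 2 * (2 ^ (512000 * r + 18) * 160) * 1280 ≤ 2 ^ (600000 * r) := by
  have hr2 : r ≤ 2 ^ r := Nat.lt_two_pow_self.le
  calc 2 ^ 20 * (640 * r) ^ 2 * (2 ^ (512000 * r + 18) * 160) * 1280 ≤
      2 ^ 20 * (2 ^ 10 * 2 ^ r) ^ 2 * (2 ^ (512000 * r + 18) * 2 ^ 8) * 2 ^ 11 := by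
        gcongr <;> norm_num
    _ = 2 ^ (20 + (10 + r) * 2 + (512000 * r + 18 + 8) + 11) := by
        rw [← pow_add 2 10, ← pow_mul 2 (10 + r), ← pow_add 2 (512000 * r + 18), ← pow_add,
          ← pow_add, ← pow_add]
    _ ≤ _ := Nat.pow_le_pow_right (by norm_num) (by omega)

open Pool.Agent.Y631.Wc

section

variable {ι X Z Ω : Type} {N n r κ b : ℕ}

/-- what the choice of the family gives: `N` is `n` for Exact Triangle and `1` for lists -/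
def Chosen (C : Ω → WCirc ι X Z) (c : Ω → ℝ) (N n r A : ℕ) (T : ℝ) : Prop :=
  ∃ ω : Fin 160 → Ω, (∀ k, (C (ω k)).reads ≤ 640 * r * (n * N)) ∧ (∀ k, c (ω k) ≤ 640 * T) ∧
    FCut (fun k => C (ω k)) (n * N) n (640 * r) A

theorem chosen_drawing {g : ℝ} (hr : 1 ≤ r) (hb : 1 ≤ b) (hN : 1 ≤ N) (hg : 1 ≤ g)
    (C : Ω → WCirc ι X Z) (k : Ω → ℕ)
    (hk : ∀ ω, Pool.Agent.U514.PD.W.CrossingsLE (C ω) (k ω))
    (h : Chosen C (fun ω => (((C ω).size + k ω : ℕ) : ℝ)) N n r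
      (2 ^ (512000 * r + 18) * ((κ + 1) * b)) g) :
    (n : ℝ) ^ 2 * N ≤ 2 ^ (1200000 * r) * (((κ + 1) * b) ^ 2 * (g + N)) := by
  have hkb : 1 ≤ (κ + 1) * b := Nat.mul_pos (Nat.succ_pos _) hb
  obtain ⟨ω, h1, hω, h2⟩ := h
  obtain ⟨G, hG⟩ : ∃ G : ℕ, G = ⌊640 * g⌋₊ := ⟨_, rfl⟩
  have hG1 : (G : ℝ) ≤ 640 * g := by rw [hG]; exact Nat.floor_le (by linarith)
  have h3 := h2.drawing (g := G) (by omega) (Nat.mul_pos (by positivity) hkb) hN
    (fun k' => ⟨k (ω k'), hk _, by rw [hG]; exact Nat.le_floor (hω k')⟩) h1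
  rw [Fintype.card_fin] at h3
  have h4 : (n : ℝ) ^ 2 * N ≤ 2 ^ 90 * (640 * r) ^ 4 *
      (2 ^ (512000 * r + 18) * ((κ + 1) * b) * 160) ^ 2 * (G + N) := by exact_mod_cast h3
  have h5 : (2 : ℝ) ^ 90 * (640 * r) ^ 4 * (2 ^ (512000 * r + 18) * 160) ^ 2 * 1280 ≤
      2 ^ (1200000 * r) := by exact_mod_cast consts r hr
  have hN0 : (0 : ℝ) ≤ N := Nat.cast_nonneg _
  calc (n : ℝ) ^ 2 * N ≤ 2 ^ 90 * (640 * r) ^ 4 *
        (2 ^ (512000 * r + 18) * ((κ + 1) * b) * 160) ^ 2 * (G + N) := h4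
    _ ≤ 2 ^ 90 * (640 * r) ^ 4 *
        (2 ^ (512000 * r + 18) * ((κ + 1) * b) * 160) ^ 2 * (1280 * (g + N)) := by
        gcongr
        linarith
    _ = (2 ^ 90 * (640 * r) ^ 4 * (2 ^ (512000 * r + 18) * 160) ^ 2 * 1280) *
        (((κ + 1) * b) ^ 2 * (g + N)) := by
        generalize (2 : ℝ) ^ (512000 * r + 18) = X
        ring
    _ ≤ _ := mul_le_mul_of_nonneg_right h5 (by positivity)

theorem chosen_treewidth {T : ℝ} (hr : 1 ≤ r) (hb : 1 ≤ b) (hN : 1 ≤ N) (hT : 1 ≤ T)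
    (C : Ω → WCirc ι X Z) (θ : Ω → ℕ) (hθ : ∀ ω, (C ω).TreewidthLE (θ ω))
    (h : Chosen C (fun ω => (θ ω : ℝ) + 1) N n r
      (2 ^ (512000 * r + 18) * ((κ + 1) * b)) T) :
    (n : ℝ) ≤ 2 ^ (600000 * r) * ((κ + 1) * b * T) := by
  have hkb : 1 ≤ (κ + 1) * b := Nat.mul_pos (Nat.succ_pos _) hb
  obtain ⟨ω, h1, hω, h2⟩ := h
  obtain ⟨G, hG⟩ : ∃ G : ℕ, G = ⌊640 * T⌋₊ := ⟨_, rfl⟩
  have hG1 : (G : ℝ) ≤ 640 * T := by rw [hG]; exact Nat.floor_le (by linarith)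
  have h3 := h2.treewidth (θ := G) (by omega) (Nat.mul_pos (by positivity) hkb) hN
    (fun k => by
      have h6 : θ (ω k) ≤ G := by
        rw [hG]
        exact Nat.le_floor (by have := hω k; simp only at this; linarith)
      obtain ⟨T, par, bag, t1, t2, t3, t4⟩ := hθ (ω k)
      exact ⟨T, par, bag, t1, fun i => (t2 i).trans (by omega), t3, t4⟩) h1
  rw [Fintype.card_fin] at h3
  have h4 : (n : ℝ) ≤ 2 ^ 20 * (640 * r) ^ 2 *
      (2 ^ (512000 * r + 18) * ((κ + 1) * b) * 160) * (G + 1) := by exact_mod_cast h3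
  have h5 : (2 : ℝ) ^ 20 * (640 * r) ^ 2 * (2 ^ (512000 * r + 18) * 160) * 1280 ≤
      2 ^ (600000 * r) := by exact_mod_cast consts' r hr
  calc (n : ℝ) ≤ 2 ^ 20 * (640 * r) ^ 2 *
        (2 ^ (512000 * r + 18) * ((κ + 1) * b) * 160) * (G + 1) := h4
    _ ≤ 2 ^ 20 * (640 * r) ^ 2 *
        (2 ^ (512000 * r + 18) * ((κ + 1) * b) * 160) * (1280 * T) := by
        gcongr
        linarith
    _ = (2 ^ 20 * (640 * r) ^ 2 * (2 ^ (512000 * r + 18) * 160) * 1280) *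
        ((κ + 1) * b * T) := by
        generalize (2 : ℝ) ^ (512000 * r + 18) = X
        ring
    _ ≤ _ := mul_le_mul_of_nonneg_right h5 (by positivity)

/-- the expected value of a number that is at least one -/
lemma one_le_mean [Fintype Ω] {p : Ω → ℝ} (hp : ∀ ω, 0 ≤ p ω) (hp1 : ∑ ω, p ω = 1)
    {c : Ω → ℝ} (hc : ∀ ω, 1 ≤ c ω) {T : ℝ} (h : ∑ ω, p ω * c ω ≤ T) : 1 ≤ T := by
  refine le_trans (le_of_eq hp1.symm) (le_trans (Finset.sum_le_sum fun ω _ => ?_) h)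
  exact le_mul_of_one_le_right (hp ω) (hc ω)

lemma size_pos (C : WCirc ι X Z) : 1 ≤ C.size := lt_of_le_of_lt (Nat.zero_le _) C.out.2

end

end Pool.Agent.U286.LY

namespace Pool.Agent.U286.LY.ET

open Pool.Agent.Y631.Wc

section

variable {n r κ b : ℕ} {Z : Type} [Fintype Z] {Ω : Type} [Fintype Ω]

/-- **Drawings.** -/
theorem drawing_error {g : ℝ} (hr : 1 ≤ r) (hb : 1 ≤ b) (hZ : Fintype.card Z ≤ 2 ^ b)
    (p : Ω → ℝ) (hp : ∀ ω, 0 ≤ p ω)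
    (hp1 : ∑ ω, p ω = 1) (C : Ω → WCirc (Fin n × Fin n) (Bool × ℤ) Z)
    (hdet : ∀ ω, (C ω).Deterministic) (hκ : ∀ ω, (C ω).FanIn κ)
    (herr : ErrLE p C (Valid n) ZeroTriangle (1 / 3))
    (hR : ∑ ω, p ω * (C ω).reads ≤ r * (n : ℝ) ^ 2) (k : Ω → ℕ)
    (hk : ∀ ω, Pool.Agent.U514.PD.W.CrossingsLE (C ω) (k ω))
    (hg : ∑ ω, p ω * (((C ω).size + k ω : ℕ) : ℝ) ≤ g) :
    (n : ℝ) ^ 3 ≤ 2 ^ (1200000 * r) * (((κ + 1) * b) ^ 2 * (g + n)) := by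
  have hkb : 1 ≤ (κ + 1) * b := Nat.mul_pos (Nat.succ_pos _) hb
  have hkbR : (1 : ℝ) ≤ ((κ : ℝ) + 1) * b := by exact_mod_cast hkb
  have hg1 : 1 ≤ g := one_le_mean hp hp1 (fun ω => by
    have h1 := size_pos (C ω)
    exact_mod_cast (by omega : 1 ≤ (C ω).size + k ω)) hg
  by_cases hn : 3 ≤ n
  · have h1 := chosen_drawing (N := n) (n := n) (κ := κ) (b := b) hr hb (by omega) hg1 C k hk
      (fcut_random hn hr hb hZ p hp hp1 C hdet hκ herr hR _ (fun ω => Nat.cast_nonneg _) g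
        (by linarith) hg)
    calc (n : ℝ) ^ 3 = (n : ℝ) ^ 2 * n := by ring
      _ ≤ _ := h1
  · push Not at hn
    have hn2 : (n : ℝ) ≤ 2 := by exact_mod_cast (by omega : n ≤ 2)
    have hn0 : (0 : ℝ) ≤ n := Nat.cast_nonneg _
    calc (n : ℝ) ^ 3 = (n * n) * (1 ^ 2 * n) := by ring
      _ ≤ 2 ^ 2 * (((κ + 1) * b) ^ 2 * (g + n)) := by
          gcongr
          · nlinarith
          · linarith
      _ ≤ 2 ^ (1200000 * r) * (((κ + 1) * b) ^ 2 * (g + n)) := by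
          apply mul_le_mul_of_nonneg_right _ (by positivity)
          exact pow_le_pow_right₀ (by norm_num) (by omega)

/-- **Treewidth.** -/
theorem treewidth_error {T : ℝ} (hr : 1 ≤ r) (hb : 1 ≤ b) (hZ : Fintype.card Z ≤ 2 ^ b)
    (p : Ω → ℝ) (hp : ∀ ω, 0 ≤ p ω)
    (hp1 : ∑ ω, p ω = 1) (C : Ω → WCirc (Fin n × Fin n) (Bool × ℤ) Z)
    (hdet : ∀ ω, (C ω).Deterministic) (hκ : ∀ ω, (C ω).FanIn κ)
    (herr : ErrLE p C (Valid n) ZeroTriangle (1 / 3))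
    (hR : ∑ ω, p ω * (C ω).reads ≤ r * (n : ℝ) ^ 2) (θ : Ω → ℕ)
    (hθ : ∀ ω, (C ω).TreewidthLE (θ ω)) (hT : ∑ ω, p ω * ((θ ω : ℝ) + 1) ≤ T) :
    (n : ℝ) ≤ 2 ^ (600000 * r) * ((κ + 1) * b * T) := by
  have hkb : 1 ≤ (κ + 1) * b := Nat.mul_pos (Nat.succ_pos _) hb
  have hkbR : (1 : ℝ) ≤ ((κ : ℝ) + 1) * b := by exact_mod_cast hkb
  have hT1 : 1 ≤ T := one_le_mean hp hp1 (fun ω => by
    have : (0 : ℝ) ≤ θ ω := Nat.cast_nonneg _
    linarith) hT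
  by_cases hn : 3 ≤ n
  · exact chosen_treewidth (N := n) hr hb (by omega) hT1 C θ hθ
      (fcut_random hn hr hb hZ p hp hp1 C hdet hκ herr hR _ (fun ω => by positivity) T
        (by linarith) hT)
  · push Not at hn
    have hn2 : (n : ℝ) ≤ 2 := by exact_mod_cast (by omega : n ≤ 2)
    calc (n : ℝ) ≤ 2 ^ 1 * (1 * 1) := by linarith
      _ ≤ 2 ^ (600000 * r) * ((κ + 1) * b * T) := by
          gcongr
          · norm_num
          · omega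

end

end Pool.Agent.U286.LY.ET
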