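import Mathlib
import Pool.Agent.U286.LY.ETfam

/-!
# Random circuits with bounded error, reads against resources
-/

set_option autoImplicit false

open Finset

namespace Pool.Agent.U286.LY

open Pool.Agent.Y631.Wc

/-- words of `O(log n)` bits -/
lemma card_words {n a : ℕ} {Z : Type} [Fintype Z] (hZ : Fintype.card Z ≤ n ^ a) :
    Fintype.card Z ≤ 2 ^ ((a + 1) * (Nat.log 2 n + 1)) := by
  calc Fintype.card Z ≤ n ^ a := hZ
    _ ≤ (2 ^ (Nat.log 2 n + 1)) ^ a :=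
        Nat.pow_le_pow_left (Nat.lt_pow_succ_log_self (by norm_num) n).le a
    _ = 2 ^ (a * (Nat.log 2 n + 1)) := by rw [← pow_mul]; congr 1; ring
    _ ≤ _ := Nat.pow_le_pow_right (by norm_num) (Nat.mul_le_mul_right _ (Nat.le_succ _))

end Pool.Agent.U286.LY

namespace Pool.Agent.U286.LY.ET

open Pool.Agent.Y631.Wc

/-- **Random circuits with bounded error: drawings.** -/
theorem drawing_error_random (a κ : ℕ) (ε : ℝ) (hε : 0 < ε) (hε1 : ε ≤ 2) : ∃ n₀ : ℕ, ∀ n ≥ n₀,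
    ∀ (Z : Type) [Fintype Z], Fintype.card Z ≤ n ^ a →
    ∀ (Ω : Type) [Fintype Ω] (p : Ω → ℝ), (∀ ω, 0 ≤ p ω) → ∑ ω, p ω = 1 →
    ∀ (C : Ω → WCirc (Fin n × Fin n) (Bool × ℤ) Z) (k : Ω → ℕ),
      (∀ ω, (C ω).Deterministic ∧ (C ω).FanIn κ ∧
        Pool.Agent.U514.PD.W.CrossingsLE (C ω) (k ω)) →
      ∑ ω, p ω * (((C ω).size + k ω : ℕ) : ℝ) ≤ (n : ℝ) ^ (3 - ε) →
      ErrLE p C (Valid n) ZeroTriangle (1 / 3) →
      ε / 4800000 * ((n : ℝ) ^ 2 * Real.logb 2 n) ≤ ∑ ω, p ω * (C ω).reads := by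
  obtain ⟨n₀, hn₀⟩ := trade_log (2 * ((κ + 1) * (a + 1)) ^ 2) 3 1200000 2 (by norm_num) 2 ε hε
  refine ⟨max n₀ 1, fun n hn Z _ hZ Ω _ p hp hp1 C k h hg herr => ?_⟩
  have hn1 : 1 ≤ n := (le_max_right _ _).trans hn
  have hnR : (1 : ℝ) ≤ n := by exact_mod_cast hn1
  have h1 : (n : ℝ) ≤ (n : ℝ) ^ (3 - ε) := by
    calc (n : ℝ) = (n : ℝ) ^ (1 : ℝ) := (Real.rpow_one _).symm
      _ ≤ _ := Real.rpow_le_rpow_of_exponent_le hnR (by linarith)
  have h0 : (0 : ℝ) ≤ (n : ℝ) ^ (3 - ε) := by positivity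
  have h2 := hn₀ n ((le_max_left _ _).trans hn) (∑ ω, p ω * (C ω).reads)
    (((n : ℝ) ^ (3 - ε) + n) / 2)
    (by positivity) (by linarith) (fun r hr hR => by
      have h3 := drawing_error (b := (a + 1) * (Nat.log 2 n + 1)) hr
        (Nat.mul_pos (Nat.succ_pos _) (Nat.succ_pos _)) (card_words hZ) p hp hp1 C
        (fun ω => (h ω).1) (fun ω => (h ω).2.1) herr hR k (fun ω => (h ω).2.2) hg
      have h5 : (n : ℝ) ^ (3 : ℝ) = (n : ℝ) ^ 3 := by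
        rw [← Real.rpow_natCast]
        norm_num
      rw [h5]
      refine h3.trans (le_of_eq ?_)
      push_cast
      generalize (2 : ℝ) ^ (1200000 * r) = X
      ring)
  calc _ = ε / (4 * ((1200000 : ℕ) : ℝ)) * ((n : ℝ) ^ 2 * Real.logb 2 n) := by norm_num
    _ ≤ _ := h2

end Pool.Agent.U286.LY.ET
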