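import Mathlib
import Pool.Agent.Y631.WcModel
import Pool.Agent.U514.PD.Tw

/-!
# Random word circuits with bounded error: the definitions
-/

set_option autoImplicit false

open Finset

namespace Pool.Agent.U286.LY

open Pool.Agent.Y631.Wc

open Classical in
/-- Random circuits `C ω` (with probability `p ω`) that are deterministic, of fan-in at most `κ`,
and answer the question `F` for every input `z` with the property `V` with an error of at most
`1 / 3`. -/
structure Rand {X Z Ω : Type} {m : ℕ} [Fintype Ω] (V F : (Fin m → X) → Prop) (κ : ℕ) (p : Ω → ℝ)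
    (C : Ω → WCirc (Fin m) X Z) : Prop where
  nonneg : ∀ ω, 0 ≤ p ω
  total : ∑ ω, p ω = 1
  det : ∀ ω, (C ω).Deterministic
  fanIn : ∀ ω, (C ω).FanIn κ
  error : ∀ z, V z → ∑ ω with ¬ ((C ω).Accepts z ↔ F z), p ω ≤ 1 / 3

/-- the expected value -/
def mean {Ω : Type} [Fintype Ω] (p : Ω → ℝ) (c : Ω → ℕ) : ℝ := ∑ ω, p ω * c ω

/-- The circuit `C` has the width `c`: the graph of its gates has a treewidth less than `c`, or it
can be drawn in the plane such that the number of gates and crossings is at most `c ^ 2`. -/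
def WidthLE {ι X Z : Type} (C : WCirc ι X Z) (c : ℕ) : Prop :=
  (∃ θ, C.TreewidthLE θ ∧ θ + 1 ≤ c) ∨
    ∃ k, Pool.Agent.U514.PD.W.CrossingsLE C k ∧ C.size + k ≤ c ^ 2

end Pool.Agent.U286.LY
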