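import Mathlib
import Pool.Agent.U286.LY.ETasym
import Pool.Agent.U286.LY.LDef

/-!
# Lists: random circuits with bounded error
-/

set_option autoImplicit false

open Finset

namespace Pool.Agent.U286.LY

open Pool.Agent.Y631.Wc

/-- A family of instances for lists of `m` items: `e₁ t` is the place of the first copy of `t`,
`e₂ s t` the place of the second one, and the answer is yes iff the sets have a common element. -/
structure ListInst {X : Type} {m : ℕ} (V F : (Fin m → X) → Prop) (M : ℕ) where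
  /-- the instances -/
  inst : Fin M → Finset (Fin M) → Finset (Fin M) → Fin m → X
  /-- the places for the first set -/
  e₁ : Fin M → Fin m
  /-- the places for the second set -/
  e₂ : Fin M → Fin M → Fin m
  inj₁ : Function.Injective e₁
  inj₂ : ∀ s, Function.Injective (e₂ s)
  inj₃ : ∀ t, Function.Injective fun s => e₂ s t
  ne : ∀ s t t', e₁ t ≠ e₂ s t'
  valid : ∀ s x y, V (inst s x y)
  iff : ∀ s x y, ¬ F (inst s x y) ↔ Disjoint x y
  left : ∀ s x x' y i, (∀ t, i = e₁ t → (t ∈ x ↔ t ∈ x')) → inst s x y i = inst s x' y i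
  right : ∀ s x y y' i, (∀ t, i = e₂ s t → (t ∈ y ↔ t ∈ y')) → inst s x y i = inst s x y' i

section

variable {X Z Ω : Type} {m r κ b : ℕ}

/-- **The choice of the family for lists.** -/
theorem chosen_list [Fintype Z] [Fintype Ω] {M : ℕ} (hM : 1 ≤ M) (hm : m ≤ 5 * M) (hr : 1 ≤ r)
    (hb : 1 ≤ b) (hZ : Fintype.card Z ≤ 2 ^ b) {V F : (Fin m → X) → Prop} (I : ListInst V F M)
    (p : Ω → ℝ) (hp : ∀ ω, 0 ≤ p ω) (hp1 : ∑ ω, p ω = 1) (C : Ω → WCirc (Fin m) X Z)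
    (hdet : ∀ ω, (C ω).Deterministic) (hκ : ∀ ω, (C ω).FanIn κ) (herr : ErrLE p C V F (1 / 3))
    (hR : ∑ ω, p ω * (C ω).reads ≤ r * (m : ℝ)) (c : Ω → ℝ) (hc0 : ∀ ω, 0 ≤ c ω) (T : ℝ)
    (hT : 0 < T) (hc : ∑ ω, p ω * c ω ≤ T) :
    Chosen C c 1 m r (2 ^ (102400 * r + 18) * ((κ + 1) * b)) T := by
  classical
  have : Nonempty (Fin M) := ⟨⟨0, by omega⟩⟩
  have hrR : (1 : ℝ) ≤ r := by exact_mod_cast hr
  by_cases hm0 : m = 0
  · exfalso
    have h1 := (I.e₁ ⟨0, by omega⟩).2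
    omega
  have hmR : (0 : ℝ) < m := by exact_mod_cast Nat.pos_of_ne_zero hm0
  obtain ⟨ω, h1, hω, h2⟩ := choose_family (P := Fin M) (S := Fin M) p hp hp1
    C V F herr I.inst I.valid I.iff
    (fun ω => ((C ω).reads : ℝ)) c (fun ω => Nat.cast_nonneg _) hc0
    (r * (m : ℝ)) T (by positivity) hT hR hc
  have h1' : ∑ k, (C (ω k)).reads ≤ 640 * r * (m * 1) := by
    have h3 : ((∑ k, (C (ω k)).reads : ℕ) : ℝ) ≤ ((640 * r * (m * 1) : ℕ) : ℝ) := by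
      push_cast
      calc ∑ k, ((C (ω k)).reads : ℝ) ≤ 640 * (r * (m : ℝ)) := h1
        _ = _ := by ring
    exact_mod_cast h3
  refine ⟨ω, fun k => le_trans (single_le_sum (f := fun k => (C (ω k)).reads)
    (fun _ _ => Nat.zero_le _) (mem_univ k)) h1', fun k => le_trans
    (single_le_sum (f := fun k => c (ω k)) (fun _ _ => hc0 _) (mem_univ k)) hω, ?_⟩
  intro _ ν w B part hB hw
  obtain ⟨r', hr'⟩ : ∃ r', r' = 640 * r := ⟨_, rfl⟩
  rw [← hr'] at hw h1'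
  obtain ⟨ρ, hρ⟩ : ∃ ρ, ρ = 80 * r' - 1 := ⟨_, rfl⟩
  have hρ1 : ρ + 1 = 80 * r' := by omega
  have h3 := fam_error (P := Fin M) (S := Fin M) (fun k => C (ω k))
    (fun k => hdet _) half (R := r' * (m * 1)) (ρ := ρ) (b := b) (κ := κ) (fun k => hκ _) h1' hB
    (id : Fin m → Fin m) I.e₁ I.e₂ I.inj₁ I.inj₂ I.inj₃ I.ne
    (by
      rw [Fintype.card_fin, hρ1]
      calc 16 * (r' * (m * 1)) ≤ 16 * (r' * (5 * M * 1)) := by gcongr
        _ = 80 * r' * M := by ring)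
    (by
      rw [Fintype.card_fin]
      have h1 : ρ * w ≤ 80 * r' * w := Nat.mul_le_mul_right _ (by omega)
      have h2 : 9600 * r' * w = 15 * (8 * (80 * r' * w)) := by ring
      omega)
    I.inst (fun s x x' y i h => I.left s x x' y i h)
    (fun s x y y' i h => I.right s x y y' i h) h2 hb hZ
  rw [Fintype.card_fin] at h3
  calc m * 1 ≤ 5 * M := by omega
    _ ≤ 2 ^ 5 * (2 ^ (2 * ρ + 15) * ((κ + 1) * b * (∑ k, (B k).card + Fintype.card (Fin 160)))) :=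
        Nat.mul_le_mul (by norm_num) h3
    _ = 2 ^ (102400 * r + 18) * ((κ + 1) * b) * (∑ k, (B k).card + Fintype.card (Fin 160)) := by
        have h4 : 102400 * r + 18 = 5 + (2 * ρ + 15) := by omega
        rw [h4, pow_add 2 5]
        ring

/-- numbers -/
lemma consts_list (r : ℕ) (hr : 1 ≤ r) :
    2 ^ 90 * (640 * r) ^ 4 * (2 ^ (102400 * r + 18) * 160) ^ 2 * 1280 ≤ 2 ^ (210000 * r) := by
  have hr2 : r ≤ 2 ^ r := Nat.lt_two_pow_self.le
  calc 2 ^ 90 * (640 * r) ^ 4 * (2 ^ (102400 * r + 18) * 160) ^ 2 * 1280 ≤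
      2 ^ 90 * (2 ^ 10 * 2 ^ r) ^ 4 * (2 ^ (102400 * r + 18) * 2 ^ 8) ^ 2 * 2 ^ 11 := by
        gcongr <;> norm_num
    _ = 2 ^ (90 + (10 + r) * 4 + (102400 * r + 18 + 8) * 2 + 11) := by
        rw [← pow_add 2 10, ← pow_mul 2 (10 + r), ← pow_add 2 (102400 * r + 18), ← pow_mul,
          ← pow_add, ← pow_add, ← pow_add]
    _ ≤ _ := Nat.pow_le_pow_right (by norm_num) (by omega)

/-- numbers -/
lemma consts_list' (r : ℕ) (hr : 1 ≤ r) :
    2 ^ 20 * (640 * r) ^ 2 * (2 ^ (102400 * r + 18) * 160) * 1280 ≤ 2 ^ (105000 * r) := by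
  have hr2 : r ≤ 2 ^ r := Nat.lt_two_pow_self.le
  calc 2 ^ 20 * (640 * r) ^ 2 * (2 ^ (102400 * r + 18) * 160) * 1280 ≤
      2 ^ 20 * (2 ^ 10 * 2 ^ r) ^ 2 * (2 ^ (102400 * r + 18) * 2 ^ 8) * 2 ^ 11 := by
        gcongr <;> norm_num
    _ = 2 ^ (20 + (10 + r) * 2 + (102400 * r + 18 + 8) + 11) := by
        rw [← pow_add 2 10, ← pow_mul 2 (10 + r), ← pow_add 2 (102400 * r + 18), ← pow_add,
          ← pow_add, ← pow_add]
    _ ≤ _ := Nat.pow_le_pow_right (by norm_num) (by omega)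

theorem list_drawing [Fintype Z] [Fintype Ω] {M : ℕ} {g : ℝ} (hM : 1 ≤ M) (hm : m ≤ 5 * M)
    (hr : 1 ≤ r) (hb : 1 ≤ b) (hZ : Fintype.card Z ≤ 2 ^ b) {V F : (Fin m → X) → Prop}
    (I : ListInst V F M) (p : Ω → ℝ) (hp : ∀ ω, 0 ≤ p ω) (hp1 : ∑ ω, p ω = 1)
    (C : Ω → WCirc (Fin m) X Z)
    (hdet : ∀ ω, (C ω).Deterministic) (hκ : ∀ ω, (C ω).FanIn κ) (herr : ErrLE p C V F (1 / 3))
    (hR : ∑ ω, p ω * (C ω).reads ≤ r * (m : ℝ)) (k : Ω → ℕ)
    (hk : ∀ ω, Pool.Agent.U514.PD.W.CrossingsLE (C ω) (k ω))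
    (hg : ∑ ω, p ω * (((C ω).size + k ω : ℕ) : ℝ) ≤ g) :
    (m : ℝ) ^ 2 ≤ 2 ^ (210000 * r) * (((κ + 1) * b) ^ 2 * (g + 1)) := by
  have hkb : 1 ≤ (κ + 1) * b := Nat.mul_pos (Nat.succ_pos _) hb
  have hg1 : 1 ≤ g := one_le_mean hp hp1 (fun ω => by
    have h1 := size_pos (C ω)
    exact_mod_cast (by omega : 1 ≤ (C ω).size + k ω)) hg
  obtain ⟨ω, h1, hω, h2⟩ := chosen_list hM hm hr hb hZ I p hp hp1 C hdet hκ herr hR
    (fun ω => (((C ω).size + k ω : ℕ) : ℝ)) (fun ω => Nat.cast_nonneg _) g (by linarith) hg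
  obtain ⟨G, hG⟩ : ∃ G : ℕ, G = ⌊640 * g⌋₊ := ⟨_, rfl⟩
  have hG1 : (G : ℝ) ≤ 640 * g := by rw [hG]; exact Nat.floor_le (by linarith)
  have h3 := h2.drawing (g := G) (by omega) (Nat.mul_pos (by positivity) hkb) le_rfl
    (fun k' => ⟨k (ω k'), hk _, by rw [hG]; exact Nat.le_floor (hω k')⟩) h1
  rw [Fintype.card_fin] at h3
  have h4 : (m : ℝ) ^ 2 * (1 : ℕ) ≤ 2 ^ 90 * (640 * r) ^ 4 *
      (2 ^ (102400 * r + 18) * ((κ + 1) * b) * 160) ^ 2 * (G + (1 : ℕ)) := by exact_mod_cast h3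
  rw [Nat.cast_one, mul_one] at h4
  have h5 : (2 : ℝ) ^ 90 * (640 * r) ^ 4 * (2 ^ (102400 * r + 18) * 160) ^ 2 * 1280 ≤
      2 ^ (210000 * r) := by exact_mod_cast consts_list r hr
  calc (m : ℝ) ^ 2 ≤ 2 ^ 90 * (640 * r) ^ 4 *
        (2 ^ (102400 * r + 18) * ((κ + 1) * b) * 160) ^ 2 * (G + 1) := h4
    _ ≤ 2 ^ 90 * (640 * r) ^ 4 *
        (2 ^ (102400 * r + 18) * ((κ + 1) * b) * 160) ^ 2 * (1280 * (g + 1)) := by
        gcongr
        linarith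
    _ = (2 ^ 90 * (640 * r) ^ 4 * (2 ^ (102400 * r + 18) * 160) ^ 2 * 1280) *
        (((κ + 1) * b) ^ 2 * (g + 1)) := by
        generalize (2 : ℝ) ^ (102400 * r + 18) = X
        ring
    _ ≤ _ := mul_le_mul_of_nonneg_right h5 (by positivity)

theorem list_treewidth [Fintype Z] [Fintype Ω] {M : ℕ} {T : ℝ} (hM : 1 ≤ M) (hm : m ≤ 5 * M)
    (hr : 1 ≤ r) (hb : 1 ≤ b) (hZ : Fintype.card Z ≤ 2 ^ b) {V F : (Fin m → X) → Prop}
    (I : ListInst V F M) (p : Ω → ℝ) (hp : ∀ ω, 0 ≤ p ω) (hp1 : ∑ ω, p ω = 1)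
    (C : Ω → WCirc (Fin m) X Z)
    (hdet : ∀ ω, (C ω).Deterministic) (hκ : ∀ ω, (C ω).FanIn κ) (herr : ErrLE p C V F (1 / 3))
    (hR : ∑ ω, p ω * (C ω).reads ≤ r * (m : ℝ)) (θ : Ω → ℕ)
    (hθ : ∀ ω, (C ω).TreewidthLE (θ ω)) (hT : ∑ ω, p ω * ((θ ω : ℝ) + 1) ≤ T) :
    (m : ℝ) ≤ 2 ^ (105000 * r) * ((κ + 1) * b * T) := by
  have hkb : 1 ≤ (κ + 1) * b := Nat.mul_pos (Nat.succ_pos _) hb
  have hT1 : 1 ≤ T := one_le_mean hp hp1 (fun ω => by
    have : (0 : ℝ) ≤ θ ω := Nat.cast_nonneg _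
    linarith) hT
  obtain ⟨ω, h1, hω, h2⟩ := chosen_list hM hm hr hb hZ I p hp hp1 C hdet hκ herr hR
    (fun ω => (θ ω : ℝ) + 1) (fun ω => by positivity) T (by linarith) hT
  obtain ⟨G, hG⟩ : ∃ G : ℕ, G = ⌊640 * T⌋₊ := ⟨_, rfl⟩
  have hG1 : (G : ℝ) ≤ 640 * T := by rw [hG]; exact Nat.floor_le (by linarith)
  have h3 := h2.treewidth (θ := G) (by omega) (Nat.mul_pos (by positivity) hkb) le_rfl
    (fun k => by
      have h6 : θ (ω k) ≤ G := by
        rw [hG]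
        exact Nat.le_floor (by have := hω k; simp only at this; linarith)
      obtain ⟨T, par, bag, t1, t2, t3, t4⟩ := hθ (ω k)
      exact ⟨T, par, bag, t1, fun i => (t2 i).trans (by omega), t3, t4⟩) h1
  rw [Fintype.card_fin] at h3
  have h4 : (m : ℝ) ≤ 2 ^ 20 * (640 * r) ^ 2 *
      (2 ^ (102400 * r + 18) * ((κ + 1) * b) * 160) * (G + 1) := by exact_mod_cast h3
  have h5 : (2 : ℝ) ^ 20 * (640 * r) ^ 2 * (2 ^ (102400 * r + 18) * 160) * 1280 ≤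
      2 ^ (105000 * r) := by exact_mod_cast consts_list' r hr
  calc (m : ℝ) ≤ 2 ^ 20 * (640 * r) ^ 2 *
        (2 ^ (102400 * r + 18) * ((κ + 1) * b) * 160) * (G + 1) := h4
    _ ≤ 2 ^ 20 * (640 * r) ^ 2 *
        (2 ^ (102400 * r + 18) * ((κ + 1) * b) * 160) * (1280 * T) := by
        gcongr
        linarith
    _ = (2 ^ 20 * (640 * r) ^ 2 * (2 ^ (102400 * r + 18) * 160) * 1280) *
        ((κ + 1) * b * T) := by
        generalize (2 : ℝ) ^ (102400 * r + 18) = X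
        ring
    _ ≤ _ := mul_le_mul_of_nonneg_right h5 (by positivity)

end

/-- there are instances for sets with at least `m / 5` elements -/
def HasList {X : Type} {m : ℕ} (V F : (Fin m → X) → Prop) : Prop :=
  ∃ M, 1 ≤ M ∧ m ≤ 5 * M ∧ Nonempty (ListInst V F M)

section

variable {X : Type}

/-- all lists, also short ones -/
theorem all_treewidth {m₀ m r κ b : ℕ} {V F : (Fin m → X) → Prop} (hm₀ : m₀ ≤ 2 ^ 100)
    (I : m₀ ≤ m → HasList V F) (hr : 1 ≤ r) (hb : 1 ≤ b) {Z : Type} [Fintype Z]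
    (hZ : Fintype.card Z ≤ 2 ^ b) {Ω : Type} [Fintype Ω] (p : Ω → ℝ) (C : Ω → WCirc (Fin m) X Z)
    (h : Rand V F κ p C) (hR : mean p (fun ω => (C ω).reads) ≤ r * m)
    (θ : Ω → ℕ) (hθ : ∀ ω, (C ω).TreewidthLE (θ ω)) :
    (m : ℝ) ≤ 2 ^ (105000 * r) * ((κ + 1) * b * (mean p θ + 1)) := by
  have hT : ∑ ω, p ω * ((θ ω : ℝ) + 1) ≤ mean p θ + 1 := by
    unfold mean
    simp only [mul_add, mul_one]
    rw [sum_add_distrib, h.total]
  have hkb : 1 ≤ (κ + 1) * b := Nat.mul_pos (Nat.succ_pos _) hb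
  have hkbR : (1 : ℝ) ≤ ((κ : ℝ) + 1) * b := by exact_mod_cast hkb
  by_cases hm : m₀ ≤ m
  · obtain ⟨M, hM1, hM2, ⟨J⟩⟩ := I hm
    exact list_treewidth hM1 hM2 hr hb hZ J p h.nonneg h.total C h.det h.fanIn h.error hR θ hθ hT
  · have h1 : m ≤ 2 ^ 100 := by omega
    have h2 : (0 : ℝ) ≤ mean p θ := sum_nonneg fun ω _ => mul_nonneg (h.nonneg ω) (by positivity)
    calc (m : ℝ) ≤ 2 ^ 100 * (1 * 1) := by
          have : (m : ℝ) ≤ ((2 ^ 100 : ℕ) : ℝ) := by exact_mod_cast h1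
          push_cast at this
          linarith
      _ ≤ _ := by
          gcongr
          · norm_num
          · omega
          · linarith

theorem all_drawing {m₀ m r κ b : ℕ} {V F : (Fin m → X) → Prop} (hm₀ : m₀ ≤ 2 ^ 100)
    (I : m₀ ≤ m → HasList V F) (hr : 1 ≤ r) (hb : 1 ≤ b) {Z : Type} [Fintype Z]
    (hZ : Fintype.card Z ≤ 2 ^ b) {Ω : Type} [Fintype Ω] (p : Ω → ℝ) (C : Ω → WCirc (Fin m) X Z)
    (h : Rand V F κ p C) (hR : mean p (fun ω => (C ω).reads) ≤ r * m)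
    (k : Ω → ℕ) (hk : ∀ ω, Pool.Agent.U514.PD.W.CrossingsLE (C ω) (k ω)) :
    (m : ℝ) ^ 2 ≤ 2 ^ (210001 * r) *
      (((κ + 1) * b) ^ 2 * mean p fun ω => (C ω).size + k ω) := by
  have hkb : 1 ≤ (κ + 1) * b := Nat.mul_pos (Nat.succ_pos _) hb
  have hkbR : (1 : ℝ) ≤ ((κ : ℝ) + 1) * b := by exact_mod_cast hkb
  have hg1 : 1 ≤ mean p fun ω => (C ω).size + k ω := by
    refine one_le_mean h.nonneg h.total (c := fun ω => (((C ω).size + k ω : ℕ) : ℝ)) (fun ω => by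
      have h1 := size_pos (C ω)
      exact_mod_cast (by omega : 1 ≤ (C ω).size + k ω)) le_rfl
  by_cases hm : m₀ ≤ m
  · obtain ⟨M, hM1, hM2, ⟨J⟩⟩ := I hm
    have h1 := list_drawing hM1 hM2 hr hb hZ J p h.nonneg h.total C h.det h.fanIn h.error hR k hk
      (g := mean p fun ω => (C ω).size + k ω) le_rfl
    calc (m : ℝ) ^ 2 ≤ 2 ^ (210000 * r) *
          (((κ + 1) * b) ^ 2 * ((mean p fun ω => (C ω).size + k ω) + 1)) := h1
      _ ≤ 2 ^ (210000 * r) *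
          (((κ + 1) * b) ^ 2 * (2 * mean p fun ω => (C ω).size + k ω)) := by
          gcongr
          linarith
      _ = (2 ^ (210000 * r) * 2 ^ 1) *
          (((κ + 1) * b) ^ 2 * mean p fun ω => (C ω).size + k ω) := by ring
      _ ≤ _ := by
          rw [← pow_add]
          gcongr
          · norm_num
          · omega
  · have h1 : m ≤ 2 ^ 100 := by omega
    have h2 : (m : ℝ) ≤ 2 ^ 100 := by exact_mod_cast h1
    calc (m : ℝ) ^ 2 ≤ (2 ^ 100) ^ 2 * (1 ^ 2 * 1) := by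
          have : (0 : ℝ) ≤ m := Nat.cast_nonneg _
          have := pow_le_pow_left₀ this h2 2
          linarith
      _ ≤ _ := by
          have e1 : ((2 : ℝ) ^ 100) ^ 2 ≤ 2 ^ (210001 * r) := by
            rw [← pow_mul]
            exact pow_le_pow_right₀ (by norm_num) (by omega)
          have e2 : (1 : ℝ) ^ 2 ≤ (((κ : ℝ) + 1) * b) ^ 2 :=
            pow_le_pow_left₀ (by norm_num) hkbR 2
          have e3 : (1 : ℝ) ^ 2 * 1 ≤
              (((κ : ℝ) + 1) * b) ^ 2 * mean p fun ω => (C ω).size + k ω :=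
            mul_le_mul e2 hg1 (by norm_num) (by positivity)
          exact mul_le_mul e1 e3 (by norm_num) (by positivity)

/-- **Reads against treewidth.** -/
theorem all_reads (a κ : ℕ) (ε : ℝ) (hε : 0 < ε) (hε1 : ε ≤ 1) : ∃ n₀ : ℕ, ∀ m ≥ n₀,
    ∀ (V F : (Fin m → X) → Prop), HasList V F → ∀ (Z : Type) [Fintype Z], Fintype.card Z ≤ m ^ a →
    ∀ (Ω : Type) [Fintype Ω] (p : Ω → ℝ) (C : Ω → WCirc (Fin m) X Z) (θ : Ω → ℕ),
      Rand V F κ p C → (∀ ω, (C ω).TreewidthLE (θ ω)) →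
      mean p θ ≤ (m : ℝ) ^ (1 - ε) →
      ε / 420000 * (m * Real.logb 2 m) ≤ mean p fun ω => (C ω).reads := by
  obtain ⟨n₀, hn₀⟩ := trade_log (2 * ((κ + 1) * (a + 1))) 1 105000 1 (by norm_num) 1 ε hε
  refine ⟨max n₀ 1, fun m hm V F I Z _ hZ Ω _ p C θ h hθ hT => ?_⟩
  have hm1 : 1 ≤ m := (le_max_right _ _).trans hm
  have hmR : (1 : ℝ) ≤ m := by exact_mod_cast hm1
  have h1 : (1 : ℝ) ≤ (m : ℝ) ^ (1 - ε) := Real.one_le_rpow hmR (by linarith)
  have h0 : (0 : ℝ) ≤ (m : ℝ) ^ (1 - ε) := by positivity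
  have h2 := hn₀ m ((le_max_left _ _).trans hm) (mean p fun ω => (C ω).reads)
    (((m : ℝ) ^ (1 - ε) + 1) / 2) (by positivity) (by linarith) (fun r hr hR => by
      have h3 := all_treewidth (m₀ := 0) (by positivity) (fun _ => I)
        (b := (a + 1) * (Nat.log 2 m + 1)) hr
        (Nat.mul_pos (Nat.succ_pos _) (Nat.succ_pos _)) (card_words hZ) p C h
        (by rw [pow_one] at hR; exact hR) θ hθ
      rw [Real.rpow_one]
      refine h3.trans ?_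
      calc (2 : ℝ) ^ (105000 * r) * ((κ + 1) * (((a + 1) * (Nat.log 2 m + 1) : ℕ) : ℝ) *
            (mean p θ + 1)) ≤
          2 ^ (105000 * r) * ((κ + 1) * (((a + 1) * (Nat.log 2 m + 1) : ℕ) : ℝ) *
            ((m : ℝ) ^ (1 - ε) + 1)) := by gcongr
        _ = _ := by
            push_cast
            generalize (2 : ℝ) ^ (105000 * r) = X
            ring)
  calc _ = ε / (4 * ((105000 : ℕ) : ℝ)) * ((m : ℝ) ^ 1 * Real.logb 2 m) := by norm_num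
    _ ≤ _ := h2

/-- **Reads against gates and crossings.** -/
theorem all_reads_drawing (a κ : ℕ) (ε : ℝ) (hε : 0 < ε) : ∃ n₀ : ℕ, ∀ m ≥ n₀,
    ∀ (V F : (Fin m → X) → Prop), HasList V F → ∀ (Z : Type) [Fintype Z], Fintype.card Z ≤ m ^ a →
    ∀ (Ω : Type) [Fintype Ω] (p : Ω → ℝ) (C : Ω → WCirc (Fin m) X Z) (k : Ω → ℕ),
      Rand V F κ p C →
      (∀ ω, Pool.Agent.U514.PD.W.CrossingsLE (C ω) (k ω)) →
      (mean p fun ω => (C ω).size + k ω) ≤ (m : ℝ) ^ (2 - ε) →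
      ε / 840004 * (m * Real.logb 2 m) ≤ mean p fun ω => (C ω).reads := by
  obtain ⟨n₀, hn₀⟩ := trade_log (((κ + 1) * (a + 1)) ^ 2) 2 210001 2 (by norm_num) 1 ε hε
  refine ⟨n₀, fun m hm V F I Z _ hZ Ω _ p C k h hk hg => ?_⟩
  have h2 := hn₀ m hm (mean p fun ω => (C ω).reads)
    ((m : ℝ) ^ (2 - ε)) (by positivity) le_rfl (fun r hr hR => by
      have h3 := all_drawing (m₀ := 0) (by positivity) (fun _ => I)
        (b := (a + 1) * (Nat.log 2 m + 1)) hr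
        (Nat.mul_pos (Nat.succ_pos _) (Nat.succ_pos _)) (card_words hZ) p C h
        (by rw [pow_one] at hR; exact hR) k hk
      have h5 : (m : ℝ) ^ (2 : ℝ) = (m : ℝ) ^ 2 := by
        rw [← Real.rpow_natCast]
        norm_num
      rw [h5]
      refine h3.trans ?_
      calc (2 : ℝ) ^ (210001 * r) * (((κ + 1) * (((a + 1) * (Nat.log 2 m + 1) : ℕ) : ℝ)) ^ 2 *
            mean p fun ω => (C ω).size + k ω) ≤
          2 ^ (210001 * r) * (((κ + 1) * (((a + 1) * (Nat.log 2 m + 1) : ℕ) : ℝ)) ^ 2 *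
            (m : ℝ) ^ (2 - ε)) := by gcongr
        _ = _ := by
            push_cast
            generalize (2 : ℝ) ^ (210001 * r) = X
            ring)
  calc _ = ε / (4 * ((210001 : ℕ) : ℝ)) * ((m : ℝ) ^ 1 * Real.logb 2 m) := by norm_num
    _ ≤ _ := h2

end

end Pool.Agent.U286.LY
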