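import Mathlib
import Pool.Agent.U286.LY.Lst
import Pool.Agent.R643.WZa

/-!
# Lists: the instances for 3SUM, sorted 3SUM and triangles
-/

set_option autoImplicit false

open Finset

namespace Pool.Agent.U286.LY

open Pool.Agent.Y631.Wc Pool.Agent.R643.WZ

open Classical in
/-- the letter of the first player for `u` -/
noncomputable def lA {M : ℕ} (x : Finset (Fin M)) (u : ℕ) : ℕ := if ∃ t ∈ x, t.1 = u then 1 else 0

open Classical in
/-- the letter of the second player for `v` -/
noncomputable def lB {M : ℕ} (y : Finset (Fin M)) (s v : ℕ) : ℕ :=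
  if ∃ t ∈ y, t.1 + s = v then 1 else 2

section letters

variable {M : ℕ}

lemma lA_le (x : Finset (Fin M)) (u : ℕ) : lA x u ≤ 1 := by
  unfold lA
  split_ifs <;> omega

lemma lB_le (y : Finset (Fin M)) (s v : ℕ) : lB y s v ≤ 2 := by
  unfold lB
  split_ifs <;> omega

lemma lB_pos (y : Finset (Fin M)) (s v : ℕ) : 1 ≤ lB y s v := by
  unfold lB
  split_ifs <;> omega

lemma lA_congr {x x' : Finset (Fin M)} {u : ℕ} (h : ∀ t : Fin M, t.1 = u → (t ∈ x ↔ t ∈ x')) :
    lA x u = lA x' u := by
  unfold lA
  congr 1
  apply propext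
  exact ⟨fun ⟨t, ht, h1⟩ => ⟨t, (h t h1).1 ht, h1⟩, fun ⟨t, ht, h1⟩ => ⟨t, (h t h1).2 ht, h1⟩⟩

lemma lB_congr {y y' : Finset (Fin M)} {s v : ℕ}
    (h : ∀ t : Fin M, t.1 + s = v → (t ∈ y ↔ t ∈ y')) : lB y s v = lB y' s v := by
  unfold lB
  congr 1
  apply propext
  exact ⟨fun ⟨t, ht, h1⟩ => ⟨t, (h t h1).1 ht, h1⟩, fun ⟨t, ht, h1⟩ => ⟨t, (h t h1).2 ht, h1⟩⟩

lemma l_eq {x y : Finset (Fin M)} {s u : ℕ} (h : lA x u = lB y s (u + s)) :
    ¬ Disjoint x y := by
  have h1 := lB_pos y s (u + s)
  unfold lA lB at h
  unfold lB at h1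
  by_cases hx : ∃ t ∈ x, t.1 = u
  · rw [if_pos hx] at h
    by_cases hy : ∃ t ∈ y, t.1 + s = u + s
    · obtain ⟨t, ht, h2⟩ := hx
      obtain ⟨t', ht', h3⟩ := hy
      have h4 : t = t' := Fin.ext (by omega)
      rw [not_disjoint_iff]
      exact ⟨t, ht, h4 ▸ ht'⟩
    · rw [if_neg hy] at h
      omega
  · rw [if_neg hx] at h
    split_ifs at h

lemma l_in {x y : Finset (Fin M)} (s : ℕ) {t : Fin M} (hx : t ∈ x) (hy : t ∈ y) :
    lA x t.1 = 1 ∧ lB y s (t.1 + s) = 1 := by
  unfold lA lB
  rw [if_pos ⟨t, hx, rfl⟩, if_pos ⟨t, hy, rfl⟩]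
  exact ⟨rfl, rfl⟩

end letters

/-! ### 3SUM -/

/-- the numbers of the instance for 3SUM -/
noncomputable def sumVal (m M : ℕ) (s : ℕ) (x y : Finset (Fin M)) (i : ℕ) : ℕ :=
  if i < M then 7 * (3 * i + lA x i) + 1
  else if i < 3 * M then 7 * (6 * M + m + 1 + 3 * (i - M) + lB y s (i - M)) + 1
  else if i = 3 * M then 7 * (6 * M + m + 1 + 3 * s)
  else 7 * i + 3

/-- the instances for 3SUM -/
noncomputable def sumInst {m M : ℕ} (hM : 1 ≤ M) (hm : 3 * M + 1 ≤ m) (hm7 : 7 ≤ m) :
    ListInst (X := ℤ) (m := m) IsSet HasSum M where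
  inst s x y i := (sumVal m M s x y i.1 : ℤ)
  e₁ t := ⟨t.1, by omega⟩
  e₂ s t := ⟨M + (t.1 + s.1), by omega⟩
  inj₁ := by
    intro t t' h
    have := congrArg Fin.val h
    exact Fin.ext this
  inj₂ := by
    intro s t t' h
    have := congrArg Fin.val h
    simp only at this
    exact Fin.ext (by omega)
  inj₃ := by
    intro t s s' h
    have := congrArg Fin.val h
    simp only at this
    exact Fin.ext (by omega)
  ne := by
    intro s t t' h
    have := congrArg Fin.val h
    simp only at this
    omega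
  valid := by
    intro s x y
    constructor
    · intro i j h
      have h0 : ((sumVal m M s x y i.1 : ℕ) : ℤ) = ((sumVal m M s x y j.1 : ℕ) : ℤ) := h
      have h1 : sumVal m M s x y i.1 = sumVal m M s x y j.1 := by exact_mod_cast h0
      have hi := i.2
      have hj := j.2
      have hs := s.2
      have a1 := lA_le x i.1
      have a2 := lA_le x j.1
      have b1 := lB_le y s (i.1 - M)
      have b2 := lB_le y s (j.1 - M)
      have b3 := lB_pos y s (i.1 - M)
      have b4 := lB_pos y s (j.1 - M)
      unfold sumVal at h1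
      apply Fin.ext
      split_ifs at h1 <;> omega
    · intro i
      have hi := i.2
      have hs := s.2
      have a1 := lA_le x i.1
      have b1 := lB_le y s (i.1 - M)
      have h1 : sumVal m M s x y i.1 ≤ m ^ 3 := by
        have h2 : 49 * m ≤ m ^ 3 := by
          calc 49 * m = 7 * 7 * m := by norm_num
            _ ≤ m * m * m := by gcongr
            _ = m ^ 3 := by ring
        unfold sumVal
        split_ifs <;> omega
      show |((sumVal m M s x y i.1 : ℕ) : ℤ)| ≤ (m : ℤ) ^ 3
      rw [abs_of_nonneg (by positivity)]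
      exact_mod_cast h1
  iff := by
    intro s x y
    constructor
    · intro h
      by_contra hd
      obtain ⟨t, hx, hy⟩ := not_disjoint_iff.1 hd
      obtain ⟨h1, h2⟩ := l_in s.1 hx hy
      apply h
      refine ⟨⟨t.1, by omega⟩, ⟨3 * M, by omega⟩, ⟨M + (t.1 + s.1), by omega⟩, ?_, ?_, ?_, ?_⟩
      · intro h3
        have := congrArg Fin.val h3
        simp only at this
        omega
      · intro h3
        have := congrArg Fin.val h3
        simp only at this
        omega
      · intro h3
        have := congrArg Fin.val h3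
        simp only at this
        omega
      · have ht := t.2
        have hs := s.2
        have e1 : sumVal m M s x y t.1 = 7 * (3 * t.1 + 1) + 1 := by
          unfold sumVal
          rw [if_pos ht, h1]
        have e2 : sumVal m M s x y (3 * M) = 7 * (6 * M + m + 1 + 3 * s.1) := by
          unfold sumVal
          rw [if_neg (by omega), if_neg (by omega), if_pos rfl]
        have e3 : sumVal m M s x y (M + (t.1 + s.1)) =
            7 * (6 * M + m + 1 + 3 * (t.1 + s.1) + 1) + 1 := by
          unfold sumVal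
          rw [if_neg (by omega), if_pos (by omega), Nat.add_sub_cancel_left, h2]
        simp only [e1, e2, e3]
        push_cast
        ring
    · rintro hd ⟨i, j, l, hij, hil, hjl, h⟩
      have h0 : ((sumVal m M s x y i.1 : ℕ) : ℤ) + ((sumVal m M s x y j.1 : ℕ) : ℤ) =
        ((sumVal m M s x y l.1 : ℕ) : ℤ) := h
      have h1 : sumVal m M s x y i.1 + sumVal m M s x y j.1 = sumVal m M s x y l.1 := by
        exact_mod_cast h0
      have hi := i.2
      have hj := j.2
      have hl := l.2
      have hs := s.2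
      have a1 := lA_le x i.1
      have a2 := lA_le x j.1
      have a3 := lA_le x l.1
      have b1 := lB_le y s (i.1 - M)
      have b2 := lB_le y s (j.1 - M)
      have b3 := lB_le y s (l.1 - M)
      have b4 := lB_pos y s (i.1 - M)
      have b5 := lB_pos y s (j.1 - M)
      have b6 := lB_pos y s (l.1 - M)
      have hij' : i.1 ≠ j.1 := fun h2 => hij (Fin.ext h2)
      -- the two possible cases
      have key : (i.1 < M ∧ j.1 = 3 * M ∧ M ≤ l.1 ∧ l.1 < 3 * M ∧ l.1 - M = i.1 + s.1 ∧
            lA x i.1 = lB y s (l.1 - M)) ∨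
          (j.1 < M ∧ i.1 = 3 * M ∧ M ≤ l.1 ∧ l.1 < 3 * M ∧ l.1 - M = j.1 + s.1 ∧
            lA x j.1 = lB y s (l.1 - M)) := by
        unfold sumVal at h1
        split_ifs at h1 <;> omega
      rcases key with ⟨-, -, -, -, h5, h6⟩ | ⟨-, -, -, -, h5, h6⟩
      · rw [h5] at h6
        exact l_eq h6 hd
      · rw [h5] at h6
        exact l_eq h6 hd
  left := by
    intro s x x' y i h
    have : sumVal m M s x y i.1 = sumVal m M s x' y i.1 := by
      unfold sumVal
      by_cases hi : i.1 < M
      · rw [if_pos hi, if_pos hi, lA_congr fun t ht => h t (Fin.ext ht.symm)]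
      · rw [if_neg hi, if_neg hi]
    show ((sumVal m M s x y i.1 : ℕ) : ℤ) = ((sumVal m M s x' y i.1 : ℕ) : ℤ)
    rw [this]
  right := by
    intro s x y y' i h
    have : sumVal m M s x y i.1 = sumVal m M s x y' i.1 := by
      unfold sumVal
      by_cases hi : i.1 < M
      · rw [if_pos hi, if_pos hi]
      · rw [if_neg hi, if_neg hi]
        by_cases hi2 : i.1 < 3 * M
        · rw [if_pos hi2, if_pos hi2, lB_congr fun t ht => h t (Fin.ext (by
            show i.1 = M + (t.1 + s.1)
            omega))]
        · rw [if_neg hi2, if_neg hi2]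
    show ((sumVal m M s x y i.1 : ℕ) : ℤ) = ((sumVal m M s x y' i.1 : ℕ) : ℤ)
    rw [this]

theorem sum_inst {m : ℕ} (hm : 13 ≤ m) : HasList (X := ℤ) (m := m) IsSet HasSum := by
  exact ⟨(m - 1) / 3, by omega, by omega, ⟨sumInst (by omega) (by omega) (by omega)⟩⟩

/-! ### sorted lists -/

/-- the numbers of the instance for sorted lists -/
noncomputable def zeroVal (m M : ℕ) (s : ℕ) (x y : Finset (Fin M)) (i : ℕ) : ℤ :=
  if i < 2 * M then
    -(11 * (3 * M + m + 1 + 3 * ((2 * M - 1 - i : ℕ) : ℤ) + (lB y s (2 * M - 1 - i) : ℕ)) + 1)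
  else if i < 3 * M then 11 * (3 * ((i - 2 * M : ℕ) : ℤ) + (lA x (i - 2 * M) : ℕ)) + 1
  else if i + 1 < m then 11 * (3 * M + i) + 3
  else 11 * (3 * M + m + 1 + 3 * s)

/-- the instances for sorted lists -/
noncomputable def zeroInst {m M : ℕ} (hM : 1 ≤ M) (hm : 3 * M + 1 ≤ m) (hm55 : 55 ≤ m) :
    ListInst (X := ℤ) (m := m) IsSorted HasZero M where
  inst s x y i := zeroVal m M s x y i.1
  e₁ t := ⟨2 * M + t.1, by omega⟩
  e₂ s t := ⟨2 * M - 1 - (t.1 + s.1), by omega⟩
  inj₁ := by
    intro t t' h
    have := congrArg Fin.val h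
    simp only at this
    exact Fin.ext (by omega)
  inj₂ := by
    intro s t t' h
    have := congrArg Fin.val h
    simp only at this
    exact Fin.ext (by omega)
  inj₃ := by
    intro t s s' h
    have := congrArg Fin.val h
    simp only at this
    exact Fin.ext (by omega)
  ne := by
    intro s t t' h
    have := congrArg Fin.val h
    simp only at this
    omega
  valid := by
    intro s x y
    constructor
    · intro i j h
      have hij : i.1 < j.1 := h
      have hi := i.2
      have hj := j.2
      have hs := s.2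
      have a1 := lA_le x (i.1 - 2 * M)
      have a2 := lA_le x (j.1 - 2 * M)
      have b1 := lB_le y s (2 * M - 1 - i.1)
      have b2 := lB_le y s (2 * M - 1 - j.1)
      have b3 := lB_pos y s (2 * M - 1 - i.1)
      have b4 := lB_pos y s (2 * M - 1 - j.1)
      show zeroVal m M s x y i.1 < zeroVal m M s x y j.1
      unfold zeroVal
      split_ifs <;> omega
    · intro i
      have hi := i.2
      have hs := s.2
      have a1 := lA_le x (i.1 - 2 * M)
      have b1 := lB_le y s (2 * M - 1 - i.1)
      have h2 : (55 : ℤ) * m ≤ (m : ℤ) ^ 2 := by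
        have : (55 : ℤ) ≤ m := by exact_mod_cast hm55
        nlinarith
      show |zeroVal m M s x y i.1| ≤ (m : ℤ) ^ 2
      rw [abs_le]
      unfold zeroVal
      split_ifs <;> constructor <;> omega
  iff := by
    intro s x y
    constructor
    · intro h
      by_contra hd
      obtain ⟨t, hx, hy⟩ := not_disjoint_iff.1 hd
      obtain ⟨h1, h2⟩ := l_in s.1 hx hy
      apply h
      have ht := t.2
      have hs := s.2
      refine ⟨⟨2 * M + t.1, by omega⟩, ⟨m - 1, by omega⟩, ⟨2 * M - 1 - (t.1 + s.1), by omega⟩,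
        ?_, ?_, ?_, ?_⟩
      · intro h3
        have := congrArg Fin.val h3
        simp only at this
        omega
      · intro h3
        have := congrArg Fin.val h3
        simp only at this
        omega
      · intro h3
        have := congrArg Fin.val h3
        simp only at this
        omega
      · have e1 : zeroVal m M s x y (2 * M + t.1) = 11 * (3 * t.1 + 1) + 1 := by
          unfold zeroVal
          rw [if_neg (by omega), if_pos (by omega), Nat.add_sub_cancel_left, h1]
          push_cast
          ring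
        have e2 : zeroVal m M s x y (m - 1) = 11 * (3 * M + m + 1 + 3 * s.1) := by
          unfold zeroVal
          rw [if_neg (by omega), if_neg (by omega), if_neg (by omega)]
        have e3 : zeroVal m M s x y (2 * M - 1 - (t.1 + s.1)) =
            -(11 * (3 * M + m + 1 + 3 * (t.1 + s.1) + 1) + 1) := by
          unfold zeroVal
          rw [if_pos (by omega), show 2 * M - 1 - (2 * M - 1 - (t.1 + s.1)) = t.1 + s.1 by omega, h2]
          push_cast
          ring
        show zeroVal m M s x y (2 * M + t.1) + zeroVal m M s x y (m - 1) +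
          zeroVal m M s x y (2 * M - 1 - (t.1 + s.1)) = 0
        rw [e1, e2, e3]
        ring
    · rintro hd ⟨i', j', l', hij', hil', hjl', h'⟩
      obtain ⟨i, j, l, hij, hjl, h⟩ : ∃ i j l : Fin m, i < j ∧ j < l ∧
          zeroVal m M s x y i.1 + zeroVal m M s x y j.1 + zeroVal m M s x y l.1 = 0 := by
        have h2 : zeroVal m M s x y i'.1 + zeroVal m M s x y j'.1 + zeroVal m M s x y l'.1 = 0 := h'
        rcases lt_or_gt_of_ne hij' with c1 | c1 <;> rcases lt_or_gt_of_ne hil' with c2 | c2 <;>
          rcases lt_or_gt_of_ne hjl' with c3 | c3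
        · exact ⟨i', j', l', c1, c3, h2⟩
        · exact ⟨i', l', j', c2, c3, by rw [← h2]; ring⟩
        · exact absurd (c1.trans (c3.trans c2)) (lt_irrefl _)
        · exact ⟨l', i', j', c2, c1, by rw [← h2]; ring⟩
        · exact ⟨j', i', l', c1, c2, by rw [← h2]; ring⟩
        · exact absurd (c2.trans (c3.trans c1)) (lt_irrefl _)
        · exact ⟨j', l', i', c3, c2, by rw [← h2]; ring⟩
        · exact ⟨l', j', i', c3, c1, by rw [← h2]; ring⟩
      have hi := i.2
      have hj := j.2
      have hl := l.2
      have hs := s.2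
      have hij1 : i.1 < j.1 := hij
      have hjl1 : j.1 < l.1 := hjl
      have a1 := lA_le x (i.1 - 2 * M)
      have a2 := lA_le x (j.1 - 2 * M)
      have a3 := lA_le x (l.1 - 2 * M)
      have b1 := lB_le y s (2 * M - 1 - i.1)
      have b2 := lB_le y s (2 * M - 1 - j.1)
      have b3 := lB_le y s (2 * M - 1 - l.1)
      have b4 := lB_pos y s (2 * M - 1 - i.1)
      have b5 := lB_pos y s (2 * M - 1 - j.1)
      have b6 := lB_pos y s (2 * M - 1 - l.1)
      have key : 2 * M - 1 - i.1 = j.1 - 2 * M + s.1 ∧
          lA x (j.1 - 2 * M) = lB y s (2 * M - 1 - i.1) := by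
        unfold zeroVal at h
        split_ifs at h <;> omega
      obtain ⟨h5, h6⟩ := key
      rw [h5] at h6
      exact l_eq h6 hd
  left := by
    intro s x x' y i h
    show zeroVal m M s x y i.1 = zeroVal m M s x' y i.1
    unfold zeroVal
    by_cases hi : i.1 < 2 * M
    · rw [if_pos hi, if_pos hi]
    · rw [if_neg hi, if_neg hi]
      by_cases hi2 : i.1 < 3 * M
      · rw [if_pos hi2, if_pos hi2, lA_congr fun t ht => h t (Fin.ext (by
          show i.1 = 2 * M + t.1
          omega))]
      · rw [if_neg hi2, if_neg hi2]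
  right := by
    intro s x y y' i h
    show zeroVal m M s x y i.1 = zeroVal m M s x y' i.1
    unfold zeroVal
    by_cases hi : i.1 < 2 * M
    · rw [if_pos hi, if_pos hi, lB_congr fun t ht => h t (Fin.ext (by
        show i.1 = 2 * M - 1 - (t.1 + s.1)
        omega))]
    · rw [if_neg hi, if_neg hi]

theorem zero_inst {m : ℕ} (hm : 55 ≤ m) : HasList (X := ℤ) (m := m) IsSorted HasZero := by
  exact ⟨(m - 1) / 3, by omega, by omega, ⟨zeroInst (by omega) (by omega) (by omega)⟩⟩

/-! ### triangles -/

/-- the edges of the instance for triangles -/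
noncomputable def triVal (M : ℕ) (s : ℕ) (x y : Finset (Fin M)) (i : ℕ) : ℕ × ℕ :=
  if i < M then (lA x i, 3 + i)
  else if i < 3 * M then (lB y s (i - M), 3 + i)
  else if i < 4 * M then (3 + (i - 3 * M), 3 + (i - 3 * M + M + s))
  else (3 + 3 * M + 2 * i, 3 + 3 * M + 2 * i + 1)

lemma triVal_lt {m M s i n : ℕ} (hM : 1 ≤ M) (hm : 4 * M ≤ m) (hn : 4 * m ≤ n) (hi : i < m)
    (hs : s < M) (x y : Finset (Fin M)) :
    (triVal M s x y i).1 < (triVal M s x y i).2 ∧ (triVal M s x y i).2 < n := by
  have a1 := lA_le x i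
  have b1 := lB_le y s (i - M)
  unfold triVal
  split_ifs <;> simp only <;> omega

lemma triVal_inj {M s i j : ℕ}
    (hs : s < M) (x y : Finset (Fin M)) (h : triVal M s x y i = triVal M s x y j) : i = j := by
  have a1 := lA_le x i
  have a2 := lA_le x j
  have b1 := lB_le y s (i - M)
  have b2 := lB_le y s (j - M)
  unfold triVal at h
  split_ifs at h <;> simp only [Prod.mk.injEq] at h <;> omega

/-- the instances for triangles -/
noncomputable def triInst {m M n : ℕ} (hM : 1 ≤ M) (hm : 4 * M ≤ m) (hn : 4 * m ≤ n) :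
    ListInst (X := ℕ × ℕ) (m := m) (IsGraph n) HasTriangle M where
  inst s x y i := triVal M s x y i.1
  e₁ t := ⟨t.1, by omega⟩
  e₂ s t := ⟨M + (t.1 + s.1), by omega⟩
  inj₁ := by
    intro t t' h
    have := congrArg Fin.val h
    exact Fin.ext this
  inj₂ := by
    intro s t t' h
    have := congrArg Fin.val h
    simp only at this
    exact Fin.ext (by omega)
  inj₃ := by
    intro t s s' h
    have := congrArg Fin.val h
    simp only at this
    exact Fin.ext (by omega)
  ne := by
    intro s t t' h
    have := congrArg Fin.val h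
    simp only at this
    omega
  valid := by
    intro s x y
    exact ⟨fun i => triVal_lt hM hm hn i.2 s.2 x y,
      fun i j h => Fin.ext (triVal_inj s.2 x y h)⟩
  iff := by
    intro s x y
    constructor
    · intro h
      by_contra hd
      obtain ⟨t, hx, hy⟩ := not_disjoint_iff.1 hd
      obtain ⟨h1, h2⟩ := l_in s.1 hx hy
      apply h
      have ht := t.2
      have hs := s.2
      refine ⟨1, 3 + t.1, 3 + (t.1 + M + s.1), ⟨⟨t.1, by omega⟩, ?_⟩,
        ⟨⟨M + (t.1 + s.1), by omega⟩, ?_⟩, ⟨⟨3 * M + t.1, by omega⟩, ?_⟩⟩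
      · show triVal M s x y t.1 = _
        unfold triVal
        rw [if_pos ht, h1]
      · show triVal M s x y (M + (t.1 + s.1)) = _
        unfold triVal
        rw [if_neg (by omega), if_pos (by omega), Nat.add_sub_cancel_left, h2]
        exact Prod.ext rfl (by
          show 3 + (M + (t.1 + s.1)) = 3 + (t.1 + M + s.1)
          omega)
      · show triVal M s x y (3 * M + t.1) = _
        unfold triVal
        rw [if_neg (by omega), if_neg (by omega), if_pos (by omega), Nat.add_sub_cancel_left]
    · rintro hd ⟨a, b, c, ⟨i, hi⟩, ⟨j, hj⟩, ⟨l, hl⟩⟩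
      have h1 : triVal M s x y i.1 = (a, b) := hi
      have h2 : triVal M s x y j.1 = (a, c) := hj
      have h3 : triVal M s x y l.1 = (b, c) := hl
      have i2 := i.2
      have j2 := j.2
      have l2 := l.2
      have hs := s.2
      have a1 := lA_le x i.1
      have a2 := lA_le x j.1
      have a3 := lA_le x l.1
      have b1 := lB_le y s (i.1 - M)
      have b2 := lB_le y s (j.1 - M)
      have b3 := lB_le y s (l.1 - M)
      have key : j.1 - M = i.1 + s.1 ∧ lA x i.1 = lB y s (j.1 - M) := by
        unfold triVal at h1 h2 h3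
        split_ifs at h1 h2 h3 <;> simp only [Prod.mk.injEq] at h1 h2 h3 <;> omega
      obtain ⟨h5, h6⟩ := key
      rw [h5] at h6
      exact l_eq h6 hd
  left := by
    intro s x x' y i h
    show triVal M s x y i.1 = triVal M s x' y i.1
    unfold triVal
    by_cases hi : i.1 < M
    · rw [if_pos hi, if_pos hi, lA_congr fun t ht => h t (Fin.ext ht.symm)]
    · rw [if_neg hi, if_neg hi]
  right := by
    intro s x y y' i h
    show triVal M s x y i.1 = triVal M s x y' i.1
    unfold triVal
    by_cases hi : i.1 < M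
    · rw [if_pos hi, if_pos hi]
    · rw [if_neg hi, if_neg hi]
      by_cases hi2 : i.1 < 3 * M
      · rw [if_pos hi2, if_pos hi2, lB_congr fun t ht => h t (Fin.ext (by
          show i.1 = M + (t.1 + s.1)
          omega))]
      · rw [if_neg hi2, if_neg hi2]

theorem tri_inst {m n : ℕ} (hm : 15 ≤ m) (hn : 4 * m ≤ n) :
    HasList (X := ℕ × ℕ) (m := m) (IsGraph n) HasTriangle := by
  exact ⟨m / 4, by omega, by omega, ⟨triInst (by omega) (by omega) hn⟩⟩

end Pool.Agent.U286.LY
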