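import Mathlib
import Pool.Agent.U286.LY.Lst

/-!
# Lists: random circuits of bounded width with bounded error
-/

set_option autoImplicit false

open Finset

namespace Pool.Agent.U286.LY

open Pool.Agent.Y631.Wc Pool.Agent.U286.LY.ET

lemma WidthLE.mono {ι X Z : Type} {C : WCirc ι X Z} {c c' : ℕ} (h : WidthLE C c) (hc : c ≤ c') :
    WidthLE C c' := by
  rcases h with ⟨θ, h1, h2⟩ | ⟨k, h1, h2⟩
  · exact Or.inl ⟨θ, h1, h2.trans hc⟩
  · exact Or.inr ⟨k, h1, h2.trans (Nat.pow_le_pow_left hc 2)⟩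

lemma WidthLE.pos {ι X Z : Type} {C : WCirc ι X Z} {c : ℕ} (h : WidthLE C c) : 1 ≤ c := by
  rcases h with ⟨θ, -, h2⟩ | ⟨k, -, h2⟩
  · omega
  · have h1 := size_pos C
    by_contra h3
    have h4 : c = 0 := by omega
    rw [h4] at h2
    omega

theorem FCut.width {ι X Z K : Type} [Fintype K] [Nonempty K] {n r A G : ℕ} (hr : 1 ≤ r)
    (hA : 1 ≤ A) {D : K → WCirc ι X Z} (hcut : FCut D (n * 1) n r A)
    (hW : ∀ k, WidthLE (D k) G) (hR : ∀ k, (D k).reads ≤ r * (n * 1)) :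
    n ≤ 2 ^ 44 * r ^ 2 * (A * Fintype.card K) * G := by
  have hK1 : 1 ≤ Fintype.card K := Fintype.card_pos
  have hAK : 1 ≤ A * Fintype.card K := Nat.mul_pos hA hK1
  obtain ⟨k₀⟩ := (inferInstance : Nonempty K)
  have hG := (hW k₀).pos
  by_cases hn : 9600 * r ≤ n
  · obtain ⟨w, hw0, hw1, hw2⟩ := choose_w hr hn
    have h6 := hcut.use' (β := 2 ^ 44 * (r ^ 2 * 1 * G)) hn hw1 (fun k => by
      rcases hW k with ⟨θ, h1, h2⟩ | ⟨k', h1, h2⟩
      · obtain ⟨ν, B, part, hB, h3⟩ := parts_treewidth hr hw0 hw2 le_rfl (D k) h1 (hR k)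
        refine ⟨ν, B, part, hB, h3.trans ?_⟩
        gcongr
        · norm_num
        · norm_num
      · exact parts_drawing hr le_rfl hw0 hw2 hG (g := G ^ 2) (by omega) (D k) h1 h2 (hR k))
    calc n = n * 1 := (mul_one n).symm
      _ ≤ A * (Fintype.card K * (2 ^ 44 * (r ^ 2 * 1 * G))) := h6
      _ = _ := by ring
  · push Not at hn
    calc n ≤ 9600 * r := hn.le
      _ ≤ 2 ^ 44 * r ^ 2 := by
          calc 9600 * r ≤ 2 ^ 44 * (r * r) := by
                apply Nat.mul_le_mul (by norm_num)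
                nlinarith
            _ = _ := by ring
      _ = 2 ^ 44 * r ^ 2 * 1 * 1 := by ring
      _ ≤ _ := by gcongr

/-- numbers -/
lemma consts_width (r : ℕ) (hr : 1 ≤ r) :
    2 ^ 44 * (640 * r) ^ 2 * (2 ^ (102400 * r + 18) * 160) * 640 ≤ 2 ^ (110000 * r) := by
  have hr2 : r ≤ 2 ^ r := Nat.lt_two_pow_self.le
  calc 2 ^ 44 * (640 * r) ^ 2 * (2 ^ (102400 * r + 18) * 160) * 640 ≤
      2 ^ 44 * (2 ^ 10 * 2 ^ r) ^ 2 * (2 ^ (102400 * r + 18) * 2 ^ 8) * 2 ^ 10 := by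
        gcongr <;> norm_num
    _ = 2 ^ (44 + (10 + r) * 2 + (102400 * r + 18 + 8) + 10) := by
        rw [← pow_add 2 10, ← pow_mul 2 (10 + r), ← pow_add 2 (102400 * r + 18), ← pow_add,
          ← pow_add, ← pow_add]
    _ ≤ _ := Nat.pow_le_pow_right (by norm_num) (by omega)

section

variable {X : Type}

/-- **Width.** -/
theorem all_width {m₀ m r κ b : ℕ} {V F : (Fin m → X) → Prop} (hm₀ : m₀ ≤ 2 ^ 100)
    (I : m₀ ≤ m → HasList V F) (hr : 1 ≤ r) (hb : 1 ≤ b) {Z : Type} [Fintype Z]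
    (hZ : Fintype.card Z ≤ 2 ^ b) {Ω : Type} [Fintype Ω] (p : Ω → ℝ) (C : Ω → WCirc (Fin m) X Z)
    (h : Rand V F κ p C) (hR : mean p (fun ω => (C ω).reads) ≤ r * m)
    (c : Ω → ℕ) (hc : ∀ ω, WidthLE (C ω) (c ω)) :
    (m : ℝ) ≤ 2 ^ (110000 * r) * ((κ + 1) * b * mean p c) := by
  have hkb : 1 ≤ (κ + 1) * b := Nat.mul_pos (Nat.succ_pos _) hb
  have hkbR : (1 : ℝ) ≤ ((κ : ℝ) + 1) * b := by exact_mod_cast hkb
  have hT1 : 1 ≤ mean p c :=
    one_le_mean h.nonneg h.total (c := fun ω => (c ω : ℝ)) (fun ω => by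
      have h1 := (hc ω).pos
      exact_mod_cast h1) le_rfl
  by_cases hm : m₀ ≤ m
  · obtain ⟨M, hM1, hM2, ⟨J⟩⟩ := I hm
    obtain ⟨ω, h1, hω, h2⟩ := chosen_list hM1 hM2 hr hb hZ J p h.nonneg h.total C h.det h.fanIn
      h.error hR (fun ω => (c ω : ℝ)) (fun ω => Nat.cast_nonneg _) (mean p c) (by linarith) le_rfl
    obtain ⟨G, hG⟩ : ∃ G : ℕ, G = ⌊640 * mean p c⌋₊ := ⟨_, rfl⟩
    have hG1 : (G : ℝ) ≤ 640 * mean p c := by rw [hG]; exact Nat.floor_le (by linarith)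
    have h3 := h2.width (G := G) (by omega) (Nat.mul_pos (by positivity) hkb)
      (fun k => (hc (ω k)).mono (by rw [hG]; exact Nat.le_floor (hω k))) h1
    rw [Fintype.card_fin] at h3
    have h4 : (m : ℝ) ≤ 2 ^ 44 * (640 * r) ^ 2 *
        (2 ^ (102400 * r + 18) * ((κ + 1) * b) * 160) * G := by exact_mod_cast h3
    have h5 : (2 : ℝ) ^ 44 * (640 * r) ^ 2 * (2 ^ (102400 * r + 18) * 160) * 640 ≤
        2 ^ (110000 * r) := by exact_mod_cast consts_width r hr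
    calc (m : ℝ) ≤ 2 ^ 44 * (640 * r) ^ 2 *
          (2 ^ (102400 * r + 18) * ((κ + 1) * b) * 160) * G := h4
      _ ≤ 2 ^ 44 * (640 * r) ^ 2 *
          (2 ^ (102400 * r + 18) * ((κ + 1) * b) * 160) * (640 * mean p c) := by gcongr
      _ = (2 ^ 44 * (640 * r) ^ 2 * (2 ^ (102400 * r + 18) * 160) * 640) *
          ((κ + 1) * b * mean p c) := by
          generalize (2 : ℝ) ^ (102400 * r + 18) = X
          ring
      _ ≤ _ := mul_le_mul_of_nonneg_right h5 (by positivity)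
  · have h1 : m ≤ 2 ^ 100 := by omega
    calc (m : ℝ) ≤ 2 ^ 100 * (1 * 1) := by
          have : (m : ℝ) ≤ ((2 ^ 100 : ℕ) : ℝ) := by exact_mod_cast h1
          push_cast at this
          linarith
      _ ≤ _ := by
          gcongr
          · norm_num
          · omega

/-- **Reads against width.** -/
theorem all_reads_width (a κ : ℕ) (ε : ℝ) (hε : 0 < ε) : ∃ n₀ : ℕ, ∀ m ≥ n₀,
    ∀ (V F : (Fin m → X) → Prop), HasList V F → ∀ (Z : Type) [Fintype Z], Fintype.card Z ≤ m ^ a →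
    ∀ (Ω : Type) [Fintype Ω] (p : Ω → ℝ) (C : Ω → WCirc (Fin m) X Z) (c : Ω → ℕ),
      Rand V F κ p C → (∀ ω, WidthLE (C ω) (c ω)) → mean p c ≤ (m : ℝ) ^ (1 - ε) →
      ε / 440000 * (m * Real.logb 2 m) ≤ mean p fun ω => (C ω).reads := by
  obtain ⟨n₀, hn₀⟩ := trade_log ((κ + 1) * (a + 1)) 1 110000 1 (by norm_num) 1 ε hε
  refine ⟨n₀, fun m hm V F I Z _ hZ Ω _ p C c h hc hT => ?_⟩
  have h2 := hn₀ m hm (mean p fun ω => (C ω).reads)
    ((m : ℝ) ^ (1 - ε)) (by positivity) le_rfl (fun r hr hR => by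
      have h3 := all_width (m₀ := 0) (by positivity) (fun _ => I)
        (b := (a + 1) * (Nat.log 2 m + 1)) hr
        (Nat.mul_pos (Nat.succ_pos _) (Nat.succ_pos _)) (card_words hZ) p C h
        (by rw [pow_one] at hR; exact hR) c hc
      rw [Real.rpow_one]
      refine h3.trans ?_
      calc (2 : ℝ) ^ (110000 * r) * ((κ + 1) * (((a + 1) * (Nat.log 2 m + 1) : ℕ) : ℝ) *
            mean p c) ≤
          2 ^ (110000 * r) * ((κ + 1) * (((a + 1) * (Nat.log 2 m + 1) : ℕ) : ℝ) *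
            (m : ℝ) ^ (1 - ε)) := by gcongr
        _ = _ := by
            push_cast
            generalize (2 : ℝ) ^ (110000 * r) = X
            ring)
  calc _ = ε / (4 * ((110000 : ℕ) : ℝ)) * ((m : ℝ) ^ 1 * Real.logb 2 m) := by norm_num
    _ ≤ _ := h2

end

end Pool.Agent.U286.LY
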