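import Mathlib

/-!
# Adaptive queries
-/

set_option autoImplicit false

namespace Pool.Agent.U286.LY

/-- A query procedure with `T` adaptive steps: the address of step `i` is an arbitrary function of
the answers to the steps before `i`, and the decision (yes or no) is an arbitrary function of all `T`
answers. The addresses are in `α`, the answers in `Z`. -/
structure Query (α Z : Type) (T : ℕ) where
  /-- the address of step `i` -/
  addr : (i : Fin T) → (Fin (i : ℕ) → Z) → α
  /-- the decision -/
  ans : (Fin T → Z) → Prop

/-- The procedure says yes if the address `a` has the contents `val a`: `o` are the answers. -/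
def Query.Yes {α Z : Type} {T : ℕ} (q : Query α Z T) (val : α → Z) : Prop :=
  ∃ o : Fin T → Z, (∀ i, o i = val (q.addr i fun j => o (Fin.castLE i.2.le j))) ∧ q.ans o

end Pool.Agent.U286.LY
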