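import Mathlib
import Pool.Agent.U286.LY.LDef
import Pool.Agent.U286.LY.QDef

/-!
# Data structures for two arrays whose memory is computed by a word circuit: the definitions
-/

set_option autoImplicit false

open Finset

namespace Pool.Agent.U286.LY

open Pool.Agent.Y631.Wc

/-- The addresses of the memory: the gates of the circuit, and all functions of the first array and
all functions of the second array (with values in `Z`). -/
abbrev Addr (n size : ℕ) (X Z : Type) : Type := Fin size ⊕ ((Fin n → X) → Z) ⊕ ((Fin n → X) → Z)

/-- The contents of the memory, if `v` are the words at the gates. -/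
def contents {n size : ℕ} {X Z : Type} (v : Fin size → Z) (A₁ A₂ : Fin n → X) :
    Addr n size X Z → Z
  | Sum.inl g => v g
  | Sum.inr (Sum.inl f) => f A₁
  | Sum.inr (Sum.inr f) => f A₂

/-- A data structure for two arrays of `n` items. The memory consists of the words at all gates of a
word circuit which reads the items of the arrays (the preprocessing), and of all functions of one of
the arrays. For every query `z` there is a procedure with `T` adaptive steps; in each step one
address of the memory is read. -/
structure DS (n T : ℕ) (X Z Qu : Type) where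
  /-- the preprocessing -/
  circ : WCirc (Fin n ⊕ Fin n) X Z
  /-- the procedures -/
  proc : Qu → Query (Addr n circ.size X Z) Z T

/-- The data structure says yes for the arrays `A₁`, `A₂` and the query `z`. -/
def DS.Says {n T : ℕ} {X Z Qu : Type} (D : DS n T X Z Qu) (A₁ A₂ : Fin n → X) (z : Qu) : Prop :=
  ∃ v, D.circ.Run (Sum.elim A₁ A₂) v ∧ (D.proc z).Yes (contents v A₁ A₂)

open Classical in
/-- Random data structures `D ω` (with probability `p ω`) whose circuits are deterministic and of
fan-in at most `κ`; for all arrays with the property `V` and every query `z` the question `F` is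
answered with an error of at most `1 / 3`. -/
structure RandDS {n T : ℕ} {X Z Qu Ω : Type} [Fintype Ω] (V : (Fin n → X) → (Fin n → X) → Prop)
    (F : (Fin n → X) → (Fin n → X) → Qu → Prop) (κ : ℕ) (p : Ω → ℝ) (D : Ω → DS n T X Z Qu) :
    Prop where
  nonneg : ∀ ω, 0 ≤ p ω
  total : ∑ ω, p ω = 1
  det : ∀ ω, (D ω).circ.Deterministic
  fanIn : ∀ ω, (D ω).circ.FanIn κ
  error : ∀ A₁ A₂, V A₁ A₂ → ∀ z, ∑ ω with ¬ ((D ω).Says A₁ A₂ z ↔ F A₁ A₂ z), p ω ≤ 1 / 3

end Pool.Agent.U286.LY
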