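import Mathlib
import Pool.Agent.U286.LY.Probe
import Pool.Agent.U286.LY.LWidth
import Pool.Agent.U286.LY.IdxDef

/-!
# Data structures for two arrays whose memory is computed by a word circuit
-/

set_option autoImplicit false

open Finset

namespace Pool.Agent.U286.LY

open Pool.Agent.Y631.Wc Pool.Agent.U286.LY.ET

open Classical in
/-- **The choice of the family**, for abstract acceptance. -/
theorem choose_family' {P S Ω A : Type} [Fintype P] [Nonempty P] [Fintype S] [Nonempty S]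
    [Fintype Ω] [DecidableEq P] (p : Ω → ℝ) (hp : ∀ ω, 0 ≤ p ω) (hp1 : ∑ ω, p ω = 1)
    (Ac : Ω → A → Prop) (V F : A → Prop)
    (hF : ∀ a, V a → ∑ ω with ¬ (Ac ω a ↔ F a), p ω ≤ 1 / 3)
    (inst : S → Finset P → Finset P → A) (hV : ∀ s x y, V (inst s x y))
    (hFi : ∀ s x y, ¬ F (inst s x y) ↔ Disjoint x y) (c₁ c₂ : Ω → ℝ) (h₁ : ∀ ω, 0 ≤ c₁ ω)
    (h₂ : ∀ ω, 0 ≤ c₂ ω) (R₁ R₂ : ℝ) (hR₁ : 0 < R₁) (hR₂ : 0 < R₂)
    (hc₁ : ∑ ω, p ω * c₁ ω ≤ R₁) (hc₂ : ∑ ω, p ω * c₂ ω ≤ R₂) :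
    ∃ ω : Fin 160 → Ω, ∑ k, c₁ (ω k) ≤ 640 * R₁ ∧ ∑ k, c₂ (ω k) ≤ 640 * R₂ ∧
      ∑ s, ∑ t, err (fun x y => half fun k => Ac (ω k) (inst s x y)) t ≤
      1 / 16 * (Fintype.card S * Fintype.card P * 4 ^ (Fintype.card P - 1)) := by
  obtain ⟨c, hc⟩ : ∃ c : Ω → ℝ, ∀ ω, c ω = c₁ ω / R₁ + c₂ ω / R₂ := ⟨_, fun _ => rfl⟩
  have hc0 : ∀ ω, 0 ≤ c ω := fun ω => by
    rw [hc]
    exact add_nonneg (div_nonneg (h₁ ω) hR₁.le) (div_nonneg (h₂ ω) hR₂.le)
  have hce : ∑ ω, p ω * c ω ≤ 2 := by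
    have h3 : ∑ ω, p ω * c ω = (∑ ω, p ω * c₁ ω) / R₁ + (∑ ω, p ω * c₂ ω) / R₂ := by
      rw [sum_div, sum_div, ← sum_add_distrib]
      refine sum_congr rfl fun ω _ => ?_
      rw [hc]
      ring
    rw [h3]
    have h4 : (∑ ω, p ω * c₁ ω) / R₁ ≤ 1 := (div_le_one hR₁).2 hc₁
    have h5 : (∑ ω, p ω * c₂ ω) / R₂ ≤ 1 := (div_le_one hR₂).2 hc₂
    linarith
  obtain ⟨ω, h1, h2⟩ := choose_acc (ι := Unit) (X := A) (P := P) (S := S) (Ω := Fin 160 → Ω)
    (fun ω => ∏ k, p (ω k)) (fun ω => prod_nonneg fun k _ => hp _) (sum_prod_one hp1)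
    (fun ω z => half fun k => Ac (ω k) (z ())) (fun z => V (z ())) (fun z => ¬ F (z ()))
    (fun z hz => by
      have := amplify p hp hp1 (fun ω (z : Unit → A) => Ac ω (z ())) (fun z => F (z ())) z
        (hF (z ()) hz)
      convert this using 2
      ext ω
      simp only [mem_filter])
    (fun s x y _ => inst s x y) (fun s x y => hV s x y) (fun s x y => hFi s x y)
    (fun ω => ∑ k, c (ω k))
    (fun ω => sum_nonneg fun k _ => hc0 _) 320 (by norm_num) (by
      calc ∑ ω : Fin 160 → Ω, (∏ k, p (ω k)) * ∑ k, c (ω k) =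
          ∑ k : Fin 160, ∑ ω : Fin 160 → Ω, (∏ k, p (ω k)) * c (ω k) := by
            simp only [mul_sum]
            rw [sum_comm]
        _ = ∑ _k : Fin 160, ∑ ω, p ω * c ω :=
            sum_congr rfl fun k _ => sum_prod_single hp1 c k
        _ ≤ ∑ _k : Fin 160, 2 := sum_le_sum fun _ _ => hce
        _ = 320 := by
            rw [sum_const, card_univ, Fintype.card_fin, nsmul_eq_mul]
            norm_num)
  have h3 : ∑ k, c (ω k) = (∑ k, c₁ (ω k)) / R₁ + (∑ k, c₂ (ω k)) / R₂ := by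
    rw [sum_div, sum_div, ← sum_add_distrib]
    exact sum_congr rfl fun k _ => hc _
  have h4 : 0 ≤ (∑ k, c₁ (ω k)) / R₁ := div_nonneg (sum_nonneg fun k _ => h₁ _) hR₁.le
  have h5 : 0 ≤ (∑ k, c₂ (ω k)) / R₂ := div_nonneg (sum_nonneg fun k _ => h₂ _) hR₂.le
  refine ⟨ω, ?_, ?_, h2⟩
  · rw [← div_le_iff₀ hR₁]
    linarith
  · rw [← div_le_iff₀ hR₂]
    linarith

section memory

variable {n T : ℕ} {X Z Qu : Type}

/-- the words at the gates -/
noncomputable def mem {C : WCirc (Fin n ⊕ Fin n) X Z} (h : C.Deterministic)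
    (x : Fin n ⊕ Fin n → X) : Fin C.size → Z := Classical.choose (exists_run h x)

lemma mem_run {C : WCirc (Fin n ⊕ Fin n) X Z} (h : C.Deterministic) (x : Fin n ⊕ Fin n → X) :
    C.Run x (mem h x) := Classical.choose_spec (exists_run h x)

/-- the contents of the memory -/
noncomputable def cont {C : WCirc (Fin n ⊕ Fin n) X Z} (h : C.Deterministic)
    (a : Addr n C.size X Z) (x : Fin n ⊕ Fin n → X) : Z :=
  contents (mem h x) (fun i => x (Sum.inl i)) (fun i => x (Sum.inr i)) a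

lemma says_iff {D : DS n T X Z Qu} (h : D.circ.Deterministic) (x : Fin n ⊕ Fin n → X) (z : Qu) :
    D.Says (fun i => x (Sum.inl i)) (fun i => x (Sum.inr i)) z ↔
      (D.proc z).Yes fun a => cont h a x := by
  have hx : Sum.elim (fun i => x (Sum.inl i)) (fun i => x (Sum.inr i)) = x := by
    funext i
    cases i <;> rfl
  unfold DS.Says
  rw [hx]
  constructor
  · rintro ⟨v, hv, h1⟩
    have h2 : v = mem h x := run_unique h hv (mem_run h x)
    rw [h2] at h1
    exact h1
  · intro h1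
    exact ⟨mem h x, mem_run h x, h1⟩

end memory

/-- A family of instances for two arrays of `n` items and a query. -/
structure IdxInst {X Qu : Type} {n : ℕ} (V : (Fin n → X) → (Fin n → X) → Prop)
    (F : (Fin n → X) → (Fin n → X) → Qu → Prop) (M : ℕ) where
  /-- the first array -/
  A₁ : Fin M → Finset (Fin M) → Fin n → X
  /-- the second array -/
  A₂ : Fin M → Finset (Fin M) → Fin n → X
  /-- the query -/
  query : Fin M → Qu
  /-- the places in the first array -/
  e₁ : Fin M → Fin n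
  /-- the places in the second array -/
  e₂ : Fin M → Fin M → Fin n
  inj₁ : Function.Injective e₁
  inj₂ : ∀ s, Function.Injective (e₂ s)
  inj₃ : ∀ t, Function.Injective fun s => e₂ s t
  valid : ∀ s x y, V (A₁ s x) (A₂ s y)
  iff : ∀ s x y, ¬ F (A₁ s x) (A₂ s y) (query s) ↔ Disjoint x y
  left : ∀ s x x' i, (∀ t, i = e₁ t → (t ∈ x ↔ t ∈ x')) → A₁ s x i = A₁ s x' i
  right : ∀ s y y' i, (∀ t, i = e₂ s t → (t ∈ y ↔ t ∈ y')) → A₂ s y i = A₂ s y' i

section

variable {n r κ b T : ℕ} {X Z Ω Qu : Type}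

/-- numbers -/
lemma consts_idx (r : ℕ) (hr : 1 ≤ r) :
    2 ^ 44 * (640 * r) ^ 2 * (2 ^ (102400 * r + 18) * 160) * 642 ≤ 2 ^ (110000 * r) := by
  have hr2 : r ≤ 2 ^ r := Nat.lt_two_pow_self.le
  calc 2 ^ 44 * (640 * r) ^ 2 * (2 ^ (102400 * r + 18) * 160) * 642 ≤
      2 ^ 44 * (2 ^ 10 * 2 ^ r) ^ 2 * (2 ^ (102400 * r + 18) * 2 ^ 8) * 2 ^ 10 := by
        gcongr <;> norm_num
    _ = 2 ^ (44 + (10 + r) * 2 + (102400 * r + 18 + 8) + 10) := by
        rw [← pow_add 2 10, ← pow_mul 2 (10 + r), ← pow_add 2 (102400 * r + 18), ← pow_add,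
          ← pow_add, ← pow_add]
    _ ≤ _ := Nat.pow_le_pow_right (by norm_num) (by omega)

/-- **The bound for large arrays.** -/
theorem idx_width [Fintype Z] [Fintype Ω] {M : ℕ} (hM : 1 ≤ M) (hn : n ≤ 5 * M) (hr : 1 ≤ r)
    (hb : 1 ≤ b) (hZ : Fintype.card Z ≤ 2 ^ b) {V : (Fin n → X) → (Fin n → X) → Prop}
    {F : (Fin n → X) → (Fin n → X) → Qu → Prop} (I : IdxInst V F M)
    (p : Ω → ℝ) (D : Ω → DS n T X Z Qu) (h : RandDS V F κ p D)
    (hR : mean p (fun ω => (D ω).circ.reads) ≤ r * n) (c : Ω → ℕ)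
    (hc : ∀ ω, WidthLE (D ω).circ (c ω)) :
    (n : ℝ) ≤ 2 ^ (110000 * r) * ((κ + 1) * b * (mean p c + T)) := by
  classical
  have : Nonempty (Fin M) := ⟨⟨0, by omega⟩⟩
  have hrR : (1 : ℝ) ≤ r := by exact_mod_cast hr
  have hkb : 1 ≤ (κ + 1) * b := Nat.mul_pos (Nat.succ_pos _) hb
  have hT1 : 1 ≤ mean p c :=
    one_le_mean h.nonneg h.total (c := fun ω => (c ω : ℝ)) (fun ω => by
      have h1 := (hc ω).pos
      exact_mod_cast h1) le_rfl
  by_cases hn0 : n = 0
  · exfalso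
    have h1 := (I.e₁ ⟨0, by omega⟩).2
    omega
  have hnR : (0 : ℝ) < n := by exact_mod_cast Nat.pos_of_ne_zero hn0
  obtain ⟨A, hA⟩ : ∃ A : Type, A = ((Fin n ⊕ Fin n → X) × Qu) := ⟨_, rfl⟩
  subst hA
  obtain ⟨inst, hinst⟩ : ∃ inst : Fin M → Finset (Fin M) → Finset (Fin M) → Fin n ⊕ Fin n → X,
    ∀ s x y, inst s x y = Sum.elim (I.A₁ s x) (I.A₂ s y) := ⟨_, fun _ _ _ => rfl⟩
  have hl : ∀ s x y, (fun i => inst s x y (Sum.inl i)) = I.A₁ s x := by
    intro s x y
    rw [hinst]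
    rfl
  have hr' : ∀ s x y, (fun i => inst s x y (Sum.inr i)) = I.A₂ s y := by
    intro s x y
    rw [hinst]
    rfl
  obtain ⟨ω, h1, hω, h2⟩ := choose_family' (P := Fin M) (S := Fin M)
    (A := (Fin n ⊕ Fin n → X) × Qu) p h.nonneg h.total
    (fun ω a => (D ω).Says (fun i => a.1 (Sum.inl i)) (fun i => a.1 (Sum.inr i)) a.2)
    (fun a => V (fun i => a.1 (Sum.inl i)) (fun i => a.1 (Sum.inr i)))
    (fun a => F (fun i => a.1 (Sum.inl i)) (fun i => a.1 (Sum.inr i)) a.2)
    (fun a ha => h.error _ _ ha a.2)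
    (fun s x y => (inst s x y, I.query s))
    (fun s x y => by
      show V (fun i => inst s x y (Sum.inl i)) (fun i => inst s x y (Sum.inr i))
      rw [hl, hr']
      exact I.valid s x y)
    (fun s x y => by
      show ¬ F (fun i => inst s x y (Sum.inl i)) (fun i => inst s x y (Sum.inr i)) (I.query s) ↔ _
      rw [hl, hr']
      exact I.iff s x y)
    (fun ω => ((D ω).circ.reads : ℝ)) (fun ω => (c ω : ℝ)) (fun ω => Nat.cast_nonneg _)
    (fun ω => Nat.cast_nonneg _) (r * (n : ℝ)) (mean p c) (by positivity) (by linarith) hR le_rfl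
  have h1' : ∑ k, (D (ω k)).circ.reads ≤ 640 * r * (n * 1) := by
    have h3 : ((∑ k, (D (ω k)).circ.reads : ℕ) : ℝ) ≤ ((640 * r * (n * 1) : ℕ) : ℝ) := by
      push_cast
      calc ∑ k, ((D (ω k)).circ.reads : ℝ) ≤ 640 * (r * (n : ℝ)) := h1
        _ = _ := by ring
    exact_mod_cast h3
  obtain ⟨r', hr1⟩ : ∃ r', r' = 640 * r := ⟨_, rfl⟩
  rw [← hr1] at h1'
  obtain ⟨G, hG⟩ : ∃ G : ℕ, G = ⌊640 * mean p c⌋₊ := ⟨_, rfl⟩
  have hG1 : (G : ℝ) ≤ 640 * mean p c := by rw [hG]; exact Nat.floor_le (by linarith)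
  have hW : ∀ k, WidthLE (D (ω k)).circ G := fun k => (hc (ω k)).mono (by
    rw [hG]
    exact Nat.le_floor (le_trans (single_le_sum (f := fun k => (c (ω k) : ℝ))
      (fun _ _ => Nat.cast_nonneg _) (mem_univ k)) hω))
  have hR' : ∀ k, (D (ω k)).circ.reads ≤ r' * (n * 1) := fun k =>
    le_trans (single_le_sum (f := fun k => (D (ω k)).circ.reads)
      (fun _ _ => Nat.zero_le _) (mem_univ k)) h1'
  have hG0 : 1 ≤ G := (hW 0).pos
  -- the bound in natural numbers
  have hmain : n ≤ 2 ^ 44 * (640 * r) ^ 2 * (2 ^ (102400 * r + 18) * ((κ + 1) * b) * 160) *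
      (G + (T + 1)) := by
    by_cases hn1 : 9600 * r' ≤ n
    · obtain ⟨w, hw0, hw1, hw2⟩ := choose_w (by omega : 1 ≤ r') hn1
      have hparts : ∀ k, ∃ (ν : ℕ) (B : Finset (Fin (D (ω k)).circ.size))
          (part : Fin (D (ω k)).circ.size → ℕ), Parts (D (ω k)).circ B part ν w ∧
          B.card + 1 ≤ 2 ^ 44 * (r' ^ 2 * 1 * G) := by
        intro k
        rcases hW k with ⟨θ, a1, a2⟩ | ⟨k', a1, a2⟩
        · obtain ⟨ν, B, part, hB, h3⟩ := parts_treewidth (by omega : 1 ≤ r') hw0 hw2 le_rfl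
            (D (ω k)).circ a1 (hR' k)
          exact ⟨ν, B, part, hB, h3.trans
            (Nat.mul_le_mul (by norm_num) (Nat.mul_le_mul_left _ a2))⟩
        · exact parts_drawing (by omega : 1 ≤ r') le_rfl hw0 hw2 hG0 (g := G ^ 2) (by omega)
            (D (ω k)).circ a1 a2 (hR' k)
      choose ν B part hB hBc using hparts
      obtain ⟨ρ, hρ⟩ : ∃ ρ, ρ = 80 * r' - 1 := ⟨_, rfl⟩
      have hρ1 : ρ + 1 = 80 * r' := by omega
      have h3 := fam_probe (P := Fin M) (S := Fin M) (fun k => (D (ω k)).circ)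
        (fun k => h.det _) half (R := r' * (n * 1)) (ρ := ρ) (b := b) (κ := κ) (T := T)
        (ν := ∑ k, ν k) (w := w) (B := B) (part := part)
        (fun k => h.fanIn _) h1' (fun k => (hB k).mono
          (single_le_sum (f := ν) (fun _ _ => Nat.zero_le _) (mem_univ k)))
        (id : Fin n ⊕ Fin n → Fin n ⊕ Fin n) (fun t => Sum.inl (I.e₁ t))
        (fun s t => Sum.inr (I.e₂ s t))
        (fun t t' h => I.inj₁ (Sum.inl_injective h))
        (fun s t t' h => I.inj₂ s (Sum.inr_injective h))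
        (fun t s s' h => I.inj₃ t (Sum.inr_injective h))
        (fun s t t' h => by cases h)
        (by
          rw [Fintype.card_fin, hρ1]
          calc 16 * (r' * (n * 1)) ≤ 16 * (r' * (5 * M * 1)) := by gcongr
            _ = 80 * r' * M := by ring)
        (by
          rw [Fintype.card_fin]
          have h1 : ρ * w ≤ 80 * r' * w := Nat.mul_le_mul_right _ (by omega)
          have h2 : 9600 * r' * w = 15 * (8 * (80 * r' * w)) := by ring
          omega)
        inst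
        (fun s x x' y i hi => by
          rw [hinst, hinst]
          rcases i with i | i
          · exact I.left s x x' i fun t ht => hi t (by rw [ht]; rfl)
          · rfl)
        (fun s x y y' i hi => by
          rw [hinst, hinst]
          rcases i with i | i
          · rfl
          · exact I.right s y y' i fun t ht => hi t (by rw [ht]; rfl))
        (α := fun k => Addr n (D (ω k)).circ.size X Z)
        (fun s k => (D (ω k)).proc (I.query s))
        (fun k a x => cont (h.det (ω k)) a x)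
        (fun s k a => by
          rcases a with g | f | f
          · exact Or.inl ⟨g, fun z v hv =>
              congrFun (run_unique (h.det (ω k)) (mem_run (h.det (ω k)) z) hv) g⟩
          · refine Or.inr (Or.inl fun x y y' => ?_)
            show f (fun i => inst s x y (Sum.inl i)) = f (fun i => inst s x y' (Sum.inl i))
            rw [hl, hl]
          · refine Or.inr (Or.inr fun x x' y => ?_)
            show f (fun i => inst s x y (Sum.inr i)) = f (fun i => inst s x' y (Sum.inr i))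
            rw [hr', hr'])
        (by
          refine le_trans (le_of_eq ?_) h2
          refine sum_congr rfl fun s _ => sum_congr rfl fun t _ => ?_
          congr 1
          funext x y
          congr 1
          funext k
          exact propext (says_iff (h.det (ω k)) (inst s x y) (I.query s)).symm) hb hZ
      rw [Fintype.card_fin, Fintype.card_fin] at h3
      have h4 : ∑ k, (B k).card + 160 * (T + 1) ≤ 2 ^ 44 * (r' ^ 2 * 1) * 160 * (G + (T + 1)) := by
        have h5 : ∑ k, (B k).card ≤ ∑ _k : Fin 160, 2 ^ 44 * (r' ^ 2 * 1 * G) :=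
          sum_le_sum fun k _ => (Nat.le_succ _).trans (hBc k)
        rw [sum_const, card_univ, Fintype.card_fin, smul_eq_mul] at h5
        have hr0 : 0 < r' := by omega
        have h6 : 1 ≤ 2 ^ 44 * (r' ^ 2 * 1) := Nat.mul_pos (by norm_num) (by positivity)
        calc ∑ k, (B k).card + 160 * (T + 1) ≤ 160 * (2 ^ 44 * (r' ^ 2 * 1 * G)) +
              2 ^ 44 * (r' ^ 2 * 1) * (160 * (T + 1)) :=
              Nat.add_le_add h5 (Nat.le_mul_of_pos_left _ h6)
          _ = _ := by ring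
      calc n ≤ 5 * M := hn
        _ ≤ 2 ^ 5 * (2 ^ (2 * ρ + 15) * ((κ + 1) * b * (∑ k, (B k).card + 160 * (T + 1)))) :=
            Nat.mul_le_mul (by norm_num) h3
        _ ≤ 2 ^ 5 * (2 ^ (2 * ρ + 15) * ((κ + 1) * b *
              (2 ^ 44 * (r' ^ 2 * 1) * 160 * (G + (T + 1))))) := by gcongr
        _ = _ := by
            have h7 : 102400 * r + 18 = 5 + (2 * ρ + 15) := by omega
            rw [h7, pow_add 2 5, ← hr1]
            ring
    · push Not at hn1
      calc n ≤ 9600 * r' := hn1.le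
        _ ≤ 2 ^ 44 * (640 * r) ^ 2 := by
            rw [hr1]
            calc 9600 * (640 * r) ≤ 2 ^ 44 * ((640 * r) * (640 * r)) :=
                  Nat.mul_le_mul (by norm_num) (Nat.le_mul_self _)
              _ = _ := by ring
        _ = 2 ^ 44 * (640 * r) ^ 2 * 1 * 1 := by ring
        _ ≤ _ := by
            apply Nat.mul_le_mul
            · apply Nat.mul_le_mul_left
              exact Nat.mul_pos (Nat.mul_pos (by positivity) hkb) (by norm_num)
            · omega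
  have h4 : (n : ℝ) ≤ 2 ^ 44 * (640 * r) ^ 2 *
      (2 ^ (102400 * r + 18) * ((κ + 1) * b) * 160) * (G + (T + 1)) := by exact_mod_cast hmain
  have h5 : (2 : ℝ) ^ 44 * (640 * r) ^ 2 * (2 ^ (102400 * r + 18) * 160) * 642 ≤
      2 ^ (110000 * r) := by exact_mod_cast consts_idx r hr
  have hTT : (0 : ℝ) ≤ T := Nat.cast_nonneg _
  calc (n : ℝ) ≤ 2 ^ 44 * (640 * r) ^ 2 *
        (2 ^ (102400 * r + 18) * ((κ + 1) * b) * 160) * (G + (T + 1)) := h4
    _ ≤ 2 ^ 44 * (640 * r) ^ 2 *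
        (2 ^ (102400 * r + 18) * ((κ + 1) * b) * 160) * (642 * (mean p c + T)) := by
        gcongr
        linarith
    _ = (2 ^ 44 * (640 * r) ^ 2 * (2 ^ (102400 * r + 18) * 160) * 642) *
        ((κ + 1) * b * (mean p c + T)) := by
        generalize (2 : ℝ) ^ (102400 * r + 18) = X
        ring
    _ ≤ _ := mul_le_mul_of_nonneg_right h5 (by positivity)

end

end Pool.Agent.U286.LY
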