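import Mathlib

/-!
# 3SUM-Indexing: the arrays and the question
-/

set_option autoImplicit false

namespace Pool.Agent.U286.LY

/-- The arrays are strictly increasing, and their items lie between `0` and `5 * n`. -/
def IsPair {n : ℕ} (A₁ A₂ : Fin n → ℤ) : Prop :=
  (∀ i j, i < j → A₁ i < A₁ j) ∧ (∀ i j, i < j → A₂ i < A₂ j) ∧
    ∀ i, (0 ≤ A₁ i ∧ A₁ i ≤ 5 * n) ∧ (0 ≤ A₂ i ∧ A₂ i ≤ 5 * n)

/-- `z` is the sum of an item of the first array and an item of the second array. -/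
def IsSum {n : ℕ} (A₁ A₂ : Fin n → ℤ) (z : ℤ) : Prop := ∃ i j, A₁ i + A₂ j = z

end Pool.Agent.U286.LY
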