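import Mathlib
import Pool.Agent.U286.LY.Idx
import Pool.Agent.U286.LY.LInst
import Pool.Agent.U286.LY.IdxFun

/-!
# 3SUM-Indexing: the instances, and the bounds for all arrays
-/

set_option autoImplicit false

open Finset

namespace Pool.Agent.U286.LY

open Pool.Agent.Y631.Wc Pool.Agent.U286.LY.ET

/-! ### the instances -/

/-- the numbers of the first array -/
noncomputable def idx₁ (M : ℕ) (x : Finset (Fin M)) (i : ℕ) : ℕ :=
  if i < M then 3 * i + lA x i else 6 * M + 3 + i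

/-- the numbers of the second array -/
noncomputable def idx₂ (M s : ℕ) (y : Finset (Fin M)) (i : ℕ) : ℕ :=
  if i < 2 * M then 6 * M + 2 - 3 * (2 * M - 1 - i) - lB y s (2 * M - 1 - i) else 6 * M + 3 + i

/-- the instances for 3SUM-Indexing -/
noncomputable def idxInst {n M : ℕ} (hM : 1 ≤ M) (hn : 2 * M ≤ n) (hn2 : 6 * M + 3 ≤ 4 * n) :
    IdxInst (X := ℤ) (Qu := ℤ) (n := n) IsPair IsSum M where
  A₁ _ x i := (idx₁ M x i.1 : ℤ)
  A₂ s y i := (idx₂ M s y i.1 : ℤ)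
  query s := 6 * M + 2 - 3 * (s.1 : ℤ)
  e₁ t := ⟨t.1, by omega⟩
  e₂ s t := ⟨2 * M - 1 - (t.1 + s.1), by omega⟩
  inj₁ := by
    intro t t' h
    have := congrArg Fin.val h
    exact Fin.ext this
  inj₂ := by
    intro s t t' h
    have := congrArg Fin.val h
    simp only at this
    exact Fin.ext (by omega)
  inj₃ := by
    intro t s s' h
    have := congrArg Fin.val h
    simp only at this
    exact Fin.ext (by omega)
  valid := by
    intro s x y
    have hs := s.2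
    refine ⟨?_, ?_, ?_⟩
    · intro i j h
      have hij : i.1 < j.1 := h
      have a1 := lA_le x i.1
      have a2 := lA_le x j.1
      show ((idx₁ M x i.1 : ℕ) : ℤ) < ((idx₁ M x j.1 : ℕ) : ℤ)
      have h2 : idx₁ M x i.1 < idx₁ M x j.1 := by
        unfold idx₁
        split_ifs <;> omega
      exact_mod_cast h2
    · intro i j h
      have hij : i.1 < j.1 := h
      have b1 := lB_le y s (2 * M - 1 - i.1)
      have b2 := lB_le y s (2 * M - 1 - j.1)
      have b3 := lB_pos y s (2 * M - 1 - i.1)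
      have b4 := lB_pos y s (2 * M - 1 - j.1)
      show ((idx₂ M s y i.1 : ℕ) : ℤ) < ((idx₂ M s y j.1 : ℕ) : ℤ)
      have h2 : idx₂ M s y i.1 < idx₂ M s y j.1 := by
        unfold idx₂
        split_ifs <;> omega
      exact_mod_cast h2
    · intro i
      have hi := i.2
      have a1 := lA_le x i.1
      have h1 : idx₁ M x i.1 ≤ 5 * n := by
        unfold idx₁
        split_ifs <;> omega
      have h2 : idx₂ M s y i.1 ≤ 5 * n := by
        unfold idx₂
        split_ifs <;> omega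
      have h1' : ((idx₁ M x i.1 : ℕ) : ℤ) ≤ 5 * (n : ℤ) := by exact_mod_cast h1
      have h2' : ((idx₂ M s y i.1 : ℕ) : ℤ) ≤ 5 * (n : ℤ) := by exact_mod_cast h2
      exact ⟨⟨Int.natCast_nonneg _, h1'⟩, Int.natCast_nonneg _, h2'⟩
  iff := by
    intro s x y
    have hs := s.2
    constructor
    · intro h
      by_contra hd
      obtain ⟨t, hx, hy⟩ := not_disjoint_iff.1 hd
      obtain ⟨h1, h2⟩ := l_in s.1 hx hy
      have ht := t.2
      apply h
      refine ⟨⟨t.1, by omega⟩, ⟨2 * M - 1 - (t.1 + s.1), by omega⟩, ?_⟩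
      show ((idx₁ M x t.1 : ℕ) : ℤ) + ((idx₂ M s y (2 * M - 1 - (t.1 + s.1)) : ℕ) : ℤ) =
        6 * M + 2 - 3 * (s.1 : ℤ)
      have e1 : idx₁ M x t.1 = 3 * t.1 + 1 := by
        unfold idx₁
        rw [if_pos ht, h1]
      have e2 : idx₂ M s y (2 * M - 1 - (t.1 + s.1)) = 6 * M + 2 - 3 * (t.1 + s.1) - 1 := by
        unfold idx₂
        rw [if_pos (by omega), show 2 * M - 1 - (2 * M - 1 - (t.1 + s.1)) = t.1 + s.1 by omega, h2]
      rw [e1, e2]
      omega
    · rintro hd ⟨i, j, h⟩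
      have hi := i.2
      have hj := j.2
      have h0 : ((idx₁ M x i.1 : ℕ) : ℤ) + ((idx₂ M s y j.1 : ℕ) : ℤ) =
        6 * M + 2 - 3 * (s.1 : ℤ) := h
      have a1 := lA_le x i.1
      have b1 := lB_le y s (2 * M - 1 - j.1)
      have b4 := lB_pos y s (2 * M - 1 - j.1)
      have key : 2 * M - 1 - j.1 = i.1 + s.1 ∧ lA x i.1 = lB y s (2 * M - 1 - j.1) := by
        unfold idx₁ idx₂ at h0
        split_ifs at h0 <;> omega
      obtain ⟨h5, h6⟩ := key
      rw [h5] at h6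
      exact l_eq h6 hd
  left := by
    intro s x x' i h
    show ((idx₁ M x i.1 : ℕ) : ℤ) = ((idx₁ M x' i.1 : ℕ) : ℤ)
    have : idx₁ M x i.1 = idx₁ M x' i.1 := by
      unfold idx₁
      by_cases hi : i.1 < M
      · rw [if_pos hi, if_pos hi, lA_congr fun t ht => h t (Fin.ext ht.symm)]
      · rw [if_neg hi, if_neg hi]
    rw [this]
  right := by
    intro s y y' i h
    show ((idx₂ M s y i.1 : ℕ) : ℤ) = ((idx₂ M s y' i.1 : ℕ) : ℤ)
    have : idx₂ M s y i.1 = idx₂ M s y' i.1 := by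
      unfold idx₂
      by_cases hi : i.1 < 2 * M
      · rw [if_pos hi, if_pos hi, lB_congr fun t ht => h t (Fin.ext (by
          show i.1 = 2 * M - 1 - (t.1 + s.1)
          omega))]
      · rw [if_neg hi, if_neg hi]
    rw [this]

theorem idx_inst {n : ℕ} (hn : 5 ≤ n) :
    ∃ M, 1 ≤ M ∧ n ≤ 5 * M ∧ Nonempty (IdxInst (X := ℤ) (Qu := ℤ) (n := n) IsPair IsSum M) :=
  ⟨n / 2, by omega, by omega, ⟨idxInst (by omega) (by omega) (by omega)⟩⟩

/-! ### the bounds -/

section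

variable {X Qu : Type}

/-- There are instances with large `M`. -/
def HasIdx {n : ℕ} (V : (Fin n → X) → (Fin n → X) → Prop)
    (F : (Fin n → X) → (Fin n → X) → Qu → Prop) : Prop :=
  ∃ M, 1 ≤ M ∧ n ≤ 5 * M ∧ Nonempty (IdxInst V F M)

theorem all_idx {n₀ n r κ b T : ℕ} {V : (Fin n → X) → (Fin n → X) → Prop}
    {F : (Fin n → X) → (Fin n → X) → Qu → Prop} (hn₀ : n₀ ≤ 2 ^ 100) (I : n₀ ≤ n → HasIdx V F)
    (hr : 1 ≤ r) (hb : 1 ≤ b) {Z : Type} [Fintype Z] (hZ : Fintype.card Z ≤ 2 ^ b) {Ω : Type}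
    [Fintype Ω] (p : Ω → ℝ) (D : Ω → DS n T X Z Qu) (h : RandDS V F κ p D)
    (hR : mean p (fun ω => (D ω).circ.reads) ≤ r * n) (c : Ω → ℕ)
    (hc : ∀ ω, WidthLE (D ω).circ (c ω)) :
    (n : ℝ) ≤ 2 ^ (110000 * r) * ((κ + 1) * b * (mean p c + T)) := by
  by_cases hn : n₀ ≤ n
  · obtain ⟨M, hM1, hM2, ⟨J⟩⟩ := I hn
    exact idx_width hM1 hM2 hr hb hZ J p D h hR c hc
  · have hkb : 1 ≤ (κ + 1) * b := Nat.mul_pos (Nat.succ_pos _) hb
    have hkbR : (1 : ℝ) ≤ ((κ : ℝ) + 1) * b := by exact_mod_cast hkb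
    have hT1 : 1 ≤ mean p c :=
      one_le_mean h.nonneg h.total (c := fun ω => (c ω : ℝ)) (fun ω => by
        have h1 := (hc ω).pos
        exact_mod_cast h1) le_rfl
    have hTT : (0 : ℝ) ≤ T := Nat.cast_nonneg _
    have h1 : n ≤ 2 ^ 100 := by omega
    calc (n : ℝ) ≤ 2 ^ 100 * (1 * 1) := by
          have : (n : ℝ) ≤ ((2 ^ 100 : ℕ) : ℝ) := by exact_mod_cast h1
          push_cast at this
          linarith
      _ ≤ _ := by
          gcongr
          · norm_num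
          · omega
          · linarith

/-- **Reads against width and query time.** -/
theorem reads_idx (a κ : ℕ) (ε : ℝ) (hε : 0 < ε) : ∃ n₀ : ℕ, ∀ n ≥ n₀,
    ∀ (V : (Fin n → X) → (Fin n → X) → Prop) (F : (Fin n → X) → (Fin n → X) → Qu → Prop),
    HasIdx V F → ∀ T : ℕ, (T : ℝ) ≤ (n : ℝ) ^ (1 - ε) →
    ∀ (Z : Type) [Fintype Z], Fintype.card Z ≤ n ^ a →
    ∀ (Ω : Type) [Fintype Ω] (p : Ω → ℝ) (D : Ω → DS n T X Z Qu) (c : Ω → ℕ),
      RandDS V F κ p D → (∀ ω, WidthLE (D ω).circ (c ω)) → mean p c ≤ (n : ℝ) ^ (1 - ε) →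
      ε / 440000 * (n * Real.logb 2 n) ≤ mean p fun ω => (D ω).circ.reads := by
  obtain ⟨n₀, hn₀⟩ := trade_log ((κ + 1) * (a + 1) * 2) 1 110000 1 (by norm_num) 1 ε hε
  refine ⟨n₀, fun n hn V F I T hT Z _ hZ Ω _ p D c h hc hcT => ?_⟩
  have h2 := hn₀ n hn (mean p fun ω => (D ω).circ.reads)
    ((n : ℝ) ^ (1 - ε)) (by positivity) le_rfl (fun r hr hR => by
      have h3 := all_idx (n₀ := 0) (by positivity) (fun _ => I)
        (b := (a + 1) * (Nat.log 2 n + 1)) hr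
        (Nat.mul_pos (Nat.succ_pos _) (Nat.succ_pos _)) (card_words hZ) p D h
        (by rw [pow_one] at hR; exact hR) c hc
      rw [Real.rpow_one]
      refine h3.trans ?_
      calc (2 : ℝ) ^ (110000 * r) * ((κ + 1) * (((a + 1) * (Nat.log 2 n + 1) : ℕ) : ℝ) *
            (mean p c + T)) ≤
          2 ^ (110000 * r) * ((κ + 1) * (((a + 1) * (Nat.log 2 n + 1) : ℕ) : ℝ) *
            ((n : ℝ) ^ (1 - ε) + (n : ℝ) ^ (1 - ε))) := by gcongr
        _ = _ := by
            push_cast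
            generalize (2 : ℝ) ^ (110000 * r) = X
            ring)
  calc _ = ε / (4 * ((110000 : ℕ) : ℝ)) * ((n : ℝ) ^ 1 * Real.logb 2 n) := by norm_num
    _ ≤ _ := h2

end

end Pool.Agent.U286.LY
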