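import Mathlib
import Pool.Agent.U286.LY.Probe
import Pool.Agent.U286.LY.Maj

/-!
# Families of circuits whose gates are read by the procedures for many queries
-/

set_option autoImplicit false

open Finset

namespace Pool.Agent.U286.LY

open Pool.Agent.Y631.Wc

section

variable {P : Type} [DecidableEq P]

open Classical in
/-- **Razborov's lemma**, for a part of the elements. -/
theorem corruption' (G : Finset P) (L : P → Prop) (X Y : Finset P → Prop) {m : ℕ}
    (hm : 164 * m ≤ G.card) :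
    ∑ i ∈ G.filter L, ∑ S ∈ (G.erase i).powerset, cnt X S * cnt Y ((G.erase i) \ S) ≤
      100 * ∑ i ∈ G.filter L, ∑ S ∈ (G.erase i).powerset, cnt1 X i S * cnt1 Y i ((G.erase i) \ S) +
      1 / 2 * M0 G X Y + 6 * (G.card * 4 ^ G.card * (9 / 10 : ℝ) ^ m) := by
  have h1 := MB_le G X Y hm
  have h2 := MB_le G Y X hm
  rw [← M0_symm G X Y] at h2
  have h3 : ∑ i ∈ G.filter L, ∑ S ∈ (G.erase i).powerset, cnt X S * cnt Y ((G.erase i) \ S) ≤
      100 * ∑ i ∈ G.filter L, ∑ S ∈ (G.erase i).powerset,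
        cnt1 X i S * cnt1 Y i ((G.erase i) \ S) + MB G X Y + MB G Y X := by
    have h4 : MB G Y X = ∑ i ∈ G, ∑ S ∈ (G.erase i).powerset,
        if 10 * cnt1 Y i ((G.erase i) \ S) < cnt Y ((G.erase i) \ S) +
          cnt1 Y i ((G.erase i) \ S) then cnt Y ((G.erase i) \ S) * cnt X S else 0 := by
      unfold MB
      refine sum_congr rfl fun i _ => ?_
      rw [sum_compl_powerset]
      refine sum_congr rfl fun S hS => ?_
      rw [Finset.sdiff_sdiff_eq_self (mem_powerset.1 hS)]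
    have h5 : ∑ i ∈ G.filter L, ∑ S ∈ (G.erase i).powerset,
        (if 10 * cnt1 X i S < cnt X S + cnt1 X i S then cnt X S * cnt Y ((G.erase i) \ S) else 0) ≤
        MB G X Y := by
      unfold MB
      apply sum_le_sum_of_subset_of_nonneg (filter_subset _ _)
      intro i _ _
      apply sum_nonneg
      intro S _
      split_ifs
      · exact mul_nonneg (cnt_nonneg _ _) (cnt_nonneg _ _)
      · exact le_rfl
    have h6 : ∑ i ∈ G.filter L, ∑ S ∈ (G.erase i).powerset,
        (if 10 * cnt1 Y i ((G.erase i) \ S) < cnt Y ((G.erase i) \ S) +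
          cnt1 Y i ((G.erase i) \ S) then cnt Y ((G.erase i) \ S) * cnt X S else 0) ≤
        MB G Y X := by
      rw [h4]
      apply sum_le_sum_of_subset_of_nonneg (filter_subset _ _)
      intro i _ _
      apply sum_nonneg
      intro S _
      split_ifs
      · exact mul_nonneg (cnt_nonneg _ _) (cnt_nonneg _ _)
      · exact le_rfl
    refine le_trans ?_ (add_le_add (add_le_add_right h5 _) h6)
    rw [mul_sum, ← sum_add_distrib, ← sum_add_distrib]
    apply sum_le_sum
    intro i _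
    rw [mul_sum, ← sum_add_distrib, ← sum_add_distrib]
    apply sum_le_sum
    intro S _
    have a0 := cnt_nonneg X S
    have a1 := cnt1_nonneg X i S
    have b0 := cnt_nonneg Y ((G.erase i) \ S)
    have b1 := cnt1_nonneg Y i ((G.erase i) \ S)
    split_ifs with c1 c2 c2
    · nlinarith
    · nlinarith
    · nlinarith
    · push Not at c1 c2
      have d1 : cnt X S ≤ 10 * cnt1 X i S := by linarith
      have d2 : cnt Y ((G.erase i) \ S) ≤ 10 * cnt1 Y i ((G.erase i) \ S) := by linarith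
      calc cnt X S * cnt Y ((G.erase i) \ S) ≤
          (10 * cnt1 X i S) * (10 * cnt1 Y i ((G.erase i) \ S)) :=
            mul_le_mul d1 d2 b0 (by positivity)
        _ = _ := by ring
  linarith

open Classical in
lemma L0_eq (G : Finset P) (L : P → Prop) (X Y : Finset P → Prop) :
    ∑ i ∈ G.filter L, ∑ S ∈ (G.erase i).powerset, cnt X S * cnt Y ((G.erase i) \ S) =
    ∑ i ∈ G, tri (G.erase i) (fun x y => if (X x ∧ Y y) ∧ L i then 1 else 0) := by
  rw [sum_filter]
  refine sum_congr rfl fun i _ => ?_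
  by_cases hL : L i
  · rw [if_pos hL]
    unfold tri
    refine sum_congr rfl fun S _ => ?_
    have h1 : ∀ x y, (if (X x ∧ Y y) ∧ L i then (1 : ℝ) else 0) = if X x ∧ Y y then 1 else 0 := by
      intro x y
      by_cases h : X x ∧ Y y
      · rw [if_pos h, if_pos ⟨h, hL⟩]
      · rw [if_neg h, if_neg fun h' => h h'.1]
    simp only [h1]
    rw [sum_sum_ite]
    rfl
  · rw [if_neg hL]
    unfold tri
    symm
    apply sum_eq_zero
    intro S _
    apply sum_eq_zero
    intro x _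
    apply sum_eq_zero
    intro y _
    exact if_neg fun h' => hL h'.2

open Classical in
lemma L1_eq (G : Finset P) (L : P → Prop) (X Y : Finset P → Prop) :
    ∑ i ∈ G.filter L, ∑ S ∈ (G.erase i).powerset, cnt1 X i S * cnt1 Y i ((G.erase i) \ S) =
    ∑ i ∈ G, tri (G.erase i)
      (fun x y => if (X (insert i x) ∧ Y (insert i y)) ∧ L i then 1 else 0) := by
  rw [sum_filter]
  refine sum_congr rfl fun i _ => ?_
  by_cases hL : L i
  · rw [if_pos hL]
    unfold tri
    refine sum_congr rfl fun S _ => ?_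
    have h1 : ∀ x y, (if (X (insert i x) ∧ Y (insert i y)) ∧ L i then (1 : ℝ) else 0) =
        if X (insert i x) ∧ Y (insert i y) then 1 else 0 := by
      intro x y
      by_cases h : X (insert i x) ∧ Y (insert i y)
      · rw [if_pos h, if_pos ⟨h, hL⟩]
      · rw [if_neg h, if_neg fun h' => h h'.1]
    simp only [h1]
    rw [sum_sum_ite (fun x => X (insert i x)) (fun y => Y (insert i y))]
    rfl
  · rw [if_neg hL]
    unfold tri
    symm
    apply sum_eq_zero
    intro S _
    apply sum_eq_zero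
    intro x _
    apply sum_eq_zero
    intro y _
    exact if_neg fun h' => hL h'.2

open Classical in
/-- **Unique disjointness with errors**, for many questions. -/
theorem udisj' {Cl : Type} [Fintype Cl] (R : Cl → Finset P → Finset P → Prop) (L : Cl → P → Prop)
    (G : Finset P) (hG : G.Nonempty)
    (rect : ∀ c x y x' y', x ⊆ G → y ⊆ G → x' ⊆ G → y' ⊆ G → R c x y → R c x' y' → R c x y')
    (disj : ∀ c c' x y, R c x y → R c' x y → c = c')
    (herr : ∑ i ∈ G, tri (G.erase i) (fun x y => (if ∃ c, R c x y ∧ L c i then 0 else 1) +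
      200 * (if ∃ c, R c (insert i x) (insert i y) ∧ L c i then 1 else 0)) ≤
        1 / 4 * (G.card * 4 ^ (G.card - 1))) :
    1 ≤ 96 * ((Fintype.card Cl : ℝ) * (9 / 10 : ℝ) ^ (G.card / 164)) := by
  obtain ⟨m, hm⟩ : ∃ m, m = G.card / 164 := ⟨_, rfl⟩
  rw [← hm]
  obtain ⟨X, hX⟩ : ∃ X : Cl → Finset P → Prop, ∀ c x, X c x ↔ x ⊆ G ∧ ∃ y, y ⊆ G ∧ R c x y :=
    ⟨fun c x => x ⊆ G ∧ ∃ y, y ⊆ G ∧ R c x y, fun _ _ => Iff.rfl⟩
  obtain ⟨Y, hY⟩ : ∃ Y : Cl → Finset P → Prop, ∀ c y, Y c y ↔ y ⊆ G ∧ ∃ x, x ⊆ G ∧ R c x y :=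
    ⟨fun c y => y ⊆ G ∧ ∃ x, x ⊆ G ∧ R c x y, fun _ _ => Iff.rfl⟩
  have hXY : ∀ c x y, x ⊆ G → y ⊆ G → (X c x ∧ Y c y ↔ R c x y) := by
    intro c x y hx hy
    rw [hX, hY]
    constructor
    · rintro ⟨⟨_, y', hy', h1⟩, _, x', hx', h2⟩
      exact rect c x y' x' y hx hy' hx' hy h1 h2
    · intro h
      exact ⟨⟨hx, y, hy, h⟩, hy, x, hx, h⟩
  have hone : ∀ (l : Cl → Prop) x y, (∑ c, if R c x y ∧ l c then (1 : ℝ) else 0) =
      if ∃ c, R c x y ∧ l c then 1 else 0 := by
    intro l x y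
    by_cases h : ∃ c, R c x y ∧ l c
    · obtain ⟨c, hc⟩ := h
      rw [if_pos ⟨c, hc⟩, sum_eq_single c]
      · rw [if_pos hc]
      · intro c' _ hcc
        rw [if_neg]
        intro h'
        exact hcc (disj _ _ _ _ h'.1 hc.1)
      · intro h'
        exact absurd (mem_univ _) h'
    · rw [if_neg h]
      apply sum_eq_zero
      intro c _
      rw [if_neg (fun h' => h ⟨c, h'⟩)]
  have hsubG : ∀ i x, x ⊆ G.erase i → x ⊆ G := fun i x h => h.trans (erase_subset _ _)
  have h0 : ∑ c, ∑ i ∈ G.filter (L c), ∑ S ∈ (G.erase i).powerset,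
      cnt (X c) S * cnt (Y c) ((G.erase i) \ S) = ∑ i ∈ G, tri (G.erase i) fun x y =>
      if ∃ c, R c x y ∧ L c i then 1 else 0 := by
    simp only [L0_eq]
    rw [sum_comm]
    refine sum_congr rfl fun i _ => ?_
    rw [← tri_sum]
    apply tri_congr
    intro x y hx hy _
    rw [← hone fun c => L c i]
    refine sum_congr rfl fun c _ => ?_
    simp only [hXY c x y (hsubG i x hx) (hsubG i y hy)]
  have h1 : ∑ c, ∑ i ∈ G.filter (L c), ∑ S ∈ (G.erase i).powerset,
      cnt1 (X c) i S * cnt1 (Y c) i ((G.erase i) \ S) = ∑ i ∈ G, tri (G.erase i) fun x y =>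
      if ∃ c, R c (insert i x) (insert i y) ∧ L c i then 1 else 0 := by
    simp only [L1_eq]
    rw [sum_comm]
    refine sum_congr rfl fun i hi => ?_
    rw [← tri_sum]
    apply tri_congr
    intro x y hx hy _
    rw [← hone fun c => L c i]
    refine sum_congr rfl fun c _ => ?_
    simp only [hXY c _ _ (insert_subset hi (hsubG i x hx)) (insert_subset hi (hsubG i y hy))]
  have hW1 : ∑ c, M0 G (X c) (Y c) ≤ G.card * 4 ^ (G.card - 1) := by
    simp only [M0_eq]
    rw [sum_comm]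
    calc _ ≤ ∑ i ∈ G, (4 : ℝ) ^ (G.card - 1) := by
          apply sum_le_sum
          intro i hi
          rw [← tri_sum, ← card_erase_of_mem hi, ← one_mul ((4 : ℝ) ^ _), ← tri_one]
          apply tri_mono
          intro x y hx hy _
          have h5 := hone (fun _ => True) x y
          simp only [and_true] at h5
          simp only [hXY _ x y (hsubG i x hx) (hsubG i y hy)]
          rw [h5]
          split_ifs <;> norm_num
      _ = _ := by rw [sum_const, nsmul_eq_mul]
  have h2 : ∑ c, ∑ i ∈ G.filter (L c), ∑ S ∈ (G.erase i).powerset,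
      cnt (X c) S * cnt (Y c) ((G.erase i) \ S) ≤
      100 * ∑ c, ∑ i ∈ G.filter (L c), ∑ S ∈ (G.erase i).powerset,
        cnt1 (X c) i S * cnt1 (Y c) i ((G.erase i) \ S) + 1 / 2 * ∑ c, M0 G (X c) (Y c) +
      (Fintype.card Cl : ℝ) * (6 * (G.card * 4 ^ G.card * (9 / 10 : ℝ) ^ m)) := by
    refine (sum_le_sum fun c _ => corruption' G (L c) (X c) (Y c) (m := m) (by omega)).trans ?_
    rw [sum_add_distrib, sum_add_distrib, ← mul_sum, ← mul_sum, sum_const, card_univ,
      nsmul_eq_mul]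
  have h3 : ∑ i ∈ G, tri (G.erase i) (fun x y => (if ∃ c, R c x y ∧ L c i then 0 else 1) +
      200 * (if ∃ c, R c (insert i x) (insert i y) ∧ L c i then 1 else 0)) =
      (∑ i ∈ G, tri (G.erase i) fun x y => (if ∃ c, R c x y ∧ L c i then (0 : ℝ) else 1)) +
      200 * ∑ i ∈ G, tri (G.erase i) fun x y =>
        (if ∃ c, R c (insert i x) (insert i y) ∧ L c i then (1 : ℝ) else 0) := by
    rw [mul_sum, ← sum_add_distrib]
    refine sum_congr rfl fun i _ => ?_
    rw [tri_add, tri_mul]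
  have h4 : (∑ i ∈ G, tri (G.erase i) fun x y => (if ∃ c, R c x y ∧ L c i then (0 : ℝ) else 1)) +
      (∑ i ∈ G, tri (G.erase i) fun x y => if ∃ c, R c x y ∧ L c i then (1 : ℝ) else 0) =
      G.card * 4 ^ (G.card - 1) := by
    rw [← sum_add_distrib]
    calc _ = ∑ i ∈ G, (4 : ℝ) ^ (G.card - 1) := by
          refine sum_congr rfl fun i hi => ?_
          rw [← tri_add, ← card_erase_of_mem hi, ← one_mul ((4 : ℝ) ^ _), ← tri_one]
          apply tri_congr
          intro x y _ _ _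
          by_cases h : ∃ c, R c x y ∧ L c i
          · rw [if_pos h, if_pos h, zero_add]
          · rw [if_neg h, if_neg h, add_zero]
      _ = _ := by rw [sum_const, nsmul_eq_mul]
  have hpos1 : 0 ≤ ∑ i ∈ G, tri (G.erase i) fun x y =>
        (if ∃ c, R c (insert i x) (insert i y) ∧ L c i then (1 : ℝ) else 0) := by
    apply sum_nonneg
    intro i _
    unfold tri
    apply sum_nonneg
    intro S _
    apply sum_nonneg
    intro x _
    apply sum_nonneg
    intro y _
    beta_reduce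
    split_ifs <;> norm_num
  rw [h3] at herr
  rw [h0, h1] at h2
  have hk : 1 ≤ G.card := hG.card_pos
  have h5 : (4 : ℝ) ^ G.card = 4 * 4 ^ (G.card - 1) := by
    rw [← pow_succ']
    congr 1
    omega
  rw [h5] at h2
  have hkR : (1 : ℝ) ≤ G.card := by exact_mod_cast hk
  have hW : 0 < (G.card : ℝ) * 4 ^ (G.card - 1) := by positivity
  obtain ⟨W, hWd⟩ : ∃ W : ℝ, W = (G.card : ℝ) * 4 ^ (G.card - 1) := ⟨_, rfl⟩
  have h6 : 1 * W ≤ 96 * ((Fintype.card Cl : ℝ) * (9 / 10 : ℝ) ^ m) * W := by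
    have h7 : (Fintype.card Cl : ℝ) * (6 * (G.card * (4 * 4 ^ (G.card - 1)) *
        (9 / 10 : ℝ) ^ m)) = 24 * ((Fintype.card Cl : ℝ) * (9 / 10 : ℝ) ^ m) * W := by
      rw [hWd]; ring
    rw [h7] at h2
    rw [← hWd] at h4 herr hW1
    linarith
  rw [← hWd] at hW
  exact le_of_mul_le_mul_right h6 hW

end

section

variable {ι τ X Z K : Type} [Fintype K] [DecidableEq K]

/-- **The engine for families of circuits whose gates are read by the procedures for many
queries.** -/
theorem fam_multi {P S J : Type} [Fintype P] [Nonempty P] [Fintype S] [Nonempty S] [Nonempty K]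
    [Fintype J] (blk : S → P → J)
    [DecidableEq P] [DecidableEq τ] [Fintype Z] (D : K → WCirc ι X Z)
    (hdet : ∀ k, (D k).Deterministic) (Φ : (K → Prop) → Prop) {κ R w ρ ν b T : ℕ}
    (hκ : ∀ k, (D k).FanIn κ) (hR : ∑ k, (D k).reads ≤ R)
    {B : ∀ k, Finset (Fin (D k).size)} {part : ∀ k, Fin (D k).size → ℕ}
    (hB : ∀ k, Parts (D k) (B k) (part k) ν w) (own : ι → τ)
    (e₁ : P → τ) (e₂ : S → P → τ) (he₁ : Function.Injective e₁)
    (he₂ : ∀ s, Function.Injective (e₂ s)) (he₃ : ∀ t, Function.Injective fun s => e₂ s t)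
    (he₄ : ∀ s t t', e₁ t ≠ e₂ s t')
    (hρ : 16 * R ≤ (ρ + 1) * Fintype.card P) (hw : 8 * (ρ * w) ≤ Fintype.card S)
    (inst : S → Finset P → Finset P → ι → X)
    (hi1 : ∀ s x x' y i, (∀ t, own i = e₁ t → (t ∈ x ↔ t ∈ x')) → inst s x y i = inst s x' y i)
    (hi2 : ∀ s x y y' i, (∀ t, own i = e₂ s t → (t ∈ y ↔ t ∈ y')) → inst s x y i = inst s x y' i)
    {α : K → Type} (q : S → J → ∀ k, Query (α k) Z T) (val : ∀ k, α k → (ι → X) → Z)
    (hval : ∀ s k a, (∃ g, ∀ z v, (D k).Run z v → val k a z = v g) ∨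
      (∀ x y y', val k a (inst s x y) = val k a (inst s x y')) ∨
      (∀ x x' y, val k a (inst s x y) = val k a (inst s x' y)))
    (herr : ∑ s, ∑ t, err (fun x y => Φ fun k =>
      (q s (blk s t) k).Yes fun a => val k a (inst s x y)) t ≤
      1 / 16 * (Fintype.card S * Fintype.card P * 4 ^ (Fintype.card P - 1)))
    (hb : 1 ≤ b) (hZ : Fintype.card Z ≤ 2 ^ b) :
    Fintype.card P ≤ 2 ^ (2 * ρ + 16) *
      ((κ + 1) * b * (∑ k, (B k).card + Fintype.card K * (Fintype.card J * T + 1))) := by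
  classical
  obtain ⟨M, hM⟩ : ∃ M, M = Fintype.card P := ⟨_, rfl⟩
  have hM1 : 1 ≤ M := by rw [hM]; exact Fintype.card_pos
  have hK1 : 1 ≤ Fintype.card K := Fintype.card_pos
  have hkb : 1 ≤ (κ + 1) * b := Nat.mul_pos (Nat.succ_pos _) hb
  obtain ⟨β, hβ⟩ : ∃ β, β = ∑ k, (B k).card := ⟨_, rfl⟩
  by_cases hbig : 16 * (κ * ∑ k, (B k).card) ≤ Fintype.card P
  swap
  · rw [← hβ] at hbig ⊢
    push Not at hbig
    calc Fintype.card P ≤ 16 * (κ * β) := hbig.le
      _ ≤ 2 ^ (2 * ρ + 16) *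
          ((κ + 1) * b * (β + Fintype.card K * (Fintype.card J * T + 1))) := by
          apply Nat.mul_le_mul
          · calc 16 = 2 ^ 4 := by norm_num
              _ ≤ _ := Nat.pow_le_pow_right (by norm_num) (by omega)
          · apply Nat.mul_le_mul _ (Nat.le_add_right _ _)
            calc κ ≤ (κ + 1) * 1 := by omega
              _ ≤ _ := Nat.mul_le_mul_left _ hb
  have hgood := many_fgood D hκ hR hB own e₁ e₂ he₁ he₂ he₃ hρ hw hbig
  rw [← hβ]
  rw [← hM] at hgood herr ⊢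
  obtain ⟨E, hE⟩ : ∃ E : S → P → ℝ, ∀ s t, E s t =
    err (fun x y => Φ fun k => (q s (blk s t) k).Yes fun a => val k a (inst s x y)) t :=
      ⟨_, fun _ _ => rfl⟩
  have hE0 : ∀ s t, 0 ≤ E s t := fun s t => by rw [hE]; exact err_nonneg _ _
  simp only [← hE] at herr
  obtain ⟨G, hG⟩ : ∃ G : S → Finset P, ∀ s, G s =
    univ.filter fun t => FGood D B part ν ρ own e₁ (e₂ s) t := ⟨_, fun _ => rfl⟩
  simp only [← hG] at hgood
  have h4pos : (0 : ℝ) < 4 ^ (M - 1) := by positivity
  obtain ⟨u, hu⟩ : ∃ u : ℝ, u = 4 ^ (M - 1) := ⟨_, rfl⟩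
  rw [← hu] at h4pos herr
  -- the choice of the matching
  obtain ⟨s, hs⟩ : ∃ s, (M : ℝ) / 4 * u ≤ ∑ t ∈ G s, (u - 4 * E s t) := by
    by_contra hcon
    push Not at hcon
    have h1 : ∑ s, ∑ t ∈ G s, (u - 4 * E s t) < ∑ _s : S, (M : ℝ) / 4 * u :=
      sum_lt_sum_of_nonempty univ_nonempty fun s _ => hcon s
    rw [sum_const, card_univ, nsmul_eq_mul] at h1
    have h2 : ∑ s, ((G s).card : ℝ) * u - 4 * ∑ s, ∑ t, E s t ≤
        ∑ s, ∑ t ∈ G s, (u - 4 * E s t) := by
      rw [mul_sum, ← sum_sub_distrib]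
      apply sum_le_sum
      intro s _
      rw [sum_sub_distrib, sum_const, nsmul_eq_mul, ← mul_sum]
      apply sub_le_sub_left
      apply mul_le_mul_of_nonneg_left _ (by norm_num)
      exact sum_le_sum_of_subset_of_nonneg (subset_univ _) fun t _ _ => hE0 s t
    have h3 : 5 / 8 * ((Fintype.card S : ℝ) * M) * u ≤ ∑ s, ((G s).card : ℝ) * u := by
      rw [← sum_mul]
      apply mul_le_mul_of_nonneg_right _ h4pos.le
      have h4 : (5 : ℝ) * (Fintype.card S * M) ≤ 8 * ∑ s, ((G s).card : ℝ) := by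
        exact_mod_cast hgood
      linarith
    have h5 : (Fintype.card S : ℝ) * ((M : ℝ) / 4 * u) = 1 / 4 * ((Fintype.card S : ℝ) * M * u) := by
      ring
    have h6 : 5 / 8 * ((Fintype.card S : ℝ) * M) * u = 5 / 8 * ((Fintype.card S : ℝ) * M * u) := by
      ring
    rw [h5] at h1
    rw [h6] at h3
    have hX0 : 0 ≤ (Fintype.card S : ℝ) * M * u := by positivity
    linarith
  have hGm : ∀ t ∈ G s, FGood D B part ν ρ own e₁ (e₂ s) t := by
    intro t ht
    rw [hG, mem_filter] at ht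
    exact ht.2
  obtain ⟨Q, JJ, hQG, hQJ, hQ⟩ := sides_weighted' (ρ := ρ) (G s)
    (fun t => fparts D B part ν own (e₁ t))
    (fun t => fparts D B part ν own (e₂ s t))
    (fun t ht => (hGm t ht).2.1.1) (fun t ht => (hGm t ht).2.1.2) (fun t ht => (hGm t ht).2.2)
    (fun t => u - 4 * E s t)
  have hQ2 : (M : ℝ) / 4 * u ≤ 4 ^ ρ * ∑ t ∈ Q, (u - 4 * E s t) := hs.trans hQ
  rw [sum_sub_distrib, sum_const, nsmul_eq_mul, ← mul_sum] at hQ2
  have hsum0 : 0 ≤ ∑ t ∈ Q, E s t := sum_nonneg fun t _ => hE0 s t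
  have hMR : (1 : ℝ) ≤ M := by exact_mod_cast hM1
  have h4ρ : (0 : ℝ) < 4 ^ ρ := by positivity
  have hpos : 0 < (Q.card : ℝ) * u - 4 * ∑ t ∈ Q, E s t := by
    by_contra hcon
    push Not at hcon
    have h1 : (4 : ℝ) ^ ρ * ((Q.card : ℝ) * u - 4 * ∑ t ∈ Q, E s t) ≤ 0 :=
      mul_nonpos_of_nonneg_of_nonpos h4ρ.le hcon
    have h2 : 0 < (M : ℝ) / 4 * u := by positivity
    linarith
  have hQcard : (M : ℝ) ≤ 4 * (4 ^ ρ * Q.card) := by
    have h1 : (M : ℝ) / 4 * u ≤ 4 ^ ρ * Q.card * u := by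
      calc (M : ℝ) / 4 * u ≤ 4 ^ ρ * ((Q.card : ℝ) * u - 4 * ∑ t ∈ Q, E s t) := hQ2
        _ ≤ 4 ^ ρ * ((Q.card : ℝ) * u) := by
            apply mul_le_mul_of_nonneg_left _ h4ρ.le
            linarith
        _ = _ := by ring
    have h2 := le_of_mul_le_mul_right h1 h4pos
    linarith
  have hQne : Q.Nonempty := by
    rw [nonempty_iff_ne_empty]
    intro h
    rw [h, card_empty, Nat.cast_zero, mul_zero, mul_zero] at hQcard
    linarith
  have hQerr : ∑ t ∈ Q, E s t ≤ 1 / 4 * Q.card * u := by linarith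
  -- the rest of the input
  have hcardQ : Q.card + (Qᶜ).card = M := by rw [hM]; exact card_add_card_compl Q
  have hQ1 : 1 ≤ Q.card := hQne.card_pos
  obtain ⟨A, hA⟩ : ∃ A : P → Finset P → Finset P → Prop, ∀ t x y, A t x y ↔
    Φ fun k => (q s (blk s t) k).Yes fun a => val k a (inst s x y) := ⟨_, fun _ _ _ => Iff.rfl⟩
  obtain ⟨x₀, y₀, hx₀, hy₀, -, hxy⟩ : ∃ x₀ y₀, x₀ ⊆ Qᶜ ∧ y₀ ⊆ Qᶜ ∧ Disjoint x₀ y₀ ∧
      ∑ t ∈ Q, tri (Q.erase t) (fun x y => (if A t (x ∪ x₀) (y ∪ y₀) then 0 else 1) +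
        200 * (if A t (insert t x ∪ x₀) (insert t y ∪ y₀) then 1 else 0)) ≤
        1 / 4 * (Q.card * 4 ^ (Q.card - 1)) := by
    apply exists_le_of_tri (A := Qᶜ)
      (f := fun x₀ y₀ => ∑ t ∈ Q, tri (Q.erase t) (fun x y =>
        (if A t (x ∪ x₀) (y ∪ y₀) then 0 else 1) +
        200 * (if A t (insert t x ∪ x₀) (insert t y ∪ y₀) then 1 else 0)))
    rw [tri_sum]
    calc ∑ t ∈ Q, tri Qᶜ (fun x₀ y₀ => tri (Q.erase t) (fun x y =>
          (if A t (x ∪ x₀) (y ∪ y₀) then 0 else 1) +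
          200 * (if A t (insert t x ∪ x₀) (insert t y ∪ y₀) then 1 else 0))) =
        ∑ t ∈ Q, E s t := by
          refine sum_congr rfl fun t ht => ?_
          have h1 : (univ : Finset P).erase t = Q.erase t ∪ Qᶜ := by
            ext j
            simp only [mem_erase, mem_univ, and_true, mem_union, mem_compl]
            constructor
            · intro h
              by_cases hj : j ∈ Q
              · exact Or.inl ⟨h, hj⟩
              · exact Or.inr hj
            · rintro (h | h)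
              · exact h.1
              · rintro rfl
                exact h ht
          have h2 : Disjoint (Q.erase t) Qᶜ :=
            disjoint_of_subset_left (erase_subset _ _) disjoint_compl_right
          rw [hE]
          unfold err
          rw [h1, tri_union h2]
          simp only [insert_union, hA]
      _ ≤ 1 / 4 * Q.card * u := hQerr
      _ = 1 / 4 * (Q.card * 4 ^ (Q.card - 1)) * 4 ^ (Qᶜ).card := by
          rw [hu, show M - 1 = Q.card - 1 + (Qᶜ).card by omega, pow_add]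
          ring
  -- rectangles
  obtain ⟨I, hI⟩ : ∃ I : Finset P → Finset P → ι → X, ∀ x y, I x y = inst s (x ∪ x₀) (y ∪ y₀) :=
    ⟨fun x y => inst s (x ∪ x₀) (y ∪ y₀), fun _ _ => rfl⟩
  obtain ⟨Rr, hRr⟩ : ∃ Rr : (∀ k, (J → Fin T → Z) × ({g // g ∈ (D k).plus (B k)} → Z)) →
    Finset P → Finset P → Prop, ∀ c x y, Rr c x y ↔
      (∀ k, I x y ∈ CC (D k) (B k) (c k).2) ∧
      (∀ k j, (q s j k).Ans (fun a => val k a (I x y)) ((c k).1 j)) := ⟨_, fun _ _ _ => Iff.rfl⟩
  obtain ⟨Lb, hLb⟩ : ∃ Lb : (∀ k, (J → Fin T → Z) × ({g // g ∈ (D k).plus (B k)} → Z)) →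
    P → Prop, ∀ c t, Lb c t ↔ Φ fun k => (q s (blk s t) k).ans ((c k).1 (blk s t)) :=
      ⟨_, fun _ _ => Iff.rfl⟩
  have hyes : ∀ (o : ∀ k, J → Fin T → Z) x y,
      (∀ k j, (q s j k).Ans (fun a => val k a (I x y)) (o k j)) → ∀ j,
      ((fun k => (q s j k).Yes fun a => val k a (I x y)) = fun k => (q s j k).ans (o k j)) := by
    intro o x y h j
    funext k
    exact propext (h k j).yes
  have hacc : ∀ t x y, (∃ c, Rr c x y ∧ Lb c t) ↔ A t (x ∪ x₀) (y ∪ y₀) := by
    intro t x y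
    rw [hA, ← hI]
    constructor
    · rintro ⟨c, hc, hct⟩
      obtain ⟨h1, h2⟩ := (hRr c x y).1 hc
      rw [hyes _ x y h2]
      exact (hLb c t).1 hct
    · intro h
      choose v hv using fun k => exists_run (hdet k) (I x y)
      choose o ho using fun k j => (q s j k).exists_ans fun a => val k a (I x y)
      refine ⟨fun k => (o k, fun g => v k g.1), ?_, ?_⟩
      · rw [hRr]
        exact ⟨fun k => ⟨v k, hv k, fun _ => rfl⟩, ho⟩
      · rw [hLb]
        rw [hyes o x y ho] at h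
        exact h
  have hmix : ∀ x y x' y', x ⊆ Q → y ⊆ Q → x' ⊆ Q → y' ⊆ Q →
      (∀ i, own i ∉ Q.image e₁ → own i ∉ Q.image (e₂ s) → I x y i = I x' y' i) ∧
      (∀ i, own i ∈ Q.image e₁ → I x y' i = I x y i) ∧
      (∀ i, own i ∉ Q.image e₁ → I x y' i = I x' y' i) := by
    intro x y x' y' hx hy hx' hy'
    simp only [hI]
    refine ⟨fun i hiA hiE => ?_, fun i hiA => ?_, fun i hiA => ?_⟩
    · refine (hi1 s _ (x' ∪ x₀) _ i ?_).trans (hi2 s _ _ (y' ∪ y₀) i ?_)
      · intro t ht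
        have htQ : t ∉ Q := fun h => hiA (mem_image.2 ⟨t, h, ht.symm⟩)
        rw [mem_union, mem_union]
        constructor
        · rintro (h | h)
          · exact absurd (hx h) htQ
          · exact Or.inr h
        · rintro (h | h)
          · exact absurd (hx' h) htQ
          · exact Or.inr h
      · intro t ht
        have htQ : t ∉ Q := fun h => hiE (mem_image.2 ⟨t, h, ht.symm⟩)
        rw [mem_union, mem_union]
        constructor
        · rintro (h | h)
          · exact absurd (hy h) htQ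
          · exact Or.inr h
        · rintro (h | h)
          · exact absurd (hy' h) htQ
          · exact Or.inr h
    · apply hi2
      intro t ht
      obtain ⟨t', _, ht'⟩ := mem_image.1 hiA
      exact absurd (ht'.trans ht) (he₄ s t' t)
    · apply hi1
      intro t ht
      have htQ : t ∉ Q := fun h => hiA (mem_image.2 ⟨t, h, ht.symm⟩)
      rw [mem_union, mem_union]
      constructor
      · rintro (h | h)
        · exact absurd (hx h) htQ
        · exact Or.inr h
      · rintro (h | h)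
        · exact absurd (hx' h) htQ
        · exact Or.inr h
  have hlook : ∀ k (g : Fin (D k).size) (z : Z) (c : {g // g ∈ (D k).plus (B k)} → Z) x y x' y',
      x ⊆ Q → y ⊆ Q → x' ⊆ Q → y' ⊆ Q → I x y ∈ (look (D k) g z).Cls (B k) c →
      I x' y' ∈ (look (D k) g z).Cls (B k) c → I x y' ∈ (look (D k) g z).Cls (B k) c := by
    intro k g z c x y x' y' hx hy hx' hy' h1 h2
    obtain ⟨m1, m2, m3⟩ := hmix x y x' y' hx hy hx' hy'
    have hB' : Parts (look (D k) g z) (B k) (part k) ν w := ⟨(hB k).closed, (hB k).lt, (hB k).few⟩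
    refine mix_of_sides (look (D k) g z) hB' own e₁ (e₂ s) Q (univ.filter fun j => (k, j) ∈ JJ)
      (fun t ht h => (hGm t (hQG ht)).1.1 ⟨k, h⟩) (fun t ht h => (hGm t (hQG ht)).1.2 ⟨k, h⟩)
      (fun t ht j hj => ?_) (fun t ht => ?_) c _ _ _ h1 h2 m1 m2 m3
    · exact mem_filter.2 ⟨mem_univ _, (hQJ t ht).1 ((mem_fparts D B part ν own _ (k, j)).2 hj)⟩
    · rw [disjoint_left]
      intro j hj hj2
      exact disjoint_left.1 (hQJ t ht).2 ((mem_fparts D B part ν own _ (k, j)).2 hj)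
        (mem_filter.1 hj2).2
  have hmain := udisj' Rr Lb Q hQne (by
      intro c x y x' y' hx hy hx' hy' h1 h2
      rw [hRr] at h1 h2 ⊢
      refine ⟨fun k => ?_, fun k jj i => ?_⟩
      · -- the class of the inputs does not depend on the gate that is looked at
        by_cases hne : (D k).plus (B k) = ∅
        · obtain ⟨v'', hv''⟩ := exists_run (hdet k) (I x y')
          refine ⟨v'', hv'', fun g => ?_⟩
          exact (nonempty_iff_ne_empty.1 ⟨g.1, g.2⟩ hne).elim
        · obtain ⟨g, hg⟩ := nonempty_iff_ne_empty.2 hne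
          obtain ⟨w1, r1, e1⟩ := h1.1 k
          obtain ⟨w2, r2, e2⟩ := h2.1 k
          have a1 : I x y ∈ (look (D k) g ((c k).2 ⟨g, hg⟩)).Cls (B k) (c k).2 :=
            (mem_look (hdet k)).2 ⟨h1.1 k, fun v hv => by
              rw [run_unique (hdet k) hv r1]
              exact e1 ⟨g, hg⟩⟩
          have a2 : I x' y' ∈ (look (D k) g ((c k).2 ⟨g, hg⟩)).Cls (B k) (c k).2 :=
            (mem_look (hdet k)).2 ⟨h2.1 k, fun v hv => by
              rw [run_unique (hdet k) hv r2]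
              exact e2 ⟨g, hg⟩⟩
          exact ((mem_look (hdet k)).1 (hlook k g _ _ x y x' y' hx hy hx' hy' a1 a2)).1
      · have g1 := h1.2 k jj i
        have g2 := h2.2 k jj i
        rcases hval s k ((q s jj k).addr i fun j => (c k).1 jj (Fin.castLE i.2.le j)) with
          ⟨g, hg⟩ | hg | hg
        · obtain ⟨w1, r1, e1⟩ := h1.1 k
          obtain ⟨w2, r2, e2⟩ := h2.1 k
          have a1 : I x y ∈ (look (D k) g ((c k).1 jj i)).Cls (B k) (c k).2 :=
            (mem_look (hdet k)).2 ⟨h1.1 k, fun v hv => by rw [g1]; exact (hg _ v hv).symm⟩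
          have a2 : I x' y' ∈ (look (D k) g ((c k).1 jj i)).Cls (B k) (c k).2 :=
            (mem_look (hdet k)).2 ⟨h2.1 k, fun v hv => by rw [g2]; exact (hg _ v hv).symm⟩
          have a3 := ((mem_look (hdet k)).1 (hlook k g _ _ x y x' y' hx hy hx' hy' a1 a2)).2
          obtain ⟨v, hv⟩ := exists_run (hdet k) (I x y')
          exact (a3 v hv).symm.trans (hg _ v hv).symm
        · rw [g1]
          simp only [hI]
          exact hg _ _ _
        · rw [g2]
          simp only [hI]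
          exact hg _ _ _)
    (by
      intro c c' x y h1 h2
      rw [hRr] at h1 h2
      funext k
      obtain ⟨v, hv, hvc⟩ := h1.1 k
      obtain ⟨v', hv', hvc'⟩ := h2.1 k
      have h3 := run_unique (hdet k) hv hv'
      subst h3
      apply Prod.ext
      · funext jj
        exact (h1.2 k jj).unique (h2.2 k jj)
      · funext g
        rw [← hvc, ← hvc'])
    (by
      refine le_trans (le_of_eq ?_) hxy
      refine sum_congr rfl fun t _ => ?_
      apply tri_congr
      intro x y _ _ _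
      simp only [hacc])
  -- numbers
  obtain ⟨L, hL⟩ : ∃ L, L = (κ + 1) * b * (β + Fintype.card K * (Fintype.card J * T + 1)) :=
    ⟨_, rfl⟩
  have hCl : (Fintype.card (∀ k, (J → Fin T → Z) × ({g // g ∈ (D k).plus (B k)} → Z)) : ℝ) ≤
      2 ^ L := by
    have h1 : Fintype.card (∀ k, (J → Fin T → Z) × ({g // g ∈ (D k).plus (B k)} → Z)) ≤ 2 ^ L := by
      rw [Fintype.card_pi]
      calc ∏ k, Fintype.card ((J → Fin T → Z) × ({g // g ∈ (D k).plus (B k)} → Z)) ≤
          ∏ k, 2 ^ (b * (Fintype.card J * T) + b * ((κ + 1) * (B k).card)) := by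
            apply prod_le_prod'
            intro k _
            rw [Fintype.card_prod, Fintype.card_fun, Fintype.card_fun, Fintype.card_fun,
              Fintype.card_coe, Fintype.card_fin, pow_add]
            apply Nat.mul_le_mul
            · calc (Fintype.card Z ^ T) ^ Fintype.card J ≤ ((2 ^ b) ^ T) ^ Fintype.card J :=
                    Nat.pow_le_pow_left (Nat.pow_le_pow_left hZ _) _
                _ = 2 ^ (b * (Fintype.card J * T)) := by
                    rw [← pow_mul, ← pow_mul]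
                    congr 1
                    ring
            · calc Fintype.card Z ^ ((D k).plus (B k)).card ≤ (2 ^ b) ^ ((D k).plus (B k)).card :=
                    Nat.pow_le_pow_left hZ _
                _ = 2 ^ (b * ((D k).plus (B k)).card) := by rw [pow_mul]
                _ ≤ _ := by
                    apply Nat.pow_le_pow_right (by norm_num)
                    exact Nat.mul_le_mul_left _ ((D k).card_plus (B k) κ (hκ k))
        _ = 2 ^ (∑ k, (b * (Fintype.card J * T) + b * ((κ + 1) * (B k).card))) := by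
            rw [prod_pow_eq_pow_sum]
        _ ≤ 2 ^ L := by
            apply Nat.pow_le_pow_right (by norm_num)
            rw [sum_add_distrib, sum_const, card_univ, smul_eq_mul, ← mul_sum, ← mul_sum,
              ← hβ, hL]
            calc Fintype.card K * (b * (Fintype.card J * T)) + b * ((κ + 1) * β) ≤
                  (κ + 1) * b * (Fintype.card K * (Fintype.card J * T + 1)) +
                    b * ((κ + 1) * β) := by
                    apply Nat.add_le_add_right
                    calc Fintype.card K * (b * (Fintype.card J * T)) =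
                          1 * b * (Fintype.card K * (Fintype.card J * T)) := by ring
                      _ ≤ (κ + 1) * b * (Fintype.card K * (Fintype.card J * T + 1)) := by
                          apply Nat.mul_le_mul
                          · exact Nat.mul_le_mul_right _ (by omega)
                          · exact Nat.mul_le_mul_left _ (by omega)
              _ = _ := by ring
    exact_mod_cast h1
  have hL1 : 1 ≤ L := by
    rw [hL]
    exact Nat.mul_pos hkb (Nat.add_pos_right _ (Nat.mul_pos hK1 (Nat.succ_pos _)))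
  obtain ⟨m, hm⟩ : ∃ m, m = Q.card / 164 := ⟨_, rfl⟩
  rw [← hm] at hmain
  have hm2 : m ≤ 49 + 7 * L := by
    by_contra hcon
    push Not at hcon
    have h1 : (9 / 10 : ℝ) ^ m ≤ (9 / 10 : ℝ) ^ (49 + 7 * L + 1) :=
      pow_le_pow_of_le_one (by norm_num) (by norm_num) hcon
    have h2 : (9 / 10 : ℝ) ^ (49 + 7 * L + 1) = (9 / 10 : ℝ) ^ 50 * ((9 / 10 : ℝ) ^ 7) ^ L := by
      rw [← pow_mul, ← pow_add]
      congr 1
      ring
    have h3 : ((9 / 10 : ℝ) ^ 7) ^ L * 2 ^ L ≤ 1 := by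
      rw [← mul_pow]
      apply pow_le_one₀ (by positivity)
      norm_num
    have h4 : (1 : ℝ) ≤ 96 * (9 / 10 : ℝ) ^ 50 := by
      calc (1 : ℝ) ≤ 96 * ((Fintype.card
            (∀ k, (J → Fin T → Z) × ({g // g ∈ (D k).plus (B k)} → Z)) : ℝ) *
            (9 / 10 : ℝ) ^ m) := hmain
        _ ≤ 96 * (2 ^ L * ((9 / 10 : ℝ) ^ 50 * ((9 / 10 : ℝ) ^ 7) ^ L)) := by
            rw [← h2]
            gcongr
        _ = 96 * (9 / 10 : ℝ) ^ 50 * (((9 / 10 : ℝ) ^ 7) ^ L * 2 ^ L) := by ring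
        _ ≤ 96 * (9 / 10 : ℝ) ^ 50 * 1 := by
            apply mul_le_mul_of_nonneg_left h3 (by positivity)
        _ = _ := mul_one _
    norm_num at h4
  have hQc : Q.card ≤ 164 * (50 + 7 * L) := by omega
  have hMQ : M ≤ 4 * (4 ^ ρ * Q.card) := by exact_mod_cast hQcard
  have h4pow : (4 : ℕ) ^ ρ = 2 ^ (2 * ρ) := by
    rw [show (4 : ℕ) = 2 ^ 2 by norm_num, ← pow_mul]
  rw [← hL]
  calc M ≤ 4 * (4 ^ ρ * Q.card) := hMQ
    _ ≤ 4 * (2 ^ (2 * ρ) * (164 * (50 + 7 * L))) := by rw [h4pow]; gcongr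
    _ = 2 ^ (2 * ρ) * (32800 + 4592 * L) := by ring
    _ ≤ 2 ^ (2 * ρ) * (65536 * L) := by
        apply Nat.mul_le_mul_left
        omega
    _ = _ := by rw [pow_add]; ring

end


open Classical in
/-- **The choice of the circuit**, for many questions. -/
theorem choose_acc' {P S Ω A : Type} [Fintype P] [Nonempty P] [Fintype S] [Nonempty S] [Fintype Ω]
    [DecidableEq P] (p : Ω → ℝ) (hp : ∀ ω, 0 ≤ p ω) (hp1 : ∑ ω, p ω = 1)
    (Ac : Ω → A → Prop) (V F : A → Prop)
    (hF : ∀ z, V z → ∑ ω with ¬ (Ac ω z ↔ F z), p ω ≤ 1 / 6432)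
    (inst : S → P → Finset P → Finset P → A) (hV : ∀ s t x y, V (inst s t x y))
    (hFi : ∀ s t x y, Disjoint x y → F (inst s t x y))
    (hFi' : ∀ s t x y, t ∈ x → t ∈ y → ¬ F (inst s t x y)) (cost : Ω → ℝ)
    (hcost : ∀ ω, 0 ≤ cost ω) (R : ℝ) (hR0 : 0 < R) (hR : ∑ ω, p ω * cost ω ≤ R) :
    ∃ ω, cost ω ≤ 2 * R ∧ ∑ s, ∑ t, err (fun x y => Ac ω (inst s t x y)) t ≤
      1 / 16 * (Fintype.card S * Fintype.card P * 4 ^ (Fintype.card P - 1)) := by
  obtain ⟨E, hE⟩ : ∃ E : Ω → ℝ, ∀ ω, E ω =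
    ∑ s, ∑ t, err (fun x y => Ac ω (inst s t x y)) t := ⟨_, fun _ => rfl⟩
  obtain ⟨W, hW⟩ : ∃ W : ℝ, W = Fintype.card S * Fintype.card P * 4 ^ (Fintype.card P - 1) :=
    ⟨_, rfl⟩
  have hW0 : 0 < W := by
    have h1 : (0 : ℝ) < Fintype.card S := by exact_mod_cast Fintype.card_pos
    have h2 : (0 : ℝ) < Fintype.card P := by exact_mod_cast Fintype.card_pos
    rw [hW]
    positivity
  simp only [← hE, ← hW]
  have hE0 : ∀ ω, 0 ≤ E ω := by
    intro ω
    rw [hE]
    exact sum_nonneg fun s _ => sum_nonneg fun t _ => err_nonneg _ _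
  have hwrong1 : ∀ s t x y, Disjoint x y →
      ∑ ω, p ω * (if Ac ω (inst s t x y) then 0 else 1) ≤ 1 / 6432 := by
    intro s t x y hxy
    refine le_trans (le_of_eq ?_) (hF _ (hV s t x y))
    rw [sum_filter]
    refine sum_congr rfl fun ω _ => ?_
    have h1 : F (inst s t x y) := hFi s t x y hxy
    by_cases h2 : Ac ω (inst s t x y)
    · rw [if_pos h2, if_neg (not_not.2 (iff_of_true h2 h1)), mul_zero]
    · rw [if_neg h2, if_pos (fun h3 => h2 (h3.2 h1)), mul_one]
  have hwrong2 : ∀ s t x y, t ∈ x → t ∈ y →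
      ∑ ω, p ω * (if Ac ω (inst s t x y) then 1 else 0) ≤ 1 / 6432 := by
    intro s t x y hx hy
    refine le_trans (le_of_eq ?_) (hF _ (hV s t x y))
    rw [sum_filter]
    refine sum_congr rfl fun ω _ => ?_
    have h1 : ¬ F (inst s t x y) := hFi' s t x y hx hy
    by_cases h2 : Ac ω (inst s t x y)
    · rw [if_pos h2, if_pos (fun h3 => h1 (h3.1 h2)), mul_one]
    · rw [if_neg h2, if_neg (not_not.2 (iff_of_false h2 h1)), mul_zero]
  have hmean : ∑ ω, p ω * E ω ≤ 1 / 32 * W := by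
    have h1 : ∑ ω, p ω * E ω =
        ∑ s, ∑ t, ∑ ω, p ω * err (fun x y => Ac ω (inst s t x y)) t := by
      simp only [hE, mul_sum]
      rw [sum_comm]
      refine sum_congr rfl fun s _ => ?_
      rw [sum_comm]
    rw [h1]
    have h2 : ∀ s t, ∑ ω, p ω * err (fun x y => Ac ω (inst s t x y)) t ≤
        1 / 32 * 4 ^ (Fintype.card P - 1) := by
      intro s t
      have h3 : ∑ ω, p ω * err (fun x y => Ac ω (inst s t x y)) t =
          tri (univ.erase t) fun x y => ∑ ω, p ω * ((if Ac ω (inst s t x y) then 0 else 1) +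
            200 * (if Ac ω (inst s t (insert t x) (insert t y)) then 1 else 0)) := by
        rw [tri_sum]
        refine sum_congr rfl fun ω _ => ?_
        unfold err
        rw [tri_mul]
      rw [h3]
      have h4 : (univ.erase t : Finset P).card = Fintype.card P - 1 := by
        rw [card_erase_of_mem (mem_univ _), card_univ]
      rw [← h4, ← tri_one]
      apply tri_mono
      intro x y _ _ hxy
      have h5 := hwrong1 s t x y hxy
      have h6 := hwrong2 s t (insert t x) (insert t y) (mem_insert_self _ _) (mem_insert_self _ _)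
      calc ∑ ω, p ω * ((if Ac ω (inst s t x y) then 0 else 1) +
            200 * (if Ac ω (inst s t (insert t x) (insert t y)) then 1 else 0)) =
          ∑ ω, p ω * (if Ac ω (inst s t x y) then 0 else 1) +
            200 * ∑ ω, p ω * (if Ac ω (inst s t (insert t x) (insert t y)) then 1 else 0) := by
            rw [mul_sum, ← sum_add_distrib]
            refine sum_congr rfl fun ω _ => ?_
            ring
        _ ≤ 1 / 6432 + 200 * (1 / 6432) := by linarith
        _ = 1 / 32 := by norm_num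
    calc _ ≤ ∑ _s : S, ∑ _t : P, (1 / 32 : ℝ) * 4 ^ (Fintype.card P - 1) :=
          sum_le_sum fun s _ => sum_le_sum fun t _ => h2 s t
      _ = _ := by
          rw [sum_const, sum_const, card_univ, card_univ, nsmul_eq_mul, nsmul_eq_mul, hW]
          ring
  by_contra hcon
  push Not at hcon
  have h1 : ∀ ω, 1 < cost ω / (2 * R) + E ω / (1 / 16 * W) := by
    intro ω
    have h2 : 0 ≤ cost ω / (2 * R) := div_nonneg (hcost ω) (by linarith)
    have h3 : 0 ≤ E ω / (1 / 16 * W) := div_nonneg (hE0 ω) (by linarith)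
    by_cases h4 : cost ω ≤ 2 * R
    · have h5 := hcon ω h4
      have h6 : 1 < E ω / (1 / 16 * W) := (one_lt_div (by linarith)).2 h5
      linarith
    · push Not at h4
      have h6 : 1 < cost ω / (2 * R) := (one_lt_div (by linarith)).2 h4
      linarith
  obtain ⟨ω₀, hω₀⟩ : ∃ ω, 0 < p ω := by
    by_contra h2
    push Not at h2
    have h3 : ∑ ω, p ω ≤ 0 := sum_nonpos fun ω _ => h2 ω
    linarith
  have h2 : ∑ ω, p ω * 1 < ∑ ω, p ω * (cost ω / (2 * R) + E ω / (1 / 16 * W)) := by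
    apply sum_lt_sum
    · intro ω _
      exact mul_le_mul_of_nonneg_left (h1 ω).le (hp ω)
    · exact ⟨ω₀, mem_univ _, mul_lt_mul_of_pos_left (h1 ω₀) hω₀⟩
  have h3 : ∑ ω, p ω * (cost ω / (2 * R) + E ω / (1 / 16 * W)) =
      (∑ ω, p ω * cost ω) / (2 * R) + (∑ ω, p ω * E ω) / (1 / 16 * W) := by
    rw [sum_div, sum_div, ← sum_add_distrib]
    refine sum_congr rfl fun ω _ => ?_
    ring
  have h4 : (∑ ω, p ω * cost ω) / (2 * R) ≤ 1 / 2 := by
    rw [div_le_iff₀ (by linarith)]
    linarith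
  have h5 : (∑ ω, p ω * E ω) / (1 / 16 * W) ≤ 1 / 2 := by
    rw [div_le_iff₀ (by linarith)]
    linarith
  rw [h3] at h2
  simp only [mul_one] at h2
  linarith


open Classical in
/-- **The choice of the family**, for many questions. -/
theorem choose_multi {P S Ω A : Type} [Fintype P] [Nonempty P] [Fintype S] [Nonempty S]
    [Fintype Ω] [DecidableEq P] (p : Ω → ℝ) (hp : ∀ ω, 0 ≤ p ω) (hp1 : ∑ ω, p ω = 1)
    (Ac : Ω → A → Prop) (V F : A → Prop)
    (hF : ∀ a, V a → ∑ ω with ¬ (Ac ω a ↔ F a), p ω ≤ 1 / 3)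
    (inst : S → P → Finset P → Finset P → A) (hV : ∀ s t x y, V (inst s t x y))
    (hFi : ∀ s t x y, Disjoint x y → ¬ F (inst s t x y))
    (hFi' : ∀ s t x y, t ∈ x → t ∈ y → F (inst s t x y)) (c₁ c₂ : Ω → ℝ) (h₁ : ∀ ω, 0 ≤ c₁ ω)
    (h₂ : ∀ ω, 0 ≤ c₂ ω) (R₁ R₂ : ℝ) (hR₁ : 0 < R₁) (hR₂ : 0 < R₂)
    (hc₁ : ∑ ω, p ω * c₁ ω ≤ R₁) (hc₂ : ∑ ω, p ω * c₂ ω ≤ R₂) :
    ∃ ω : Fin 160 → Ω, ∑ k, c₁ (ω k) ≤ 640 * R₁ ∧ ∑ k, c₂ (ω k) ≤ 640 * R₂ ∧
      ∑ s, ∑ t, err (fun x y => half fun k => Ac (ω k) (inst s t x y)) t ≤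
      1 / 16 * (Fintype.card S * Fintype.card P * 4 ^ (Fintype.card P - 1)) := by
  obtain ⟨c, hc⟩ : ∃ c : Ω → ℝ, ∀ ω, c ω = c₁ ω / R₁ + c₂ ω / R₂ := ⟨_, fun _ => rfl⟩
  have hc0 : ∀ ω, 0 ≤ c ω := fun ω => by
    rw [hc]
    exact add_nonneg (div_nonneg (h₁ ω) hR₁.le) (div_nonneg (h₂ ω) hR₂.le)
  have hce : ∑ ω, p ω * c ω ≤ 2 := by
    have h3 : ∑ ω, p ω * c ω = (∑ ω, p ω * c₁ ω) / R₁ + (∑ ω, p ω * c₂ ω) / R₂ := by
      rw [sum_div, sum_div, ← sum_add_distrib]
      refine sum_congr rfl fun ω _ => ?_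
      rw [hc]
      ring
    rw [h3]
    have h4 : (∑ ω, p ω * c₁ ω) / R₁ ≤ 1 := (div_le_one hR₁).2 hc₁
    have h5 : (∑ ω, p ω * c₂ ω) / R₂ ≤ 1 := (div_le_one hR₂).2 hc₂
    linarith
  obtain ⟨ω, h1, h2⟩ := choose_acc' (A := A) (P := P) (S := S) (Ω := Fin 160 → Ω)
    (fun ω => ∏ k, p (ω k)) (fun ω => prod_nonneg fun k _ => hp _) (sum_prod_one hp1)
    (fun ω z => half fun k => Ac (ω k) z) V (fun z => ¬ F z)
    (fun z hz => by
      have := amplify p hp hp1 Ac F z (hF z hz)
      convert this using 2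
      ext ω
      simp only [mem_filter])
    inst hV hFi (fun s t x y hx hy => not_not.2 (hFi' s t x y hx hy))
    (fun ω => ∑ k, c (ω k))
    (fun ω => sum_nonneg fun k _ => hc0 _) 320 (by norm_num) (by
      calc ∑ ω : Fin 160 → Ω, (∏ k, p (ω k)) * ∑ k, c (ω k) =
          ∑ k : Fin 160, ∑ ω : Fin 160 → Ω, (∏ k, p (ω k)) * c (ω k) := by
            simp only [mul_sum]
            rw [sum_comm]
        _ = ∑ _k : Fin 160, ∑ ω, p ω * c ω :=
            sum_congr rfl fun k _ => sum_prod_single hp1 c k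
        _ ≤ ∑ _k : Fin 160, 2 := sum_le_sum fun _ _ => hce
        _ = 320 := by
            rw [sum_const, card_univ, Fintype.card_fin, nsmul_eq_mul]
            norm_num)
  have h3 : ∑ k, c (ω k) = (∑ k, c₁ (ω k)) / R₁ + (∑ k, c₂ (ω k)) / R₂ := by
    rw [sum_div, sum_div, ← sum_add_distrib]
    exact sum_congr rfl fun k _ => hc _
  have h4 : 0 ≤ (∑ k, c₁ (ω k)) / R₁ := div_nonneg (sum_nonneg fun k _ => h₁ _) hR₁.le
  have h5 : 0 ≤ (∑ k, c₂ (ω k)) / R₂ := div_nonneg (sum_nonneg fun k _ => h₂ _) hR₂.le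
  refine ⟨ω, ?_, ?_, h2⟩
  · rw [← div_le_iff₀ hR₁]
    linarith
  · rw [← div_le_iff₀ hR₂]
    linarith


end Pool.Agent.U286.LY
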