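import Mathlib
import Pool.Agent.U286.LY.LDef
import Pool.Agent.U286.LY.QDef

/-!
# Data structures for families of sets whose memory is computed by a word circuit: the definitions
-/

set_option autoImplicit false

open Finset

namespace Pool.Agent.U286.LY

open Pool.Agent.Y631.Wc

/-- The addresses of the memory: the gates of the circuit, and all functions of the first half of
the family and all functions of the second half of the family (with values in `Z`). -/
abbrev SetAddr (k u size : ℕ) (Z : Type) : Type :=
  Fin size ⊕ ((Fin k × Fin u → ℕ) → Z) ⊕ ((Fin k × Fin u → ℕ) → Z)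

/-- The contents of the memory, if `v` are the words at the gates. -/
def setContents {k u size : ℕ} {Z : Type} (v : Fin size → Z) (A₁ A₂ : Fin k × Fin u → ℕ) :
    SetAddr k u size Z → Z
  | Sum.inl g => v g
  | Sum.inr (Sum.inl f) => f A₁
  | Sum.inr (Sum.inr f) => f A₂

/-- A data structure for families of `k + k` sets of `u` elements each. The memory consists of the
words at all gates of a word circuit which reads the elements of all sets (the preprocessing), and
of all functions of one half of the family. For the set `i` of the first half and the set `j` of the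
second half there is a procedure with `T` adaptive steps; in each step one address of the memory is
read. -/
structure SetDS (k u T : ℕ) (Z : Type) where
  /-- the preprocessing -/
  circ : WCirc ((Fin k × Fin u) ⊕ (Fin k × Fin u)) ℕ Z
  /-- the procedures -/
  proc : Fin k → Fin k → Query (SetAddr k u circ.size Z) Z T

/-- The data structure says that the set `i` of the first half `A₁` and the set `j` of the second
half `A₂` intersect. -/
def SetDS.Says {k u T : ℕ} {Z : Type} (D : SetDS k u T Z) (A₁ A₂ : Fin k × Fin u → ℕ)
    (i j : Fin k) : Prop :=
  ∃ v, D.circ.Run (Sum.elim A₁ A₂) v ∧ (D.proc i j).Yes (setContents v A₁ A₂)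

/-- The half of a family: the elements `A (i, 0) < A (i, 1) < …` of the set `i` are at most
`7 * u`. -/
def IsHalf {k u : ℕ} (A : Fin k × Fin u → ℕ) : Prop :=
  (∀ i a b, a < b → A (i, a) < A (i, b)) ∧ ∀ i a, A (i, a) ≤ 7 * u

/-- The set `i` of the first half and the set `j` of the second half intersect. -/
def Meet {k u : ℕ} (A₁ A₂ : Fin k × Fin u → ℕ) (i j : Fin k) : Prop :=
  ∃ a b, A₁ (i, a) = A₂ (j, b)

open Classical in
/-- Random data structures `D ω` (with probability `p ω`) whose circuits are deterministic and of
fan-in at most `κ`; for every family and all `i`, `j` the answer to the question whether the set `i`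
of the first half and the set `j` of the second half intersect is wrong with probability at most
`1 / 3`. -/
structure RandSetDS {k u T : ℕ} {Z Ω : Type} [Fintype Ω] (κ : ℕ) (p : Ω → ℝ)
    (D : Ω → SetDS k u T Z) : Prop where
  nonneg : ∀ ω, 0 ≤ p ω
  total : ∑ ω, p ω = 1
  det : ∀ ω, (D ω).circ.Deterministic
  fanIn : ∀ ω, (D ω).circ.FanIn κ
  error : ∀ A₁ A₂, IsHalf A₁ → IsHalf A₂ → ∀ i j,
    ∑ ω with ¬ ((D ω).Says A₁ A₂ i j ↔ Meet A₁ A₂ i j), p ω ≤ 1 / 3

end Pool.Agent.U286.LY
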