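import Mathlib
import Pool.Agent.U286.LY.Multi
import Pool.Agent.U286.LY.LInst
import Pool.Agent.U286.LY.LWidth
import Pool.Agent.U286.LY.SetDef

/-!
# Set intersection queries: the bound
-/

set_option autoImplicit false

open Finset

namespace Pool.Agent.U286.LY

open Pool.Agent.Y631.Wc Pool.Agent.U286.LY.ET

section memory

variable {k u T : ℕ} {Z : Type}

/-- the words at the gates -/
noncomputable def smem {C : WCirc ((Fin k × Fin u) ⊕ (Fin k × Fin u)) ℕ Z} (h : C.Deterministic)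
    (x : (Fin k × Fin u) ⊕ (Fin k × Fin u) → ℕ) : Fin C.size → Z := Classical.choose (exists_run h x)

lemma smem_run {C : WCirc ((Fin k × Fin u) ⊕ (Fin k × Fin u)) ℕ Z} (h : C.Deterministic)
    (x : (Fin k × Fin u) ⊕ (Fin k × Fin u) → ℕ) :
    C.Run x (smem h x) := Classical.choose_spec (exists_run h x)

/-- the contents of the memory -/
noncomputable def scont {C : WCirc ((Fin k × Fin u) ⊕ (Fin k × Fin u)) ℕ Z} (h : C.Deterministic)
    (a : SetAddr k u C.size Z) (x : (Fin k × Fin u) ⊕ (Fin k × Fin u) → ℕ) : Z :=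
  setContents (smem h x) (fun i => x (Sum.inl i)) (fun i => x (Sum.inr i)) a

lemma set_says_iff {D : SetDS k u T Z} (h : D.circ.Deterministic)
    (x : (Fin k × Fin u) ⊕ (Fin k × Fin u) → ℕ) (i j : Fin k) :
    D.Says (fun i => x (Sum.inl i)) (fun i => x (Sum.inr i)) i j ↔
      (D.proc i j).Yes fun a => scont h a x := by
  have hx : Sum.elim (fun i => x (Sum.inl i)) (fun i => x (Sum.inr i)) = x := by
    funext i
    cases i <;> rfl
  unfold SetDS.Says
  rw [hx]
  constructor
  · rintro ⟨v, hv, h1⟩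
    have h2 : v = smem h x := run_unique h hv (smem_run h x)
    rw [h2] at h1
    exact h1
  · intro h1
    exact ⟨smem h x, smem_run h x, h1⟩

end memory

section inst

variable {k u M : ℕ}

/-- the part of the block `i` -/
def bl (x : Finset (Fin k × Fin M)) (i : Fin k) : Finset (Fin M) := univ.filter fun v => (i, v) ∈ x

lemma mem_bl {x : Finset (Fin k × Fin M)} {i : Fin k} {v : Fin M} : v ∈ bl x i ↔ (i, v) ∈ x := by
  simp [bl]

lemma disjoint_bl {x y : Finset (Fin k × Fin M)} (h : Disjoint x y) (i : Fin k) :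
    Disjoint (bl x i) (bl y i) := by
  rw [disjoint_left] at h ⊢
  intro v h1 h2
  exact h (mem_bl.1 h1) (mem_bl.1 h2)

/-- the elements of the sets of the first half -/
noncomputable def set₁ (M : ℕ) (x : Finset (Fin M)) (a : ℕ) : ℕ :=
  if a < M then 3 * (M + a) + lA x a else 9 * M + 4 + 2 * a

/-- the elements of the sets of the second half -/
noncomputable def set₂ (M s : ℕ) (y : Finset (Fin M)) (b : ℕ) : ℕ :=
  if b < 2 * M then 3 * (M + b - s) + lB y s b else 9 * M + 3 + 2 * b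

lemma set₁_mono {x : Finset (Fin M)} {a b : ℕ} (h : a < b) : set₁ M x a < set₁ M x b := by
  have a1 := lA_le x a
  have a2 := lA_le x b
  unfold set₁
  split_ifs <;> omega

lemma set₂_mono {s : ℕ} (hs : s < M) {y : Finset (Fin M)} {a b : ℕ} (h : a < b) :
    set₂ M s y a < set₂ M s y b := by
  have b1 := lB_le y s a
  have b2 := lB_le y s b
  have b3 := lB_pos y s a
  have b4 := lB_pos y s b
  unfold set₂
  split_ifs <;> omega

lemma set₁_le {x : Finset (Fin M)} {a : ℕ} (h : a < u) (hM : 2 * M ≤ u) (hu : 8 ≤ u) :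
    set₁ M x a ≤ 7 * u := by
  have a1 := lA_le x a
  unfold set₁
  split_ifs <;> omega

lemma set₂_le {s : ℕ} {y : Finset (Fin M)} {a : ℕ} (h : a < u) (hM : 2 * M ≤ u) (_ : 8 ≤ u) :
    set₂ M s y a ≤ 7 * u := by
  have b1 := lB_le y s a
  unfold set₂
  split_ifs <;> omega

lemma set_meet {s : ℕ} (hs : s < M) (hM : 2 * M ≤ u) (x y : Finset (Fin M)) :
    (∃ a b : Fin u, set₁ M x a.1 = set₂ M s y b.1) ↔ ¬ Disjoint x y := by
  constructor
  · rintro ⟨a, b, h⟩
    have a1 := lA_le x a.1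
    have b1 := lB_le y s b.1
    have b4 := lB_pos y s b.1
    have ha := a.2
    have hb := b.2
    have key : b.1 = a.1 + s ∧ lA x a.1 = lB y s b.1 := by
      unfold set₁ set₂ at h
      split_ifs at h <;> omega
    obtain ⟨h5, h6⟩ := key
    rw [h5] at h6
    exact l_eq h6
  · intro hd
    obtain ⟨t, hx, hy⟩ := not_disjoint_iff.1 hd
    obtain ⟨h1, h2⟩ := l_in s hx hy
    have ht := t.2
    refine ⟨⟨t.1, by omega⟩, ⟨t.1 + s, by omega⟩, ?_⟩
    show set₁ M x t.1 = set₂ M s y (t.1 + s)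
    unfold set₁ set₂
    rw [if_pos ht, if_pos (by omega), h1, h2]
    omega

end inst

section

variable {k u r κ b T : ℕ} {Z Ω : Type}

/-- numbers -/
lemma consts_set (r : ℕ) (hr : 1 ≤ r) :
    2 ^ 44 * (640 * r) ^ 2 * (2 ^ (102400 * r + 19) * 160) * 642 ≤ 2 ^ (110000 * r) := by
  have hr2 : r ≤ 2 ^ r := Nat.lt_two_pow_self.le
  calc 2 ^ 44 * (640 * r) ^ 2 * (2 ^ (102400 * r + 19) * 160) * 642 ≤
      2 ^ 44 * (2 ^ 10 * 2 ^ r) ^ 2 * (2 ^ (102400 * r + 19) * 2 ^ 8) * 2 ^ 10 := by
        gcongr <;> norm_num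
    _ = 2 ^ (44 + (10 + r) * 2 + (102400 * r + 19 + 8) + 10) := by
        rw [← pow_add 2 10, ← pow_mul 2 (10 + r), ← pow_add 2 (102400 * r + 19), ← pow_add,
          ← pow_add, ← pow_add]
    _ ≤ _ := Nat.pow_le_pow_right (by norm_num) (by omega)

/-- **The bound for large sets.** -/
theorem set_width [Fintype Z] [Fintype Ω] (hu : 8 ≤ u) (hk : 1 ≤ k) (hr : 1 ≤ r) (hb : 1 ≤ b)
    (hT : 1 ≤ T) (hZ : Fintype.card Z ≤ 2 ^ b)
    (p : Ω → ℝ) (D : Ω → SetDS k u T Z) (h : RandSetDS κ p D)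
    (hR : mean p (fun ω => (D ω).circ.reads) ≤ r * (k * u)) (c : Ω → ℕ)
    (hc : ∀ ω, WidthLE (D ω).circ (c ω)) :
    (k : ℝ) * u ≤ 2 ^ (110000 * r) * ((κ + 1) * b * (mean p c + k * T)) := by
  classical
  have : NeZero k := ⟨by omega⟩
  obtain ⟨M, hM⟩ : ∃ M, M = u / 2 := ⟨_, rfl⟩
  have hM1 : 1 ≤ M := by omega
  have hMu : 2 * M ≤ u := by omega
  have hM5 : u ≤ 5 * M := by omega
  obtain ⟨n, hn⟩ : ∃ n, n = k * u := ⟨_, rfl⟩
  have hn5 : n ≤ 5 * (k * M) := by
    rw [hn]
    calc k * u ≤ k * (5 * M) := Nat.mul_le_mul_left _ hM5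
      _ = _ := by ring
  have : Nonempty (Fin k × Fin M) := ⟨(⟨0, by omega⟩, ⟨0, by omega⟩)⟩
  have hrR : (1 : ℝ) ≤ r := by exact_mod_cast hr
  have hkb : 1 ≤ (κ + 1) * b := Nat.mul_pos (Nat.succ_pos _) hb
  have hT1 : 1 ≤ mean p c :=
    one_le_mean h.nonneg h.total (c := fun ω => (c ω : ℝ)) (fun ω => by
      have h1 := (hc ω).pos
      exact_mod_cast h1) le_rfl
  have hn1 : 1 ≤ n := by
    rw [hn]
    exact Nat.mul_pos hk (by omega)
  have hnR : (1 : ℝ) ≤ n := by exact_mod_cast hn1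
  have hnk : (k : ℝ) * u = n := by
    rw [hn]
    push_cast
    ring
  rw [hnk] at hR ⊢
  obtain ⟨inst, hinst⟩ : ∃ inst : Fin k × Fin M → Finset (Fin k × Fin M) →
      Finset (Fin k × Fin M) → (Fin k × Fin u) ⊕ (Fin k × Fin u) → ℕ, ∀ s x y, inst s x y =
      Sum.elim (fun p => set₁ M (bl x p.1) p.2.1)
        (fun p => set₂ M s.2.1 (bl y (p.1 - s.1)) p.2.1) := ⟨_, fun _ _ _ => rfl⟩
  have hl : ∀ s x y, (fun i => inst s x y (Sum.inl i)) = fun p => set₁ M (bl x p.1) p.2.1 := by
    intro s x y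
    rw [hinst]
    rfl
  have hr' : ∀ s x y, (fun i => inst s x y (Sum.inr i)) =
      fun p => set₂ M s.2.1 (bl y (p.1 - s.1)) p.2.1 := by
    intro s x y
    rw [hinst]
    rfl
  have hmeet : ∀ (s t : Fin k × Fin M) x y, Meet (fun i => inst s x y (Sum.inl i))
      (fun i => inst s x y (Sum.inr i)) t.1 (t.1 + s.1) ↔ ¬ Disjoint (bl x t.1) (bl y t.1) := by
    intro s t x y
    rw [hl, hr', ← set_meet s.2.2 hMu]
    unfold Meet
    simp only [add_sub_cancel_right]
  obtain ⟨ω, h1, hω, h2⟩ := choose_multi (P := Fin k × Fin M) (S := Fin k × Fin M)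
    (A := ((Fin k × Fin u) ⊕ (Fin k × Fin u) → ℕ) × (Fin k × Fin k)) p h.nonneg h.total
    (fun ω a => (D ω).Says (fun i => a.1 (Sum.inl i)) (fun i => a.1 (Sum.inr i)) a.2.1 a.2.2)
    (fun a => IsHalf (fun i => a.1 (Sum.inl i)) ∧ IsHalf (fun i => a.1 (Sum.inr i)))
    (fun a => Meet (fun i => a.1 (Sum.inl i)) (fun i => a.1 (Sum.inr i)) a.2.1 a.2.2)
    (fun a ha => h.error _ _ ha.1 ha.2 a.2.1 a.2.2)
    (fun s t x y => (inst s x y, (t.1, t.1 + s.1)))
    (fun s t x y => by
      show IsHalf (fun i => inst s x y (Sum.inl i)) ∧ IsHalf (fun i => inst s x y (Sum.inr i))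
      rw [hl, hr']
      exact ⟨⟨fun i a b hab => set₁_mono hab, fun i a => set₁_le a.2 hMu hu⟩,
        fun i a b hab => set₂_mono s.2.2 hab, fun i a => set₂_le a.2 hMu hu⟩)
    (fun s t x y hxy => by
      show ¬ Meet (fun i => inst s x y (Sum.inl i)) (fun i => inst s x y (Sum.inr i)) t.1
        (t.1 + s.1)
      rw [hmeet]
      exact not_not.2 (disjoint_bl hxy _))
    (fun s t x y hx hy => by
      show Meet (fun i => inst s x y (Sum.inl i)) (fun i => inst s x y (Sum.inr i)) t.1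
        (t.1 + s.1)
      rw [hmeet, not_disjoint_iff]
      exact ⟨t.2, mem_bl.2 hx, mem_bl.2 hy⟩)
    (fun ω => ((D ω).circ.reads : ℝ)) (fun ω => (c ω : ℝ)) (fun ω => Nat.cast_nonneg _)
    (fun ω => Nat.cast_nonneg _) (r * (n : ℝ)) (mean p c) (by positivity) (by linarith) hR le_rfl
  have h1' : ∑ k, (D (ω k)).circ.reads ≤ 640 * r * (n * 1) := by
    have h3 : ((∑ k, (D (ω k)).circ.reads : ℕ) : ℝ) ≤ ((640 * r * (n * 1) : ℕ) : ℝ) := by
      push_cast
      calc ∑ k, ((D (ω k)).circ.reads : ℝ) ≤ 640 * (r * (n : ℝ)) := h1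
        _ = _ := by ring
    exact_mod_cast h3
  obtain ⟨r', hr1⟩ : ∃ r', r' = 640 * r := ⟨_, rfl⟩
  rw [← hr1] at h1'
  obtain ⟨G, hG⟩ : ∃ G : ℕ, G = ⌊640 * mean p c⌋₊ := ⟨_, rfl⟩
  have hG1 : (G : ℝ) ≤ 640 * mean p c := by rw [hG]; exact Nat.floor_le (by linarith)
  have hW : ∀ k, WidthLE (D (ω k)).circ G := fun k => (hc (ω k)).mono (by
    rw [hG]
    exact Nat.le_floor (le_trans (single_le_sum (f := fun k => (c (ω k) : ℝ))
      (fun _ _ => Nat.cast_nonneg _) (mem_univ k)) hω))
  have hR' : ∀ k, (D (ω k)).circ.reads ≤ r' * (n * 1) := fun k =>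
    le_trans (single_le_sum (f := fun k => (D (ω k)).circ.reads)
      (fun _ _ => Nat.zero_le _) (mem_univ k)) h1'
  have hG0 : 1 ≤ G := (hW 0).pos
  -- the bound in natural numbers
  have hmain : n ≤ 2 ^ 44 * (640 * r) ^ 2 * (2 ^ (102400 * r + 19) * ((κ + 1) * b) * 160) *
      (G + (k * T + 1)) := by
    by_cases hn1 : 9600 * r' ≤ n
    · obtain ⟨w, hw0, hw1, hw2⟩ := choose_w (by omega : 1 ≤ r') hn1
      have hparts : ∀ k, ∃ (ν : ℕ) (B : Finset (Fin (D (ω k)).circ.size))
          (part : Fin (D (ω k)).circ.size → ℕ), Parts (D (ω k)).circ B part ν w ∧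
          B.card + 1 ≤ 2 ^ 44 * (r' ^ 2 * 1 * G) := by
        intro k
        rcases hW k with ⟨θ, a1, a2⟩ | ⟨k', a1, a2⟩
        · obtain ⟨ν, B, part, hB, h3⟩ := parts_treewidth (by omega : 1 ≤ r') hw0 hw2 le_rfl
            (D (ω k)).circ a1 (hR' k)
          exact ⟨ν, B, part, hB, h3.trans
            (Nat.mul_le_mul (by norm_num) (Nat.mul_le_mul_left _ a2))⟩
        · exact parts_drawing (by omega : 1 ≤ r') le_rfl hw0 hw2 hG0 (g := G ^ 2) (by omega)
            (D (ω k)).circ a1 a2 (hR' k)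
      choose ν B part hB hBc using hparts
      obtain ⟨ρ, hρ⟩ : ∃ ρ, ρ = 80 * r' - 1 := ⟨_, rfl⟩
      have hρ1 : ρ + 1 = 80 * r' := by omega
      have hcard : Fintype.card (Fin k × Fin M) = k * M := by
        rw [Fintype.card_prod, Fintype.card_fin, Fintype.card_fin]
      have h3 := fam_multi (P := Fin k × Fin M) (S := Fin k × Fin M) (J := Fin k)
        (fun _ t => t.1) (fun k => (D (ω k)).circ)
        (fun k => h.det _) half (R := r' * (n * 1)) (ρ := ρ) (b := b) (κ := κ) (T := T)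
        (ν := ∑ k, ν k) (w := w) (B := B) (part := part)
        (fun k => h.fanIn _) h1' (fun k => (hB k).mono
          (single_le_sum (f := ν) (fun _ _ => Nat.zero_le _) (mem_univ k)))
        (id : (Fin k × Fin u) ⊕ (Fin k × Fin u) → (Fin k × Fin u) ⊕ (Fin k × Fin u))
        (fun t => Sum.inl (t.1, ⟨t.2.1, by have := t.2.2; omega⟩))
        (fun s t => Sum.inr (t.1 + s.1, ⟨t.2.1 + s.2.1, by
          have := t.2.2
          have := s.2.2
          omega⟩))
        (fun t t' h => by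
          have h3 := Sum.inl_injective h
          rw [Prod.mk.injEq] at h3
          refine Prod.ext h3.1 (Fin.ext ?_)
          have h4 := congrArg Fin.val h3.2
          simpa using h4)
        (fun s t t' h => by
          have h3 := Sum.inr_injective h
          rw [Prod.mk.injEq] at h3
          refine Prod.ext (add_right_cancel h3.1) (Fin.ext ?_)
          have h4 := congrArg Fin.val h3.2
          simp only at h4
          omega)
        (fun t s s' h => by
          have h3 := Sum.inr_injective h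
          rw [Prod.mk.injEq] at h3
          refine Prod.ext (add_left_cancel h3.1) (Fin.ext ?_)
          have h4 := congrArg Fin.val h3.2
          simp only at h4
          omega)
        (fun s t t' h => by cases h)
        (by
          rw [hcard, hρ1]
          calc 16 * (r' * (n * 1)) ≤ 16 * (r' * (5 * (k * M) * 1)) := by gcongr
            _ = 80 * r' * (k * M) := by ring)
        (by
          rw [hcard]
          have h1 : ρ * w ≤ 80 * r' * w := Nat.mul_le_mul_right _ (by omega)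
          have h2 : 9600 * r' * w = 15 * (8 * (80 * r' * w)) := by ring
          omega)
        inst
        (fun s x x' y i hi => by
          rw [hinst, hinst]
          rcases i with i | i
          · show set₁ M (bl x i.1) i.2.1 = set₁ M (bl x' i.1) i.2.1
            unfold set₁
            by_cases h5 : i.2.1 < M
            · rw [if_pos h5, if_pos h5, lA_congr fun t ht => ?_]
              rw [mem_bl, mem_bl]
              refine hi (i.1, t) (congrArg Sum.inl (Prod.ext rfl (Fin.ext ?_)))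
              exact ht.symm
            · rw [if_neg h5, if_neg h5]
          · rfl)
        (fun s x y y' i hi => by
          rw [hinst, hinst]
          rcases i with i | i
          · rfl
          · show set₂ M s.2.1 (bl y (i.1 - s.1)) i.2.1 = set₂ M s.2.1 (bl y' (i.1 - s.1)) i.2.1
            unfold set₂
            by_cases h5 : i.2.1 < 2 * M
            · rw [if_pos h5, if_pos h5, lB_congr fun t ht => ?_]
              rw [mem_bl, mem_bl]
              refine hi (i.1 - s.1, t) (congrArg Sum.inr (Prod.ext ?_ (Fin.ext ?_)))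
              · exact (sub_add_cancel _ _).symm
              · exact ht.symm
            · rw [if_neg h5, if_neg h5])
        (α := fun k => SetAddr _ u (D (ω k)).circ.size Z)
        (fun s j k => (D (ω k)).proc j (j + s.1))
        (fun k a x => scont (h.det (ω k)) a x)
        (fun s k a => by
          rcases a with g | f | f
          · exact Or.inl ⟨g, fun z v hv =>
              congrFun (run_unique (h.det (ω k)) (smem_run (h.det (ω k)) z) hv) g⟩
          · refine Or.inr (Or.inl fun x y y' => ?_)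
            show f (fun i => inst s x y (Sum.inl i)) = f (fun i => inst s x y' (Sum.inl i))
            rw [hl, hl]
          · refine Or.inr (Or.inr fun x x' y => ?_)
            show f (fun i => inst s x y (Sum.inr i)) = f (fun i => inst s x' y (Sum.inr i))
            rw [hr', hr'])
        (by
          refine le_trans (le_of_eq ?_) h2
          refine sum_congr rfl fun s _ => sum_congr rfl fun t _ => ?_
          congr 1
          funext x y
          congr 1
          funext k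
          exact propext (set_says_iff (h.det (ω k)) (inst s x y) t.1 (t.1 + s.1)).symm) hb hZ
      rw [hcard, Fintype.card_fin, Fintype.card_fin] at h3
      have h4 : ∑ k, (B k).card + 160 * (k * T + 1) ≤
          2 ^ 44 * (r' ^ 2 * 1) * 160 * (G + (k * T + 1)) := by
        have h5 : ∑ k, (B k).card ≤ ∑ _k : Fin 160, 2 ^ 44 * (r' ^ 2 * 1 * G) :=
          sum_le_sum fun k _ => (Nat.le_succ _).trans (hBc k)
        rw [sum_const, card_univ, Fintype.card_fin, smul_eq_mul] at h5
        have hr0 : 0 < r' := by omega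
        have h6 : 1 ≤ 2 ^ 44 * (r' ^ 2 * 1) := Nat.mul_pos (by norm_num) (by positivity)
        calc ∑ k, (B k).card + 160 * (k * T + 1) ≤ 160 * (2 ^ 44 * (r' ^ 2 * 1 * G)) +
              2 ^ 44 * (r' ^ 2 * 1) * (160 * (k * T + 1)) :=
              Nat.add_le_add h5 (Nat.le_mul_of_pos_left _ h6)
          _ = _ := by ring
      calc n ≤ 5 * (k * M) := hn5
        _ ≤ 2 ^ 5 * (2 ^ (2 * ρ + 16) *
              ((κ + 1) * b * (∑ k, (B k).card + 160 * (k * T + 1)))) :=
            Nat.mul_le_mul (by norm_num) h3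
        _ ≤ 2 ^ 5 * (2 ^ (2 * ρ + 16) * ((κ + 1) * b *
              (2 ^ 44 * (r' ^ 2 * 1) * 160 * (G + (k * T + 1))))) := by gcongr
        _ = _ := by
            have h7 : 102400 * r + 19 = 5 + (2 * ρ + 16) := by omega
            rw [h7, pow_add 2 5, ← hr1]
            ring
    · push Not at hn1
      calc n ≤ 9600 * r' := hn1.le
        _ ≤ 2 ^ 44 * (640 * r) ^ 2 := by
            rw [hr1]
            calc 9600 * (640 * r) ≤ 2 ^ 44 * ((640 * r) * (640 * r)) :=
                  Nat.mul_le_mul (by norm_num) (Nat.le_mul_self _)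
              _ = _ := by ring
        _ = 2 ^ 44 * (640 * r) ^ 2 * 1 * 1 := by ring
        _ ≤ _ := by
            apply Nat.mul_le_mul
            · apply Nat.mul_le_mul_left
              exact Nat.mul_pos (Nat.mul_pos (by positivity) hkb) (by norm_num)
            · omega
  have h4 : (n : ℝ) ≤ 2 ^ 44 * (640 * r) ^ 2 *
      (2 ^ (102400 * r + 19) * ((κ + 1) * b) * 160) * (G + (k * T + 1)) := by
    exact_mod_cast hmain
  have h5 : (2 : ℝ) ^ 44 * (640 * r) ^ 2 * (2 ^ (102400 * r + 19) * 160) * 642 ≤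
      2 ^ (110000 * r) := by exact_mod_cast consts_set r hr
  have hTT : (0 : ℝ) ≤ k * T := by positivity
  calc (n : ℝ) ≤ 2 ^ 44 * (640 * r) ^ 2 *
        (2 ^ (102400 * r + 19) * ((κ + 1) * b) * 160) * (G + (k * T + 1)) := h4
    _ ≤ 2 ^ 44 * (640 * r) ^ 2 *
        (2 ^ (102400 * r + 19) * ((κ + 1) * b) * 160) * (642 * (mean p c + k * T)) := by
        gcongr
        linarith
    _ = (2 ^ 44 * (640 * r) ^ 2 * (2 ^ (102400 * r + 19) * 160) * 642) *
        ((κ + 1) * b * (mean p c + k * T)) := by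
        generalize (2 : ℝ) ^ (102400 * r + 19) = X
        ring
    _ ≤ _ := mul_le_mul_of_nonneg_right h5 (by positivity)

/-- **The bound for all sets.** -/
theorem set_all [Fintype Z] [Fintype Ω] (hr : 1 ≤ r) (hb : 1 ≤ b)
    (hT : 1 ≤ T) (hZ : Fintype.card Z ≤ 2 ^ b)
    (p : Ω → ℝ) (D : Ω → SetDS k u T Z) (h : RandSetDS κ p D)
    (hR : mean p (fun ω => (D ω).circ.reads) ≤ r * (k * u)) (c : Ω → ℕ)
    (hc : ∀ ω, WidthLE (D ω).circ (c ω)) :
    (k : ℝ) * u ≤ 2 ^ (110000 * r) * ((κ + 1) * b * (mean p c + k * T)) := by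
  have hT1 : 1 ≤ mean p c :=
    one_le_mean h.nonneg h.total (c := fun ω => (c ω : ℝ)) (fun ω => by
      have h1 := (hc ω).pos
      exact_mod_cast h1) le_rfl
  by_cases hk : 1 ≤ k
  · by_cases hu : 8 ≤ u
    · exact set_width hu hk hr hb hT hZ p D h hR c hc
    · have hkb : 1 ≤ (κ + 1) * b := Nat.mul_pos (Nat.succ_pos _) hb
      have hkbR : (1 : ℝ) ≤ ((κ : ℝ) + 1) * b := by exact_mod_cast hkb
      have hu8 : (u : ℝ) ≤ 8 := by
        have : u ≤ 8 := by omega
        exact_mod_cast this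
      have hTR : (1 : ℝ) ≤ T := by exact_mod_cast hT
      have hk0 : (0 : ℝ) ≤ k := Nat.cast_nonneg _
      have h3 : (2 : ℝ) ^ 3 ≤ 2 ^ (110000 * r) := pow_le_pow_right₀ (by norm_num) (by omega)
      calc (k : ℝ) * u ≤ k * 8 := mul_le_mul_of_nonneg_left hu8 hk0
        _ = 2 ^ 3 * (1 * (0 + k * 1)) := by ring
        _ ≤ _ := by
            gcongr
            linarith
  · have hk0 : k = 0 := by omega
    rw [hk0]
    have h3 : (0 : ℝ) ≤ mean p c := by linarith
    have h4 : (0 : ℝ) ≤ 2 ^ (110000 * r) * ((κ + 1) * b * (mean p c + (0 : ℕ) * T)) := by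
      positivity
    simpa using h4

/-- **Reads against width and query time.** -/
theorem set_reads (a κ : ℕ) (ε : ℝ) (hε : 0 < ε) : ∃ n₀ : ℕ, ∀ k u : ℕ, n₀ ≤ k * u →
    ∀ T : ℕ, 1 ≤ T → (k : ℝ) * T ≤ ((k * u : ℕ) : ℝ) ^ (1 - ε) →
    ∀ (Z : Type) [Fintype Z], Fintype.card Z ≤ (k * u) ^ a →
    ∀ (Ω : Type) [Fintype Ω] (p : Ω → ℝ) (D : Ω → SetDS k u T Z) (c : Ω → ℕ),
      RandSetDS κ p D → (∀ ω, WidthLE (D ω).circ (c ω)) →
      mean p c ≤ ((k * u : ℕ) : ℝ) ^ (1 - ε) →
      ε / 440000 * ((k * u : ℕ) * Real.logb 2 (k * u : ℕ)) ≤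
        mean p fun ω => (D ω).circ.reads := by
  obtain ⟨n₀, hn₀⟩ := trade_log ((κ + 1) * (a + 1) * 2) 1 110000 1 (by norm_num) 1 ε hε
  refine ⟨n₀, fun k u hn T hT1 hT Z _ hZ Ω _ p D c h hc hcT => ?_⟩
  obtain ⟨n, hnd⟩ : ∃ n, n = k * u := ⟨_, rfl⟩
  rw [← hnd] at hn hT hZ hcT ⊢
  have h2 := hn₀ n hn (mean p fun ω => (D ω).circ.reads)
    ((n : ℝ) ^ (1 - ε)) (by positivity) le_rfl (fun r hr hR => by
      have h3 := set_all (r := r) (b := (a + 1) * (Nat.log 2 n + 1)) hr
        (Nat.mul_pos (Nat.succ_pos _) (Nat.succ_pos _)) hT1 (card_words hZ) p D h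
        (by rw [pow_one, hnd] at hR; push_cast at hR; exact hR) c hc
      rw [Real.rpow_one]
      have h4 : (n : ℝ) = k * u := by rw [hnd]; push_cast; ring
      rw [← h4] at h3
      refine h3.trans ?_
      calc (2 : ℝ) ^ (110000 * r) * ((κ + 1) * (((a + 1) * (Nat.log 2 n + 1) : ℕ) : ℝ) *
            (mean p c + k * T)) ≤
          2 ^ (110000 * r) * ((κ + 1) * (((a + 1) * (Nat.log 2 n + 1) : ℕ) : ℝ) *
            ((n : ℝ) ^ (1 - ε) + (n : ℝ) ^ (1 - ε))) := by gcongr
        _ = _ := by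
            push_cast
            generalize (2 : ℝ) ^ (110000 * r) = X
            ring)
  calc _ = ε / (4 * ((110000 : ℕ) : ℝ)) * ((n : ℝ) ^ 1 * Real.logb 2 n) := by norm_num
    _ ≤ _ := h2

end

end Pool.Agent.U286.LY
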