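import Mathlib
import Pool.Agent.U286.LY.LWidth

/-!
# Graphs decided by narrow word circuits
-/

set_option autoImplicit false

open Finset

namespace Pool.Agent.U286.LY

open Pool.Agent.Y631.Wc Pool.Agent.U286.LY.ET

section

variable {V Z : Type} [Fintype V] [Fintype Z] {m r κ b c s : ℕ}

open Classical in
/-- the accepted pairs -/
noncomputable def accPairs (C : WCirc (Fin m ⊕ Fin m) Bool Z) (lab : V → Fin m → Bool) :
    Finset (V × V) := univ.filter fun p => C.Accepts (Sum.elim (lab p.1) (lab p.2))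

/-- **Large product sets**, natural numbers, with given parts. -/
theorem acc_parts [NeZero m] (hb : Fintype.card Z ≤ 2 ^ b) (C : WCirc (Fin m ⊕ Fin m) Bool Z)
    (hκ : C.FanIn κ) (hR : C.reads ≤ r * m) (lab : V → Fin m → Bool)
    (hlab : Function.Injective lab)
    (hno : ¬ ∃ S T : Finset V, s ≤ S.card ∧ s ≤ T.card ∧
      ∀ u ∈ S, ∀ v ∈ T, C.Accepts (Sum.elim (lab u) (lab v)))
    {w ν ρ : ℕ} {B : Finset (Fin C.size)} {part : Fin C.size → ℕ} (hB : Parts C B part ν w)
    (hρ : 16 * r ≤ ρ + 1) (hw : 8 * (ρ * w) ≤ m) (hbig : 16 * (κ * B.card) ≤ m) :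
    ∃ q, m ≤ 2 * 4 ^ ρ * q ∧
      (accPairs C lab).card * 2 ^ q ≤ s * 2 ^ (2 * m + b * ((κ + 1) * B.card)) := by
  classical
  obtain ⟨a, Q, hQ, hmix⟩ := separated (P := Fin m) (S := Fin m) C (ρ := ρ) (w := w) hκ hR hB id
    (fun t => Sum.inl t) (fun a t => Sum.inr (t + a)) (fun t t' h => Sum.inl_injective h)
    (fun a t t' h => add_right_cancel (Sum.inr_injective h))
    (fun t a a' h => add_left_cancel (Sum.inr_injective h))
    (by
      rw [Fintype.card_fin]
      calc 16 * (r * m) = 16 * r * m := by ring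
        _ ≤ _ := Nat.mul_le_mul_right _ hρ)
    (by rw [Fintype.card_fin]; exact hw) (by rw [Fintype.card_fin]; exact hbig)
  rw [Fintype.card_fin] at hQ
  refine ⟨Q.card, hQ, ?_⟩
  obtain ⟨Q₂, hQ₂⟩ : ∃ Q₂ : Finset (Fin m), Q₂ = Q.image fun t => t + a := ⟨_, rfl⟩
  have hQ₂c : Q₂.card = Q.card := by
    rw [hQ₂]
    exact card_image_of_injective _ fun t t' h => add_right_cancel h
  have hm1 : ∀ t : Fin m, (Sum.inl t : Fin m ⊕ Fin m) ∈ Q.image (fun t => Sum.inl t) ↔ t ∈ Q := by
    intro t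
    simp
  have hm2 : ∀ t : Fin m, (Sum.inr t : Fin m ⊕ Fin m) ∉ Q.image (fun t => Sum.inl t) := by
    intro t
    simp
  have hm3 : ∀ t : Fin m, (Sum.inr t : Fin m ⊕ Fin m) ∈ Q.image (fun t => Sum.inr (t + a)) ↔
      t ∈ Q₂ := by
    intro t
    rw [hQ₂, mem_image, mem_image]
    constructor
    · rintro ⟨t', ht', h⟩
      exact ⟨t', ht', Sum.inr_injective h⟩
    · rintro ⟨t', ht', h⟩
      exact ⟨t', ht', congrArg Sum.inr h⟩
  -- classes
  have hcls : ∀ p ∈ accPairs C lab, ∃ cl : {g // g ∈ C.plus B} → Z,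
      Sum.elim (lab p.1) (lab p.2) ∈ C.Cls B cl := by
    intro p hp
    unfold accPairs at hp
    obtain ⟨v, hv, ho⟩ := (mem_filter.1 hp).2
    exact ⟨fun g => v g.1, v, hv, ho, fun _ => rfl⟩
  by_cases hZ0 : Nonempty ({g // g ∈ C.plus B} → Z)
  swap
  · have h0 : accPairs C lab = ∅ := by
      rw [eq_empty_iff_forall_notMem]
      intro p hp
      obtain ⟨cl, -⟩ := hcls p hp
      exact hZ0 ⟨cl⟩
    rw [h0, card_empty, zero_mul]
    exact Nat.zero_le _
  obtain ⟨cl₀⟩ := hZ0
  obtain ⟨cl, hcl⟩ : ∃ cl : V × V → ({g // g ∈ C.plus B} → Z), ∀ p ∈ accPairs C lab,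
      Sum.elim (lab p.1) (lab p.2) ∈ C.Cls B (cl p) := by
    refine ⟨fun p => if h : p ∈ accPairs C lab then Classical.choose (hcls p h) else cl₀,
      fun p hp => ?_⟩
    show Sum.elim (lab p.1) (lab p.2) ∈
      C.Cls B (if h : p ∈ accPairs C lab then Classical.choose (hcls p h) else cl₀)
    rw [dif_pos hp]
    exact Classical.choose_spec (hcls p hp)
  -- the keys
  obtain ⟨key, hkey⟩ : ∃ key : V × V → (({t // t ∉ Q} → Bool) × ({t // t ∉ Q₂} → Bool)) ×
      ({g // g ∈ C.plus B} → Z), ∀ p, key p =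
        ((fun t => lab p.1 t.1, fun t => lab p.2 t.1), cl p) := ⟨_, fun _ => rfl⟩
  have hfib : ∀ k, ((accPairs C lab).filter fun p => key p = k).card ≤ s * 2 ^ Q.card := by
    intro k
    obtain ⟨F, hF⟩ : ∃ F, F = (accPairs C lab).filter fun p => key p = k := ⟨_, rfl⟩
    rw [← hF]
    obtain ⟨S, hS⟩ : ∃ S, S = F.image Prod.fst := ⟨_, rfl⟩
    obtain ⟨T, hT⟩ : ∃ T, T = F.image Prod.snd := ⟨_, rfl⟩
    have hFST : F.card ≤ S.card * T.card := by
      rw [← card_product]
      apply card_le_card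
      intro p hp
      rw [mem_product, hS, hT]
      exact ⟨mem_image_of_mem _ hp, mem_image_of_mem _ hp⟩
    have hkF : ∀ p ∈ F, p ∈ accPairs C lab ∧ (∀ t, (h : t ∉ Q) → lab p.1 t = k.1.1 ⟨t, h⟩) ∧
        (∀ t, (h : t ∉ Q₂) → lab p.2 t = k.1.2 ⟨t, h⟩) ∧ cl p = k.2 := by
      intro p hp
      rw [hF, mem_filter, hkey] at hp
      obtain ⟨h1, h2⟩ := hp
      refine ⟨h1, fun t h => ?_, fun t h => ?_, ?_⟩
      · rw [← h2]
      · rw [← h2]
      · rw [← h2]
    have hSc : S.card ≤ 2 ^ Q.card := by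
      have h1 : Fintype.card ({t // t ∈ Q} → Bool) = 2 ^ Q.card := by
        rw [Fintype.card_fun, Fintype.card_bool, Fintype.card_coe]
      rw [← h1, ← card_univ]
      apply card_le_card_of_injOn (fun u (t : {t // t ∈ Q}) => lab u t.1) (fun _ _ => mem_univ _)
      intro u hu u' hu' h
      rw [mem_coe, hS, mem_image] at hu hu'
      obtain ⟨p, hp, rfl⟩ := hu
      obtain ⟨p', hp', rfl⟩ := hu'
      apply hlab
      funext t
      by_cases ht : t ∈ Q
      · exact congrFun h ⟨t, ht⟩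
      · rw [(hkF p hp).2.1 t ht, (hkF p' hp').2.1 t ht]
    have hTc : T.card ≤ 2 ^ Q.card := by
      have h1 : Fintype.card ({t // t ∈ Q₂} → Bool) = 2 ^ Q.card := by
        rw [Fintype.card_fun, Fintype.card_bool, Fintype.card_coe, hQ₂c]
      rw [← h1, ← card_univ]
      apply card_le_card_of_injOn (fun u (t : {t // t ∈ Q₂}) => lab u t.1) (fun _ _ => mem_univ _)
      intro u hu u' hu' h
      rw [mem_coe, hT, mem_image] at hu hu'
      obtain ⟨p, hp, rfl⟩ := hu
      obtain ⟨p', hp', rfl⟩ := hu'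
      apply hlab
      funext t
      by_cases ht : t ∈ Q₂
      · exact congrFun h ⟨t, ht⟩
      · rw [(hkF p hp).2.2.1 t ht, (hkF p' hp').2.2.1 t ht]
    have hrect : ∀ u ∈ S, ∀ v ∈ T, C.Accepts (Sum.elim (lab u) (lab v)) := by
      intro u hu v hv
      rw [hS, mem_image] at hu
      rw [hT, mem_image] at hv
      obtain ⟨p, hp, rfl⟩ := hu
      obtain ⟨p', hp', rfl⟩ := hv
      obtain ⟨a1, a2, a3, a4⟩ := hkF p hp
      obtain ⟨b1, b2, b3, b4⟩ := hkF p' hp'
      have c1 := hcl p a1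
      have c2 := hcl p' b1
      rw [a4] at c1
      rw [b4] at c2
      obtain ⟨v, hv, ho, -⟩ := hmix k.2 _ _ (Sum.elim (lab p.1) (lab p'.2)) c1 c2
        (by
          rintro (t | t) h1 h2
          · have h3 : t ∉ Q := fun h => h1 ((hm1 t).2 h)
            show lab p.1 t = lab p'.1 t
            rw [a2 t h3, b2 t h3]
          · have h3 : t ∉ Q₂ := fun h => h2 ((hm3 t).2 h)
            show lab p.2 t = lab p'.2 t
            rw [a3 t h3, b3 t h3])
        (by
          rintro (t | t) h1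
          · rfl
          · exact absurd h1 (hm2 t))
        (by
          rintro (t | t) h1
          · have h3 : t ∉ Q := fun h => h1 ((hm1 t).2 h)
            show lab p.1 t = lab p'.1 t
            rw [a2 t h3, b2 t h3]
          · rfl)
      exact ⟨v, hv, ho⟩
    by_cases h1 : s ≤ S.card
    · have h2 : T.card < s := by
        by_contra h2
        exact hno ⟨S, T, h1, not_lt.1 h2, hrect⟩
      calc F.card ≤ S.card * T.card := hFST
        _ ≤ 2 ^ Q.card * s := Nat.mul_le_mul hSc h2.le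
        _ = _ := mul_comm _ _
    · calc F.card ≤ S.card * T.card := hFST
        _ ≤ s * 2 ^ Q.card := Nat.mul_le_mul (not_le.1 h1).le hTc
  have h1 : (accPairs C lab).card ≤ s * 2 ^ Q.card * Fintype.card
      ((({t // t ∉ Q} → Bool) × ({t // t ∉ Q₂} → Bool)) × ({g // g ∈ C.plus B} → Z)) := by
    refine (card_le_mul_card_image (f := key) (accPairs C lab) _ fun k _ => hfib k).trans ?_
    exact Nat.mul_le_mul_left _ (card_le_univ _)
  have h2 : Fintype.card
      ((({t // t ∉ Q} → Bool) × ({t // t ∉ Q₂} → Bool)) × ({g // g ∈ C.plus B} → Z)) ≤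
      2 ^ (m - Q.card) * 2 ^ (m - Q.card) * 2 ^ (b * ((κ + 1) * B.card)) := by
    have e1 : Fintype.card {t // t ∉ Q} = m - Q.card := by
      rw [Fintype.card_subtype_compl, Fintype.card_fin, Fintype.card_coe]
    have e2 : Fintype.card {t // t ∉ Q₂} = m - Q.card := by
      rw [Fintype.card_subtype_compl, Fintype.card_fin, Fintype.card_coe, hQ₂c]
    rw [Fintype.card_prod, Fintype.card_prod, Fintype.card_fun, Fintype.card_fun,
      Fintype.card_fun, Fintype.card_bool, e1, e2, Fintype.card_coe]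
    apply Nat.mul_le_mul_left
    calc Fintype.card Z ^ (C.plus B).card ≤ (2 ^ b) ^ (C.plus B).card :=
          Nat.pow_le_pow_left hb _
      _ = 2 ^ (b * (C.plus B).card) := by rw [pow_mul]
      _ ≤ _ := Nat.pow_le_pow_right (by norm_num) (Nat.mul_le_mul_left _ (C.card_plus B κ hκ))
  have hQm : Q.card ≤ m := by
    have := card_le_univ Q
    rwa [Fintype.card_fin] at this
  calc (accPairs C lab).card * 2 ^ Q.card ≤ s * 2 ^ Q.card *
        (2 ^ (m - Q.card) * 2 ^ (m - Q.card) * 2 ^ (b * ((κ + 1) * B.card))) * 2 ^ Q.card :=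
        Nat.mul_le_mul_right _ (h1.trans (Nat.mul_le_mul_left _ h2))
    _ = s * ((2 ^ Q.card * 2 ^ (m - Q.card)) * (2 ^ Q.card * 2 ^ (m - Q.card)) *
        2 ^ (b * ((κ + 1) * B.card))) := by ring
    _ = _ := by
        rw [← pow_add, Nat.add_sub_cancel' hQm, ← pow_add, ← pow_add]
        congr 2
        ring

end

end Pool.Agent.U286.LY
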