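import Mathlib
import Pool.Agent.U286.LY.LDef

/-!
# Graphs decided by word circuits: the definitions
-/

set_option autoImplicit false

namespace Pool.Agent.U286.LY

open Pool.Agent.Y631.Wc

/-- The word circuits `C j` decide the adjacency in the graph `G`, whose vertices `v` have the names
`lab v` (strings of `m` bits): if one of them accepts the pair of the names of two different
vertices then these are adjacent, and for two adjacent vertices one of them accepts the pair of
their names in one of the two orders. -/
structure DecidedBy {V : Type} {m N : ℕ} {Z : Fin N → Type}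
    (C : ∀ j, WCirc (Fin m ⊕ Fin m) Bool (Z j)) (lab : V → Fin m → Bool) (G : SimpleGraph V) :
    Prop where
  sound : ∀ j u v, u ≠ v → (C j).Accepts (Sum.elim (lab u) (lab v)) → G.Adj u v
  complete : ∀ u v, G.Adj u v → ∃ j, (C j).Accepts (Sum.elim (lab u) (lab v)) ∨
    (C j).Accepts (Sum.elim (lab v) (lab u))

/-- The circuit has fan-in at most `κ` and words of at most `b` bits, the names of `m` bits are read
by at most `r * m` wires, and the circuit has the width `c`. -/
structure Narrow {m : ℕ} {Z : Type} [Fintype Z] (C : WCirc (Fin m ⊕ Fin m) Bool Z)
    (r κ b c : ℕ) : Prop where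
  bits : Fintype.card Z ≤ 2 ^ b
  fanIn : C.FanIn κ
  reads : C.reads ≤ r * m
  width : WidthLE C c

end Pool.Agent.U286.LY
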