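import Mathlib
import Pool.Agent.U286.LY.Host
import Pool.Agent.U286.LY.HostDef

/-!
# Graphs decided by narrow word circuits: the bounds
-/

set_option autoImplicit false

open Finset

namespace Pool.Agent.U286.LY

open Pool.Agent.Y631.Wc Pool.Agent.U286.LY.ET

section

variable {V Z : Type} [Fintype V] [Fintype Z] {m r κ b c s : ℕ}

/-- **One circuit.** -/
theorem acc_bound (hr : 1 ≤ r) (hb : 1 ≤ b) (C : WCirc (Fin m ⊕ Fin m) Bool Z)
    (hC : Narrow C r κ b c) (lab : V → Fin m → Bool)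
    (hlab : Function.Injective lab)
    (hno : ¬ ∃ S T : Finset V, s ≤ S.card ∧ s ≤ T.card ∧
      ∀ u ∈ S, ∀ v ∈ T, C.Accepts (Sum.elim (lab u) (lab v))) :
    ((accPairs C lab).card : ℝ) ≤ s * (2 ^ (2 ^ 44 * r ^ 2 * ((κ + 1) * b * c)) *
      ((2 : ℝ) ^ m) ^ (2 - 1 / (2 : ℝ) ^ (32 * r))) := by
  classical
  have hc := hC.width.pos
  have hs : 1 ≤ s := by
    by_contra h
    apply hno
    exact ⟨∅, ∅, by omega, by omega, by simp⟩
  obtain ⟨L, hL⟩ : ∃ L, L = 2 ^ 44 * r ^ 2 * ((κ + 1) * b * c) := ⟨_, rfl⟩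
  obtain ⟨E, hE⟩ : ∃ E : ℝ, E = (2 : ℝ) ^ (32 * r) := ⟨_, rfl⟩
  have hE0 : 0 < E := by rw [hE]; positivity
  have hbc : 1 ≤ b * c := Nat.mul_pos hb hc
  have hL1 : 2 ^ 44 * r ^ 2 * ((κ + 1) * c) ≤ L := by
    rw [hL]
    apply Nat.mul_le_mul_left
    calc (κ + 1) * c ≤ (κ + 1) * (b * c) := Nat.mul_le_mul_left _ (Nat.le_mul_of_pos_left _ hb)
      _ = _ := by ring
  rw [← hL, ← hE]
  -- it is enough to bound the exponent
  have key : ∀ x : ℝ, ((accPairs C lab).card : ℝ) ≤ s * (2 : ℝ) ^ x →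
      x ≤ L + m * (2 - 1 / E) → ((accPairs C lab).card : ℝ) ≤
      s * (2 ^ L * ((2 : ℝ) ^ m) ^ (2 - 1 / E)) := by
    intro x h1 h2
    refine h1.trans (mul_le_mul_of_nonneg_left ?_ (Nat.cast_nonneg _))
    calc (2 : ℝ) ^ x ≤ 2 ^ ((L : ℝ) + m * (2 - 1 / E)) :=
          Real.rpow_le_rpow_of_exponent_le (by norm_num) h2
      _ = _ := by
          rw [Real.rpow_add (by norm_num), Real.rpow_natCast, Real.rpow_mul (by norm_num),
            Real.rpow_natCast]
  -- the trivial bound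
  have htriv : (m : ℝ) / E ≤ L → ((accPairs C lab).card : ℝ) ≤
      s * (2 ^ L * ((2 : ℝ) ^ m) ^ (2 - 1 / E)) := by
    intro h
    apply key (2 * m)
    · have h1 : (accPairs C lab).card ≤ 2 ^ (2 * m) := by
        have h2 : Fintype.card V ≤ 2 ^ m := by
          have := Fintype.card_le_of_injective lab hlab
          simpa using this
        calc (accPairs C lab).card ≤ Fintype.card (V × V) := card_le_univ _
          _ = Fintype.card V * Fintype.card V := Fintype.card_prod _ _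
          _ ≤ 2 ^ m * 2 ^ m := Nat.mul_le_mul h2 h2
          _ = _ := by rw [← pow_add]; congr 1; ring
      have h2 : ((accPairs C lab).card : ℝ) ≤ (2 : ℝ) ^ (2 * m) := by exact_mod_cast h1
      have h3 : (2 : ℝ) ^ ((2 : ℝ) * m) = (2 : ℝ) ^ (2 * m) := by
        rw [← Real.rpow_natCast]
        push_cast
        rfl
      rw [h3]
      have hsR : (1 : ℝ) ≤ s := by exact_mod_cast hs
      have h4 : (0 : ℝ) < (2 : ℝ) ^ (2 * m) := by positivity
      nlinarith
    · have h1 : (m : ℝ) * (2 - 1 / E) = 2 * m - m / E := by ring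
      rw [h1]
      linarith
  have hE1 : (2 : ℝ) ^ 32 ≤ E := by
    rw [hE]
    exact pow_le_pow_right₀ (by norm_num) (by omega)
  have hE2 : (1 : ℝ) ≤ E := le_trans (by norm_num) hE1
  by_cases hm : 9600 * r ≤ m
  · obtain ⟨w, hw0, hw1, hw2⟩ := choose_w hr hm
    obtain ⟨ν, B, part, hB, hBc⟩ : ∃ (ν : ℕ) (B : Finset (Fin C.size))
        (part : Fin C.size → ℕ), Parts C B part ν w ∧ B.card + 1 ≤ 2 ^ 44 * (r ^ 2 * 1 * c) := by
      rcases hC.width with ⟨θ, a1, a2⟩ | ⟨k', a1, a2⟩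
      · obtain ⟨ν, B, part, hB, h3⟩ := parts_treewidth (N := 1) hr hw0 hw2 le_rfl C a1
          (by rw [mul_one]; exact hC.reads)
        exact ⟨ν, B, part, hB, h3.trans
          (Nat.mul_le_mul (by norm_num) (Nat.mul_le_mul_left _ a2))⟩
      · exact parts_drawing (N := 1) hr le_rfl hw0 hw2 hc (g := c ^ 2) (by omega) C a1 a2
          (by rw [mul_one]; exact hC.reads)
    have hBc' : B.card ≤ 2 ^ 44 * r ^ 2 * c := by
      have h1 : 2 ^ 44 * (r ^ 2 * 1 * c) = 2 ^ 44 * r ^ 2 * c := by ring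
      omega
    by_cases hbig : 16 * (κ * B.card) ≤ m
    · have : NeZero m := ⟨by omega⟩
      obtain ⟨q, hq, h1⟩ := acc_parts (s := s) hC.bits C hC.fanIn hC.reads lab hlab hno hB
        (ρ := 16 * r - 1) (by omega)
        (by
          have h2 : (16 * r - 1) * w ≤ 16 * r * w := Nat.mul_le_mul_right _ (by omega)
          have h3 : 9600 * r * w = 600 * (16 * r * w) := by ring
          omega) hbig
      have h2 : b * ((κ + 1) * B.card) ≤ L := by
        rw [hL]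
        calc b * ((κ + 1) * B.card) ≤ b * ((κ + 1) * (2 ^ 44 * r ^ 2 * c)) := by gcongr
          _ = _ := by ring
      have h3 : (accPairs C lab).card * 2 ^ q ≤ s * 2 ^ (2 * m + L) :=
        h1.trans (Nat.mul_le_mul_left _ (Nat.pow_le_pow_right (by norm_num) (by omega)))
      have h4 : ((accPairs C lab).card : ℝ) * 2 ^ q ≤ s * 2 ^ (2 * m + L) := by exact_mod_cast h3
      have h5 : (m : ℝ) / E ≤ q := by
        rw [div_le_iff₀ hE0]
        have h6 : 2 * 4 ^ (16 * r - 1) * q ≤ 2 ^ (32 * r) * q := by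
          apply Nat.mul_le_mul_right
          calc 2 * 4 ^ (16 * r - 1) = 2 ^ (1 + 2 * (16 * r - 1)) := by
                rw [pow_add, pow_mul]; norm_num
            _ ≤ _ := Nat.pow_le_pow_right (by norm_num) (by omega)
        have h7 : (m : ℝ) ≤ ((2 ^ (32 * r) * q : ℕ) : ℝ) := by exact_mod_cast hq.trans h6
        push_cast at h7
        rw [hE]
        linarith
      apply key (2 * m + L - q)
      · have h8 : (2 : ℝ) ^ ((2 : ℝ) * m + L - q) = 2 ^ (2 * m + L) / 2 ^ q := by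
          rw [Real.rpow_sub (by norm_num), ← Real.rpow_natCast 2 (2 * m + L),
            ← Real.rpow_natCast 2 q]
          push_cast
          rfl
        rw [h8, ← mul_div_assoc, le_div_iff₀ (by positivity)]
        exact h4
      · have h9 : (m : ℝ) * (2 - 1 / E) = 2 * m - m / E := by ring
        rw [h9]
        linarith
    · push Not at hbig
      apply htriv
      rw [div_le_iff₀ hE0]
      have h1 : m ≤ 2 ^ 32 * L := by
        have h2 : κ * B.card ≤ (κ + 1) * (2 ^ 44 * r ^ 2 * c) :=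
          Nat.mul_le_mul (Nat.le_succ _) hBc'
        have h3 : (κ + 1) * (2 ^ 44 * r ^ 2 * c) = 2 ^ 44 * r ^ 2 * ((κ + 1) * c) := by ring
        omega
      have h2 : (m : ℝ) ≤ 2 ^ 32 * L := by exact_mod_cast h1
      have h3 : (0 : ℝ) ≤ L := Nat.cast_nonneg _
      nlinarith
  · push Not at hm
    apply htriv
    rw [div_le_iff₀ hE0]
    have h1 : m ≤ L := by
      have h2 : 9600 * r ≤ 2 ^ 44 * r ^ 2 := by
        calc 9600 * r ≤ 2 ^ 44 * (r * r) := Nat.mul_le_mul (by norm_num) (Nat.le_mul_self _)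
          _ = _ := by ring
      have h3 : 2 ^ 44 * r ^ 2 * 1 ≤ 2 ^ 44 * r ^ 2 * ((κ + 1) * c) :=
        Nat.mul_le_mul_left _ (Nat.mul_pos (Nat.succ_pos _) hc)
      omega
    have h2 : (m : ℝ) ≤ L := by exact_mod_cast h1
    have h3 : (0 : ℝ) ≤ L := Nat.cast_nonneg _
    nlinarith

end

section

variable {V : Type} [Fintype V] {m r κ b c s N : ℕ} {Z : Fin N → Type} [∀ j, Fintype (Z j)]

omit [Fintype V] in
/-- a product set gives a complete bipartite graph -/
lemma no_product {G : SimpleGraph V} (hG : (completeBipartiteGraph (Fin s) (Fin s)).Free G) :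
    ¬ ∃ S T : Finset V, 2 * s ≤ S.card ∧ 2 * s ≤ T.card ∧
      ∀ u ∈ S, ∀ v ∈ T, u ≠ v → G.Adj u v := by
  classical
  rintro ⟨S, T, hS, hT, h⟩
  obtain ⟨S', hS1, hS2⟩ := exists_subset_card_eq (s := S) (n := s) (by omega)
  have h1 : s ≤ (T \ S').card := by
    have := le_card_sdiff S' T
    omega
  obtain ⟨T', hT1, hT2⟩ := exists_subset_card_eq h1
  refine hG ⟨⟨⟨Sum.elim (fun i => (S'.equivFinOfCardEq hS2).symm i)
    (fun j => (T'.equivFinOfCardEq hT2).symm j), ?_⟩, ?_⟩⟩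
  · have key : ∀ i j, G.Adj ((S'.equivFinOfCardEq hS2).symm i : V)
        ((T'.equivFinOfCardEq hT2).symm j : V) := by
      intro i j
      have hi := ((S'.equivFinOfCardEq hS2).symm i).2
      have hj := ((T'.equivFinOfCardEq hT2).symm j).2
      have hj' := mem_sdiff.1 (hT1 hj)
      exact h _ (hS1 hi) _ hj'.1 fun e => hj'.2 (e ▸ hi)
    intro x y hxy
    rcases x with i | i <;> rcases y with j | j
    · simp at hxy
    · exact key i j
    · exact (key j i).symm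
    · simp at hxy
  · intro x y hxy
    rcases x with i | i <;> rcases y with j | j
    · simp only [RelHom.coeFn_mk, Sum.elim_inl] at hxy
      rw [(S'.equivFinOfCardEq hS2).symm.injective (Subtype.ext hxy)]
    · exfalso
      have hi := ((S'.equivFinOfCardEq hS2).symm i).2
      have hj := ((T'.equivFinOfCardEq hT2).symm j).2
      simp only [RelHom.coeFn_mk, Sum.elim_inl, Sum.elim_inr] at hxy
      rw [← hxy] at hj
      exact (mem_sdiff.1 (hT1 hj)).2 hi
    · exfalso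
      have hi := ((S'.equivFinOfCardEq hS2).symm j).2
      have hj := ((T'.equivFinOfCardEq hT2).symm i).2
      simp only [RelHom.coeFn_mk, Sum.elim_inl, Sum.elim_inr] at hxy
      rw [hxy] at hj
      exact (mem_sdiff.1 (hT1 hj)).2 hi
    · simp only [RelHom.coeFn_mk, Sum.elim_inr] at hxy
      rw [(T'.equivFinOfCardEq hT2).symm.injective (Subtype.ext hxy)]

/-- **The bound for graphs.** -/
theorem host_bound (hr : 1 ≤ r) (hb : 1 ≤ b) (G : SimpleGraph V)
    (lab : V → Fin m → Bool) (hlab : Function.Injective lab)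
    (C : ∀ j, WCirc (Fin m ⊕ Fin m) Bool (Z j)) (hC : ∀ j, Narrow (C j) r κ b c)
    (hD : DecidedBy C lab G) (hG : (completeBipartiteGraph (Fin s) (Fin s)).Free G) :
    (Nat.card G.edgeSet : ℝ) ≤ N * (2 * s * (2 ^ (2 ^ 44 * r ^ 2 * ((κ + 1) * b * c)) *
      ((2 : ℝ) ^ m) ^ (2 - 1 / (2 : ℝ) ^ (32 * r)))) := by
  classical
  have hno := no_product hG
  have h1 : ∀ j, ((accPairs (C j) lab).card : ℝ) ≤
      2 * s * (2 ^ (2 ^ 44 * r ^ 2 * ((κ + 1) * b * c)) *
      ((2 : ℝ) ^ m) ^ (2 - 1 / (2 : ℝ) ^ (32 * r))) := by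
    intro j
    have h2 := acc_bound (s := 2 * s) hr hb (C j) (hC j) lab hlab (by
      rintro ⟨S, T, hS, hT, h⟩
      exact hno ⟨S, T, hS, hT, fun u hu v hv huv => hD.sound j u v huv (h u hu v hv)⟩)
    push_cast at h2
    exact h2
  have h2 : Nat.card G.edgeSet ≤ ∑ j, (accPairs (C j) lab).card := by
    have h3 : ∀ e : G.edgeSet, ∃ x : (j : Fin N) × V × V,
        x.2 ∈ accPairs (C x.1) lab ∧ s(x.2.1, x.2.2) = e.1 := by
      rintro ⟨e, he⟩
      induction e using Sym2.ind with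
      | _ u v =>
        obtain ⟨j, hj | hj⟩ := hD.complete u v he
        · exact ⟨⟨j, u, v⟩, by unfold accPairs; exact mem_filter.2 ⟨mem_univ _, hj⟩, rfl⟩
        · exact ⟨⟨j, v, u⟩, by unfold accPairs; exact mem_filter.2 ⟨mem_univ _, hj⟩,
            Sym2.eq_swap⟩
    choose f hf1 hf2 using h3
    have hf : Function.Injective f := by
      intro e e' h
      apply Subtype.ext
      rw [← hf2, ← hf2, h]
    rw [Nat.card_eq_fintype_card, ← card_sigma, ← card_univ]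
    apply card_le_card_of_injOn f _ hf.injOn
    intro e _
    rw [mem_coe, mem_sigma]
    exact ⟨mem_univ _, hf1 e⟩
  calc (Nat.card G.edgeSet : ℝ) ≤ ((∑ j, (accPairs (C j) lab).card : ℕ) : ℝ) := by
        exact_mod_cast h2
    _ = ∑ j, ((accPairs (C j) lab).card : ℝ) := by push_cast; rfl
    _ ≤ ∑ _j : Fin N, 2 * s * (2 ^ (2 ^ 44 * r ^ 2 * ((κ + 1) * b * c)) *
          ((2 : ℝ) ^ m) ^ (2 - 1 / (2 : ℝ) ^ (32 * r))) := sum_le_sum fun j _ => h1 j
    _ = _ := by rw [sum_const, card_univ, Fintype.card_fin, nsmul_eq_mul]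

/-- the constant -/
noncomputable def hostδ (r : ℕ) : ℝ := 1 / (4 * (2 : ℝ) ^ (32 * r) * (1 + 2 ^ 44 * (r : ℝ) ^ 2))

lemma hostδ_pos (r : ℕ) : 0 < hostδ r := by
  unfold hostδ
  positivity

/-- **Few edges.** -/
theorem host_small (hr : 1 ≤ r) (hb : 1 ≤ b) {n D : ℕ} (hn : 1 ≤ n) (hD : 2 ^ m ≤ D * n)
    (G : SimpleGraph (Fin n)) (lab : Fin n → Fin m → Bool) (hlab : Function.Injective lab)
    (C : ∀ j, WCirc (Fin m ⊕ Fin m) Bool (Z j)) (hC : ∀ j, Narrow (C j) r κ b c)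
    (hdec : DecidedBy C lab G) (hG : (completeBipartiteGraph (Fin s) (Fin s)).Free G)
    (hN : (N : ℝ) ≤ (n : ℝ) ^ hostδ r) (hw : ((κ : ℝ) + 1) * b * c ≤ hostδ r * m) :
    (Nat.card G.edgeSet : ℝ) ≤ 2 * s * (D : ℝ) ^ 3 *
      (n : ℝ) ^ (2 - 3 / (4 * (2 : ℝ) ^ (32 * r))) := by
  have h1 := host_bound hr hb G lab hlab C hC hdec hG
  obtain ⟨E, hE⟩ : ∃ E : ℝ, E = (2 : ℝ) ^ (32 * r) := ⟨_, rfl⟩
  obtain ⟨F, hF⟩ : ∃ F : ℝ, F = 2 ^ 44 * (r : ℝ) ^ 2 := ⟨_, rfl⟩
  have hE1 : (1 : ℝ) ≤ E := by rw [hE]; exact one_le_pow₀ (by norm_num)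
  have hF0 : 0 ≤ F := by rw [hF]; positivity
  have hδ : hostδ r = 1 / (4 * E * (1 + F)) := by rw [hE, hF]; rfl
  have hδ0 := hostδ_pos r
  obtain ⟨δ, hδd⟩ : ∃ δ, δ = hostδ r := ⟨_, rfl⟩
  rw [← hδd] at hδ hδ0 hN hw
  rw [← hE] at h1 ⊢
  have hD1 : 1 ≤ D := by
    by_contra h
    have : D = 0 := by omega
    rw [this, zero_mul] at hD
    have := Nat.pos_of_ne_zero (pow_ne_zero m (two_ne_zero (α := ℕ)))
    omega
  have hDR : (1 : ℝ) ≤ D := by exact_mod_cast hD1
  have hnR : (1 : ℝ) ≤ n := by exact_mod_cast hn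
  have hn0 : (0 : ℝ) < n := by linarith
  have hD0 : (0 : ℝ) < D := by linarith
  have hDn : (2 : ℝ) ^ m ≤ (D : ℝ) * n := by exact_mod_cast hD
  -- the width
  have h2 : (2 : ℝ) ^ (2 ^ 44 * r ^ 2 * ((κ + 1) * b * c)) ≤ ((D : ℝ) * n) ^ (F * δ) := by
    calc (2 : ℝ) ^ (2 ^ 44 * r ^ 2 * ((κ + 1) * b * c)) =
        (2 : ℝ) ^ (F * (((κ : ℝ) + 1) * b * c)) := by
          rw [← Real.rpow_natCast, hF]
          push_cast
          norm_num
      _ ≤ (2 : ℝ) ^ (F * (δ * m)) := by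
          apply Real.rpow_le_rpow_of_exponent_le (by norm_num)
          exact mul_le_mul_of_nonneg_left hw hF0
      _ = ((2 : ℝ) ^ m) ^ (F * δ) := by
          rw [← Real.rpow_natCast, ← Real.rpow_mul (by norm_num)]
          congr 1
          ring
      _ ≤ _ := Real.rpow_le_rpow (by positivity) hDn (by positivity)
  have hFδ : F * δ ≤ 1 := by
    rw [hδ, mul_one_div, div_le_one (by positivity)]
    nlinarith
  have hsum : δ + F * δ = 1 / (4 * E) := by
    rw [hδ]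
    field_simp
  have h3 : ((D : ℝ) * n) ^ (F * δ) ≤ D * (n : ℝ) ^ (F * δ) := by
    rw [Real.mul_rpow hD0.le hn0.le]
    apply mul_le_mul_of_nonneg_right _ (by positivity)
    calc (D : ℝ) ^ (F * δ) ≤ (D : ℝ) ^ (1 : ℝ) := Real.rpow_le_rpow_of_exponent_le hDR hFδ
      _ = D := Real.rpow_one _
  have hE2 : 0 ≤ 1 / E := by positivity
  have hE3 : 1 / E ≤ 1 := by rw [div_le_one (by linarith)]; exact hE1
  have h4 : ((2 : ℝ) ^ m) ^ (2 - 1 / E) ≤ (D : ℝ) ^ 2 * (n : ℝ) ^ (2 - 1 / E) := by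
    calc ((2 : ℝ) ^ m) ^ (2 - 1 / E) ≤ ((D : ℝ) * n) ^ (2 - 1 / E) :=
          Real.rpow_le_rpow (by positivity) hDn (by linarith)
      _ = (D : ℝ) ^ (2 - 1 / E) * (n : ℝ) ^ (2 - 1 / E) := Real.mul_rpow hD0.le hn0.le
      _ ≤ (D : ℝ) ^ (2 : ℝ) * (n : ℝ) ^ (2 - 1 / E) := by
          apply mul_le_mul_of_nonneg_right _ (by positivity)
          exact Real.rpow_le_rpow_of_exponent_le hDR (by linarith)
      _ = _ := by rw [Real.rpow_two]
  have hs0 : (0 : ℝ) ≤ s := Nat.cast_nonneg _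
  calc (Nat.card G.edgeSet : ℝ) ≤ N * (2 * s * (2 ^ (2 ^ 44 * r ^ 2 * ((κ + 1) * b * c)) *
        ((2 : ℝ) ^ m) ^ (2 - 1 / E))) := h1
    _ ≤ (n : ℝ) ^ δ * (2 * s * ((D * (n : ℝ) ^ (F * δ)) *
        ((D : ℝ) ^ 2 * (n : ℝ) ^ (2 - 1 / E)))) := by
        gcongr
        exact h2.trans h3
    _ = 2 * s * (D : ℝ) ^ 3 * ((n : ℝ) ^ δ * (n : ℝ) ^ (F * δ) * (n : ℝ) ^ (2 - 1 / E)) := by
        ring
    _ = _ := by
        rw [← Real.rpow_add hn0, ← Real.rpow_add hn0, hsum]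
        congr 2
        have : E ≠ 0 := by linarith
        field_simp
        ring

end

end Pool.Agent.U286.LY
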