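import Mathlib
import Pool.Agent.U286.LY.HostB

/-!
# Graphs decided by narrow word circuits: many edges, and the circuit with one gate
-/

set_option autoImplicit false

open Finset Filter Topology

namespace Pool.Agent.U286.LY

open Pool.Agent.Y631.Wc

/-- **Graphs with many edges are not decided by few narrow circuits.** -/
theorem host_large {r s : ℕ} (hr : 1 ≤ r) {β : ℝ} (hβ : β < 3 / (4 * (2 : ℝ) ^ (32 * r)))
    (D : ℕ) {c₀ : ℝ} (hc₀ : 0 < c₀) :
    ∃ n₀ : ℕ, ∀ (n m N κ b c : ℕ) (G : SimpleGraph (Fin n)) (lab : Fin n → Fin m → Bool)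
      (Z : Fin N → Type) [∀ j, Fintype (Z j)] (C : ∀ j, WCirc (Fin m ⊕ Fin m) Bool (Z j)),
      n₀ ≤ n → 1 ≤ b → 2 ^ m ≤ D * n → Function.Injective lab →
      (∀ j, Narrow (C j) r κ b c) → DecidedBy C lab G →
      (completeBipartiteGraph (Fin s) (Fin s)).Free G →
      c₀ * (n : ℝ) ^ (2 - β) ≤ Nat.card G.edgeSet → (N : ℝ) ≤ (n : ℝ) ^ hostδ r →
      hostδ r * m < ((κ : ℝ) + 1) * b * c := by
  obtain ⟨γ, hγ⟩ : ∃ γ : ℝ, γ = 3 / (4 * (2 : ℝ) ^ (32 * r)) - β := ⟨_, rfl⟩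
  have hγ0 : 0 < γ := by rw [hγ]; linarith
  have t1 : ∀ᶠ n : ℕ in atTop, 2 * s * (D : ℝ) ^ 3 / c₀ + 1 ≤ (n : ℝ) ^ γ :=
    ((tendsto_rpow_atTop hγ0).comp tendsto_natCast_atTop_atTop).eventually_ge_atTop _
  obtain ⟨n₀, hn₀⟩ := (t1.and (eventually_ge_atTop 1)).exists_forall_of_atTop
  refine ⟨n₀, fun n m N κ b c G lab Z _ C hn hb hD hlab hC hdec hG hE hN => ?_⟩
  obtain ⟨h1, h2⟩ := hn₀ n hn
  by_contra hcon
  rw [not_lt] at hcon
  have h3 := host_small hr hb h2 hD G lab hlab C hC hdec hG hN hcon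
  have hn0 : (0 : ℝ) < n := by
    have : 0 < n := h2
    exact_mod_cast this
  have e1 : (n : ℝ) ^ (2 - β) = (n : ℝ) ^ γ * (n : ℝ) ^ (2 - 3 / (4 * (2 : ℝ) ^ (32 * r))) := by
    rw [← Real.rpow_add hn0]
    congr 1
    rw [hγ]
    ring
  have h4 : c₀ * (n : ℝ) ^ γ ≤ 2 * s * (D : ℝ) ^ 3 := by
    have h5 : c₀ * (n : ℝ) ^ γ * (n : ℝ) ^ (2 - 3 / (4 * (2 : ℝ) ^ (32 * r))) ≤
        2 * s * (D : ℝ) ^ 3 * (n : ℝ) ^ (2 - 3 / (4 * (2 : ℝ) ^ (32 * r))) := by
      calc _ = c₀ * (n : ℝ) ^ (2 - β) := by rw [e1]; ring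
        _ ≤ _ := hE.trans h3
    exact le_of_mul_le_mul_right h5 (Real.rpow_pos_of_pos hn0 _)
  have h6 : c₀ * (2 * s * (D : ℝ) ^ 3 / c₀ + 1) ≤ c₀ * (n : ℝ) ^ γ :=
    mul_le_mul_of_nonneg_left h1 hc₀.le
  have h7 : c₀ * (2 * s * (D : ℝ) ^ 3 / c₀ + 1) = 2 * s * (D : ℝ) ^ 3 + c₀ := by
    field_simp
  linarith

/-- the exponents -/
lemma exp_lt {r : ℕ} (hr : 1 ≤ r) {x : ℝ} (hx : (2 : ℝ) ^ (33 * r) ≤ x) :
    1 / x < 3 / (4 * (2 : ℝ) ^ (32 * r)) := by
  have h1 : (0 : ℝ) < 2 ^ (32 * r) := by positivity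
  have h2 : (2 : ℝ) * 2 ^ (32 * r) ≤ 2 ^ (33 * r) := by
    rw [← pow_succ']
    exact pow_le_pow_right₀ (by norm_num) (by omega)
  have h3 : (0 : ℝ) < x := by linarith
  rw [div_lt_div_iff₀ h3 (by positivity)]
  linarith

/-- **One gate is enough.** Every graph is decided by a circuit with one gate, which gets all the
bits. -/
theorem one_gate {V : Type} {m : ℕ} (G : SimpleGraph V) (lab : V → Fin m → Bool)
    (hlab : Function.Injective lab) :
    ∃ C : WCirc (Fin m ⊕ Fin m) Bool Bool, C.size = 1 ∧ C.Deterministic ∧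
      Narrow C 2 (2 * m) 1 1 ∧ DecidedBy (fun _ : Fin 1 => C) lab G := by
  classical
  let P : (Fin m ⊕ Fin m → Bool) → Prop :=
    fun x => ∃ u v, G.Adj u v ∧ x = Sum.elim (lab u) (lab v)
  let C : WCirc (Fin m ⊕ Fin m) Bool Bool :=
    { size := 1
      vars := fun _ => m + m
      gates := fun _ => 0
      vsrc := fun _ a => finSumFinEquiv.symm a
      gsrc := fun _ a => a.elim0
      rel := fun _ u _ z => z = decide (P fun i => u (finSumFinEquiv i))
      out := 0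
      acc := fun z => z = true
      acyclic := fun _ a => a.elim0 }
  have hacc : ∀ x, C.Accepts x ↔ P x := by
    intro x
    have e : (fun i => x (finSumFinEquiv.symm (finSumFinEquiv i))) = x := by
      funext i
      rw [Equiv.symm_apply_apply]
    constructor
    · rintro ⟨v, h1, h2⟩
      have h3 : v 0 = decide (P fun i => x (finSumFinEquiv.symm (finSumFinEquiv i))) := h1 0
      have h4 : v 0 = true := h2
      rw [h4, e] at h3
      exact of_decide_eq_true h3.symm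
    · intro h
      refine ⟨fun _ => true, fun g => ?_, rfl⟩
      change true = decide (P fun i => x (finSumFinEquiv.symm (finSumFinEquiv i)))
      rw [e]
      exact (decide_eq_true h).symm
  refine ⟨C, rfl, fun g u v => ⟨_, rfl, fun z hz => hz⟩, ⟨?_, ?_, ?_, ?_⟩, ?_⟩
  · simp
  · intro g
    change m + m + 0 ≤ 2 * m
    omega
  · change ∑ _g : Fin 1, (m + m) ≤ 2 * m
    simp
    omega
  · left
    refine ⟨0, ⟨0, id, fun _ => univ, ?_, ?_, ?_, ?_⟩, le_rfl⟩
    · intro i hi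
      omega
    · intro i
      change (univ : Finset (Fin 1)).card ≤ 1
      simp
    · intro v
      exact ⟨0, ⟨mem_univ _, Or.inl rfl⟩, fun i _ => Fin.ext (by omega)⟩
    · intro h g _
      exact ⟨0, mem_univ _, mem_univ _⟩
  · constructor
    · intro _ u v _ h
      obtain ⟨u', v', h1, h2⟩ := (hacc _).1 h
      have h3 : lab u = lab u' := by
        funext i
        exact congrFun h2 (Sum.inl i)
      have h4 : lab v = lab v' := by
        funext i
        exact congrFun h2 (Sum.inr i)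
      rw [hlab h3, hlab h4]
      exact h1
    · intro u v h
      exact ⟨0, Or.inl ((hacc _).2 ⟨u, v, h, rfl⟩)⟩

end Pool.Agent.U286.LY
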